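import Mathlib

/-!
MP_9178e4_nt, module ALG: the Jacobi sums lie in `ℤ[√-6]`.
-/

namespace SC24

open Finset

namespace Alg

set_option linter.unusedSectionVars false

section pows
variable {A : Type*} [CommRing A]

/-- the sum of `t^h` for `h` in the subgroup `{1,5,7,11}` of `(ℤ/24)ˣ`; it is a square root of `-6`. -/
def eta (t : A) : A := t + t ^ 5 + t ^ 7 + t ^ 11

/-- rational part of `∑_h t^{h i}` -/
def rr (i : ℕ) : ℤ :=
  if i = 0 then 4 else if i = 12 then -4 else if i = 8 ∨ i = 16 then -2 else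
    if i = 4 ∨ i = 20 then 2 else 0

/-- `η`-part of `∑_h t^{h i}` -/
def ss (i : ℕ) : ℤ :=
  if i = 1 ∨ i = 5 ∨ i = 7 ∨ i = 11 then 1 else
    if i = 13 ∨ i = 17 ∨ i = 19 ∨ i = 23 then -1 else 0

theorem pow12 {t : A} (h : t ^ 8 - t ^ 4 + 1 = 0) : t ^ 12 = -1 := by
  linear_combination (t ^ 4 + 1) * h

theorem pow24 {t : A} (h : t ^ 8 - t ^ 4 + 1 = 0) : t ^ 24 = 1 := by
  have := pow12 h
  calc t ^ 24 = (t ^ 12) ^ 2 := by ring
    _ = 1 := by rw [this]; ring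

theorem eta_sq {t : A} (h : t ^ 8 - t ^ 4 + 1 = 0) : eta t ^ 2 = -6 := by
  have h12 := pow12 h
  unfold eta
  have e8 : t ^ 8 = t ^ 4 - 1 := by linear_combination h
  have e14 : t ^ 14 = - t ^ 2 := by linear_combination t ^ 2 * h12
  have e16 : t ^ 16 = - t ^ 4 := by linear_combination t ^ 4 * h12
  have e18 : t ^ 18 = - t ^ 6 := by linear_combination t ^ 6 * h12
  have e22 : t ^ 22 = - t ^ 10 := by linear_combination t ^ 10 * h12
  linear_combination 2 * e8 + 4 * h12 + e14 + 2 * e16 + 2 * e18 + e22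

theorem four_pow {t : A} (h : t ^ 8 - t ^ 4 + 1 = 0) (i : ℕ) (hi : i < 24) :
    t ^ i + (t ^ 5) ^ i + (t ^ 7) ^ i + (t ^ 11) ^ i = (rr i : A) + (ss i : A) * eta t := by
  have h12 := pow12 h
  have h24 := pow24 h
  have e8 : t ^ 8 = t ^ 4 - 1 := by linear_combination h
  have e9 : t ^ 9 = t ^ 5 - t := by linear_combination t * h
  have e10 : t ^ 10 = t ^ 6 - t ^ 2 := by linear_combination t ^ 2 * h
  have e11 : t ^ 11 = t ^ 7 - t ^ 3 := by linear_combination t ^ 3 * h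
  have e13 : t ^ 13 = - t := by linear_combination t * h12
  have e14 : t ^ 14 = - t ^ 2 := by linear_combination t ^ 2 * h12
  have e15 : t ^ 15 = - t ^ 3 := by linear_combination t ^ 3 * h12
  have e16 : t ^ 16 = - t ^ 4 := by linear_combination t ^ 4 * h12
  have e17 : t ^ 17 = - t ^ 5 := by linear_combination t ^ 5 * h12
  have e18 : t ^ 18 = - t ^ 6 := by linear_combination t ^ 6 * h12
  have e19 : t ^ 19 = - t ^ 7 := by linear_combination t ^ 7 * h12
  have e20 : t ^ 20 = 1 - t ^ 4 := by linear_combination t ^ 8 * h12 - h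
  have e21 : t ^ 21 = t - t ^ 5 := by linear_combination t ^ 9 * h12 - t * h
  have e22 : t ^ 22 = t ^ 2 - t ^ 6 := by linear_combination t ^ 10 * h12 - t ^ 2 * h
  have e23 : t ^ 23 = t ^ 3 - t ^ 7 := by linear_combination t ^ 11 * h12 - t ^ 3 * h
  rw [← pow_mul, ← pow_mul, ← pow_mul, pow_eq_pow_mod (5 * i) h24, pow_eq_pow_mod (7 * i) h24,
    pow_eq_pow_mod (11 * i) h24]
  interval_cases i <;> norm_num [rr, ss, eta] <;>
    simp only [e8, e9, e10, e11, h12, e13, e14, e15, e16, e17, e18, e19, e20, e21, e22, e23] <;> ring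

theorem eta_inv {t : A} (h : t ^ 8 - t ^ 4 + 1 = 0) : eta (t ^ 23) = - eta t := by
  have h12 := pow12 h
  have h24 := pow24 h
  unfold eta
  rw [← pow_mul, ← pow_mul, ← pow_mul, pow_eq_pow_mod (23 * 5) h24, pow_eq_pow_mod (23 * 7) h24,
    pow_eq_pow_mod (23 * 11) h24]
  norm_num
  linear_combination (t + t ^ 5 + t ^ 7 + t ^ 11) * h12

theorem phi_inv {t : A} (h : t ^ 8 - t ^ 4 + 1 = 0) : (t ^ 23) ^ 8 - (t ^ 23) ^ 4 + 1 = 0 := by
  have h12 := pow12 h
  have h24 := pow24 h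
  rw [← pow_mul, ← pow_mul, pow_eq_pow_mod (23 * 8) h24, pow_eq_pow_mod (23 * 4) h24]
  norm_num
  linear_combination (t ^ 4 - t ^ 8) * h12 + h

/-- the sum over a finite family -/
theorem four_sum {ι : Type*} (S : Finset ι) (i : ι → ℕ) {t : A} (h : t ^ 8 - t ^ 4 + 1 = 0) :
    ∑ s ∈ S, t ^ i s + ∑ s ∈ S, (t ^ 5) ^ i s + ∑ s ∈ S, (t ^ 7) ^ i s + ∑ s ∈ S, (t ^ 11) ^ i s =
      ((∑ s ∈ S, rr (i s % 24) : ℤ) : A) + ((∑ s ∈ S, ss (i s % 24) : ℤ) : A) * eta t := by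
  have h24 := pow24 h
  have h5 : (t ^ 5) ^ 24 = 1 := by rw [← pow_mul, mul_comm, pow_mul, h24, one_pow]
  have h7 : (t ^ 7) ^ 24 = 1 := by rw [← pow_mul, mul_comm, pow_mul, h24, one_pow]
  have h11 : (t ^ 11) ^ 24 = 1 := by rw [← pow_mul, mul_comm, pow_mul, h24, one_pow]
  rw [← Finset.sum_add_distrib, ← Finset.sum_add_distrib, ← Finset.sum_add_distrib]
  push_cast
  rw [Finset.sum_mul, ← Finset.sum_add_distrib]
  refine Finset.sum_congr rfl fun s _ => ?_
  rw [pow_eq_pow_mod (i s) h24, pow_eq_pow_mod (i s) h5, pow_eq_pow_mod (i s) h7,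
    pow_eq_pow_mod (i s) h11]
  exact four_pow h _ (Nat.mod_lt _ (by norm_num))

end pows

theorem descent {U V P : ℤ} (h : U ^ 2 + 6 * V ^ 2 = 16 * P ^ 2) :
    ∃ u v, U = 4 * u ∧ V = 4 * v ∧ u ^ 2 + 6 * v ^ 2 = P ^ 2 := by
  have ev : ∀ x : ℤ, 2 ∣ x ^ 2 → ∃ y, x = 2 * y := by
    intro x hx
    exact Int.prime_two.dvd_of_dvd_pow hx
  obtain ⟨a, rfl⟩ := ev U ⟨8 * P ^ 2 - 3 * V ^ 2, by linarith⟩
  obtain ⟨b, rfl⟩ := ev V ⟨(4 * P ^ 2 - a ^ 2) - V ^ 2, by
    nlinarith⟩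
  obtain ⟨c, rfl⟩ := ev a ⟨2 * P ^ 2 - 3 * b ^ 2, by nlinarith⟩
  obtain ⟨d, rfl⟩ := ev b ⟨P ^ 2 - c ^ 2 - b ^ 2, by nlinarith⟩
  exact ⟨c, d, by ring, by ring, by nlinarith⟩

section jac
variable {F R : Type*} [Field F] [Fintype F] [CommRing R]

/-- `J(χ, ψ) = χ(-1) J(χ, (χψ)⁻¹)` -/
theorem jac_swap (χ ψ : MulChar F R) :
    jacobiSum χ ψ = χ (-1) * jacobiSum χ (χ * ψ)⁻¹ := by
  classical
  unfold jacobiSum
  rw [Finset.mul_sum]
  let f : F → F := fun w => if w = 1 then 1 else w / (w - 1)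
  have hf : Function.Involutive f := by
    intro w
    by_cases h : w = 1
    · simp [f, h]
    · have h1 : w - 1 ≠ 0 := sub_ne_zero.2 h
      have h2 : w / (w - 1) ≠ 1 := by
        rw [ne_eq, div_eq_one_iff_eq h1]
        intro h3
        have : (1 : F) = 0 := by linear_combination h3
        exact one_ne_zero this
      simp only [f, if_neg h, if_neg h2]
      field_simp
      ring
  refine (Fintype.sum_equiv hf.toPerm _ _ fun w => ?_).symm
  show χ (-1) * (χ w * (χ * ψ)⁻¹ (1 - w)) = χ (f w) * ψ (1 - f w)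
  by_cases h : w = 1
  · subst h
    simp only [f, if_true, sub_self]
    rw [MulChar.map_zero, MulChar.map_zero]
    ring
  · have h1 : w - 1 ≠ 0 := sub_ne_zero.2 h
    have h1' : 1 - w ≠ 0 := sub_ne_zero.2 (Ne.symm h)
    simp only [f, if_neg h]
    have e1 : w / (w - 1) = -1 * (w * (1 - w)⁻¹) := by
      field_simp
      ring
    have e2 : 1 - w / (w - 1) = (1 - w)⁻¹ := by
      field_simp
      ring
    rw [e2, e1, map_mul, map_mul, MulChar.inv_apply', MulChar.mul_apply]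
    ring

theorem jac_frob (p : ℕ) [Fact p.Prime] [CharP F p] (χ ψ : MulChar F R) :
    jacobiSum (χ ^ p) (ψ ^ p) = jacobiSum χ ψ := by
  have hp : p ≠ 0 := (Fact.out : p.Prime).ne_zero
  unfold jacobiSum
  refine Fintype.sum_equiv (frobeniusEquiv F p).toEquiv _ _ fun w => ?_
  show (χ ^ p) w * (ψ ^ p) (1 - w) = χ (frobenius F p w) * ψ (1 - frobenius F p w)
  rw [MulChar.pow_apply' χ hp, MulChar.pow_apply' ψ hp, ← map_pow, ← map_pow, frobenius_def,
    sub_pow_char, one_pow]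

theorem chi_neg_one_pow (χ : MulChar F R) (n : ℕ) (hn : n % 2 = 1) :
    (χ (-1)) ^ n = χ (-1) := by
  have h : (χ (-1)) ^ 2 = 1 := by
    rw [← map_pow, neg_one_sq, map_one]
  obtain ⟨m, rfl⟩ : ∃ m, n = 2 * m + 1 := ⟨n / 2, by omega⟩
  rw [pow_succ, pow_mul, h, one_pow, one_mul]

theorem mc_pow_mod {χ : MulChar F R} (h : χ ^ 24 = 1) (m n : ℕ) (hmn : m % 24 = n % 24) :
    χ ^ m = χ ^ n := by
  rw [pow_eq_pow_mod m h, pow_eq_pow_mod n h, hmn]

theorem mc_inv_pow {χ : MulChar F R} (h : χ ^ 24 = 1) (m n : ℕ) (hmn : (m + n) % 24 = 0) :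
    (χ ^ m)⁻¹ = χ ^ n := by
  rw [inv_eq_iff_mul_eq_one, ← pow_add, pow_eq_pow_mod _ h, hmn, pow_zero]

/-- the symmetry `χ ↦ χ^7` of `J(χ, χ^{-8})` -/
theorem swap7 {χ : MulChar F R} (h : χ ^ 24 = 1) :
    jacobiSum (χ ^ 7) ((χ ^ 7) ^ 16) = jacobiSum χ (χ ^ 16) := by
  rw [jac_swap χ, jac_swap (χ ^ 7), ← pow_mul, ← pow_add, ← pow_succ', mc_inv_pow h (16 + 1) 7 rfl,
    mc_inv_pow h (7 + 7 * 16) 1 rfl, pow_one, MulChar.pow_apply' χ (by norm_num),
    chi_neg_one_pow χ 7 rfl, jacobiSum_comm]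

/-- the symmetry `χ ↦ χ^5` of `J(χ, χ^{-6})` -/
theorem swap5 {χ : MulChar F R} (h : χ ^ 24 = 1) :
    jacobiSum (χ ^ 5) ((χ ^ 5) ^ 18) = jacobiSum χ (χ ^ 18) := by
  rw [jac_swap χ, jac_swap (χ ^ 5), ← pow_mul, ← pow_add, ← pow_succ', mc_inv_pow h (18 + 1) 5 rfl,
    mc_inv_pow h (5 + 5 * 18) 1 rfl, pow_one, MulChar.pow_apply' χ (by norm_num),
    chi_neg_one_pow χ 5 rfl, jacobiSum_comm]

end jac

section index
variable {F R : Type*} [Field F] [Fintype F] [DecidableEq F] [CommRing R]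

/-- Jacobi sums of powers of one character in terms of a discrete logarithm -/
theorem jac_index {g : Fˣ} (l : F → ℕ) (hl : ∀ z : F, z ≠ 0 → (g : F) ^ l z = z)
    (χ : MulChar F R) (a b : ℕ) : jacobiSum (χ ^ a) (χ ^ b) =
      ∑ z ∈ univ \ {0, 1}, (χ g) ^ (a * l z + b * l (1 - z)) := by
  rw [jacobiSum_eq_sum_sdiff]
  have key : ∀ z : F, z ≠ 0 → ∀ n, (χ ^ n) z = (χ g) ^ (n * l z) := by
    intro z hz n
    have h1 : z = (g ^ l z : Fˣ) := by
      rw [Units.val_pow_eq_pow_val]; exact (hl z hz).symm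
    have h2 : (χ ^ n) z = (χ ^ n) ((g ^ l z : Fˣ) : F) := by rw [← h1]
    rw [h2, MulChar.pow_apply_coe, Units.val_pow_eq_pow_val, map_pow, ← pow_mul, mul_comm]
  refine Finset.sum_congr rfl fun z hz => ?_
  simp only [mem_sdiff, mem_univ, mem_insert, mem_singleton, true_and, not_or] at hz
  rw [key z hz.1, key (1 - z) (sub_ne_zero.2 (Ne.symm hz.2)), ← pow_add]

theorem index_prod {g : Fˣ} (l : F → ℕ) (hl : ∀ z : F, z ≠ 0 → (g : F) ^ l z = z)
    (χ : MulChar F R) :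
    jacobiSum χ (χ ^ 16) * jacobiSum (χ ^ 5) ((χ ^ 5) ^ 16) =
      ∑ x ∈ (univ \ {0, 1} : Finset F) ×ˢ (univ \ {0, 1} : Finset F),
        (χ g) ^ ((1 * l x.1 + 16 * l (1 - x.1)) + (5 * l x.2 + 80 * l (1 - x.2))) := by
  have e1 := jac_index l hl χ 1 16
  have e2 := jac_index l hl χ 5 80
  rw [pow_one] at e1
  rw [← pow_mul, e1, show 5 * 16 = 80 by norm_num, e2, Finset.sum_mul_sum, Finset.sum_product]
  refine Finset.sum_congr rfl fun z _ => Finset.sum_congr rfl fun w _ => ?_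
  rw [← pow_add]

theorem exists_log {g : Fˣ} (hg : ∀ x, x ∈ Subgroup.zpowers g) :
    ∃ l : F → ℕ, ∀ z : F, z ≠ 0 → (g : F) ^ l z = z := by
  have h : ∀ z : F, ∃ n : ℕ, z ≠ 0 → (g : F) ^ n = z := by
    intro z
    by_cases hz : z = 0
    · exact ⟨0, fun h => absurd hz h⟩
    · have h1 := hg (Units.mk0 z hz)
      rw [← mem_powers_iff_mem_zpowers] at h1
      obtain ⟨n, hn⟩ := h1
      refine ⟨n, fun _ => ?_⟩
      have h2 := congrArg Units.val hn
      simpa using h2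
  choose l hl using h
  exact ⟨l, hl⟩

end index

section mod3

/-- determination of `u` modulo 3 -/
theorem mod3 {ι : Type*} (S : Finset ι) (i : ι → ℕ) {K : Type*} [Field K] [CharP K 3] {t : K}
    (ht : t ^ 4 = -1) (e u : ℤ) (h1 : ∑ s ∈ S, t ^ i s = e) (h5 : ∑ s ∈ S, (t ^ 5) ^ i s = e)
    (h7 : ∑ s ∈ S, (t ^ 7) ^ i s = e) (h11 : ∑ s ∈ S, (t ^ 11) ^ i s = e)
    (hu : ∑ s ∈ S, rr (i s % 24) = 4 * u) : u % 3 = e % 3 := by
  have h3 : (3 : K) = 0 := by
    have := CharP.cast_eq_zero K 3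
    exact_mod_cast this
  have hphi : t ^ 8 - t ^ 4 + 1 = 0 := by
    linear_combination (t ^ 4 - 2) * ht + h3
  have h := four_sum S i hphi
  have heta : eta t = 0 := by
    unfold eta
    linear_combination (t + t ^ 3 + t ^ 7 - t ^ 3) * ht
  rw [h1, h5, h7, h11, hu, heta, mul_zero, add_zero] at h
  have h4 : ((u - e : ℤ) : K) = 0 := by
    push_cast at h ⊢
    linear_combination (u - e : K) * (-h3) - h
  have h5 := (CharP.intCast_eq_zero_iff K 3 (u - e)).1 h4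
  have h6 : (3 : ℤ) ∣ u - e := by exact_mod_cast h5
  omega

end mod3

section mulinv

theorem jac_mul_inv {F W : Type*} [Field F] [Fintype F] [CommRing W] [IsDomain W] [CharZero W]
    (χ φ : MulChar F W) (h1 : χ ≠ 1) (h2 : φ ≠ 1) (h3 : χ * φ ≠ 1) :
    jacobiSum χ φ * jacobiSum χ⁻¹ φ⁻¹ = Fintype.card F := by
  let K := FractionRing W
  let f : W →+* K := algebraMap W K
  have hf : Function.Injective f := IsFractionRing.injective W K
  have hK : CharZero K := charZero_of_injective_algebraMap hf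
  have hchar : ringChar K ≠ ringChar F := by
    rw [ringChar.eq_zero]
    exact (CharP.ringChar_ne_zero_of_finite F).symm
  apply hf
  rw [map_mul, ← jacobiSum_ringHomComp, ← jacobiSum_ringHomComp, ← MulChar.ringHomComp_inv,
    ← MulChar.ringHomComp_inv, map_natCast]
  refine jacobiSum_mul_jacobiSum_inv hchar ?_ ?_ ?_
  · exact (MulChar.ringHomComp_ne_one_iff hf).2 h1
  · exact (MulChar.ringHomComp_ne_one_iff hf).2 h2
  · rw [← MulChar.ringHomComp_mul]
    exact (MulChar.ringHomComp_ne_one_iff hf).2 h3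

end mulinv

section witt
variable {p : ℕ} [Fact p.Prime] {k : Type*} [Field k] [Fintype k] [CharP k p]

theorem charZero_witt : CharZero (WittVector p k) := by
  refine charZero_of_inj_zero fun n hn => ?_
  by_contra h0
  obtain ⟨a, m, hm, hnm⟩ := Nat.exists_eq_pow_mul_and_not_dvd h0 p (Fact.out : p.Prime).ne_one
  rw [hnm, Nat.cast_mul, Nat.cast_pow, mul_eq_zero] at hn
  rcases hn with h | h
  · exact pow_ne_zero a (WittVector.p_nonzero p k) h
  · have h1 := congrArg WittVector.constantCoeff h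
    rw [map_natCast, map_zero, CharP.cast_eq_zero_iff k p] at h1
    exact hm h1

theorem isUnit_of_not_dvd {x : WittVector p k} (hx : ¬ (p : WittVector p k) ∣ x) : IsUnit x := by
  have h0 : x ≠ 0 := by
    rintro rfl
    exact hx (dvd_zero _)
  obtain ⟨m, b, hb, hxb⟩ := WittVector.exists_eq_pow_p_mul x h0
  have hm : m = 0 := by
    by_contra hm
    obtain ⟨m', rfl⟩ := Nat.exists_eq_succ_of_ne_zero hm
    exact hx ⟨(p : WittVector p k) ^ m' * b, by rw [hxb, pow_succ']; ring⟩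
  rw [hm, pow_zero, one_mul] at hxb
  rw [hxb]
  exact WittVector.isUnit_of_coeff_zero_ne_zero b hb

/-- the main argument -/
theorem core {ι : Type*} (S : Finset ι) (i : ι → ℕ) (g : kˣ) (χ : MulChar k (WittVector p k))
    (hχ : (χ g) ^ 8 - (χ g) ^ 4 + 1 = 0) (h24 : χ ^ 24 = 1) (Q : MulChar k (WittVector p k) → WittVector p k)
    (hQ : ∀ χ : MulChar k (WittVector p k), Q χ = ∑ s ∈ S, (χ g) ^ i s)
    (h5 : ∀ χ : MulChar k (WittVector p k), χ ^ 24 = 1 → Q (χ ^ 5) = Q χ)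
    (h7 : ∀ χ : MulChar k (WittVector p k), χ ^ 24 = 1 → Q (χ ^ 7) = Q χ)
    (hmul : Q χ * Q (χ ^ 23) = (p : WittVector p k) ^ 2) (hu : ¬ (p : WittVector p k) ∣ Q χ) :
    ∃ u v : ℤ, ∑ s ∈ S, rr (i s % 24) = 4 * u ∧ u ^ 2 + 6 * v ^ 2 = (p : ℤ) ^ 2 ∧
      (p : WittVector p k) ^ 2 ∣ Q χ - 2 * (u : WittVector p k) := by
  have hz : CharZero (WittVector p k) := charZero_witt
  -- the sum of the four conjugates
  have hfour : ∀ ψ : MulChar k (WittVector p k), ψ ^ 24 = 1 → (ψ g) ^ 8 - (ψ g) ^ 4 + 1 = 0 →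
      4 * Q ψ = ((∑ s ∈ S, rr (i s % 24) : ℤ) : WittVector p k) +
        ((∑ s ∈ S, ss (i s % 24) : ℤ) : WittVector p k) * eta (ψ g) := by
    intro ψ h24 hψ
    rw [← four_sum S i hψ]
    have e5 := h5 ψ h24
    have e7 := h7 ψ h24
    have h24' : (ψ ^ 5) ^ 24 = 1 := by rw [← pow_mul, mul_comm, pow_mul, h24, one_pow]
    have e11 : Q (ψ ^ 11) = Q ψ := by
      have e35 : ψ ^ 11 = ψ ^ (5 * 7) := mc_pow_mod h24 _ _ rfl
      rw [e35, pow_mul, h7 (ψ ^ 5) h24', e5]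
    have e : ∀ n, (ψ ^ n) g = (ψ g) ^ n := fun n => MulChar.pow_apply_coe ψ n g
    rw [← e 5, ← e 7, ← e 11, ← hQ, ← hQ, ← hQ, ← hQ, e5, e7, e11]
    ring
  have h1 := hfour χ h24 hχ
  have h24' : (χ ^ 23) ^ 24 = 1 := by rw [← pow_mul, mul_comm, pow_mul, h24, one_pow]
  have h2 := hfour (χ ^ 23) h24' (by rw [MulChar.pow_apply_coe]; exact phi_inv hχ)
  rw [MulChar.pow_apply_coe, eta_inv hχ] at h2
  set U : ℤ := ∑ s ∈ S, rr (i s % 24)
  set V : ℤ := ∑ s ∈ S, ss (i s % 24)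
  have heta := eta_sq hχ
  have h3 : ((U ^ 2 + 6 * V ^ 2 : ℤ) : WittVector p k) = ((16 * (p : ℤ) ^ 2 : ℤ) : WittVector p k) := by
    push_cast
    have h4 : (4 * Q χ) * (4 * Q (χ ^ 23)) = 16 * (p : WittVector p k) ^ 2 := by rw [← hmul]; ring
    rw [h1, h2] at h4
    linear_combination h4 + (V : WittVector p k) ^ 2 * heta
  obtain ⟨u, v, hU, hV, huv⟩ := descent (Int.cast_injective h3)
  refine ⟨u, v, hU, huv, ?_⟩
  have h4 : (4 : WittVector p k) ≠ 0 := by exact_mod_cast (by norm_num : (4 : ℕ) ≠ 0)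
  have h5 : Q χ - 2 * (u : WittVector p k) = - Q (χ ^ 23) := by
    apply mul_left_cancel₀ h4
    rw [mul_sub, h1, hU, hV]
    have : 4 * -Q (χ ^ 23) = - (4 * Q (χ ^ 23)) := by ring
    rw [this, h2, hU, hV]
    push_cast
    ring
  rw [h5, dvd_neg]
  obtain ⟨x, hx⟩ := isUnit_of_not_dvd hu
  refine ⟨(x⁻¹ : (WittVector p k)ˣ), ?_⟩
  rw [← hmul, ← hx, mul_comm (x : WittVector p k), mul_assoc, Units.mul_inv, mul_one]

/-- the Teichmüller character -/
noncomputable def teich (p : ℕ) [Fact p.Prime] (k : Type*) [Field k] [CharP k p] :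
    MulChar k (WittVector p k) where
  toMonoidHom := WittVector.teichmuller p
  map_nonunit' := by
    intro a ha
    have : a = 0 := by
      by_contra h
      exact ha (isUnit_iff_ne_zero.2 h)
    rw [this]
    exact WittVector.teichmuller_zero p

theorem teich_apply (z : k) : teich p k z = WittVector.teichmuller p z := rfl

theorem teich_inj {z w : k} (h : teich p k z = teich p k w) : z = w := by
  have h1 := congrArg (fun x : WittVector p k => x.coeff 0) h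
  simpa [teich_apply, WittVector.teichmuller_coeff_zero] using h1

/-- a root of the 24th cyclotomic polynomial -/
theorem teich_phi [DecidableEq k] {n : ℕ} (hn : 0 < n) (hcard : Fintype.card kˣ = 24 * n) {g : kˣ}
    (hg : ∀ x, x ∈ Subgroup.zpowers g) :
    ((teich p k ^ (23 * n)) g) ^ 8 - ((teich p k ^ (23 * n)) g) ^ 4 + 1 = 0 := by
  have hord : orderOf g = 24 * n := by
    rw [orderOf_eq_card_of_forall_mem_zpowers hg, Nat.card_eq_fintype_card, hcard]
  set t := (teich p k ^ (23 * n)) g with ht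
  have hpow : ∀ m, t ^ m = 1 ↔ 24 * n ∣ 23 * n * m := by
    intro m
    rw [ht, MulChar.pow_apply_coe, ← pow_mul, ← hord, orderOf_dvd_iff_pow_eq_one]
    constructor
    · intro h
      have h1 : teich p k ((g ^ (23 * n * m) : kˣ) : k) = teich p k 1 := by
        rw [Units.val_pow_eq_pow_val, map_pow, h, map_one]
      exact Units.ext (teich_inj h1)
    · intro h
      rw [← map_pow, ← Units.val_pow_eq_pow_val, h, Units.val_one, map_one]
  have h24 : t ^ 24 = 1 := (hpow 24).2 ⟨23, by ring⟩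
  have h12 : t ^ 12 ≠ 1 := by
    intro h
    obtain ⟨c, hc⟩ := (hpow 12).1 h
    have h1 : 24 * c = 276 := by
      apply Nat.eq_of_mul_eq_mul_left hn
      linarith
    omega
  have h8 : t ^ 8 ≠ 1 := by
    intro h
    obtain ⟨c, hc⟩ := (hpow 8).1 h
    have h1 : 24 * c = 184 := by
      apply Nat.eq_of_mul_eq_mul_left hn
      linarith
    omega
  have e1 : (t ^ 12 - 1) * (t ^ 12 + 1) = 0 := by linear_combination h24
  have e2 : t ^ 12 + 1 = 0 := by
    rcases mul_eq_zero.1 e1 with h | h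
    · exact absurd (sub_eq_zero.1 h) h12
    · exact h
  have e3 : (t ^ 4 + 1) * (t ^ 8 - t ^ 4 + 1) = 0 := by linear_combination e2
  rcases mul_eq_zero.1 e3 with h | h
  · exfalso
    apply h8
    linear_combination (t ^ 4 - 1) * h
  · exact h

theorem teich_pow_card [DecidableEq k] {n : ℕ} (hcard : Fintype.card kˣ = 24 * n) : teich p k ^ (24 * n) = 1 := by
  rw [← hcard]
  exact MulChar.pow_card_eq_one _

theorem teich_pow_mod [DecidableEq k] {n : ℕ} (hcard : Fintype.card kˣ = 24 * n) {a b : ℕ} (h : a % 24 = b % 24) :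
    teich p k ^ (a * n) = teich p k ^ (b * n) := by
  have h1 : (teich p k ^ n) ^ 24 = 1 := by
    rw [← pow_mul, mul_comm]; exact teich_pow_card hcard
  rw [mul_comm a, mul_comm b, pow_mul, pow_mul, pow_eq_pow_mod a h1, pow_eq_pow_mod b h1, h]

/-- nontriviality -/
theorem ne_one_of_phi {χ : MulChar k (WittVector p k)} {g : kˣ} (hχ : (χ g) ^ 8 - (χ g) ^ 4 + 1 = 0) {m : ℕ}
    (hm : m = 1 ∨ m = 5 ∨ m = 8 ∨ m = 13 ∨ m = 16 ∨ m = 17 ∨ m = 18 ∨ m = 19) : χ ^ m ≠ 1 := by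
  have hz : CharZero (WittVector p k) := charZero_witt
  intro h
  have h1 : (χ g) ^ m = 1 := by
    rw [← MulChar.pow_apply_coe, h, MulChar.one_apply_coe]
  generalize χ g = t at h1 hχ
  have h24 := pow24 hχ
  have h12 := pow12 hχ
  have c1 : t ≠ 1 := by
    rintro rfl
    simp at hχ
  have c8 : t ^ 8 ≠ 1 := by
    intro h8
    have h4 : t ^ 4 = 2 := by linear_combination h8 - hχ
    have : (3 : WittVector p k) = 0 := by linear_combination h8 - (t ^ 4 + 2) * h4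
    exact absurd this (by exact_mod_cast (by norm_num : (3 : ℕ) ≠ 0))
  have key : ∀ m c : ℕ, (m * c) % 24 = 1 → t ^ m = 1 → False := by
    intro m c hc hm
    apply c1
    have h2 : t ^ (m * c) = 1 := by rw [pow_mul, hm, one_pow]
    rw [pow_eq_pow_mod _ h24, hc, pow_one] at h2
    exact h2
  rcases hm with rfl | rfl | rfl | rfl | rfl | rfl | rfl | rfl
  · exact key 1 1 rfl h1
  · exact key 5 5 rfl h1
  · exact c8 h1
  · exact key 13 13 rfl h1
  · apply c8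
    have h2 : t ^ (16 * 2) = 1 := by rw [pow_mul, h1, one_pow]
    rw [pow_eq_pow_mod _ h24] at h2
    exact h2
  · exact key 17 17 rfl h1
  · have h2 : t ^ (18 * 2) = 1 := by rw [pow_mul, h1, one_pow]
    rw [pow_eq_pow_mod _ h24] at h2
    norm_num at h2
    rw [h12] at h2
    have : (2 : WittVector p k) = 0 := by linear_combination -h2
    exact absurd this (by exact_mod_cast (by norm_num : (2 : ℕ) ≠ 0))
  · exact key 19 19 rfl h1

/-- `J(χ, χ^c) J(χ^23, (χ^23)^c) = #k` -/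
theorem qa_mul {χ : MulChar k (WittVector p k)} (h24 : χ ^ 24 = 1) (c : ℕ) (h1 : χ ≠ 1)
    (hc : χ ^ c ≠ 1) (hc1 : χ ^ (c + 1) ≠ 1) :
    jacobiSum χ (χ ^ c) * jacobiSum (χ ^ 23) ((χ ^ 23) ^ c) = (Fintype.card k : WittVector p k) := by
  have hz : CharZero (WittVector p k) := charZero_witt
  rw [← jac_mul_inv χ (χ ^ c) h1 hc (by rw [← pow_succ']; exact hc1)]
  have e1 : χ⁻¹ = χ ^ 23 := by
    have := mc_inv_pow h24 1 23 rfl
    rwa [pow_one] at this
  rw [← inv_pow, e1]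

/-- the character with values in characteristic 3 -/
theorem exists_three (k : Type*) [Field k] [Fintype k] [DecidableEq k] {n : ℕ}
    (hcard : Fintype.card kˣ = 24 * n)
    {g : kˣ} (hg : ∀ x, x ∈ Subgroup.zpowers g) :
    ∃ ψ : MulChar k (AlgebraicClosure (ZMod 3)), (ψ g) ^ 4 = -1 ∧
      ∀ h : ℕ, h % 2 = 1 → jacobiSum (ψ ^ h) ((ψ ^ h) ^ 16) = -1 := by
  obtain ⟨t, ht⟩ := IsAlgClosed.exists_pow_nat_eq (-1 : AlgebraicClosure (ZMod 3))
    (n := 4) (by norm_num)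
  have ht8 : t ^ 8 = 1 := by
    calc t ^ 8 = (t ^ 4) ^ 2 := by ring
      _ = 1 := by rw [ht]; ring
  have ht0 : t ≠ 0 := by
    rintro rfl
    norm_num at ht
  have hu : Units.mk0 t ht0 ∈ rootsOfUnity (Fintype.card kˣ) (AlgebraicClosure (ZMod 3)) := by
    rw [mem_rootsOfUnity, hcard]
    apply Units.ext
    rw [Units.val_pow_eq_pow_val, Units.val_mk0, Units.val_one]
    calc t ^ (24 * n) = (t ^ 8) ^ (3 * n) := by rw [← pow_mul]; congr 1; ring
      _ = 1 := by rw [ht8, one_pow]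
  have hψg := MulChar.ofRootOfUnity_spec hu hg
  set ψ := MulChar.ofRootOfUnity hu hg
  rw [Units.val_mk0] at hψg
  refine ⟨ψ, by rw [hψg, ht], ?_⟩
  intro h hh
  have h8 : ψ ^ 8 = 1 := by
    rw [MulChar.eq_iff hg, MulChar.pow_apply_coe, hψg, ht8, MulChar.one_apply_coe]
  have h16 : (ψ ^ h) ^ 16 = 1 := by
    rw [← pow_mul, show h * 16 = 8 * (2 * h) by ring, pow_mul, h8, one_pow]
  have hne : ψ ^ h ≠ 1 := by
    intro h1
    have h2 : t ^ h = 1 := by
      rw [← hψg, ← MulChar.pow_apply_coe, h1, MulChar.one_apply_coe]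
    have h3 : (t ^ 4) ^ h = 1 := by rw [← pow_mul, mul_comm, pow_mul, h2, one_pow]
    rw [ht, Odd.neg_one_pow (Nat.odd_iff.2 hh)] at h3
    have h4 : (3 : AlgebraicClosure (ZMod 3)) = 0 := by
      have := CharP.cast_eq_zero (AlgebraicClosure (ZMod 3)) 3
      exact_mod_cast this
    have h5 : (1 : AlgebraicClosure (ZMod 3)) = 0 := by linear_combination h3 + h4
    exact one_ne_zero h5
  rw [h16, jacobiSum_comm]
  exact jacobiSum_one_nontrivial hne

end witt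

end Alg

open Alg

theorem alg2 (p : ℕ) [Fact p.Prime] (hp : 3 < p) {k : Type*} [Field k] [Fintype k] [DecidableEq k]
    [CharP k p]
    (hk : Fintype.card k = p ^ 2) (b : ℕ)
    (hb : ((p % 24 = 5 ∨ p % 24 = 11) ∧ b = 7) ∨ (p % 24 = 7 ∧ b = 5))
    (J : WittVector p k)
    (hJ : J = ∑ z : k, WittVector.teichmuller p z ^ (p ^ 2 - 1 - (p ^ 2 - 1) / 24) *
        WittVector.teichmuller p (1 - z) ^ ((1 + b) * ((p ^ 2 - 1) / 24)))
    (hu : ¬ (p : WittVector p k) ∣ J) :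
    ∃ u v : ℤ, u ^ 2 + 6 * v ^ 2 = (p : ℤ) ^ 2 ∧ (b = 7 → u % 3 = 2) ∧
      ((p : WittVector p k) ^ 2) ∣ J - 2 * (u : WittVector p k) := by
  have hmod : p ^ 2 % 24 = 1 := by
    have : p % 24 = 5 ∨ p % 24 = 11 ∨ p % 24 = 7 := by omega
    rcases this with h | h | h <;> rw [Nat.pow_mod, h]
  obtain ⟨n, hn⟩ : ∃ n, p ^ 2 = 24 * n + 1 := ⟨p ^ 2 / 24, by omega⟩
  have hn0 : 0 < n := by
    rcases Nat.eq_zero_or_pos n with rfl | h
    · exfalso; nlinarith
    · exact h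
  have hdiv : (p ^ 2 - 1) / 24 = n := by omega
  have hcard : Fintype.card kˣ = 24 * n := by
    rw [Fintype.card_units, hk]; omega
  obtain ⟨g, hg⟩ := IsCyclic.exists_generator (α := kˣ)
  obtain ⟨l, hl⟩ := exists_log hg
  have hz : CharZero (WittVector p k) := charZero_witt
  set χ : MulChar k (WittVector p k) := teich p k ^ (23 * n) with hχdef
  have hφ : (χ g) ^ 8 - (χ g) ^ 4 + 1 = 0 := teich_phi hn0 hcard hg
  have h24 : χ ^ 24 = 1 := by
    rw [hχdef, ← pow_mul, show 23 * n * 24 = 24 * n * 23 by ring, pow_mul, teich_pow_card hcard,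
      one_pow]
  -- Frobenius
  have hfrob : ∀ (c : ℕ) (ψ : MulChar k (WittVector p k)), ψ ^ 24 = 1 →
      jacobiSum (ψ ^ (p % 24)) ((ψ ^ (p % 24)) ^ c) = jacobiSum ψ (ψ ^ c) := by
    intro c ψ hψ
    rw [mc_pow_mod hψ (p % 24) p (Nat.mod_mod _ _), ← pow_mul, mul_comm p c, pow_mul]
    exact jac_frob p ψ (ψ ^ c)
  rw [hdiv, show p ^ 2 - 1 - n = 23 * n by omega] at hJ
  rcases hb with ⟨hp24, rfl⟩ | ⟨hp24, rfl⟩
  · -- `b = 7`
    have hJ' : J = jacobiSum χ (χ ^ 16) := by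
      rw [hJ, hχdef, ← pow_mul, show 23 * n * 16 = 368 * n by ring,
        teich_pow_mod hcard (a := 368) (b := 8) rfl]
      unfold jacobiSum
      refine Finset.sum_congr rfl fun z _ => ?_
      rw [MulChar.pow_apply' _ (by positivity), MulChar.pow_apply' _ (by positivity)]
      rfl
    have hQ : ∀ χ : MulChar k (WittVector p k), jacobiSum χ (χ ^ 16) =
        ∑ z ∈ univ \ {0, 1}, (χ g) ^ (1 * l z + 16 * l (1 - z)) := by
      intro χ
      have := jac_index l hl χ 1 16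
      rwa [pow_one] at this
    have h7 : ∀ ψ : MulChar k (WittVector p k), ψ ^ 24 = 1 →
        jacobiSum (ψ ^ 7) ((ψ ^ 7) ^ 16) = jacobiSum ψ (ψ ^ 16) := fun ψ hψ => swap7 hψ
    have h5 : ∀ ψ : MulChar k (WittVector p k), ψ ^ 24 = 1 →
        jacobiSum (ψ ^ 5) ((ψ ^ 5) ^ 16) = jacobiSum ψ (ψ ^ 16) := by
      intro ψ hψ
      rcases hp24 with h | h
      · have := hfrob 16 ψ hψ
        rwa [h] at this
      · have h1 := hfrob 16 ψ hψ
        rw [h] at h1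
        have hψ' : (ψ ^ 11) ^ 24 = 1 := by rw [← pow_mul, mul_comm, pow_mul, hψ, one_pow]
        have h2 := h7 (ψ ^ 11) hψ'
        rw [mc_pow_mod hψ 5 (11 * 7) rfl, pow_mul, h2, h1]
    have hmul : jacobiSum χ (χ ^ 16) * jacobiSum (χ ^ 23) ((χ ^ 23) ^ 16) =
        (p : WittVector p k) ^ 2 := by
      have h1 : χ ≠ 1 := by
        have := ne_one_of_phi hφ (m := 1) (by norm_num)
        rwa [pow_one] at this
      rw [qa_mul h24 16 h1 (ne_one_of_phi hφ (by norm_num)) (ne_one_of_phi hφ (by norm_num)), hk]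
      push_cast
      rfl
    rw [hJ'] at hu ⊢
    obtain ⟨u, v, hU, huv, hdvd⟩ := core (univ \ {0, 1}) (fun z => 1 * l z + 16 * l (1 - z)) g χ
      hφ h24 (fun χ => jacobiSum χ (χ ^ 16)) hQ h5 h7 hmul hu
    refine ⟨u, v, huv, fun _ => ?_, hdvd⟩
    obtain ⟨ψ, hψ4, hψ⟩ := exists_three k hcard hg
    have e : ∀ h : ℕ, h % 2 = 1 → ∑ z ∈ (univ \ {0, 1} : Finset k),
        ((ψ g) ^ h) ^ (1 * l z + 16 * l (1 - z)) = ((-1 : ℤ) : AlgebraicClosure (ZMod 3)) := by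
      intro h hh
      have h1 := hψ h hh
      have h2 := jac_index l hl (ψ ^ h) 1 16
      rw [pow_one, MulChar.pow_apply_coe] at h2
      rw [← h2, h1]
      norm_num
    have e1 := e 1 rfl
    rw [pow_one] at e1
    have := mod3 (univ \ {0, 1}) (fun z => 1 * l z + 16 * l (1 - z)) hψ4 (-1) u e1 (e 5 rfl)
      (e 7 rfl) (e 11 rfl) hU
    rw [this]
    rfl
  · -- `b = 5`
    have hJ' : J = jacobiSum χ (χ ^ 18) := by
      rw [hJ, hχdef, ← pow_mul, show 23 * n * 18 = 414 * n by ring,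
        teich_pow_mod hcard (a := 414) (b := 6) rfl]
      unfold jacobiSum
      refine Finset.sum_congr rfl fun z _ => ?_
      rw [MulChar.pow_apply' _ (by positivity), MulChar.pow_apply' _ (by positivity)]
      rfl
    have hQ : ∀ χ : MulChar k (WittVector p k), jacobiSum χ (χ ^ 18) =
        ∑ z ∈ univ \ {0, 1}, (χ g) ^ (1 * l z + 18 * l (1 - z)) := by
      intro χ
      have := jac_index l hl χ 1 18
      rwa [pow_one] at this
    have h5 : ∀ ψ : MulChar k (WittVector p k), ψ ^ 24 = 1 →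
        jacobiSum (ψ ^ 5) ((ψ ^ 5) ^ 18) = jacobiSum ψ (ψ ^ 18) := fun ψ hψ => swap5 hψ
    have h7 : ∀ ψ : MulChar k (WittVector p k), ψ ^ 24 = 1 →
        jacobiSum (ψ ^ 7) ((ψ ^ 7) ^ 18) = jacobiSum ψ (ψ ^ 18) := by
      intro ψ hψ
      have := hfrob 18 ψ hψ
      rwa [hp24] at this
    have hmul : jacobiSum χ (χ ^ 18) * jacobiSum (χ ^ 23) ((χ ^ 23) ^ 18) =
        (p : WittVector p k) ^ 2 := by
      have h1 : χ ≠ 1 := by
        have := ne_one_of_phi hφ (m := 1) (by norm_num)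
        rwa [pow_one] at this
      rw [qa_mul h24 18 h1 (ne_one_of_phi hφ (by norm_num)) (ne_one_of_phi hφ (by norm_num)), hk]
      push_cast
      rfl
    rw [hJ'] at hu ⊢
    obtain ⟨u, v, hU, huv, hdvd⟩ := core (univ \ {0, 1}) (fun z => 1 * l z + 18 * l (1 - z)) g χ
      hφ h24 (fun χ => jacobiSum χ (χ ^ 18)) hQ h5 h7 hmul hu
    exact ⟨u, v, huv, fun h => by norm_num at h, hdvd⟩

theorem alg1 (p : ℕ) [Fact p.Prime] (hp : p % 24 = 1) {k : Type*} [Field k] [Fintype k]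
    [DecidableEq k] [CharP k p]
    (hk : Fintype.card k = p) (J1 J5 : WittVector p k)
    (h1 : J1 = ∑ z : k, WittVector.teichmuller p z ^ (p - 1 - (p - 1) / 24) *
        WittVector.teichmuller p (1 - z) ^ (8 * ((p - 1) / 24)))
    (h5 : J5 = ∑ z : k, WittVector.teichmuller p z ^ (p - 1 - 5 * ((p - 1) / 24)) *
        WittVector.teichmuller p (1 - z) ^ (16 * ((p - 1) / 24)))
    (hu : ¬ (p : WittVector p k) ∣ J1 * J5) :
    ∃ u v : ℤ, u ^ 2 + 6 * v ^ 2 = (p : ℤ) ^ 2 ∧ u % 3 = 1 ∧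
      ((p : WittVector p k) ^ 2) ∣ J1 * J5 - 2 * (u : WittVector p k) := by
  have hp1 : p ≠ 1 := (Fact.out : p.Prime).ne_one
  obtain ⟨n, hn⟩ : ∃ n, p = 24 * n + 1 := ⟨p / 24, by omega⟩
  have hn0 : 0 < n := by omega
  have hdiv : (p - 1) / 24 = n := by omega
  have hcard : Fintype.card kˣ = 24 * n := by
    rw [Fintype.card_units, hk]; omega
  obtain ⟨g, hg⟩ := IsCyclic.exists_generator (α := kˣ)
  obtain ⟨l, hl⟩ := exists_log hg
  have hz : CharZero (WittVector p k) := charZero_witt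
  set χ : MulChar k (WittVector p k) := teich p k ^ (23 * n) with hχdef
  have hφ : (χ g) ^ 8 - (χ g) ^ 4 + 1 = 0 := teich_phi hn0 hcard hg
  have h24 : χ ^ 24 = 1 := by
    rw [hχdef, ← pow_mul, show 23 * n * 24 = 24 * n * 23 by ring, pow_mul, teich_pow_card hcard,
      one_pow]
  rw [hdiv, show p - 1 - n = 23 * n by omega] at h1
  rw [hdiv, show p - 1 - 5 * n = 19 * n by omega] at h5
  have hJ1 : J1 = jacobiSum χ (χ ^ 16) := by
    rw [h1, hχdef, ← pow_mul, show 23 * n * 16 = 368 * n by ring,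
      teich_pow_mod hcard (a := 368) (b := 8) rfl]
    unfold jacobiSum
    refine Finset.sum_congr rfl fun z _ => ?_
    rw [MulChar.pow_apply' _ (by positivity), MulChar.pow_apply' _ (by positivity)]
    rfl
  have hJ5 : J5 = jacobiSum (χ ^ 5) ((χ ^ 5) ^ 16) := by
    rw [h5, hχdef, ← pow_mul, ← pow_mul, show 23 * n * 5 * 16 = 1840 * n by ring,
      show 23 * n * 5 = 115 * n by ring,
      teich_pow_mod hcard (a := 1840) (b := 16) rfl, teich_pow_mod hcard (a := 115) (b := 19) rfl]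
    unfold jacobiSum
    refine Finset.sum_congr rfl fun z _ => ?_
    rw [MulChar.pow_apply' _ (by positivity), MulChar.pow_apply' _ (by positivity)]
    rfl
  let idx : k × k → ℕ := fun x => (1 * l x.1 + 16 * l (1 - x.1)) + (5 * l x.2 + 80 * l (1 - x.2))
  let S : Finset (k × k) := (univ \ {0, 1}) ×ˢ (univ \ {0, 1})
  have hQ7 : ∀ ψ : MulChar k (WittVector p k), ψ ^ 24 = 1 →
      jacobiSum (ψ ^ 7) ((ψ ^ 7) ^ 16) * jacobiSum ((ψ ^ 7) ^ 5) (((ψ ^ 7) ^ 5) ^ 16) =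
      jacobiSum ψ (ψ ^ 16) * jacobiSum (ψ ^ 5) ((ψ ^ 5) ^ 16) := by
    intro ψ hψ
    have hψ' : (ψ ^ 5) ^ 24 = 1 := by rw [← pow_mul, mul_comm, pow_mul, hψ, one_pow]
    rw [swap7 hψ, ← pow_mul ψ 7 5, mul_comm 7 5, pow_mul ψ 5 7, swap7 hψ']
  have hQ5 : ∀ ψ : MulChar k (WittVector p k), ψ ^ 24 = 1 →
      jacobiSum (ψ ^ 5) ((ψ ^ 5) ^ 16) * jacobiSum ((ψ ^ 5) ^ 5) (((ψ ^ 5) ^ 5) ^ 16) =
      jacobiSum ψ (ψ ^ 16) * jacobiSum (ψ ^ 5) ((ψ ^ 5) ^ 16) := by
    intro ψ hψ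
    have e : (ψ ^ 5) ^ 5 = ψ := by
      rw [← pow_mul]
      have := mc_pow_mod hψ (5 * 5) 1 rfl
      rwa [pow_one] at this
    rw [e, mul_comm]
  have hmul : (jacobiSum χ (χ ^ 16) * jacobiSum (χ ^ 5) ((χ ^ 5) ^ 16)) *
      (jacobiSum (χ ^ 23) ((χ ^ 23) ^ 16) * jacobiSum ((χ ^ 23) ^ 5) (((χ ^ 23) ^ 5) ^ 16)) =
      (p : WittVector p k) ^ 2 := by
    have e1 : χ ≠ 1 := by
      have := ne_one_of_phi hφ (m := 1) (by norm_num)
      rwa [pow_one] at this
    have m1 := qa_mul h24 16 e1 (ne_one_of_phi hφ (by norm_num)) (ne_one_of_phi hφ (by norm_num))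
    have h24' : (χ ^ 5) ^ 24 = 1 := by rw [← pow_mul, mul_comm, pow_mul, h24, one_pow]
    have m2 := qa_mul h24' 16 (ne_one_of_phi hφ (by norm_num))
      (by
        rw [← pow_mul, mc_pow_mod h24 (5 * 16) 8 rfl]
        exact ne_one_of_phi hφ (by norm_num))
      (by
        rw [← pow_mul, mc_pow_mod h24 (5 * (16 + 1)) 13 rfl]
        exact ne_one_of_phi hφ (by norm_num))
    rw [← pow_mul χ 23 5, mul_comm 23 5, pow_mul χ 5 23]
    rw [hk] at m1 m2
    calc _ = (jacobiSum χ (χ ^ 16) * jacobiSum (χ ^ 23) ((χ ^ 23) ^ 16)) *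
        (jacobiSum (χ ^ 5) ((χ ^ 5) ^ 16) * jacobiSum ((χ ^ 5) ^ 23) (((χ ^ 5) ^ 23) ^ 16)) := by ring
      _ = _ := by rw [m1, m2]; ring
  rw [hJ1, hJ5] at hu ⊢
  obtain ⟨u, v, hU, huv, hdvd⟩ := core S idx g χ
    hφ h24 (fun χ => jacobiSum χ (χ ^ 16) * jacobiSum (χ ^ 5) ((χ ^ 5) ^ 16)) (fun χ => index_prod l hl χ)
    hQ5 hQ7 hmul hu
  refine ⟨u, v, huv, ?_, hdvd⟩
  obtain ⟨ψ, hψ4, hψ⟩ := exists_three k hcard hg
  have e : ∀ h : ℕ, h % 2 = 1 → ∑ x ∈ S, ((ψ g) ^ h) ^ idx x =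
      ((1 : ℤ) : AlgebraicClosure (ZMod 3)) := by
    intro h hh
    have e1 := hψ h hh
    have e2 := hψ (h * 5) (by omega)
    rw [← MulChar.pow_apply_coe]
    have e3 := index_prod l hl (ψ ^ h)
    rw [e1, ← pow_mul ψ h 5, e2] at e3
    rw [← e3]
    norm_num
  have e1 := e 1 rfl
  rw [pow_one] at e1
  have := mod3 S idx hψ4 1 u e1 (e 5 rfl) (e 7 rfl) (e 11 rfl) hU
  rw [this]
  rfl

end SC24
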