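import Mathlib

/-!
MP_9178e4_nt: basic definitions for the supercongruences attached to `x^2+6y^2` and `2x^2+3y^2`.
-/

namespace SC24

open Finset

/-- rising factorial `a (a+1) ... (a+k-1)` -/
def poch {R : Type*} [CommRing R] (a : R) (k : ℕ) : R := ∏ j ∈ range k, (a + j)

/-- `(1/3)_k (2/3)_k / k!^2` written as `C(2k,k) C(3k,k) 27^{-k}`, in a field. -/
def cc (K : Type*) [Field K] (k : ℕ) : K :=
  ((2 * k).choose k : K) * ((3 * k).choose k : K) * ((27 : K)⁻¹) ^ k

/-- truncated hypergeometric polynomial `H_p(t) = ∑_{k<p} cc_k t^k`. -/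
def Hpol (K : Type*) [Field K] (p : ℕ) (t : K) : K := ∑ k ∈ range p, cc K k * t ^ k

/-- harmonic number inside a ring with an inverse function -/
def harm (n m : ℕ) : ZMod n := ∑ i ∈ range m, ((i + 1 : ℕ) : ZMod n)⁻¹

end SC24
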