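import Mathlib
import Pool.Agent.SC24.Defs

/-!
MP_9178e4_nt: common part of the two modules on Jacobi sums modulo `p^2`.
-/

set_option linter.unusedSectionVars false

namespace SC24

open Finset Polynomial

section zmod
variable (p : ℕ) [hp : Fact p.Prime]

theorem unit_sq {i : ℕ} (h0 : 0 < i) (h : i < p) : ((i : ZMod (p ^ 2)) * (i : ZMod (p ^ 2))⁻¹) = 1 := by
  apply ZMod.coe_mul_inv_eq_one
  apply Nat.Coprime.pow_right
  exact Nat.Coprime.symm ((Nat.Prime.coprime_iff_not_dvd hp.out).2 (Nat.not_dvd_of_pos_of_lt h0 h))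

theorem p_sq_zero : (p : ZMod (p ^ 2)) * (p : ZMod (p ^ 2)) = 0 := by
  have := ZMod.natCast_self (p ^ 2)
  push_cast at this
  rw [← sq]; exact this

theorem unit_cancel {i : ℕ} (h0 : 0 < i) (h : i < p) {a b : ZMod (p ^ 2)}
    (hab : (i : ZMod (p ^ 2)) * a = (i : ZMod (p ^ 2)) * b) : a = b := by
  have h1 := unit_sq p h0 h
  calc a = ((i : ZMod (p ^ 2)) * (i : ZMod (p ^ 2))⁻¹) * a := by rw [h1, one_mul]
    _ = (i : ZMod (p ^ 2))⁻¹ * ((i : ZMod (p ^ 2)) * a) := by ring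
    _ = (i : ZMod (p ^ 2))⁻¹ * ((i : ZMod (p ^ 2)) * b) := by rw [hab]
    _ = ((i : ZMod (p ^ 2)) * (i : ZMod (p ^ 2))⁻¹) * b := by ring
    _ = b := by rw [h1, one_mul]

/-- `p * C(p-1,k) = p * (-1)^k` modulo `p^2`. -/
theorem p_choose_pred (k : ℕ) (hk : k ≤ p - 1) :
    (p : ZMod (p ^ 2)) * ((p - 1).choose k : ZMod (p ^ 2)) = (p : ZMod (p ^ 2)) * (-1) ^ k := by
  have hpp := hp.out
  induction k with
  | zero => simp
  | succ k ih =>
    have h2 : (p - 1).choose k + (p - 1).choose (k + 1) = p.choose (k + 1) := by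
      have : p = (p - 1) + 1 := by have := hpp.pos; omega
      conv_rhs => rw [this]
      rw [Nat.choose_succ_succ]
    obtain ⟨c, hc⟩ := hpp.dvd_choose_self (by omega : k + 1 ≠ 0) (by omega : k + 1 < p)
    have h3 : (p : ZMod (p ^ 2)) * ((p.choose (k + 1) : ℕ) : ZMod (p ^ 2)) = 0 := by
      rw [hc]; push_cast; rw [← mul_assoc, p_sq_zero, zero_mul]
    rw [← h2] at h3
    push_cast at h3
    have := ih (by omega)
    rw [pow_succ (-1 : ZMod (p ^ 2)) k]
    linear_combination h3 - this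

theorem choose_p_eq (i : ℕ) (hi : i < p - 1) :
    ((p.choose (i + 1) : ℕ) : ZMod (p ^ 2)) =
      (p : ZMod (p ^ 2)) * (-1) ^ i * (((i + 1 : ℕ) : ZMod (p ^ 2)))⁻¹ := by
  have hpp := hp.out
  apply unit_cancel p (i := i + 1) (by omega) (by omega)
  have h1 := p_choose_pred p i (by omega)
  have h2 : (i + 1) * p.choose (i + 1) = p * (p - 1).choose i := by
    have h := Nat.add_one_mul_choose_eq (p - 1) i
    have : p - 1 + 1 = p := by have := hpp.pos; omega
    rw [this] at h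
    rw [h]; ring
  have h3 : ((i + 1 : ℕ) : ZMod (p ^ 2)) * ((p.choose (i + 1) : ℕ) : ZMod (p ^ 2)) =
      (p : ZMod (p ^ 2)) * ((p - 1).choose i : ZMod (p ^ 2)) := by
    rw [← Nat.cast_mul, h2, Nat.cast_mul]
  rw [h3, h1]
  have h4 := unit_sq p (i := i + 1) (by omega) (by omega)
  linear_combination -(p : ZMod (p ^ 2)) * (-1) ^ i * h4

/-- `∑_{i=1}^c (-1)^i C(b,c-i)/i` -/
def fh (b c : ℕ) : ZMod (p ^ 2) :=
  ∑ i ∈ range c, (-1) ^ (i + 1) * ((b.choose (c - (i + 1)) : ℕ) : ZMod (p ^ 2)) *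
    (((i + 1 : ℕ) : ZMod (p ^ 2)))⁻¹

theorem fh_pascal (b c : ℕ) : fh p (b + 1) (c + 1) = fh p b (c + 1) + fh p b c := by
  unfold fh
  rw [sum_range_succ, sum_range_succ]
  rw [add_right_comm, ← sum_add_distrib]
  have h1 : c + 1 - (c + 1) = 0 := by omega
  rw [h1, Nat.choose_zero_right, Nat.choose_zero_right]
  congr 1
  apply sum_congr rfl
  intro i hi
  rw [mem_range] at hi
  have h2 : c + 1 - (i + 1) = (c - (i + 1)) + 1 := by omega
  rw [h2, Nat.choose_succ_succ]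
  push_cast
  ring

theorem fh_top (b : ℕ) (hb : b + 1 < p) :
    fh p b (b + 1) = - (((b + 1 : ℕ) : ZMod (p ^ 2)))⁻¹ := by
  apply unit_cancel p (i := b + 1) (by omega) (by omega)
  have h4 := unit_sq p (i := b + 1) (by omega) (by omega)
  rw [mul_neg, h4]
  unfold fh
  rw [mul_sum]
  have h5 : ∀ i ∈ range (b + 1), ((b + 1 : ℕ) : ZMod (p ^ 2)) *
      ((-1) ^ (i + 1) * ((b.choose (b + 1 - (i + 1)) : ℕ) : ZMod (p ^ 2)) *
        (((i + 1 : ℕ) : ZMod (p ^ 2)))⁻¹) =
      (-1) ^ (i + 1) * (((b + 1).choose (i + 1) : ℕ) : ZMod (p ^ 2)) := by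
    intro i hi
    rw [mem_range] at hi
    have h6 : b.choose (b + 1 - (i + 1)) = b.choose i := by
      rw [show b + 1 - (i + 1) = b - i by omega]
      exact Nat.choose_symm (by omega)
    rw [h6]
    have h7 := Nat.add_one_mul_choose_eq b i
    have h8 : ((b + 1 : ℕ) : ZMod (p ^ 2)) * ((b.choose i : ℕ) : ZMod (p ^ 2)) =
        (((b + 1).choose (i + 1) : ℕ) : ZMod (p ^ 2)) * ((i + 1 : ℕ) : ZMod (p ^ 2)) := by
      rw [← Nat.cast_mul, ← Nat.cast_mul]; congr 1
    have h9 := unit_sq p (i := i + 1) (by omega) (by omega)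
    linear_combination (-1) ^ (i + 1) * (((i + 1 : ℕ) : ZMod (p ^ 2)))⁻¹ * h8 +
      (-1) ^ (i + 1) * (((b + 1).choose (i + 1) : ℕ) : ZMod (p ^ 2)) * h9
  rw [sum_congr rfl h5]
  have h10 := Int.alternating_sum_range_choose_of_ne (n := b + 1) (by omega)
  rw [sum_range_succ'] at h10
  have h11 := congrArg (fun z : ℤ => (z : ZMod (p ^ 2))) h10
  push_cast at h11
  simp only [Nat.choose_zero_right, Nat.cast_one, mul_one] at h11
  linear_combination h11

theorem fh_eq (b : ℕ) : ∀ (c : ℕ), c ≤ b → b < p →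
    fh p b c = - ((b.choose c : ℕ) : ZMod (p ^ 2)) * (harm (p ^ 2) b - harm (p ^ 2) (b - c)) := by
  induction b with
  | zero =>
    intro c hc hb
    obtain rfl : c = 0 := by omega
    simp [fh]
  | succ b ih =>
    intro c hc hb
    rcases Nat.eq_zero_or_pos c with rfl | hc0
    · simp [fh]
    obtain ⟨c, rfl⟩ : ∃ d, c = d + 1 := ⟨c - 1, by omega⟩
    rw [fh_pascal]
    have hH1 : harm (p ^ 2) (b + 1) = harm (p ^ 2) b + (((b + 1 : ℕ) : ZMod (p ^ 2)))⁻¹ := by
      unfold harm; rw [sum_range_succ]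
    have e1 : b + 1 - (c + 1) = b - c := by omega
    rw [e1, hH1, ih c (by omega) (by omega)]
    have h4 := unit_sq p (i := b + 1) (by omega) (by omega)
    rcases Nat.lt_or_ge c b with hcb | hcb
    · rw [ih (c + 1) (by omega) (by omega)]
      have hH2 : harm (p ^ 2) (b - c) = harm (p ^ 2) (b - (c + 1)) +
          (((b - c : ℕ) : ZMod (p ^ 2)))⁻¹ := by
        unfold harm
        rw [show b - c = (b - (c + 1)) + 1 by omega, sum_range_succ]
      rw [hH2]
      have h5 := unit_sq p (i := b - c) (by omega) (by omega)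
      -- C(b,c+1)/(b-c) = C(b+1,c+1)/(b+1)
      have h6 : (b + 1) * b.choose (c + 1) = (b - c) * (b + 1).choose (c + 1) := by
        have := Nat.choose_mul_succ_eq b (c + 1)
        rw [show b + 1 - (c + 1) = b - c by omega] at this
        rw [mul_comm, this, mul_comm]
      have h7 : ((b + 1 : ℕ) : ZMod (p ^ 2)) * ((b.choose (c + 1) : ℕ) : ZMod (p ^ 2)) =
          ((b - c : ℕ) : ZMod (p ^ 2)) * (((b + 1).choose (c + 1) : ℕ) : ZMod (p ^ 2)) := by
        rw [← Nat.cast_mul, ← Nat.cast_mul, h6]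
      have h8 : ((b.choose (c + 1) : ℕ) : ZMod (p ^ 2)) * (((b - c : ℕ) : ZMod (p ^ 2)))⁻¹ =
          (((b + 1).choose (c + 1) : ℕ) : ZMod (p ^ 2)) * (((b + 1 : ℕ) : ZMod (p ^ 2)))⁻¹ := by
        linear_combination (((b + 1 : ℕ) : ZMod (p ^ 2)))⁻¹ * (((b - c : ℕ) : ZMod (p ^ 2)))⁻¹ * h7
          - ((b.choose (c + 1) : ℕ) : ZMod (p ^ 2)) * (((b - c : ℕ) : ZMod (p ^ 2)))⁻¹ * h4
          + (((b + 1).choose (c + 1) : ℕ) : ZMod (p ^ 2)) * (((b + 1 : ℕ) : ZMod (p ^ 2)))⁻¹ * h5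
      have h9 : (((b + 1).choose (c + 1) : ℕ) : ZMod (p ^ 2)) =
          ((b.choose c : ℕ) : ZMod (p ^ 2)) + ((b.choose (c + 1) : ℕ) : ZMod (p ^ 2)) := by
        rw [Nat.choose_succ_succ]; push_cast; ring
      rw [h9] at h8 ⊢
      linear_combination -h8
    · obtain rfl : c = b := by omega
      rw [fh_top p c (by omega)]
      simp [harm]

end zmod

section ring
variable {p : ℕ} [hp : Fact p.Prime] {A : Type*} [CommRing A] (φ : ZMod (p ^ 2) →+* A)

include φ

theorem PP_zero : (p : A) * (p : A) = 0 := by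
  have h := congrArg φ (p_sq_zero p)
  simpa using h

theorem add_P_pow (a b : A) (n : ℕ) :
    (a + (p : A) * b) ^ n = a ^ n + n * ((p : A) * b * a ^ (n - 1)) := by
  have h0 := PP_zero φ
  induction n with
  | zero => simp
  | succ n ih =>
    rw [pow_succ, ih]
    rcases Nat.eq_zero_or_pos n with rfl | hn
    · simp
    · obtain ⟨m, rfl⟩ : ∃ m, n = m + 1 := ⟨n - 1, by omega⟩
      simp only [Nat.add_sub_cancel]
      push_cast
      linear_combination ((m : A) + 1) * b ^ 2 * a ^ m * h0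

theorem add_P_pow_p (a b : A) : (a + (p : A) * b) ^ p = a ^ p := by
  have h0 := PP_zero φ
  rw [add_P_pow φ]
  linear_combination b * a ^ (p - 1) * h0

/-- the polynomial `-∑_{i=1}^{p-1} X^i / i` -/
noncomputable def Hh : A[X] := - ∑ i ∈ range (p - 1),
  C (φ (((i + 1 : ℕ) : ZMod (p ^ 2)))⁻¹) * X ^ (i + 1)

theorem one_sub_pow_p (hp2 : 2 < p) (Y : A) :
    (1 - Y) ^ p = 1 - Y ^ p + (p : A) * (Hh φ).eval Y := by
  have hodd : Odd p := hp.out.odd_of_ne_two (by omega)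
  have h1 : (1 - Y) ^ p = ∑ m ∈ range (p + 1), (-Y) ^ m * ((p.choose m : ℕ) : A) := by
    rw [sub_eq_add_neg, add_comm, add_pow]
    simp
  rw [h1, sum_range_succ]
  have h2 : p = (p - 1) + 1 := by omega
  have h3 : ∑ m ∈ range p, (-Y) ^ m * ((p.choose m : ℕ) : A) =
      ∑ m ∈ range (p - 1), (-Y) ^ (m + 1) * ((p.choose (m + 1) : ℕ) : A) + 1 := by
    conv_lhs => rw [show range p = range ((p - 1) + 1) by rw [← h2]]
    rw [sum_range_succ']
    simp
  rw [h3]
  have h4 : ∀ m ∈ range (p - 1), (-Y) ^ (m + 1) * ((p.choose (m + 1) : ℕ) : A) =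
      - ((p : A) * (φ (((m + 1 : ℕ) : ZMod (p ^ 2)))⁻¹ * Y ^ (m + 1))) := by
    intro m hm
    rw [mem_range] at hm
    have := congrArg φ (choose_p_eq p m hm)
    simp only [map_natCast, map_mul, map_pow, map_neg, map_one] at this
    rw [this, neg_pow Y (m + 1)]
    rw [pow_succ (-1 : A) m]
    have h6 : (-1 : A) ^ m * (-1 : A) ^ m = 1 := by
      rw [← mul_pow]; simp
    linear_combination -(Y ^ (m + 1)) * (p : A) * φ (((m + 1 : ℕ) : ZMod (p ^ 2)))⁻¹ * h6
  rw [sum_congr rfl h4, sum_neg_distrib, ← mul_sum]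
  rw [hodd.neg_pow]
  simp only [Hh, eval_neg, eval_finsetSum, eval_mul, eval_C, eval_pow, eval_X, Nat.choose_self,
    Nat.cast_one, mul_one]
  ring

omit hp φ in
theorem coeff_one_sub_pow (b a : ℕ) :
    ((1 - X : A[X]) ^ b).coeff a = (-1) ^ a * ((b.choose a : ℕ) : A) := by
  have h1 : (1 - X : A[X]) ^ b = ((1 + X : A[X]) ^ b).comp (-X) := by
    simp [sub_eq_add_neg]
  rw [h1, ← neg_one_mul (X : A[X])]
  have : ((-1 : A[X]) * X) = C (-1 : A) * X := by simp
  rw [this, comp_C_mul_X_coeff, coeff_one_add_X_pow]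
  ring

theorem coeff_Hh_mul (G : A[X]) (a : ℕ) : (Hh φ * G).coeff a =
    - ∑ i ∈ range (p - 1), φ (((i + 1 : ℕ) : ZMod (p ^ 2)))⁻¹ *
      (if i + 1 ≤ a then G.coeff (a - (i + 1)) else 0) := by
  unfold Hh
  rw [neg_mul, coeff_neg, sum_mul, finsetSum_coeff]
  congr 1
  apply sum_congr rfl
  intro i _
  rw [mul_assoc, coeff_C_mul, mul_comm (X ^ (i + 1)) G, coeff_mul_X_pow']

theorem coeff_low (b a : ℕ) (ha : a ≤ p - 1) :
    (Hh φ * (1 - X) ^ b).coeff a = - ((-1) ^ a * φ (fh p b a)) := by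
  rw [coeff_Hh_mul]
  congr 1
  unfold fh
  rw [map_sum, mul_sum]
  have h1 : range a ⊆ range (p - 1) := by
    intro i hi; rw [mem_range] at *; omega
  rw [← sum_subset h1]
  · apply sum_congr rfl
    intro i hi
    rw [mem_range] at hi
    rw [if_pos (by omega), coeff_one_sub_pow]
    simp only [map_mul, map_pow, map_neg, map_one, map_natCast]
    have h2 : (-1 : A) ^ a = (-1) ^ (a - (i + 1)) * (-1) ^ (i + 1) := by
      rw [← pow_add]; congr 1; omega
    rw [h2]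
    have h3 : (-1 : A) ^ (i + 1) * (-1 : A) ^ (i + 1) = 1 := by
      rw [← mul_pow]; simp
    linear_combination - φ (((i + 1 : ℕ) : ZMod (p ^ 2)))⁻¹ * ((-1) ^ (a - (i + 1)) *
      ((b.choose (a - (i + 1)) : ℕ) : A)) * h3
  · intro i _ hi2
    rw [mem_range] at hi2
    rw [if_neg (by omega), mul_zero]

theorem p_inv_neg (i : ℕ) (hi : i < p - 1) :
    (p : A) * φ (((p - (i + 1) : ℕ) : ZMod (p ^ 2)))⁻¹ =
      - ((p : A) * φ (((i + 1 : ℕ) : ZMod (p ^ 2)))⁻¹) := by
  have h : (p : ZMod (p ^ 2)) * (((p - (i + 1) : ℕ) : ZMod (p ^ 2)))⁻¹ =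
      - ((p : ZMod (p ^ 2)) * (((i + 1 : ℕ) : ZMod (p ^ 2)))⁻¹) := by
    apply unit_cancel p (i := i + 1) (by omega) (by omega)
    have h1 := unit_sq p (i := i + 1) (by omega) (by omega)
    have h2 := unit_sq p (i := p - (i + 1)) (by omega) (by omega)
    have h3 : ((p - (i + 1) : ℕ) : ZMod (p ^ 2)) = (p : ZMod (p ^ 2)) - ((i + 1 : ℕ) : ZMod (p ^ 2)) := by
      rw [Nat.cast_sub (by omega)]
    have h0 := p_sq_zero p
    rw [h3] at h2 ⊢
    generalize (((i + 1 : ℕ) : ZMod (p ^ 2))) = x at *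
    generalize ((p : ZMod (p ^ 2)) - x)⁻¹ = y at *
    linear_combination (p : ZMod (p ^ 2)) * h1 - (p : ZMod (p ^ 2)) * h2 + y * h0
  have := congrArg φ h
  simpa using this

theorem coeff_high (m n : ℕ) (hmn : m + n ≤ p - 1) :
    (p : A) * (Hh φ * (1 - X) ^ (m + n)).coeff (m + p) =
      (p : A) * ((-1) ^ m * φ (fh p (m + n) n)) := by
  rw [coeff_Hh_mul]
  rw [← sum_range_reflect, mul_neg, mul_sum]
  have h0 : ∀ i ∈ range (p - 1), (p : A) * (φ (((p - 1 - 1 - i + 1 : ℕ) : ZMod (p ^ 2)))⁻¹ *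
      (if p - 1 - 1 - i + 1 ≤ m + p then
        ((1 - X : A[X]) ^ (m + n)).coeff (m + p - (p - 1 - 1 - i + 1)) else 0)) =
      - ((p : A) * (φ (((i + 1 : ℕ) : ZMod (p ^ 2)))⁻¹ * ((-1) ^ (m + (i + 1)) *
        (((m + n).choose (m + (i + 1)) : ℕ) : A)))) := by
    intro i hi
    rw [mem_range] at hi
    rw [if_pos (by omega), coeff_one_sub_pow]
    have e1 : p - 1 - 1 - i + 1 = p - (i + 1) := by omega
    have e2 : m + p - (p - (i + 1)) = m + (i + 1) := by omega
    rw [e1, e2]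
    have h1 := p_inv_neg φ i hi
    rw [← mul_assoc, h1]
    ring
  rw [sum_congr rfl h0, sum_neg_distrib, neg_neg]
  unfold fh
  rw [map_sum, mul_sum, mul_sum]
  have h1 : range n ⊆ range (p - 1) := by
    intro i hi; rw [mem_range] at *; omega
  rw [← sum_subset h1]
  · apply sum_congr rfl
    intro i hi
    rw [mem_range] at hi
    have h2 : (m + n).choose (m + (i + 1)) = (m + n).choose (n - (i + 1)) := by
      rw [← Nat.choose_symm (by omega : n - (i + 1) ≤ m + n)]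
      congr 1; omega
    rw [h2]
    simp only [map_mul, map_pow, map_neg, map_one, map_natCast]
    rw [pow_add (-1 : A) m (i + 1)]
    ring
  · intro i _ hi2
    rw [mem_range] at hi2
    rw [Nat.choose_eq_zero_of_lt (by omega)]
    simp

end ring

end SC24
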