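import Mathlib
import Pool.Agent.SC24.Defs
import Pool.Agent.SC24.JacBase

/-!
MP_9178e4_nt: character sums of Teichmüller lifts, and coefficient extraction.
-/

set_option linter.unusedSectionVars false

namespace SC24

open Finset Polynomial

/-- what we need of a Teichmüller map reduced modulo `p^2` -/
structure TD (p q : ℕ) {k A : Type*} [Field k] [Fintype k] [CommRing A] (T : k →* A) : Prop where
  zero : T 0 = 0
  sub : ∀ z, ∃ r, T (1 - z) = 1 - T z + (p : A) * r
  sum : ∀ m, 0 < m → ∑ y, T y ^ m = if (q - 1) ∣ m then ((q - 1 : ℕ) : A) else 0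

section witt
variable (p : ℕ) [hp : Fact p.Prime] {k : Type*} [Field k] [Fintype k] [DecidableEq k] [CharP k p]

theorem teich_sum (q : ℕ) (hq : Fintype.card k = q) (m : ℕ) (hm : 0 < m) :
    ∑ y : k, WittVector.teichmuller p y ^ m =
      if (q - 1) ∣ m then ((q - 1 : ℕ) : WittVector p k) else 0 := by
  split_ifs with h
  · have h1 : ∀ y : k, WittVector.teichmuller p y ^ m = if y = 0 then 0 else 1 := by
      intro y
      split_ifs with hy
      · rw [hy, WittVector.teichmuller_zero, zero_pow hm.ne']
      · obtain ⟨c, rfl⟩ := h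
        rw [← map_pow, pow_mul, ← hq, FiniteField.pow_card_sub_one_eq_one y hy, one_pow, map_one]
    rw [Fintype.sum_congr _ _ h1]
    rw [← Finset.sum_filter_add_sum_filter_not univ (fun y : k => y = 0)]
    rw [Finset.sum_congr rfl (g := fun _ => (0 : WittVector p k))]
    · rw [Finset.sum_const_zero, zero_add]
      rw [Finset.sum_congr rfl (g := fun _ => (1 : WittVector p k))]
      · rw [sum_const, nsmul_eq_mul, mul_one]
        congr 1
        rw [filter_not, filter_eq', if_pos (mem_univ _), card_sdiff_of_subset (subset_univ _)]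
        rw [card_univ, hq, card_singleton]
      · intro y hy
        rw [mem_filter] at hy
        rw [if_neg hy.2]
    · intro y hy
      rw [mem_filter] at hy
      rw [if_pos hy.2]
  · have h2 : ¬ ∀ x : kˣ, x ^ m = 1 := by
      rw [FiniteField.forall_pow_eq_one_iff, hq]; exact h
    push Not at h2
    obtain ⟨g, hg⟩ := h2
    have hg0 : (g : k) ≠ 0 := g.ne_zero
    have h3 : WittVector.teichmuller p (g : k) ^ m * ∑ y : k, WittVector.teichmuller p y ^ m =
        ∑ y : k, WittVector.teichmuller p y ^ m := by
      rw [mul_sum]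
      apply Fintype.sum_equiv (Equiv.mulLeft₀ (g : k) hg0)
      intro y
      rw [Equiv.mulLeft₀_apply, map_mul, mul_pow]
    have h4 : (WittVector.teichmuller p (g : k) ^ m - 1) *
        ∑ y : k, WittVector.teichmuller p y ^ m = 0 := by
      rw [sub_mul, h3, one_mul, sub_self]
    rcases mul_eq_zero.1 h4 with h5 | h5
    · exfalso
      apply hg
      have h6 : WittVector.teichmuller p ((g : k) ^ m) = 1 := by
        rw [map_pow]; exact sub_eq_zero.1 h5
      have h7 := congrArg (fun x : WittVector p k => x.coeff 0) h6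
      simp only [WittVector.teichmuller_coeff_zero, WittVector.one_coeff_zero] at h7
      apply Units.ext
      rw [Units.val_pow_eq_pow_val, h7, Units.val_one]
    · exact h5

theorem teich_sub (z : k) : ∃ r : WittVector p k,
    WittVector.teichmuller p (1 - z) = 1 - WittVector.teichmuller p z + (p : WittVector p k) * r := by
  set x : WittVector p k := WittVector.teichmuller p (1 - z) - (1 - WittVector.teichmuller p z) with hx
  have h0 : x.coeff 0 = 0 := by
    have h1 : (WittVector.constantCoeff : WittVector p k →+* k) x = 0 := by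
      rw [hx, RingHom.map_sub, RingHom.map_sub, RingHom.map_one]
      simp [WittVector.constantCoeff_apply]
    simpa using h1
  have h2 : WittVector.verschiebung (x.shift 1) = x := by
    have := WittVector.verschiebung_shift x 0 (by intro i hi; obtain rfl : i = 0 := by omega
                                                  exact h0)
    rw [this]
    ext n
    rw [WittVector.shift_coeff]
    congr 1
    omega
  obtain ⟨y, hy⟩ := (WittVector.frobenius_bijective p k).2 (x.shift 1)
  refine ⟨y, ?_⟩
  have h3 : x = y * p := by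
    rw [← WittVector.verschiebung_frobenius, hy, h2]
  rw [mul_comm, ← h3, hx]
  ring

theorem teich_TD (q : ℕ) (hq : Fintype.card k = q) {A : Type*} [CommRing A]
    (π : WittVector p k →+* A) :
    TD p q ((π : WittVector p k →* A).comp (WittVector.teichmuller p)) where
  zero := by simp
  sub := by
    intro z
    obtain ⟨r, hr⟩ := teich_sub p z
    refine ⟨π r, ?_⟩
    simp [hr]
  sum := by
    intro m hm
    have := congrArg π (teich_sum p q hq m hm)
    simp only [map_sum, map_pow] at this
    simp only [MonoidHom.comp_apply, MonoidHom.coe_coe]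
    rw [this]
    split_ifs <;> simp

end witt

section sums
variable {p q : ℕ} {k A : Type*} [Field k] [Fintype k] [CommRing A] {T : k →* A}

theorem sum_eval (hT : TD p q T) (N : ℕ) (hN : 0 < N) (G : A[X]) (D : ℕ) (hD : G.natDegree < D) :
    ∑ y, T y ^ N * G.eval (T y) =
      ∑ r ∈ range D, G.coeff r * (if (q - 1) ∣ N + r then ((q - 1 : ℕ) : A) else 0) := by
  have h1 : ∀ y, T y ^ N * G.eval (T y) = ∑ r ∈ range D, G.coeff r * T y ^ (N + r) := by
    intro y
    rw [eval_eq_sum_range' hD, mul_sum]
    apply sum_congr rfl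
    intro r _
    rw [pow_add]; ring
  rw [Fintype.sum_congr _ _ h1, sum_comm]
  apply sum_congr rfl
  intro r _
  rw [← mul_sum, hT.sum _ (by omega)]

theorem sum_eval_one (hT : TD p q T) (N : ℕ) (hN : 0 < N) (G : A[X]) (hD : G.natDegree < q - 1)
    (R0 : ℕ) (hR : R0 < q - 1) (hd : (q - 1) ∣ N + R0) :
    ∑ y, T y ^ N * G.eval (T y) = G.coeff R0 * ((q - 1 : ℕ) : A) := by
  rw [sum_eval hT N hN G (q - 1) hD]
  rw [sum_eq_single R0]
  · rw [if_pos hd]
  · intro r hr hne
    rw [mem_range] at hr
    rw [if_neg, mul_zero]
    intro h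
    apply hne
    have h1 : (N + r) ≡ (N + R0) [MOD (q - 1)] := by
      rw [Nat.ModEq, Nat.mod_eq_zero_of_dvd h, Nat.mod_eq_zero_of_dvd hd]
    have h2 : r ≡ R0 [MOD (q - 1)] := Nat.ModEq.add_left_cancel' N h1
    rw [Nat.ModEq, Nat.mod_eq_of_lt hr, Nat.mod_eq_of_lt hR] at h2
    exact h2
  · intro h
    exact absurd (mem_range.2 hR) h

theorem coeff_mul_expand (E F : A[X]) (hE : E.natDegree < 2 * p) (m0 m1 : ℕ) (h1 : m1 < p) :
    (E * expand A p F).coeff (m1 + p * m0) = E.coeff m1 * F.coeff m0 +
      (if m0 = 0 then 0 else E.coeff (m1 + p) * F.coeff (m0 - 1)) := by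
  induction F using Polynomial.induction_on' with
  | add F G hF hG =>
    rw [map_add, mul_add, coeff_add, hF, hG, coeff_add]
    split_ifs
    · ring
    · rw [coeff_add]; ring
  | monomial c a =>
    rw [expand_monomial, ← C_mul_X_pow_eq_monomial, mul_comm (C a), ← mul_assoc, coeff_mul_C,
      coeff_mul_X_pow']
    rw [coeff_monomial, coeff_monomial]
    rcases lt_trichotomy c m0 with hc | hc | hc
    · rw [if_neg (show ¬ c = m0 by omega), if_neg (show ¬ m0 = 0 by omega)]
      have h2 : c * p ≤ m1 + p * m0 := by nlinarith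
      rw [if_pos h2]
      by_cases h3 : c = m0 - 1
      · rw [if_pos h3]
        have h4 : m1 + p * m0 - c * p = m1 + p := by
          obtain ⟨d, rfl⟩ : ∃ d, m0 = d + 1 := ⟨m0 - 1, by omega⟩
          have : c = d := by omega
          subst this
          have : m1 + p * (c + 1) = (m1 + p) + c * p := by ring
          omega
        rw [h4]; ring
      · rw [if_neg h3]
        have h4 : 2 * p ≤ m1 + p * m0 - c * p := by
          obtain ⟨d, rfl⟩ : ∃ d, m0 = d + (c + 2) := ⟨m0 - (c + 2), by omega⟩
          have : m1 + p * (d + (c + 2)) = (m1 + p * d + 2 * p) + c * p := by ring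
          omega
        rw [coeff_eq_zero_of_natDegree_lt (by omega)]
        ring
    · subst hc
      have h4 : m1 + p * c - c * p = m1 := by
        have : m1 + p * c = m1 + c * p := by ring
        omega
      have h2 : c * p ≤ m1 + p * c := by nlinarith
      rw [if_pos h2, if_pos rfl, h4]
      by_cases h5 : c = 0
      · rw [if_pos h5]; ring
      · rw [if_neg h5, if_neg (by omega)]; ring
    · have h2 : ¬ c * p ≤ m1 + p * m0 := by
        obtain ⟨d, rfl⟩ : ∃ d, c = m0 + (d + 1) := ⟨c - (m0 + 1), by omega⟩
        have : (m0 + (d + 1)) * p = p * m0 + p + d * p := by ring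
        have h0 : 0 ≤ d * p := Nat.zero_le _
        omega
      rw [if_neg h2, if_neg (by omega)]
      by_cases h5 : m0 = 0
      · rw [if_pos h5]; ring
      · rw [if_neg h5, if_neg (by omega)]; ring

theorem natDegree_one_sub_pow (b : ℕ) : ((1 - X : A[X]) ^ b).natDegree ≤ b := by
  have h1 : (1 - X : A[X]).natDegree ≤ 1 := by
    apply (natDegree_sub_le _ _).trans
    rw [natDegree_one]
    exact max_le (by omega) natDegree_X_le
  have := natDegree_pow_le_of_le b h1
  simpa using this

theorem natDegree_Hh [Fact p.Prime] (φ : ZMod (p ^ 2) →+* A) : (Hh φ).natDegree ≤ p - 1 := by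
  unfold Hh
  rw [natDegree_neg]
  apply natDegree_sum_le_of_forall_le
  intro i hi
  rw [mem_range] at hi
  exact (natDegree_C_mul_X_pow_le _ _).trans (by omega)

end sums

end SC24
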