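import Mathlib
import Pool.Agent.SC24.Defs
import Pool.Agent.SC24.JacBase
import Pool.Agent.SC24.JacSum

/-!
MP_9178e4_nt: Jacobi sums over the field with `p` elements, modulo `p^2`.
-/

set_option linter.unusedSectionVars false

namespace SC24

open Finset Polynomial

section lin
variable {p : ℕ} [hp : Fact p.Prime] {k A : Type*} [Field k] [Fintype k] [DecidableEq k]
  [CharP k p] [CommRing A] {T : k →* A} (φ : ZMod (p ^ 2) →+* A)

/-- sums of a polynomial of degree `< 2(p-1)` -/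
theorem sum_eval_two (hT : TD p p T) (N : ℕ) (hN : 0 < N) (G : A[X])
    (hD : G.natDegree < 2 * (p - 1)) (R0 : ℕ) (hR : R0 < p - 1) (hd : N + R0 = p - 1) :
    ∑ y, T y ^ N * G.eval (T y) =
      (G.coeff R0 + G.coeff (R0 + (p - 1))) * ((p - 1 : ℕ) : A) := by
  rw [sum_eval hT N hN G (2 * (p - 1)) hD]
  rw [two_mul, sum_range_add]
  have h0 : ∀ r ∈ range (p - 1), (p - 1) ∣ N + r ↔ r = R0 := by
    intro r hr
    rw [mem_range] at hr
    constructor
    · intro h
      have h1 : (N + r) ≡ (N + R0) [MOD (p - 1)] := by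
        rw [Nat.ModEq, Nat.mod_eq_zero_of_dvd h, hd, Nat.mod_self]
      have h2 : r ≡ R0 [MOD (p - 1)] := Nat.ModEq.add_left_cancel' N h1
      rw [Nat.ModEq, Nat.mod_eq_of_lt hr, Nat.mod_eq_of_lt hR] at h2
      exact h2
    · rintro rfl
      rw [hd]
  have h1 : ∀ r ∈ range (p - 1), (p - 1) ∣ N + (p - 1 + r) ↔ r = R0 := by
    intro r hr
    rw [← h0 r hr]
    have e : N + (p - 1 + r) = (N + r) + (p - 1) := by ring
    rw [e]
    exact Nat.dvd_add_left (dvd_refl _)
  rw [add_mul]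
  congr 1
  · rw [sum_eq_single R0]
    · rw [if_pos ((h0 R0 (mem_range.2 hR)).2 rfl)]
    · intro r hr hne
      rw [if_neg, mul_zero]
      intro h; exact hne ((h0 r hr).1 h)
    · intro h; exact absurd (mem_range.2 hR) h
  · rw [sum_eq_single R0]
    · rw [if_pos ((h1 R0 (mem_range.2 hR)).2 rfl), add_comm (p - 1) R0]
    · intro r hr hne
      rw [if_neg, mul_zero]
      intro h; exact hne ((h1 r hr).1 h)
    · intro h; exact absurd (mem_range.2 hR) h

/-- the second order coefficients -/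
theorem coeff_pair (hp3 : 3 < p) (m n : ℕ) (h : m + n < p - 1) (hm : 0 < m) :
    (p : A) * (((m + n : ℕ) : A) * ((Hh φ * (1 - X) ^ (m + n - 1)).coeff m +
      (Hh φ * (1 - X) ^ (m + n - 1)).coeff (m + (p - 1)))) =
    (p : A) * ((-1) ^ m * (((m + n).choose m : ℕ) : A) *
      φ ((n : ZMod (p ^ 2)) * (harm (p ^ 2) (m + n) - harm (p ^ 2) n) +
        (m : ZMod (p ^ 2)) * (harm (p ^ 2) (m + n) - harm (p ^ 2) m) + 1)) := by
  obtain ⟨d, rfl⟩ : ∃ d, m = d + 1 := ⟨m - 1, by omega⟩
  have e0 : d + 1 + n - 1 = d + n := by omega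
  have e1 : d + 1 + (p - 1) = d + p := by omega
  rw [e0, e1]
  have hb : d + 1 + n = (d + n) + 1 := by ring
  have hX := coeff_high φ d n (by omega)
  rw [fh_eq p (d + n) n (by omega) (by omega)] at hX
  have e2 : d + n - n = d := by omega
  rw [e2] at hX
  have hHb : harm (p ^ 2) (d + 1 + n) = harm (p ^ 2) (d + n) +
      (((d + n + 1 : ℕ) : ZMod (p ^ 2)))⁻¹ := by
    rw [hb]; unfold harm; rw [sum_range_succ]
  have hHd : harm (p ^ 2) (d + 1) = harm (p ^ 2) d + (((d + 1 : ℕ) : ZMod (p ^ 2)))⁻¹ := by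
    unfold harm; rw [sum_range_succ]
  rw [hHb, hHd]
  have u1 := congrArg φ (unit_sq p (i := d + n + 1) (by omega) (by omega))
  have u2 := congrArg φ (unit_sq p (i := d + 1) (by omega) (by omega))
  simp only [map_mul, map_natCast, map_one] at u1 u2
  -- (b) C(b-1, n) = m C(b, m)
  have b1 : (((d + 1 + n : ℕ) : A)) * (((d + n).choose n : ℕ) : A) =
      ((d + 1 : ℕ) : A) * (((d + 1 + n).choose (d + 1) : ℕ) : A) := by
    rw [← Nat.cast_mul, ← Nat.cast_mul]
    congr 1
    rw [hb]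
    have h1 : (d + n).choose n = (d + n).choose d := by
      rw [← Nat.choose_symm (by omega : d ≤ d + n)]; congr 1; omega
    rw [h1, Nat.add_one_mul_choose_eq]
    ring
  rw [coeff_low φ _ _ (by omega)]
  rcases Nat.eq_zero_or_pos n with rfl | hn
  · simp only [add_zero] at *
    rw [fh_top p d (by omega)]
    simp only [Nat.choose_self, Nat.cast_one, map_neg, map_zero,
      map_one, Nat.choose_zero_right, Nat.cast_zero, zero_mul, zero_add, sub_self, mul_zero,
      mul_one] at *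
    linear_combination ((d + 1 : ℕ) : A) * hX + (-1) ^ (d + 1) * (p : A) * u1
  · obtain ⟨c, rfl⟩ : ∃ c, n = c + 1 := ⟨n - 1, by omega⟩
    rw [fh_eq p (d + (c + 1)) (d + 1) (by omega) (by omega)]
    have e3 : d + (c + 1) - (d + 1) = c := by omega
    rw [e3]
    have hHc : harm (p ^ 2) (c + 1) = harm (p ^ 2) c + (((c + 1 : ℕ) : ZMod (p ^ 2)))⁻¹ := by
      unfold harm; rw [sum_range_succ]
    rw [hHc]
    have u3 := congrArg φ (unit_sq p (i := c + 1) (by omega) (by omega))
    simp only [map_mul, map_natCast, map_one] at u3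
    -- b C(b-1,m) = n C(b,m)
    have b2 : (((d + 1 + (c + 1) : ℕ) : A)) * (((d + (c + 1)).choose (d + 1) : ℕ) : A) =
        ((c + 1 : ℕ) : A) * (((d + 1 + (c + 1)).choose (d + 1) : ℕ) : A) := by
      rw [← Nat.cast_mul, ← Nat.cast_mul]
      congr 1
      rw [hb]
      have := Nat.choose_mul_succ_eq (d + (c + 1)) (d + 1)
      have e4 : d + (c + 1) + 1 - (d + 1) = c + 1 := by omega
      rw [e4] at this
      rw [mul_comm, this, mul_comm]
    simp only [map_mul, map_neg, map_sub, map_add, map_natCast, map_one] at *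
    have s1 : (-1 : A) ^ (d + 1) = - (-1) ^ d := by rw [pow_succ]; ring
    rw [s1]
    have hcast : ((d + 1 + (c + 1) : ℕ) : A) = ((d + 1 : ℕ) : A) + ((c + 1 : ℕ) : A) := by
      push_cast; ring
    have hcast2 : ((d + (c + 1) + 1 : ℕ) : A) = ((d + 1 : ℕ) : A) + ((c + 1 : ℕ) : A) := by
      push_cast; ring
    rw [hcast2] at u1
    rw [hcast] at b1 b2 ⊢
    generalize φ (harm (p ^ 2) (d + (c + 1))) = H at *
    generalize φ (harm (p ^ 2) d) = Hd at *
    generalize φ (harm (p ^ 2) c) = Hc at *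
    generalize φ (((d + (c + 1) + 1 : ℕ) : ZMod (p ^ 2)))⁻¹ = ib at *
    generalize φ (((d + 1 : ℕ) : ZMod (p ^ 2)))⁻¹ = im at *
    generalize φ (((c + 1 : ℕ) : ZMod (p ^ 2)))⁻¹ = ic at *
    generalize (Hh φ * (1 - X) ^ (d + (c + 1))).coeff (d + p) = E2 at *
    generalize (((d + (c + 1)).choose (c + 1) : ℕ) : A) = C1 at *
    generalize (((d + (c + 1)).choose (d + 1) : ℕ) : A) = C2 at *
    generalize (((d + 1 + (c + 1)).choose (d + 1) : ℕ) : A) = C3 at *
    generalize ((d + 1 : ℕ) : A) = M at *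
    generalize ((c + 1 : ℕ) : A) = L at *
    generalize (-1 : A) ^ d = S at *
    linear_combination (M + L) * hX - (p : A) * S * (H - Hc) * b2
      - (p : A) * S * (H - Hd) * b1 + (p : A) * S * C3 * u1 - (p : A) * S * C3 * u2
      - (p : A) * S * C3 * u3

theorem jac1A (hT : TD p p T) (hk : Fintype.card k = p) (hp3 : 3 < p)
    (m n : ℕ) (h : m + n < p - 1) (hm : 0 < m) :
    ∑ z : k, T z ^ (p - 1 - m) * T (1 - z) ^ (m + n) =
    φ (- (-1) ^ m * ((m + n).choose m : ZMod (p ^ 2)) *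
      (1 + (p : ZMod (p ^ 2)) *
        (((m + n : ℕ) : ZMod (p ^ 2)) * (harm (p ^ 2) (m + n) - harm (p ^ 2) n)
         - (m : ZMod (p ^ 2)) * (harm (p ^ 2) m - harm (p ^ 2) n)))) := by
  have hPP := PP_zero φ
  have hfix : ∀ y : k, y ^ p = y := by
    intro y
    have := FiniteField.pow_card y
    rwa [hk] at this
  have hTfix : ∀ y : k, T y ^ p = T y := by
    intro y
    rw [← map_pow, hfix]
  have hTs : ∀ z : k, T (1 - z) = 1 - T z + (p : A) * (Hh φ).eval (T z) := by
    intro z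
    have e1 : T (1 - z) ^ p = (1 - T z) ^ p := by
      obtain ⟨r, hr⟩ := hT.sub z
      rw [hr, add_P_pow_p φ]
    rw [hTfix, one_sub_pow_p φ (by omega), hTfix] at e1
    exact e1
  have step : ∀ z : k, T z ^ (p - 1 - m) * T (1 - z) ^ (m + n) =
      T z ^ (p - 1 - m) * ((1 - X) ^ (m + n) : A[X]).eval (T z) +
      (p : A) * (((m + n : ℕ) : A) * (T z ^ (p - 1 - m) *
        (Hh φ * (1 - X) ^ (m + n - 1)).eval (T z))) := by
    intro z
    rw [hTs, add_P_pow φ]
    simp only [eval_mul, eval_pow, eval_sub, eval_one, eval_X]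
    ring
  rw [Fintype.sum_congr _ _ step, sum_add_distrib, ← mul_sum, ← mul_sum]
  have hD1 : ((1 - X) ^ (m + n) : A[X]).natDegree < 2 * (p - 1) :=
    lt_of_le_of_lt (natDegree_one_sub_pow _) (by omega)
  have hD2 : (Hh φ * (1 - X) ^ (m + n - 1) : A[X]).natDegree < 2 * (p - 1) :=
    lt_of_le_of_lt (natDegree_mul_le.trans (add_le_add (natDegree_Hh φ)
      (natDegree_one_sub_pow _))) (by omega)
  rw [sum_eval_two hT (p - 1 - m) (by omega) _ hD1 m (by omega) (by omega)]
  rw [sum_eval_two hT (p - 1 - m) (by omega) _ hD2 m (by omega) (by omega)]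
  have h2 := coeff_pair φ hp3 m n h hm
  rw [coeff_one_sub_pow, coeff_one_sub_pow,
    Nat.choose_eq_zero_of_lt (show m + n < m + (p - 1) by omega)]
  have hq : ((p - 1 : ℕ) : A) = (p : A) - 1 := by
    rw [Nat.cast_sub (by omega)]; push_cast; ring
  rw [hq]
  simp only [map_mul, map_neg, map_sub, map_add, map_natCast, map_pow, map_one, Nat.cast_add,
    Nat.cast_zero] at h2 ⊢
  linear_combination ((p : A) - 1) * h2 + ((-1) ^ m * (((m + n).choose m : ℕ) : A) *
      ((n : A) * (φ (harm (p ^ 2) (m + n)) - φ (harm (p ^ 2) n)) +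
        (m : A) * (φ (harm (p ^ 2) (m + n)) - φ (harm (p ^ 2) m)) + 1)) * hPP

end lin

theorem jac1 (p : ℕ) [Fact p.Prime] (hp : 3 < p) {k : Type*} [Field k] [Fintype k] [DecidableEq k]
    [CharP k p]
    (hk : Fintype.card k = p) (m n : ℕ) (h : m + n < p - 1) (hm : 0 < m) (c : ℤ)
    (hc : (c : ZMod (p ^ 2)) = - (-1) ^ m * ((m + n).choose m : ZMod (p ^ 2)) *
      (1 + (p : ZMod (p ^ 2)) *
        (((m + n : ℕ) : ZMod (p ^ 2)) * (harm (p ^ 2) (m + n) - harm (p ^ 2) n)
         - (m : ZMod (p ^ 2)) * (harm (p ^ 2) m - harm (p ^ 2) n)))) :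
    ((p : WittVector p k) ^ 2) ∣ (∑ z : k, WittVector.teichmuller p z ^ (p - 1 - m) *
        WittVector.teichmuller p (1 - z) ^ (m + n)) - (c : WittVector p k) := by
  let I : Ideal (WittVector p k) := Ideal.span {(p : WittVector p k) ^ 2}
  let π := Ideal.Quotient.mk I
  have hz : ((p ^ 2 : ℕ) : WittVector p k ⧸ I) = 0 := by
    have : π ((p : WittVector p k) ^ 2) = 0 :=
      Ideal.Quotient.eq_zero_iff_mem.2 (Ideal.subset_span rfl)
    rw [map_pow, map_natCast] at this
    push_cast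
    exact this
  let φ : ZMod (p ^ 2) →+* (WittVector p k ⧸ I) :=
    ZMod.castHom (ringChar.dvd hz) (WittVector p k ⧸ I)
  have hT := teich_TD p (k := k) p hk π
  have h := jac1A φ hT hk hp m n h hm
  rw [← hc, map_intCast] at h
  rw [← Ideal.mem_span_singleton]
  apply Ideal.Quotient.eq_zero_iff_mem.1
  rw [map_sub, map_intCast, ← h, map_sum, sub_eq_zero]
  apply Fintype.sum_congr
  intro z
  simp only [map_mul, map_pow]
  rfl

end SC24
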