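import Mathlib
import Pool.Agent.SC24.Defs
import Pool.Agent.SC24.JacBase
import Pool.Agent.SC24.JacSum

/-!
MP_9178e4_nt: Jacobi sums over the field with `p^2` elements, modulo `p^2`.
-/

set_option linter.unusedSectionVars false

namespace SC24

open Finset Polynomial

section quad
variable {p : ℕ} [hp : Fact p.Prime] {k A : Type*} [Field k] [Fintype k] [DecidableEq k]
  [CharP k p] [CommRing A] {T : k →* A} (φ : ZMod (p ^ 2) →+* A)

theorem frob_bij : Function.Bijective (fun y : k => y ^ p) := by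
  have h : Function.Injective (fun y : k => y ^ p) := frobenius_inj k p
  exact ⟨h, Finite.surjective_of_injective h⟩

/-- the second order term -/
theorem second_term (hT : TD p (p ^ 2) T) (hp3 : 3 < p) (m0 m1 n0 n1 N : ℕ) (hN : 0 < N)
    (h0 : m0 + n0 < p) (h1 : m1 + n1 < p) (hmn : (m0 + n0) + (m1 + n1) < 2 * (p - 1))
    (hd : (p ^ 2 - 1) ∣ N + (m1 + p * m0)) :
    (p : A) * (((m0 + n0 : ℕ) : A) * ∑ y, T y ^ N *
      ((Hh φ * (1 - X) ^ (m1 + n1)) * expand A p ((1 - X) ^ (m0 + n0 - 1))).eval (T y)) =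
    - ((p : A) * ((-1) ^ (m0 + m1) * (((m0 + n0).choose m0 : ℕ) : A) *
        (((m1 + n1).choose m1 : ℕ) : A) *
      φ ((n0 : ZMod (p ^ 2)) * (harm (p ^ 2) (m1 + n1) - harm (p ^ 2) n1) +
        (m0 : ZMod (p ^ 2)) * (harm (p ^ 2) (m1 + n1) - harm (p ^ 2) m1)))) := by
  have hPP := PP_zero φ
  rcases Nat.eq_zero_or_pos (m0 + n0) with hb | hb
  · have e1 : m0 = 0 := by omega
    have e2 : n0 = 0 := by omega
    subst e1; subst e2
    simp
  have hpsq : p * p = p ^ 2 := by ring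
  have hpp : 3 * p < p * p := by nlinarith
  have hm0 : p * m0 ≤ p * (m0 + n0) := Nat.mul_le_mul_left _ (by omega)
  have hR : m1 + p * m0 < p ^ 2 - 1 := by
    have h2 : p * (m0 + n0) + (m1 + n1) < p * (p - 1) + (p - 1) := by
      rcases Nat.lt_or_ge (m0 + n0) (p - 1) with h3 | h3
      · have : p * (m0 + n0 + 1) ≤ p * (p - 1) := Nat.mul_le_mul_left _ (by omega)
        rw [mul_add, mul_one] at this
        omega
      · have h4 : m0 + n0 = p - 1 := by omega
        rw [h4]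
        omega
    have h5 : p * (p - 1) + (p - 1) = p * p - 1 := by
      rw [Nat.mul_sub, mul_one]; omega
    omega
  have hE : (Hh φ * (1 - X) ^ (m1 + n1) : A[X]).natDegree ≤ (p - 1) + (m1 + n1) :=
    natDegree_mul_le.trans (add_le_add (natDegree_Hh φ) (natDegree_one_sub_pow _))
  have hF : (expand A p ((1 - X) ^ (m0 + n0 - 1))).natDegree ≤ p * (m0 + n0 - 1) := by
    rw [natDegree_expand, mul_comm]
    exact Nat.mul_le_mul_left _ (natDegree_one_sub_pow _)
  have hG : ((Hh φ * (1 - X) ^ (m1 + n1)) * expand A p ((1 - X) ^ (m0 + n0 - 1))).natDegree <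
      p ^ 2 - 1 := by
    apply lt_of_le_of_lt (natDegree_mul_le.trans (add_le_add hE hF))
    have h6 : p * (m0 + n0 - 1) + p = p * (m0 + n0) := by
      obtain ⟨d, hd⟩ : ∃ d, m0 + n0 = d + 1 := ⟨m0 + n0 - 1, by omega⟩
      rw [hd]; simp only [Nat.add_sub_cancel]; ring
    have h7 : p * (m0 + n0) ≤ p * (p - 1) := Nat.mul_le_mul_left _ (by omega)
    rw [Nat.mul_sub, mul_one] at h7
    omega
  rw [sum_eval_one hT N hN _ hG _ hR hd]
  rw [coeff_mul_expand _ _ (by omega) m0 m1 (by omega)]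
  have hq : ((p ^ 2 - 1 : ℕ) : A) = -1 := by
    rw [Nat.cast_sub (by nlinarith)]
    push_cast
    linear_combination hPP
  rw [hq, coeff_low φ _ _ (by omega), fh_eq p (m1 + n1) m1 (by omega) (by omega)]
  have hX := coeff_high φ m1 n1 (by omega)
  rw [fh_eq p (m1 + n1) n1 (by omega) (by omega)] at hX
  have e1 : m1 + n1 - m1 = n1 := by omega
  have e2 : m1 + n1 - n1 = m1 := by omega
  have e3 : (m1 + n1).choose n1 = (m1 + n1).choose m1 := by
    rw [← Nat.choose_symm (by omega : m1 ≤ m1 + n1), e1]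
  rw [e2, e3] at hX
  rw [e1]
  rw [coeff_one_sub_pow, coeff_one_sub_pow]
  simp only [map_mul, map_neg, map_sub, map_add, map_natCast] at hX ⊢
  -- binomial identities
  have b1 : ((m0 + n0 : ℕ) : A) * (((m0 + n0 - 1).choose m0 : ℕ) : A) =
      (n0 : A) * (((m0 + n0).choose m0 : ℕ) : A) := by
    obtain ⟨d, hd⟩ : ∃ d, m0 + n0 = d + 1 := ⟨m0 + n0 - 1, by omega⟩
    have := Nat.choose_mul_succ_eq d m0
    have e6 : d + 1 - m0 = n0 := by omega
    rw [e6] at this
    rw [← Nat.cast_mul, ← Nat.cast_mul]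
    congr 1
    rw [hd]
    simp only [Nat.add_sub_cancel]
    rw [mul_comm, this, mul_comm]
  split_ifs with hz
  · subst hz
    simp only [zero_add] at *
    simp only [Nat.cast_zero, zero_mul, add_zero, pow_zero] at *
    linear_combination (p : A) * ((-1) ^ m1 * (-(((m1 + n1).choose m1 : ℕ) : A) *
      (φ (harm (p ^ 2) (m1 + n1)) - φ (harm (p ^ 2) n1)))) * b1
  · have b2 : ((m0 + n0 : ℕ) : A) * (((m0 + n0 - 1).choose (m0 - 1) : ℕ) : A) =
        (m0 : A) * (((m0 + n0).choose m0 : ℕ) : A) := by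
      obtain ⟨d, rfl⟩ : ∃ d, m0 = d + 1 := ⟨m0 - 1, by omega⟩
      have := Nat.add_one_mul_choose_eq (d + n0) d
      rw [← Nat.cast_mul, ← Nat.cast_mul]
      congr 1
      have e5 : d + 1 + n0 = d + n0 + 1 := by ring
      rw [e5]
      simp only [Nat.add_sub_cancel]
      rw [this, mul_comm]
    obtain ⟨d, rfl⟩ : ∃ d, m0 = d + 1 := ⟨m0 - 1, by omega⟩
    simp only [Nat.add_sub_cancel] at b2 ⊢
    have s1 : (-1 : A) ^ (d + 1) = - (-1) ^ d := by rw [pow_succ]; ring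
    have s2 : (-1 : A) ^ (d + 1 + m1) = - (-1) ^ d * (-1) ^ m1 := by rw [pow_add, s1]
    rw [s1, s2]
    linear_combination (p : A) * ((-1) ^ m1 * ((-1) ^ d * (((m1 + n1).choose m1 : ℕ) : A) *
      (φ (harm (p ^ 2) (m1 + n1)) - φ (harm (p ^ 2) n1)))) * b1
      - ((-1) ^ d * (((d + 1 + n0 : ℕ) : A) * (((d + 1 + n0 - 1).choose d : ℕ) : A))) * hX
      + (p : A) * ((-1) ^ m1 * ((-1) ^ d * (((m1 + n1).choose m1 : ℕ) : A) *
      (φ (harm (p ^ 2) (m1 + n1)) - φ (harm (p ^ 2) m1)))) * b2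

include φ in
/-- the main term -/
theorem main_term (hT : TD p (p ^ 2) T) (hp3 : 3 < p) (m0 m1 n0 n1 N : ℕ) (hN : 0 < N)
    (h0 : m0 + n0 < p) (h1 : m1 + n1 < p) (hmn : (m0 + n0) + (m1 + n1) < 2 * (p - 1))
    (hd : (p ^ 2 - 1) ∣ N + (m1 + p * m0)) :
    ∑ y, T y ^ N * ((1 - X) ^ (m1 + n1) * expand A p ((1 - X) ^ (m0 + n0))).eval (T y) =
    - ((-1) ^ (m0 + m1) * (((m0 + n0).choose m0 : ℕ) : A) * (((m1 + n1).choose m1 : ℕ) : A)) := by
  have hPP := PP_zero φ
  have hpsq : p * p = p ^ 2 := by ring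
  have hpp : 3 * p < p * p := by nlinarith
  have hm0 : p * m0 ≤ p * (m0 + n0) := Nat.mul_le_mul_left _ (by omega)
  have h2 : p * (m0 + n0) + (m1 + n1) < p ^ 2 - 1 := by
    have h2 : p * (m0 + n0) + (m1 + n1) < p * (p - 1) + (p - 1) := by
      rcases Nat.lt_or_ge (m0 + n0) (p - 1) with h3 | h3
      · have : p * (m0 + n0 + 1) ≤ p * (p - 1) := Nat.mul_le_mul_left _ (by omega)
        rw [mul_add, mul_one] at this
        omega
      · have h4 : m0 + n0 = p - 1 := by omega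
        rw [h4]
        omega
    have h5 : p * (p - 1) + (p - 1) = p * p - 1 := by
      rw [Nat.mul_sub, mul_one]; omega
    omega
  have hR : m1 + p * m0 < p ^ 2 - 1 := by omega
  have hE : ((1 - X) ^ (m1 + n1) : A[X]).natDegree ≤ (m1 + n1) := natDegree_one_sub_pow _
  have hF : (expand A p ((1 - X) ^ (m0 + n0))).natDegree ≤ p * (m0 + n0) := by
    rw [natDegree_expand, mul_comm]
    exact Nat.mul_le_mul_left _ (natDegree_one_sub_pow _)
  have hG : ((1 - X) ^ (m1 + n1) * expand A p ((1 - X) ^ (m0 + n0))).natDegree <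
      p ^ 2 - 1 := by
    apply lt_of_le_of_lt (natDegree_mul_le.trans (add_le_add hE hF))
    omega
  rw [sum_eval_one hT N hN _ hG _ hR hd]
  rw [coeff_mul_expand _ _ (by omega) m0 m1 (by omega)]
  have hq : ((p ^ 2 - 1 : ℕ) : A) = -1 := by
    rw [Nat.cast_sub (by nlinarith)]
    push_cast
    linear_combination hPP
  rw [hq, coeff_one_sub_pow, coeff_one_sub_pow, coeff_one_sub_pow]
  rw [Nat.choose_eq_zero_of_lt (show m1 + n1 < m1 + p by omega)]
  split_ifs <;> · rw [pow_add (-1 : A) m0 m1]; push_cast; ring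

theorem jac2A (hT : TD p (p ^ 2) T) (hk : Fintype.card k = p ^ 2) (hp3 : 3 < p)
    (m0 m1 n0 n1 : ℕ)
    (h0 : m0 + n0 < p) (h1 : m1 + n1 < p) (hmn : (m0 + n0) + (m1 + n1) < 2 * (p - 1)) :
    ∑ z : k, T z ^ (p ^ 2 - 1 - (m0 + p * m1)) * T (1 - z) ^ ((m0 + n0) + p * (m1 + n1)) =
    φ (- (-1) ^ (m0 + m1) * ((m0 + n0).choose m0 : ZMod (p ^ 2)) *
      ((m1 + n1).choose m1 : ZMod (p ^ 2)) *
      (1 + (p : ZMod (p ^ 2)) *
        (((m0 + n0 : ℕ) : ZMod (p ^ 2)) * (harm (p ^ 2) (m1 + n1) - harm (p ^ 2) n1)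
         - (m0 : ZMod (p ^ 2)) * (harm (p ^ 2) m1 - harm (p ^ 2) n1)
         + ((m1 + n1 : ℕ) : ZMod (p ^ 2)) * (harm (p ^ 2) (m0 + n0) - harm (p ^ 2) n0)
         - (m1 : ZMod (p ^ 2)) * (harm (p ^ 2) m0 - harm (p ^ 2) n0)))) := by
  have hPP := PP_zero φ
  have hpsq : p * p = p ^ 2 := by ring
  have hpp : 3 * p < p * p := by nlinarith
  have hN0 : m0 + p * m1 < p ^ 2 - 1 := by
    have h2 : (m0 + n0) + p * (m1 + n1) < p * (p - 1) + (p - 1) := by
      rcases Nat.lt_or_ge (m1 + n1) (p - 1) with h3 | h3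
      · have : p * (m1 + n1 + 1) ≤ p * (p - 1) := Nat.mul_le_mul_left _ (by omega)
        rw [mul_add, mul_one] at this
        omega
      · have h4 : m1 + n1 = p - 1 := by omega
        rw [h4]
        omega
    have h5 : p * (p - 1) + (p - 1) = p * p - 1 := by
      rw [Nat.mul_sub, mul_one]; omega
    have h6 : p * m1 ≤ p * (m1 + n1) := Nat.mul_le_mul_left _ (by omega)
    omega
  have hfix : ∀ y : k, y ^ (p ^ 2) = y := by
    intro y; rw [← hk]; exact FiniteField.pow_card y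
  have hTfix : ∀ y : k, (T y ^ p) ^ p = T y := by
    intro y
    rw [← pow_mul, ← map_pow, hpsq, hfix]
  -- T (1 - y^p) = (1 - T y)^p
  have hTs : ∀ y : k, T (1 - y ^ p) = (1 - T y) ^ p := by
    intro y
    have e1 : (1 - y ^ p) = (1 - y) ^ p := by
      have := map_sub (frobenius k p) 1 y
      simp only [frobenius_def, one_pow] at this
      exact this.symm
    rw [e1, map_pow]
    obtain ⟨r, hr⟩ := hT.sub y
    rw [hr, add_P_pow_p φ]
  have hTs2 : ∀ z : k, T (1 - z) ^ p = (1 - T z) ^ p := by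
    intro z
    obtain ⟨r, hr⟩ := hT.sub z
    rw [hr, add_P_pow_p φ]
  set N := p ^ 2 - 1 - (m0 + p * m1) with hN
  have hNpos : 0 < N := by omega
  -- divisibilities
  have hd1 : (p ^ 2 - 1) ∣ p * N + (m1 + p * m0) := by
    have e : p * N + (m1 + p * m0) = (p ^ 2 - 1) * (p - m1) := by
      zify [show m1 ≤ p by omega, show 1 ≤ p ^ 2 by omega, hN, show m0 + p * m1 ≤ p ^ 2 - 1 by omega]
      ring
    rw [e]; exact dvd_mul_right _ _
  have hd2 : (p ^ 2 - 1) ∣ p * (p * N) + (m0 + p * m1) := by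
    have e : p * (p * N) + (m0 + p * m1) = (p ^ 2 - 1) * (N + 1) := by
      have e2 : m0 + p * m1 = p ^ 2 - 1 - N := by omega
      rw [e2]
      zify [show N ≤ p ^ 2 - 1 by omega, show 1 ≤ p ^ 2 by omega]
      ring
    rw [e]; exact dvd_mul_right _ _
  have step1 : ∑ z : k, T z ^ N * T (1 - z) ^ ((m0 + n0) + p * (m1 + n1)) =
      ∑ y : k, T y ^ (p * N) * (((1 - T y) ^ p) ^ (m0 + n0) *
        ((1 - T y ^ p) ^ p) ^ (m1 + n1)) := by
    symm
    apply Fintype.sum_bijective _ (frob_bij (p := p) (k := k))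
    intro y
    have h5 := hTs2 (y ^ p)
    rw [hTs, map_pow] at h5
    rw [map_pow T y p, hTs, pow_add ((1 - T y) ^ p) (m0 + n0) (p * (m1 + n1)), pow_mul (T y) p N,
      pow_mul ((1 - T y) ^ p) p (m1 + n1), h5]
  rw [step1]
  have step2 : ∀ y : k, T y ^ (p * N) * (((1 - T y) ^ p) ^ (m0 + n0) *
        ((1 - T y ^ p) ^ p) ^ (m1 + n1)) =
      T y ^ (p * N) * ((1 - X) ^ (m1 + n1) * expand A p ((1 - X) ^ (m0 + n0))).eval (T y) +
      (p : A) * (((m0 + n0 : ℕ) : A) * (T y ^ (p * N) *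
        ((Hh φ * (1 - X) ^ (m1 + n1)) * expand A p ((1 - X) ^ (m0 + n0 - 1))).eval (T y))) +
      (p : A) * (((m1 + n1 : ℕ) : A) * (T y ^ (p * N) *
        ((Hh φ).eval (T y ^ p) * (1 - T y ^ p) ^ (m0 + n0) * (1 - T y) ^ (m1 + n1 - 1)))) := by
    intro y
    rw [one_sub_pow_p φ (by omega), one_sub_pow_p φ (by omega), hTfix]
    rw [add_P_pow φ, add_P_pow φ]
    simp only [eval_mul, eval_pow, eval_sub, eval_one, eval_X, expand_eval]
    linear_combination (T y ^ (p * N) * (((m0 + n0 : ℕ) : A) * ((m1 + n1 : ℕ) : A) *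
      (Hh φ).eval (T y) * (1 - T y ^ p) ^ (m0 + n0 - 1) * (Hh φ).eval (T y ^ p) *
      (1 - T y) ^ (m1 + n1 - 1))) * hPP
  rw [Fintype.sum_congr _ _ step2, sum_add_distrib, sum_add_distrib]
  rw [← mul_sum, ← mul_sum, ← mul_sum, ← mul_sum]
  have step3 : ∑ y : k, T y ^ (p * N) * ((Hh φ).eval (T y ^ p) * (1 - T y ^ p) ^ (m0 + n0) *
        (1 - T y) ^ (m1 + n1 - 1)) =
      ∑ w : k, T w ^ (p * (p * N)) * ((Hh φ * (1 - X) ^ (m0 + n0)) *
        expand A p ((1 - X) ^ (m1 + n1 - 1))).eval (T w) := by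
    symm
    apply Fintype.sum_bijective _ (frob_bij (p := p) (k := k))
    intro w
    rw [map_pow T w p, hTfix, pow_mul (T w) p (p * N)]
    simp only [eval_mul, eval_pow, eval_sub, eval_one, eval_X, expand_eval]
  rw [step3]
  rw [main_term φ hT hp3 m0 m1 n0 n1 (p * N) (by positivity) h0 h1 hmn hd1]
  rw [second_term φ hT hp3 m0 m1 n0 n1 (p * N) (by positivity) h0 h1 hmn hd1]
  rw [second_term φ hT hp3 m1 m0 n1 n0 (p * (p * N)) (by positivity) h1 h0 (by omega) hd2]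
  simp only [map_mul, map_neg, map_sub, map_add, map_natCast, map_pow, map_one, Nat.cast_add]
  rw [pow_add (-1 : A) m0 m1, pow_add (-1 : A) m1 m0]
  ring

end quad

set_option linter.unusedVariables false in
theorem jac2 (p : ℕ) [Fact p.Prime] (hp : 3 < p) {k : Type*} [Field k] [Fintype k] [DecidableEq k]
    [CharP k p]
    (hk : Fintype.card k = p ^ 2) (m0 m1 n0 n1 : ℕ) (h0 : m0 + n0 < p) (h1 : m1 + n1 < p)
    (hM : 0 < m0 + m1) (hmn : (m0 + n0) + (m1 + n1) < 2 * (p - 1)) (c : ℤ)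
    (hc : (c : ZMod (p ^ 2)) = - (-1) ^ (m0 + m1) * ((m0 + n0).choose m0 : ZMod (p ^ 2)) *
      ((m1 + n1).choose m1 : ZMod (p ^ 2)) *
      (1 + (p : ZMod (p ^ 2)) *
        (((m0 + n0 : ℕ) : ZMod (p ^ 2)) * (harm (p ^ 2) (m1 + n1) - harm (p ^ 2) n1)
         - (m0 : ZMod (p ^ 2)) * (harm (p ^ 2) m1 - harm (p ^ 2) n1)
         + ((m1 + n1 : ℕ) : ZMod (p ^ 2)) * (harm (p ^ 2) (m0 + n0) - harm (p ^ 2) n0)
         - (m1 : ZMod (p ^ 2)) * (harm (p ^ 2) m0 - harm (p ^ 2) n0)))) :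
    ((p : WittVector p k) ^ 2) ∣ (∑ z : k, WittVector.teichmuller p z ^
        (p ^ 2 - 1 - (m0 + p * m1)) *
        WittVector.teichmuller p (1 - z) ^ ((m0 + n0) + p * (m1 + n1))) - (c : WittVector p k) := by
  let I : Ideal (WittVector p k) := Ideal.span {(p : WittVector p k) ^ 2}
  let π := Ideal.Quotient.mk I
  have hz : ((p ^ 2 : ℕ) : WittVector p k ⧸ I) = 0 := by
    have : π ((p : WittVector p k) ^ 2) = 0 :=
      Ideal.Quotient.eq_zero_iff_mem.2 (Ideal.subset_span rfl)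
    rw [map_pow, map_natCast] at this
    push_cast
    exact this
  let φ : ZMod (p ^ 2) →+* (WittVector p k ⧸ I) :=
    ZMod.castHom (ringChar.dvd hz) (WittVector p k ⧸ I)
  have hT := teich_TD p (k := k) (p ^ 2) hk π
  have h := jac2A φ hT hk hp m0 m1 n0 n1 h0 h1 hmn
  rw [← hc, map_intCast] at h
  rw [← Ideal.mem_span_singleton]
  apply Ideal.Quotient.eq_zero_iff_mem.1
  rw [map_sub, map_intCast, ← h, map_sum, sub_eq_zero]
  apply Fintype.sum_congr
  intro z
  simp only [map_mul, map_pow]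
  rfl

end SC24
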