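import Pool.Agent.SC24.JacL
import Pool.Agent.SC24.Jac1
import Pool.Agent.SC24.Jac2
import Pool.Agent.SC24.Alg

/-!
The Jacobi sum constants are `2u` with `u^2+6v^2=p^2`.
-/

namespace SC24

open Finset

section
variable {p : ℕ} [hp : Fact p.Prime]

lemma witt_dvd1 {k : Type*} [Field k] [CharP k p] {n : ℤ}
    (h : (p : WittVector p k) ∣ (n : WittVector p k)) : (p : ℤ) ∣ n := by
  obtain ⟨y, hy⟩ := h
  have := congrArg (WittVector.constantCoeff) hy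
  rw [map_mul, map_intCast, map_natCast, CharP.cast_eq_zero, zero_mul] at this
  exact (CharP.intCast_eq_zero_iff k p n).mp this

lemma witt_dvd2 {k : Type*} [Field k] [Fintype k] [CharP k p] {n : ℤ}
    (h : (p : WittVector p k) ^ 2 ∣ (n : WittVector p k)) : (p : ℤ) ^ 2 ∣ n := by
  have h1 : (p : ℤ) ∣ n := witt_dvd1 (k := k) (dvd_trans (dvd_pow_self _ two_ne_zero) h)
  obtain ⟨m, rfl⟩ := h1
  obtain ⟨y, hy⟩ := h
  have := Alg.charZero_witt (p := p) (k := k)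
  have hp0 : (p : WittVector p k) ≠ 0 := by
    exact_mod_cast hp.out.ne_zero
  have h3 : (m : WittVector p k) = p * y := by
    apply mul_left_cancel₀ hp0
    push_cast at hy
    rw [hy]; ring
  have h4 : (p : ℤ) ∣ m := witt_dvd1 (k := k) ⟨y, h3⟩
  obtain ⟨l, rfl⟩ := h4
  exact ⟨l, by ring⟩

lemma val_cast (c : ZMod (p ^ (2:ℕ))) : (((c.val : ℕ) : ℤ) : ZMod (p ^ (2:ℕ))) = c := by
  rw [Int.cast_natCast, ZMod.natCast_zmod_val]

lemma not_dvd_val {c : ZMod (p ^ (2:ℕ))} (hc : IsUnit c) : ¬ (p : ℤ) ∣ ((c.val : ℕ) : ℤ) := by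
  have h : IsUnit ((((c.val : ℕ) : ℤ)) : ZMod (p ^ (2:ℕ))) := by rwa [val_cast]
  exact not_dvd_of_isUnit (p := p) (dvd_pow_self p two_ne_zero) h

/-- classes 5, 7, 11 -/
lemma jac_uv2 (h3 : 3 < p) {b : ℕ} (hb : ((p % 24 = 5 ∨ p % 24 = 11) ∧ b = 7) ∨ (p % 24 = 7 ∧ b = 5))
    {m0 m1 n0 n1 : ℕ} (hM : m0 + p * m1 = (p ^ 2 - 1) / 24)
    (hB : (m0 + n0) + p * (m1 + n1) = (1 + b) * ((p ^ 2 - 1) / 24))
    (h0 : m0 + n0 < p) (h1 : m1 + n1 < p) (hmp : 0 < m0 + m1)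
    (hmn : (m0 + n0) + (m1 + n1) < 2 * (p - 1)) {c : ZMod (p ^ (2:ℕ))} (hcu : IsUnit c)
    (hc : c = - (-1) ^ (m0 + m1) * ((m0 + n0).choose m0 : ZMod (p ^ (2:ℕ))) *
      ((m1 + n1).choose m1 : ZMod (p ^ (2:ℕ))) *
      (1 + (p : ZMod (p ^ (2:ℕ))) * (((m0 + n0 : ℕ) : ZMod (p ^ (2:ℕ))) * (harm (p ^ 2) (m1 + n1) - harm (p ^ 2) n1)
         - (m0 : ZMod (p ^ (2:ℕ))) * (harm (p ^ 2) m1 - harm (p ^ 2) n1)
         + ((m1 + n1 : ℕ) : ZMod (p ^ (2:ℕ))) * (harm (p ^ 2) (m0 + n0) - harm (p ^ 2) n0)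
         - (m1 : ZMod (p ^ (2:ℕ))) * (harm (p ^ 2) m0 - harm (p ^ 2) n0)))) :
    ∃ u v : ℤ, u ^ 2 + 6 * v ^ 2 = (p : ℤ) ^ 2 ∧ (b = 7 → u % 3 = 2) ∧ c = 2 * (u : ZMod (p ^ (2:ℕ))) := by
  classical
  have : Fintype (GaloisField p 2) := Fintype.ofFinite _
  have hk : Fintype.card (GaloisField p 2) = p ^ 2 := by
    rw [← Nat.card_eq_fintype_card]; exact GaloisField.card p 2 two_ne_zero
  set J : WittVector p (GaloisField p 2) :=
    ∑ z : GaloisField p 2, WittVector.teichmuller p z ^ (p ^ 2 - 1 - (p ^ 2 - 1) / 24) *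
        WittVector.teichmuller p (1 - z) ^ ((1 + b) * ((p ^ 2 - 1) / 24)) with hJ
  have hj := jac2 p h3 hk m0 m1 n0 n1 h0 h1 hmp hmn ((c.val : ℕ) : ℤ) (by rw [val_cast]; exact hc)
  rw [hM, hB, ← hJ] at hj
  have hu : ¬ (p : WittVector p (GaloisField p 2)) ∣ J := by
    intro h
    have h5 : (p : WittVector p (GaloisField p 2)) ∣ J - ((((c.val : ℕ) : ℤ)) : WittVector p (GaloisField p 2)) :=
      dvd_trans (dvd_pow_self _ two_ne_zero) hj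
    have h6 := dvd_sub h h5
    rw [sub_sub_cancel] at h6
    exact not_dvd_val hcu (witt_dvd1 h6)
  obtain ⟨u, v, huv, hu3, hd⟩ := alg2 p h3 hk b hb J hJ hu
  refine ⟨u, v, huv, hu3, ?_⟩
  have h7 := dvd_sub hd hj
  have h8 : J - 2 * (u : WittVector p (GaloisField p 2)) - (J - ((((c.val : ℕ) : ℤ)) : WittVector p (GaloisField p 2)))
      = ((((c.val : ℕ) : ℤ) - 2 * u : ℤ) : WittVector p (GaloisField p 2)) := by push_cast; ring
  rw [h8] at h7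
  have h9 := witt_dvd2 h7
  have h10 : ((((c.val : ℕ) : ℤ) - 2 * u : ℤ) : ZMod (p ^ (2:ℕ))) = 0 := by
    rw [ZMod.intCast_zmod_eq_zero_iff_dvd]; exact_mod_cast h9
  rw [Int.cast_sub, val_cast] at h10
  push_cast at h10
  linear_combination h10

/-- class 1 -/
lemma jac_uv1 (hp1 : p % 24 = 1) {c1 c5 : ZMod (p ^ (2:ℕ))} (hc1u : IsUnit c1) (hc5u : IsUnit c5)
    {m : ℕ} (hm : 24 * m + 1 = p)
    (hc1 : c1 = - (-1) ^ m * ((m + 7 * m).choose m : ZMod (p ^ (2:ℕ))) *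
      (1 + (p : ZMod (p ^ (2:ℕ))) * (((m + 7 * m : ℕ) : ZMod (p ^ (2:ℕ))) * (harm (p ^ 2) (m + 7 * m) - harm (p ^ 2) (7 * m))
         - (m : ZMod (p ^ (2:ℕ))) * (harm (p ^ 2) m - harm (p ^ 2) (7 * m)))))
    (hc5 : c5 = - (-1) ^ (5 * m) * ((5 * m + 11 * m).choose (5 * m) : ZMod (p ^ (2:ℕ))) *
      (1 + (p : ZMod (p ^ (2:ℕ))) * (((5 * m + 11 * m : ℕ) : ZMod (p ^ (2:ℕ))) *
          (harm (p ^ 2) (5 * m + 11 * m) - harm (p ^ 2) (11 * m))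
         - ((5 * m : ℕ) : ZMod (p ^ (2:ℕ))) * (harm (p ^ 2) (5 * m) - harm (p ^ 2) (11 * m))))) :
    ∃ u v : ℤ, u ^ 2 + 6 * v ^ 2 = (p : ℤ) ^ 2 ∧ u % 3 = 1 ∧ c1 * c5 = 2 * (u : ZMod (p ^ (2:ℕ))) := by
  classical
  have hp2 := hp.out.two_le
  have h3 : 3 < p := by omega
  have hm0 : 0 < m := by omega
  have hmm : m = (p - 1) / 24 := by omega
  have hk : Fintype.card (ZMod p) = p := ZMod.card p
  have j1 := jac1 p h3 hk m (7 * m) (by omega) hm0 ((c1.val : ℕ) : ℤ) (by rw [val_cast]; exact hc1)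
  have j5 := jac1 p h3 hk (5 * m) (11 * m) (by omega) (by omega) ((c5.val : ℕ) : ℤ)
    (by rw [val_cast]; exact hc5)
  set J1 : WittVector p (ZMod p) := ∑ z : ZMod p, WittVector.teichmuller p z ^ (p - 1 - (p - 1) / 24) *
        WittVector.teichmuller p (1 - z) ^ (8 * ((p - 1) / 24)) with hJ1
  set J5 : WittVector p (ZMod p) := ∑ z : ZMod p, WittVector.teichmuller p z ^ (p - 1 - 5 * ((p - 1) / 24)) *
        WittVector.teichmuller p (1 - z) ^ (16 * ((p - 1) / 24)) with hJ5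
  rw [show m + 7 * m = 8 * m by ring] at j1
  rw [show 5 * m + 11 * m = 16 * m by ring] at j5
  rw [← hmm] at hJ1 hJ5
  rw [← hJ1] at j1
  rw [← hJ5] at j5
  have h5 : (p : WittVector p (ZMod p)) ^ 2 ∣ J1 * J5 - (((((c1.val : ℕ) : ℤ) * ((c5.val : ℕ) : ℤ) : ℤ)) : WittVector p (ZMod p)) := by
    have e : J1 * J5 - (((((c1.val : ℕ) : ℤ) * ((c5.val : ℕ) : ℤ) : ℤ)) : WittVector p (ZMod p)) =
        (J1 - (((c1.val : ℕ) : ℤ) : WittVector p (ZMod p))) * J5 +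
        (((c1.val : ℕ) : ℤ) : WittVector p (ZMod p)) * (J5 - (((c5.val : ℕ) : ℤ) : WittVector p (ZMod p))) := by
      push_cast; ring
    rw [e]
    exact dvd_add (dvd_mul_of_dvd_left j1 _) (dvd_mul_of_dvd_right j5 _)
  have hu : ¬ (p : WittVector p (ZMod p)) ∣ J1 * J5 := by
    intro h
    have h6 := dvd_sub h (dvd_trans (dvd_pow_self _ two_ne_zero) h5)
    rw [sub_sub_cancel] at h6
    exact not_dvd_mul (not_dvd_val hc1u) (not_dvd_val hc5u) (witt_dvd1 h6)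
  obtain ⟨u, v, huv, hu3, hd⟩ := alg1 p hp1 hk J1 J5 (by rw [hJ1, hmm]) (by rw [hJ5, hmm]) hu
  refine ⟨u, v, huv, hu3, ?_⟩
  have h7 := dvd_sub hd h5
  have h8 : J1 * J5 - 2 * (u : WittVector p (ZMod p)) -
      (J1 * J5 - (((((c1.val : ℕ) : ℤ) * ((c5.val : ℕ) : ℤ) : ℤ)) : WittVector p (ZMod p)))
      = ((((c1.val : ℕ) : ℤ) * ((c5.val : ℕ) : ℤ) - 2 * u : ℤ) : WittVector p (ZMod p)) := by push_cast; ring
  rw [h8] at h7
  have h9 := witt_dvd2 h7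
  have h10 : ((((c1.val : ℕ) : ℤ) * ((c5.val : ℕ) : ℤ) - 2 * u : ℤ) : ZMod (p ^ (2:ℕ))) = 0 := by
    rw [ZMod.intCast_zmod_eq_zero_iff_dvd]; exact_mod_cast h9
  rw [Int.cast_sub, Int.cast_mul, val_cast, val_cast] at h10
  push_cast at h10
  linear_combination h10

end

end SC24
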