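import Pool.Agent.SC24.Defs

/-!
Strange evaluations of four terminating `2F1(1/2)` (proved by creative telescoping), and two
quadratic transformations, coefficientwise.
-/

namespace SC24

open Finset

lemma poch_zero {R : Type*} [CommRing R] (a : R) : poch a 0 = 1 := by simp [poch]

lemma poch_succ {R : Type*} [CommRing R] (a : R) (k : ℕ) : poch a (k + 1) = poch a k * (a + k) := by
  simp [poch, prod_range_succ]

/-- the hypergeometric term -/
def tm (a b c : ℚ) (k : ℕ) : ℚ := poch a k * poch b k / (poch c k * (k.factorial : ℚ)) * (1 / 2) ^ k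

lemma tm_zero (a b c : ℚ) : tm a b c 0 = 1 := by simp [tm, poch_zero]

lemma tm_succ (a b c : ℚ) (k : ℕ) :
    tm a b c (k + 1) = tm a b c k * ((a + k) * (b + k) / ((c + k) * (k + 1) * 2)) := by
  unfold tm
  rw [poch_succ, poch_succ, poch_succ, Nat.factorial_succ, pow_succ]
  push_cast
  by_cases h1 : poch c k = 0
  · simp [h1]
  by_cases h2 : c + k = 0
  · simp [h2]
  have : (k.factorial : ℚ) ≠ 0 := by positivity
  have : (k : ℚ) + 1 ≠ 0 := by positivity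
  field_simp

lemma tm_succ_neg (a b c : ℚ) (k : ℕ) :
    tm (-a) b (-c) (k + 1) = tm (-a) b (-c) k * ((a - k) * (b + k) / ((c - k) * (k + 1) * 2)) := by
  rw [tm_succ]
  congr 1
  rw [show (-a + (k : ℚ)) * (b + k) = -((a - k) * (b + k)) by ring,
    show (-c + (k : ℚ)) * (k + 1) * 2 = -((c - k) * (k + 1) * 2) by ring, neg_div_neg_eq]

lemma tm_succ_pos (a b c : ℚ) (k : ℕ) :
    tm (-a) b c (k + 1) = tm (-a) b c k * (-((a - k) * (b + k) / ((c + k) * (k + 1) * 2))) := by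
  rw [tm_succ]
  congr 1
  rw [show (-a + (k : ℚ)) * (b + k) = -((a - k) * (b + k)) by ring, neg_div]

/-- abstract creative telescoping step -/
lemma tele_step (u w C γ r r' : ℕ → ℚ) (N : ℕ) (ρ : ℚ) (h0w : w 0 = 1) (h0u : u 0 = 1)
    (h0C : C 0 = 1)
    (hu : ∀ k, u (k + 1) = u k * r k) (hw : ∀ k, w (k + 1) = w k * r' k)
    (hC : ∀ k < N, C (k + 1) * r k = C k * r' k)
    (h0 : 1 - ρ = γ 0)
    (hk : ∀ k < N, (C (k + 1) - ρ) * r k = γ (k + 1) * r k - γ k)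
    (hN : C N * r' N = - (γ N)) :
    ∑ k ∈ range (N + 2), w k = ρ * ∑ k ∈ range (N + 1), u k := by
  have hwC : ∀ k ≤ N, w k = C k * u k := by
    intro k
    induction k with
    | zero => intro _; rw [h0w, h0u, h0C]; ring
    | succ k ih =>
      intro hk
      rw [hw, ih (by omega), hu]
      have := hC k (by omega)
      linear_combination (-u k) * this
  have key : ∀ m ≤ N, ∑ k ∈ range (m + 1), (w k - ρ * u k) = γ m * u m := by
    intro m
    induction m with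
    | zero =>
      intro _
      simp only [zero_add, range_one, sum_singleton]
      rw [h0w, ← h0, h0u]; ring
    | succ m ih =>
      intro hm
      rw [sum_range_succ, ih (by omega), hwC (m + 1) hm]
      have := hk m (by omega)
      rw [hu]
      linear_combination (u m) * this
  have h1 := key N le_rfl
  rw [sum_sub_distrib, ← mul_sum] at h1
  rw [sum_range_succ, hw, hwC N le_rfl]
  linear_combination h1 + (u N) * hN

theorem I1_step (N : ℕ) :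
    ∑ k ∈ range (N + 2), tm (-((N + 1 : ℕ) : ℚ)) (((N + 1 : ℕ) : ℚ) + 1 / 2) (-(3 * ((N + 1 : ℕ) : ℚ))) k =
    ((8 * N + 3) * (8 * N + 5) / (6 * (3 * N + 1) * (3 * N + 2)) : ℚ) *
      ∑ k ∈ range (N + 1), tm (-(N : ℚ)) ((N : ℚ) + 1 / 2) (-(3 * (N : ℚ))) k := by
  apply tele_step _ _ (fun k => (((N : ℚ) + 1) / ((N : ℚ) + 1 - k)) * ((((N : ℚ) + 1 / 2) + k) / ((N : ℚ) + 1 / 2)) * (((3 * (N : ℚ)) + 3 - k) * ((3 * (N : ℚ)) + 2 - k) * ((3 * (N : ℚ)) + 1 - k) / (((3 * (N : ℚ)) + 3) * ((3 * (N : ℚ)) + 2) * ((3 * (N : ℚ)) + 1))))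
    (fun k => -(((8 * (N : ℚ) + 3) * (8 * (N : ℚ) + 5) / (6 * (3 * (N : ℚ) + 1) * (3 * (N : ℚ) + 2))) * (8 * ((k : ℚ) + 1) ^ 2 - 16 * ((N : ℚ) + 1) * ((k : ℚ) + 1) + 40 * (N : ℚ) ^ 2 + 56 * (N : ℚ) + 20) * (((N : ℚ) + 1 / 2) + k)) / (2 * ((8 * (N : ℚ) + 3) * (8 * (N : ℚ) + 5) * (2 * (N : ℚ) + 1))))
    (fun k => (((N : ℚ) - k) * (((N : ℚ) + 1 / 2) + k) / (((3 * (N : ℚ)) - k) * (k + 1) * 2)))
    (fun k => ((((N + 1 : ℕ) : ℚ) - k) * ((((N + 1 : ℕ) : ℚ) + 1 / 2) + k) / (((3 * ((N + 1 : ℕ) : ℚ)) - k) * (k + 1) * 2)))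
  · exact tm_zero _ _ _
  · exact tm_zero _ _ _
  · simp only [Nat.cast_zero, sub_zero, add_zero]
    field_simp
  · intro k; exact tm_succ_neg _ _ _ _
  · intro k; exact tm_succ_neg _ _ _ _
  · intro k hk
    obtain ⟨j, rfl⟩ : ∃ j, N = k + 1 + j := ⟨N - (k + 1), by omega⟩
    push_cast
    have e1 : ((k : ℚ) + 1 + j) - k = 1 + j := by ring
    have e2 : ((k : ℚ) + 1 + j) + 1 - k = 2 + j := by ring
    have e3 : ((k : ℚ) + 1 + j) + 1 - (k + 1) = 1 + j := by ring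
    have e4 : 3 * ((k : ℚ) + 1 + j) - k = 2 * k + 3 * j + 3 := by ring
    have e5 : 3 * ((k : ℚ) + 1 + j) + 3 - k = 2 * k + 3 * j + 6 := by ring
    have e6 : 3 * ((k : ℚ) + 1 + j) + 2 - k = 2 * k + 3 * j + 5 := by ring
    have e7 : 3 * ((k : ℚ) + 1 + j) + 1 - k = 2 * k + 3 * j + 4 := by ring
    have e8 : 3 * ((k : ℚ) + 1 + j) + 3 - (k + 1) = 2 * k + 3 * j + 5 := by ring
    have e9 : 3 * ((k : ℚ) + 1 + j) + 2 - (k + 1) = 2 * k + 3 * j + 4 := by ring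
    have e10 : 3 * ((k : ℚ) + 1 + j) + 1 - (k + 1) = 2 * k + 3 * j + 3 := by ring
    have e11 : 3 * ((k : ℚ) + 1 + j + 1) - k = 2 * k + 3 * j + 6 := by ring
    simp only [e1, e2, e3, e4, e5, e6, e7, e8, e9, e10, e11]
    field_simp
    ring
  · simp only [Nat.cast_zero, sub_zero, add_zero]
    field_simp
    ring
  · intro k hk
    obtain ⟨j, rfl⟩ : ∃ j, N = k + 1 + j := ⟨N - (k + 1), by omega⟩
    push_cast
    have e1 : ((k : ℚ) + 1 + j) - k = 1 + j := by ring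
    have e2 : ((k : ℚ) + 1 + j) + 1 - k = 2 + j := by ring
    have e3 : ((k : ℚ) + 1 + j) + 1 - (k + 1) = 1 + j := by ring
    have e4 : 3 * ((k : ℚ) + 1 + j) - k = 2 * k + 3 * j + 3 := by ring
    have e5 : 3 * ((k : ℚ) + 1 + j) + 3 - k = 2 * k + 3 * j + 6 := by ring
    have e6 : 3 * ((k : ℚ) + 1 + j) + 2 - k = 2 * k + 3 * j + 5 := by ring
    have e7 : 3 * ((k : ℚ) + 1 + j) + 1 - k = 2 * k + 3 * j + 4 := by ring
    have e8 : 3 * ((k : ℚ) + 1 + j) + 3 - (k + 1) = 2 * k + 3 * j + 5 := by ring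
    have e9 : 3 * ((k : ℚ) + 1 + j) + 2 - (k + 1) = 2 * k + 3 * j + 4 := by ring
    have e10 : 3 * ((k : ℚ) + 1 + j) + 1 - (k + 1) = 2 * k + 3 * j + 3 := by ring
    have e11 : 3 * ((k : ℚ) + 1 + j + 1) - k = 2 * k + 3 * j + 6 := by ring
    simp only [e1, e2, e3, e4, e5, e6, e7, e8, e9, e10, e11]
    field_simp
    ring
  · push_cast
    have e1 : (N : ℚ) + 1 - N = 1 := by ring
    have e5 : 3 * (N : ℚ) + 3 - N = 2 * N + 3 := by ring
    have e6 : 3 * (N : ℚ) + 2 - N = 2 * N + 2 := by ring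
    have e7 : 3 * (N : ℚ) + 1 - N = 2 * N + 1 := by ring
    have e8 : 3 * ((N : ℚ) + 1) - N = 2 * N + 3 := by ring
    simp only [e1, e5, e6, e7, e8]
    field_simp
    ring

theorem I3_step (N : ℕ) :
    ∑ k ∈ range (N + 2), tm (-((N + 1 : ℕ) : ℚ)) (((N + 1 : ℕ) : ℚ) + 3 / 2) (-(3 * ((N + 1 : ℕ) : ℚ) + 1)) k =
    ((8 * N + 7) * (8 * N + 9) / (6 * (3 * N + 2) * (3 * N + 4)) : ℚ) *
      ∑ k ∈ range (N + 1), tm (-(N : ℚ)) ((N : ℚ) + 3 / 2) (-(3 * (N : ℚ) + 1)) k := by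
  apply tele_step _ _ (fun k => (((N : ℚ) + 1) / ((N : ℚ) + 1 - k)) * ((((N : ℚ) + 3 / 2) + k) / ((N : ℚ) + 3 / 2)) * (((3 * (N : ℚ) + 1) + 3 - k) * ((3 * (N : ℚ) + 1) + 2 - k) * ((3 * (N : ℚ) + 1) + 1 - k) / (((3 * (N : ℚ) + 1) + 3) * ((3 * (N : ℚ) + 1) + 2) * ((3 * (N : ℚ) + 1) + 1))))
    (fun k => -(((8 * (N : ℚ) + 7) * (8 * (N : ℚ) + 9) / (6 * (3 * (N : ℚ) + 2) * (3 * (N : ℚ) + 4))) * (60 + 96 * (N : ℚ) + 40 * (N : ℚ) ^ 2 - (8 + 16 * (N : ℚ)) * ((k : ℚ) + 1) + 8 * ((k : ℚ) + 1) ^ 2) * (((N : ℚ) + 3 / 2) + k)) / (2 * ((8 * (N : ℚ) + 7) * (8 * (N : ℚ) + 9) * (2 * (N : ℚ) + 3))))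
    (fun k => (((N : ℚ) - k) * (((N : ℚ) + 3 / 2) + k) / (((3 * (N : ℚ) + 1) - k) * (k + 1) * 2)))
    (fun k => ((((N + 1 : ℕ) : ℚ) - k) * ((((N + 1 : ℕ) : ℚ) + 3 / 2) + k) / (((3 * ((N + 1 : ℕ) : ℚ) + 1) - k) * (k + 1) * 2)))
  · exact tm_zero _ _ _
  · exact tm_zero _ _ _
  · simp only [Nat.cast_zero, sub_zero, add_zero]
    field_simp
  · intro k; exact tm_succ_neg _ _ _ _
  · intro k; exact tm_succ_neg _ _ _ _
  · intro k hk
    obtain ⟨j, rfl⟩ : ∃ j, N = k + 1 + j := ⟨N - (k + 1), by omega⟩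
    push_cast
    have e1 : ((k : ℚ) + 1 + j) - k = 1 + j := by ring
    have e2 : ((k : ℚ) + 1 + j) + 1 - k = 2 + j := by ring
    have e3 : ((k : ℚ) + 1 + j) + 1 - (k + 1) = 1 + j := by ring
    have e4 : (3 * ((k : ℚ) + 1 + j) + 1) - k = 2 * k + 3 * j + 4 := by ring
    have e5 : (3 * ((k : ℚ) + 1 + j) + 1) + 3 - k = 2 * k + 3 * j + 7 := by ring
    have e6 : (3 * ((k : ℚ) + 1 + j) + 1) + 2 - k = 2 * k + 3 * j + 6 := by ring
    have e7 : (3 * ((k : ℚ) + 1 + j) + 1) + 1 - k = 2 * k + 3 * j + 5 := by ring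
    have e8 : (3 * ((k : ℚ) + 1 + j) + 1) + 3 - (k + 1) = 2 * k + 3 * j + 6 := by ring
    have e9 : (3 * ((k : ℚ) + 1 + j) + 1) + 2 - (k + 1) = 2 * k + 3 * j + 5 := by ring
    have e10 : (3 * ((k : ℚ) + 1 + j) + 1) + 1 - (k + 1) = 2 * k + 3 * j + 4 := by ring
    have e11 : (3 * ((k : ℚ) + 1 + j + 1) + 1) - k = 2 * k + 3 * j + 7 := by ring
    simp only [e1, e2, e3, e4, e5, e6, e7, e8, e9, e10, e11]
    field_simp
    ring
  · simp only [Nat.cast_zero, sub_zero, add_zero]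
    field_simp
    ring
  · intro k hk
    obtain ⟨j, rfl⟩ : ∃ j, N = k + 1 + j := ⟨N - (k + 1), by omega⟩
    push_cast
    have e1 : ((k : ℚ) + 1 + j) - k = 1 + j := by ring
    have e2 : ((k : ℚ) + 1 + j) + 1 - k = 2 + j := by ring
    have e3 : ((k : ℚ) + 1 + j) + 1 - (k + 1) = 1 + j := by ring
    have e4 : (3 * ((k : ℚ) + 1 + j) + 1) - k = 2 * k + 3 * j + 4 := by ring
    have e5 : (3 * ((k : ℚ) + 1 + j) + 1) + 3 - k = 2 * k + 3 * j + 7 := by ring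
    have e6 : (3 * ((k : ℚ) + 1 + j) + 1) + 2 - k = 2 * k + 3 * j + 6 := by ring
    have e7 : (3 * ((k : ℚ) + 1 + j) + 1) + 1 - k = 2 * k + 3 * j + 5 := by ring
    have e8 : (3 * ((k : ℚ) + 1 + j) + 1) + 3 - (k + 1) = 2 * k + 3 * j + 6 := by ring
    have e9 : (3 * ((k : ℚ) + 1 + j) + 1) + 2 - (k + 1) = 2 * k + 3 * j + 5 := by ring
    have e10 : (3 * ((k : ℚ) + 1 + j) + 1) + 1 - (k + 1) = 2 * k + 3 * j + 4 := by ring
    have e11 : (3 * ((k : ℚ) + 1 + j + 1) + 1) - k = 2 * k + 3 * j + 7 := by ring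
    simp only [e1, e2, e3, e4, e5, e6, e7, e8, e9, e10, e11]
    field_simp
    ring
  · push_cast
    have e1 : (N : ℚ) + 1 - N = 1 := by ring
    have e5 : (3 * (N : ℚ) + 1) + 3 - N = 2 * N + 4 := by ring
    have e6 : (3 * (N : ℚ) + 1) + 2 - N = 2 * N + 3 := by ring
    have e7 : (3 * (N : ℚ) + 1) + 1 - N = 2 * N + 2 := by ring
    have e8 : (3 * ((N : ℚ) + 1) + 1) - N = 2 * N + 4 := by ring
    simp only [e1, e5, e6, e7, e8]
    field_simp
    ring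

theorem I2_step (N : ℕ) :
    ∑ k ∈ range (N + 2), tm (-((N + 1 : ℕ) : ℚ)) (((N + 1 : ℕ) : ℚ) + 1 / 2) ((3 * ((N + 1 : ℕ) : ℚ) + 3 / 2)) k =
    (3 * (6 * N + 5) * (6 * N + 7) / (2 * (8 * N + 7) * (8 * N + 9)) : ℚ) *
      ∑ k ∈ range (N + 1), tm (-(N : ℚ)) ((N : ℚ) + 1 / 2) ((3 * (N : ℚ) + 3 / 2)) k := by
  apply tele_step _ _ (fun k => (((N : ℚ) + 1) / ((N : ℚ) + 1 - k)) * ((((N : ℚ) + 1 / 2) + k) / ((N : ℚ) + 1 / 2)) * (((3 * (N : ℚ) + 3 / 2)) * ((3 * (N : ℚ) + 3 / 2) + 1) * ((3 * (N : ℚ) + 3 / 2) + 2) / (((3 * (N : ℚ) + 3 / 2) + k) * ((3 * (N : ℚ) + 3 / 2) + k + 1) * ((3 * (N : ℚ) + 3 / 2) + k + 2))))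
    (fun k => -((3 * (6 * (N : ℚ) + 5) * (6 * (N : ℚ) + 7) / (2 * (8 * (N : ℚ) + 7) * (8 * (N : ℚ) + 9))) * (-(13 + 32 * (N : ℚ) + 20 * (N : ℚ) ^ 2) / 2 - (2 + 4 * (N : ℚ)) * ((k : ℚ) + 1) - 2 * ((k : ℚ) + 1) ^ 2) * (((N : ℚ) + 1 / 2) + k)) / (2 * (1) * (((3 * (N : ℚ) + 3 / 2) + k) * ((3 * (N : ℚ) + 3 / 2) + k + 1) * ((3 * (N : ℚ) + 3 / 2) + k + 2))))
    (fun k => (-(((N : ℚ) - k) * (((N : ℚ) + 1 / 2) + k) / (((3 * (N : ℚ) + 3 / 2) + k) * (k + 1) * 2))))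
    (fun k => (-((((N + 1 : ℕ) : ℚ) - k) * ((((N + 1 : ℕ) : ℚ) + 1 / 2) + k) / (((3 * ((N + 1 : ℕ) : ℚ) + 3 / 2) + k) * (k + 1) * 2))))
  · exact tm_zero _ _ _
  · exact tm_zero _ _ _
  · simp only [Nat.cast_zero, sub_zero, add_zero]
    field_simp
  · intro k; exact tm_succ_pos _ _ _ _
  · intro k; exact tm_succ_pos _ _ _ _
  · intro k hk
    obtain ⟨j, rfl⟩ : ∃ j, N = k + 1 + j := ⟨N - (k + 1), by omega⟩
    push_cast
    have e1 : ((k : ℚ) + 1 + j) - k = 1 + j := by ring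
    have e2 : ((k : ℚ) + 1 + j) + 1 - k = 2 + j := by ring
    have e3 : ((k : ℚ) + 1 + j) + 1 - (k + 1) = 1 + j := by ring
    simp only [e1, e2, e3]
    field_simp
    ring
  · simp only [Nat.cast_zero, sub_zero, add_zero]
    field_simp
    ring
  · intro k hk
    obtain ⟨j, rfl⟩ : ∃ j, N = k + 1 + j := ⟨N - (k + 1), by omega⟩
    push_cast
    have e1 : ((k : ℚ) + 1 + j) - k = 1 + j := by ring
    have e2 : ((k : ℚ) + 1 + j) + 1 - k = 2 + j := by ring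
    have e3 : ((k : ℚ) + 1 + j) + 1 - (k + 1) = 1 + j := by ring
    simp only [e1, e2, e3]
    field_simp
    ring
  · push_cast
    have e1 : (N : ℚ) + 1 - N = 1 := by ring
    simp only [e1]
    field_simp
    ring

theorem I4_step (N : ℕ) :
    ∑ k ∈ range (N + 2), tm (-((N + 1 : ℕ) : ℚ)) (((N + 1 : ℕ) : ℚ) + 3 / 2) ((3 * ((N + 1 : ℕ) : ℚ) + 7 / 2)) k =
    (3 * (6 * N + 7) * (6 * N + 11) / (2 * (8 * N + 11) * (8 * N + 13)) : ℚ) *
      ∑ k ∈ range (N + 1), tm (-(N : ℚ)) ((N : ℚ) + 3 / 2) ((3 * (N : ℚ) + 7 / 2)) k := by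
  apply tele_step _ _ (fun k => (((N : ℚ) + 1) / ((N : ℚ) + 1 - k)) * ((((N : ℚ) + 3 / 2) + k) / ((N : ℚ) + 3 / 2)) * (((3 * (N : ℚ) + 7 / 2)) * ((3 * (N : ℚ) + 7 / 2) + 1) * ((3 * (N : ℚ) + 7 / 2) + 2) / (((3 * (N : ℚ) + 7 / 2) + k) * ((3 * (N : ℚ) + 7 / 2) + k + 1) * ((3 * (N : ℚ) + 7 / 2) + k + 2))))
    (fun k => -((3 * (6 * (N : ℚ) + 7) * (6 * (N : ℚ) + 11) / (2 * (8 * (N : ℚ) + 11) * (8 * (N : ℚ) + 13))) * (-(35 + 52 * (N : ℚ) + 20 * (N : ℚ) ^ 2) / 2 - (8 + 4 * (N : ℚ)) * ((k : ℚ) + 1) - 2 * ((k : ℚ) + 1) ^ 2) * (((N : ℚ) + 3 / 2) + k)) / (2 * (1) * (((3 * (N : ℚ) + 7 / 2) + k) * ((3 * (N : ℚ) + 7 / 2) + k + 1) * ((3 * (N : ℚ) + 7 / 2) + k + 2))))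
    (fun k => (-(((N : ℚ) - k) * (((N : ℚ) + 3 / 2) + k) / (((3 * (N : ℚ) + 7 / 2) + k) * (k + 1) * 2))))
    (fun k => (-((((N + 1 : ℕ) : ℚ) - k) * ((((N + 1 : ℕ) : ℚ) + 3 / 2) + k) / (((3 * ((N + 1 : ℕ) : ℚ) + 7 / 2) + k) * (k + 1) * 2))))
  · exact tm_zero _ _ _
  · exact tm_zero _ _ _
  · simp only [Nat.cast_zero, sub_zero, add_zero]
    field_simp
  · intro k; exact tm_succ_pos _ _ _ _
  · intro k; exact tm_succ_pos _ _ _ _
  · intro k hk
    obtain ⟨j, rfl⟩ : ∃ j, N = k + 1 + j := ⟨N - (k + 1), by omega⟩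
    push_cast
    have e1 : ((k : ℚ) + 1 + j) - k = 1 + j := by ring
    have e2 : ((k : ℚ) + 1 + j) + 1 - k = 2 + j := by ring
    have e3 : ((k : ℚ) + 1 + j) + 1 - (k + 1) = 1 + j := by ring
    simp only [e1, e2, e3]
    field_simp
    ring
  · simp only [Nat.cast_zero, sub_zero, add_zero]
    field_simp
    ring
  · intro k hk
    obtain ⟨j, rfl⟩ : ∃ j, N = k + 1 + j := ⟨N - (k + 1), by omega⟩
    push_cast
    have e1 : ((k : ℚ) + 1 + j) - k = 1 + j := by ring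
    have e2 : ((k : ℚ) + 1 + j) + 1 - k = 2 + j := by ring
    have e3 : ((k : ℚ) + 1 + j) + 1 - (k + 1) = 1 + j := by ring
    simp only [e1, e2, e3]
    field_simp
    ring
  · push_cast
    have e1 : (N : ℚ) + 1 - N = 1 := by ring
    simp only [e1]
    field_simp
    ring

theorem I1 (N : ℕ) : ∑ k ∈ range (N + 1), tm (-(N : ℚ)) (N + 1 / 2) (-(3 * N)) k =
    ∏ j ∈ range N, ((8 * j + 3) * (8 * j + 5) / (6 * (3 * j + 1) * (3 * j + 2)) : ℚ) := by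
  induction N with
  | zero => simp [tm_zero]
  | succ N ih => rw [I1_step, ih, prod_range_succ]; ring

theorem I3 (N : ℕ) : ∑ k ∈ range (N + 1), tm (-(N : ℚ)) (N + 3 / 2) (-(3 * N + 1)) k =
    ∏ j ∈ range N, ((8 * j + 7) * (8 * j + 9) / (6 * (3 * j + 2) * (3 * j + 4)) : ℚ) := by
  induction N with
  | zero => simp [tm_zero]
  | succ N ih => rw [I3_step, ih, prod_range_succ]; ring

theorem I2 (N : ℕ) : ∑ k ∈ range (N + 1), tm (-(N : ℚ)) (N + 1 / 2) (3 * N + 3 / 2) k =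
    ∏ j ∈ range N, (3 * (6 * j + 5) * (6 * j + 7) / (2 * (8 * j + 7) * (8 * j + 9)) : ℚ) := by
  induction N with
  | zero => simp [tm_zero]
  | succ N ih => rw [I2_step, ih, prod_range_succ]; ring

theorem I4 (N : ℕ) : ∑ k ∈ range (N + 1), tm (-(N : ℚ)) (N + 3 / 2) (3 * N + 7 / 2) k =
    ∏ j ∈ range N, (3 * (6 * j + 7) * (6 * j + 11) / (2 * (8 * j + 11) * (8 * j + 13)) : ℚ) := by
  induction N with
  | zero => simp [tm_zero]
  | succ N ih => rw [I4_step, ih, prod_range_succ]; ring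

lemma tele2 (u w C γ r : ℕ → ℚ) (M : ℕ) (ρ : ℚ)
    (hw : ∀ k ≤ M, w k = C k * u k) (hu : ∀ k < M, u (k + 1) = u k * r k)
    (h0 : C 0 - ρ = γ 0)
    (hk : ∀ k < M, (C (k + 1) - ρ) * r k = γ (k + 1) * r k - γ k) :
    ∀ m ≤ M, ∑ k ∈ range (m + 1), w k = ρ * ∑ k ∈ range (m + 1), u k + γ m * u m := by
  intro m
  induction m with
  | zero =>
    intro _
    simp only [zero_add, range_one, sum_singleton]
    rw [hw 0 (Nat.zero_le _), ← h0]; ring
  | succ m ih =>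
    intro hm
    rw [sum_range_succ, ih (by omega), hw (m + 1) hm, sum_range_succ _ (m + 1)]
    have := hk m (by omega)
    rw [hu m (by omega)]
    linear_combination (u m) * this

/-- coefficient of the quadratic transformation, `n = i + r` -/
def pc (i r : ℕ) : ℚ := 4 ^ (i + r) * (-1) ^ i * poch (1 / 6) (i + r) * poch (1 / 3) (i + r) /
  (((i + r).factorial : ℚ) * (i.factorial : ℚ) * (r.factorial : ℚ))

lemma pc_r (i r : ℕ) : pc i (r + 1) =
    4 * (1 / 6 + i + r) * (1 / 3 + i + r) / ((i + r + 1) * (r + 1)) * pc i r := by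
  unfold pc
  rw [show i + (r + 1) = (i + r) + 1 by ring, poch_succ, poch_succ, Nat.factorial_succ,
    Nat.factorial_succ, pow_succ]
  have h1 : ((i + r).factorial : ℚ) ≠ 0 := by positivity
  have h2 : (i.factorial : ℚ) ≠ 0 := by positivity
  have h3 : (r.factorial : ℚ) ≠ 0 := by positivity
  push_cast
  field_simp
  ring

lemma pc_i (i r : ℕ) : pc (i + 1) r = pc i (r + 2) *
    (-((i + 2 + r) * (r + 2) * (r + 1) / (4 * (i + r + 7 / 6) * (i + r + 4 / 3) * (i + 1)))) := by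
  unfold pc
  rw [show i + (r + 2) = (i + 1 + r) + 1 by ring, poch_succ, poch_succ, Nat.factorial_succ (i + 1 + r),
    Nat.factorial_succ i, show r + 2 = (r + 1) + 1 by ring, Nat.factorial_succ (r + 1),
    Nat.factorial_succ r, pow_succ 4, pow_succ (-1)]
  have h1 : ((i + 1 + r).factorial : ℚ) ≠ 0 := by positivity
  have h2 : (i.factorial : ℚ) ≠ 0 := by positivity
  have h3 : (r.factorial : ℚ) ≠ 0 := by positivity
  push_cast
  field_simp
  ring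

theorem I5_step (m : ℕ) : ∑ i ∈ range ((m + 1) / 2 + 1), pc i (m + 1 - 2 * i) =
    ((3 * m + 1) * (3 * m + 2) / (9 * (m + 1) ^ 2) : ℚ) * ∑ i ∈ range (m / 2 + 1), pc i (m - 2 * i) := by
  have key := tele2 (fun i => pc i (m - 2 * i)) (fun i => pc i (m + 1 - 2 * i))
    (fun i => 4 * (1 / 6 + m - i) * (1 / 3 + m - i) / ((m - i + 1) * (m - 2 * i + 1)))
    (fun i => -((3 * m + 1) * (3 * m + 2) / (9 * (m + 1) ^ 2) : ℚ) *
      ((-144 * ((i : ℚ) + 1) ^ 2 + (288 * m + 360) * (i + 1) - 108 * (m + 1) * (m + 2)) /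
        ((3 * m + 1) * (3 * m + 2))) / 4)
    (fun i => -((m - i) * (m - 2 * i) * (m - 2 * i - 1) /
      (4 * (m - i - 5 / 6) * (m - i - 2 / 3) * (i + 1)))) (m / 2)
    ((3 * m + 1) * (3 * m + 2) / (9 * (m + 1) ^ 2) : ℚ) ?_ ?_ ?_ ?_ (m / 2) le_rfl
  · rcases Nat.even_or_odd' m with ⟨M, hM | hM⟩
    · have h2 : m / 2 = M := by omega
      have h3 : (m + 1) / 2 = M := by omega
      rw [h3]
      rw [h2] at key ⊢
      rw [key]
      have : (-144 * ((M : ℚ) + 1) ^ 2 + (288 * m + 360) * (M + 1) - 108 * (m + 1) * (m + 2)) = 0 := by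
        rw [hM]; push_cast; ring
      simp only [this]
      ring
    · have h2 : m / 2 = M := by omega
      have h3 : (m + 1) / 2 = M + 1 := by omega
      rw [h3]
      rw [h2] at key ⊢
      rw [sum_range_succ, key]
      have e1 : m + 1 - 2 * (M + 1) = 0 := by omega
      have e2 : m - 2 * M = 0 + 1 := by omega
      simp only [e1, e2]
      rw [pc_i M 0, show (0 : ℕ) + 2 = (0 + 1) + 1 by rfl, pc_r M (0 + 1)]
      rw [hM]
      push_cast
      field_simp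
      ring
  · intro i hi
    obtain ⟨r, rfl⟩ : ∃ r, m = 2 * i + r := ⟨m - 2 * i, by omega⟩
    have e1 : 2 * i + r + 1 - 2 * i = r + 1 := by omega
    have e2 : 2 * i + r - 2 * i = r := by omega
    simp only [e1, e2]
    rw [pc_r]
    congr 1
    push_cast
    congr 1 <;> ring
  · intro i hi
    obtain ⟨r, rfl⟩ : ∃ r, m = 2 * i + r + 2 := ⟨m - 2 * i - 2, by omega⟩
    have e1 : 2 * i + r + 2 - 2 * (i + 1) = r := by omega
    have e2 : 2 * i + r + 2 - 2 * i = r + 2 := by omega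
    simp only [e1, e2]
    rw [pc_i]
    congr 1
    push_cast
    congr 2 <;> ring
  · push_cast
    simp only [sub_zero, mul_zero]
    field_simp
    ring
  · intro i hi
    obtain ⟨r, rfl⟩ : ∃ r, m = 2 * i + r + 2 := ⟨m - 2 * i - 2, by omega⟩
    push_cast
    have e1 : (2 * (i : ℚ) + r + 2) - i = i + r + 2 := by ring
    have e2 : (2 * (i : ℚ) + r + 2) - 2 * i = r + 2 := by ring
    have e3 : (r : ℚ) + 2 - 1 = r + 1 := by ring
    have e4 : (i : ℚ) + r + 2 - 5 / 6 = i + r + 7 / 6 := by ring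
    have e5 : (i : ℚ) + r + 2 - 2 / 3 = i + r + 4 / 3 := by ring
    have e6 : 1 / 6 + (2 * (i : ℚ) + r + 2) - (i + 1) = i + r + 7 / 6 := by ring
    have e7 : 1 / 3 + (2 * (i : ℚ) + r + 2) - (i + 1) = i + r + 4 / 3 := by ring
    have e8 : (2 * (i : ℚ) + r + 2) - (i + 1) + 1 = i + r + 2 := by ring
    have e9 : (2 * (i : ℚ) + r + 2) - 2 * (i + 1) + 1 = r + 1 := by ring
    simp only [e1, e2, e3, e4, e5, e6, e7, e8, e9]
    field_simp
    ring

theorem I5 (m : ℕ) : ∑ i ∈ range (m / 2 + 1), pc i (m - 2 * i) =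
    poch (1 / 3) m * poch (2 / 3) m / ((m.factorial : ℚ)) ^ 2 := by
  induction m with
  | zero => simp [pc, poch_zero]
  | succ m ih =>
    rw [I5_step, ih, poch_succ, poch_succ, Nat.factorial_succ]
    have h1 : (m.factorial : ℚ) ≠ 0 := by positivity
    push_cast
    field_simp
    ring

/-- coefficient of the second quadratic transformation, with `n + 1 = i + r` -/
def qc (i r : ℕ) : ℚ := 4 ^ (i + r - 1) * (-1) ^ i * poch (2 / 3) (i + r - 1) * poch (5 / 6) (i + r - 1) *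
  (2 * i + r) / (((i + r - 1).factorial : ℚ) * (i.factorial : ℚ) * (r.factorial : ℚ))

lemma qc_r (i r : ℕ) (h : 1 ≤ i + r) : qc i (r + 1) =
    4 * (2 / 3 + (i + r - 1)) * (5 / 6 + (i + r - 1)) * (2 * i + r + 1) /
      ((i + r) * (r + 1) * (2 * i + r)) * qc i r := by
  obtain ⟨n, hn⟩ : ∃ n, i + r = n + 1 := ⟨i + r - 1, by omega⟩
  have hnq : (i : ℚ) + r = n + 1 := by exact_mod_cast hn
  unfold qc
  rw [show i + (r + 1) - 1 = n + 1 by omega, show i + r - 1 = n by omega, poch_succ, poch_succ,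
    Nat.factorial_succ, Nat.factorial_succ, pow_succ]
  have h1 : (n.factorial : ℚ) ≠ 0 := by positivity
  have h2 : (i.factorial : ℚ) ≠ 0 := by positivity
  have h3 : (r.factorial : ℚ) ≠ 0 := by positivity
  have h4 : (2 * (i : ℚ) + r) ≠ 0 := by
    have h5 : (0 : ℚ) < i + r := by rw [hnq]; positivity
    have h6 : (0 : ℚ) ≤ i := by positivity
    have h7 : (0 : ℚ) < 2 * (i : ℚ) + r := by linarith
    exact ne_of_gt h7
  push_cast
  rw [show (i : ℚ) + r - 1 = n by linarith, hnq]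
  field_simp
  ring

lemma qc_i (i r : ℕ) : qc (i + 1) r = qc i (r + 2) *
    (-((i + r + 1) * (r + 2) * (r + 1) / (4 * (i + r + 2 / 3) * (i + r + 5 / 6) * (i + 1)))) := by
  unfold qc
  rw [show i + (r + 2) - 1 = (i + r) + 1 by omega, show i + 1 + r - 1 = i + r by omega,
    poch_succ, poch_succ, Nat.factorial_succ (i + r),
    Nat.factorial_succ i, show r + 2 = (r + 1) + 1 by ring, Nat.factorial_succ (r + 1),
    Nat.factorial_succ r, pow_succ 4, pow_succ (-1)]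
  have h1 : ((i + r).factorial : ℚ) ≠ 0 := by positivity
  have h2 : (i.factorial : ℚ) ≠ 0 := by positivity
  have h3 : (r.factorial : ℚ) ≠ 0 := by positivity
  push_cast
  field_simp
  ring

theorem I6_step (m : ℕ) : ∑ i ∈ range ((m + 2) / 2 + 1), qc i (m + 2 - 2 * i) =
    ((3 * m + 1) * (3 * m + 2) / (9 * (m + 1) ^ 2) : ℚ) *
      ∑ i ∈ range ((m + 1) / 2 + 1), qc i (m + 1 - 2 * i) := by
  have key := tele2 (fun i => qc i (m + 1 - 2 * i)) (fun i => qc i (m + 2 - 2 * i))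
    (fun i => 4 * (2 / 3 + m - i) * (5 / 6 + m - i) * (m + 2) / ((m - i + 1) * (m + 2 - 2 * i) * (m + 1)))
    (fun i => -((3 * m + 1) * (3 * m + 2) / (9 * (m + 1) ^ 2) : ℚ) *
      ((-144 * ((i : ℚ) + 1) ^ 2 + (288 * m + 504) * (i + 1) - (108 * m ^ 2 + 468 * m + 432)) /
        ((3 * m + 1) * (3 * m + 2))) / 4)
    (fun i => -((m - i) * (m + 1 - 2 * i) * (m - 2 * i) /
      (4 * (m - i - 1 / 3) * (m - i - 1 / 6) * (i + 1)))) ((m + 1) / 2)
    ((3 * m + 1) * (3 * m + 2) / (9 * (m + 1) ^ 2) : ℚ) ?_ ?_ ?_ ?_ ((m + 1) / 2) le_rfl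
  · rcases Nat.even_or_odd' m with ⟨M, hM | hM⟩
    · have h2 : (m + 1) / 2 = M := by omega
      have h3 : (m + 2) / 2 = M + 1 := by omega
      rw [h3]
      rw [h2] at key ⊢
      rw [sum_range_succ, key]
      have e1 : m + 2 - 2 * (M + 1) = 0 := by omega
      have e2 : m + 1 - 2 * M = 0 + 1 := by omega
      simp only [e1, e2]
      rw [qc_i M 0, show (0 : ℕ) + 2 = (0 + 1) + 1 by rfl, qc_r M (0 + 1) (by omega)]
      rw [hM]
      push_cast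
      field_simp
      ring
    · have h2 : (m + 1) / 2 = M + 1 := by omega
      have h3 : (m + 2) / 2 = M + 1 := by omega
      rw [h3]
      rw [h2] at key ⊢
      rw [key]
      have : (-144 * (((M + 1 : ℕ) : ℚ) + 1) ^ 2 + (288 * m + 504) * (((M + 1 : ℕ) : ℚ) + 1) -
          (108 * m ^ 2 + 468 * m + 432)) = 0 := by
        rw [hM]; push_cast; ring
      simp only [this]
      ring
  · intro i hi
    obtain ⟨r, hr⟩ : ∃ r, m + 1 = 2 * i + r := ⟨m + 1 - 2 * i, by omega⟩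
    have hrq : (m : ℚ) = 2 * i + r - 1 := by
      have : (m : ℚ) + 1 = 2 * i + r := by exact_mod_cast hr
      linarith
    have e1 : m + 2 - 2 * i = r + 1 := by omega
    have e2 : m + 1 - 2 * i = r := by omega
    simp only [e1, e2]
    rw [qc_r _ _ (by omega), hrq]
    congr 1
    congr 1 <;> ring
  · intro i hi
    obtain ⟨r, hr⟩ : ∃ r, m + 1 = 2 * i + r + 2 := ⟨m + 1 - 2 * i - 2, by omega⟩
    have hrq : (m : ℚ) = 2 * i + r + 1 := by
      have : (m : ℚ) + 1 = 2 * i + r + 2 := by exact_mod_cast hr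
      linarith
    have e1 : m + 1 - 2 * (i + 1) = r := by omega
    have e2 : m + 1 - 2 * i = r + 2 := by omega
    simp only [e1, e2]
    rw [qc_i, hrq]
    congr 1
    congr 2 <;> ring
  · push_cast
    simp only [sub_zero, mul_zero]
    field_simp
    ring
  · intro i hi
    obtain ⟨r, rfl⟩ : ∃ r, m = 2 * i + r + 1 := ⟨m - 2 * i - 1, by omega⟩
    push_cast
    have e1 : (2 * (i : ℚ) + r + 1) - i = i + r + 1 := by ring
    have e2 : (2 * (i : ℚ) + r + 1) + 1 - 2 * i = r + 2 := by ring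
    have e3 : (2 * (i : ℚ) + r + 1) - 2 * i = r + 1 := by ring
    have e4 : (i : ℚ) + r + 1 - 1 / 3 = i + r + 2 / 3 := by ring
    have e5 : (i : ℚ) + r + 1 - 1 / 6 = i + r + 5 / 6 := by ring
    have e6 : 2 / 3 + (2 * (i : ℚ) + r + 1) - (i + 1) = i + r + 2 / 3 := by ring
    have e7 : 5 / 6 + (2 * (i : ℚ) + r + 1) - (i + 1) = i + r + 5 / 6 := by ring
    have e8 : (2 * (i : ℚ) + r + 1) - (i + 1) + 1 = i + r + 1 := by ring
    have e9 : (2 * (i : ℚ) + r + 1) + 2 - 2 * (i + 1) = r + 1 := by ring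
    simp only [e1, e2, e3, e4, e5, e6, e7, e8, e9]
    field_simp
    ring

theorem I6 (m : ℕ) : ∑ i ∈ range ((m + 1) / 2 + 1), qc i (m + 1 - 2 * i) =
    poch (1 / 3) m * poch (2 / 3) m / ((m.factorial : ℚ)) ^ 2 := by
  induction m with
  | zero => simp [qc, poch_zero]
  | succ m ih =>
    rw [show m + 1 + 1 = m + 2 by rfl, I6_step, ih, poch_succ, poch_succ, Nat.factorial_succ]
    have h1 : (m.factorial : ℚ) ≠ 0 := by positivity
    push_cast
    field_simp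
    ring

end SC24
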