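import Pool.Agent.SC24.GamP
import Pool.Agent.SC24.Hyp

/-!
Truncated hypergeometric sums in `ZMod (p^2)`: interpolation between two parameters.
-/

namespace SC24

open Finset

section
variable {p : ℕ} [hp : Fact p.Prime]

/-- affine functions with slope divisible by `p` -/
def IsAff (p : ℕ) (f : ZMod (p ^ (2:ℕ)) → ZMod (p ^ (2:ℕ))) : Prop :=
  ∃ D, ∀ s, f s = f 0 + P2 p * (s * D)

lemma IsAff.const (c : ZMod (p ^ (2:ℕ))) : IsAff p (fun _ => c) := ⟨0, fun s => by ring⟩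

lemma IsAff.lin (a α : ZMod (p ^ (2:ℕ))) : IsAff p (fun s => a + P2 p * (α * s)) :=
  ⟨α, fun s => by ring⟩

lemma IsAff.mul {f g : ZMod (p ^ (2:ℕ)) → ZMod (p ^ (2:ℕ))} (hf : IsAff p f) (hg : IsAff p g) :
    IsAff p (fun s => f s * g s) := by
  obtain ⟨D, hD⟩ := hf
  obtain ⟨E, hE⟩ := hg
  refine ⟨f 0 * E + g 0 * D, fun s => ?_⟩
  show f s * g s = f 0 * g 0 + _
  rw [hD s, hE s]
  linear_combination (s * D * s * E) * P2_mul_self p

lemma IsAff.add {f g : ZMod (p ^ (2:ℕ)) → ZMod (p ^ (2:ℕ))} (hf : IsAff p f) (hg : IsAff p g) :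
    IsAff p (fun s => f s + g s) := by
  obtain ⟨D, hD⟩ := hf
  obtain ⟨E, hE⟩ := hg
  refine ⟨D + E, fun s => ?_⟩
  show f s + g s = f 0 + g 0 + _
  rw [hD s, hE s]
  ring

lemma IsAff.sum {ι : Type*} (t : Finset ι) (f : ι → ZMod (p ^ (2:ℕ)) → ZMod (p ^ (2:ℕ)))
    (h : ∀ i ∈ t, IsAff p (f i)) : IsAff p (fun s => ∑ i ∈ t, f i s) := by
  classical
  induction t using Finset.induction_on with
  | empty => simpa using IsAff.const (p := p) 0
  | insert a t ha ih =>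
    simp only [sum_insert ha]
    exact (h a (mem_insert_self _ _)).add (ih (fun i hi => h i (mem_insert_of_mem hi)))

lemma IsAff.prod {ι : Type*} (t : Finset ι) (f : ι → ZMod (p ^ (2:ℕ)) → ZMod (p ^ (2:ℕ)))
    (h : ∀ i ∈ t, IsAff p (f i)) : IsAff p (fun s => ∏ i ∈ t, f i s) := by
  classical
  induction t using Finset.induction_on with
  | empty => simpa using IsAff.const (p := p) 1
  | insert a t ha ih =>
    simp only [prod_insert ha]
    exact (h a (mem_insert_self _ _)).mul (ih (fun i hi => h i (mem_insert_of_mem hi)))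

lemma IsAff.inv {f : ZMod (p ^ (2:ℕ)) → ZMod (p ^ (2:ℕ))} (hf : IsAff p f) (h0 : IsUnit (f 0)) :
    IsAff p (fun s => (f s)⁻¹) := by
  obtain ⟨D, hD⟩ := hf
  have h1 : f 0 * (f 0)⁻¹ = 1 := ZMod.mul_inv_of_unit _ h0
  refine ⟨-D * (f 0)⁻¹ * (f 0)⁻¹, fun s => ?_⟩
  show (f s)⁻¹ = (f 0)⁻¹ + _
  apply ZMod.inv_eq_of_mul_eq_one
  rw [hD s]
  generalize (f 0)⁻¹ = y at *
  generalize f 0 = x at *
  linear_combination (1 - P2 p * s * D * y) * h1 - (s * s * D * D * y * y) * P2_mul_self p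

lemma isAff_poch {a : ZMod (p ^ (2:ℕ)) → ZMod (p ^ (2:ℕ))} (ha : IsAff p a) (k : ℕ) :
    IsAff p (fun s => poch (a s) k) := by
  unfold poch
  exact IsAff.prod _ _ (fun i _ => ha.add (IsAff.const _))

/-- truncated hypergeometric sum at `1/2` in `ZMod (p^2)` -/
def hs (p : ℕ) (a b c : ZMod (p ^ (2:ℕ))) : ZMod (p ^ (2:ℕ)) :=
  ∑ k ∈ range p, poch a k * poch b k * (poch c k * (k.factorial : ZMod (p ^ (2:ℕ))))⁻¹ * (2⁻¹) ^ k

lemma isUnit_factorial {k : ℕ} (hk : k < p) : IsUnit (k.factorial : ZMod (p ^ (2:ℕ))) :=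
  isUnit_nat dvd_rfl (by rw [hp.out.dvd_factorial]; omega)

/-- the lower parameter is admissible -/
def Adm (p : ℕ) (c : ZMod (p ^ (2:ℕ))) : Prop := red p c = 1

lemma isUnit_poch_adm {c : ZMod (p ^ (2:ℕ))} (hc : Adm p c) {k : ℕ} (hk : k < p) : IsUnit (poch c k) := by
  rw [isUnit_iff_red]
  unfold poch
  rw [map_prod]
  rw [Finset.prod_ne_zero_iff]
  intro j hj
  have hj' := mem_range.mp hj
  rw [map_add, hc, map_natCast]
  have : ((j + 1 : ℕ) : ZMod p) ≠ 0 := by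
    rw [Ne, ZMod.natCast_eq_zero_iff]
    intro h; exact absurd (Nat.le_of_dvd (by omega) h) (by omega)
  push_cast at this
  rwa [add_comm]

lemma isAff_hs {a b c : ZMod (p ^ (2:ℕ)) → ZMod (p ^ (2:ℕ))} (ha : IsAff p a) (hb : IsAff p b)
    (hc : IsAff p c) (h0 : Adm p (c 0)) : IsAff p (fun s => hs p (a s) (b s) (c s)) := by
  unfold hs
  apply IsAff.sum
  intro k hk
  have hk' := mem_range.mp hk
  apply IsAff.mul _ (IsAff.const _)
  apply IsAff.mul ((isAff_poch ha k).mul (isAff_poch hb k))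
  apply IsAff.inv ((isAff_poch hc k).mul (IsAff.const _))
  exact (isUnit_poch_adm h0 hk').mul (isUnit_factorial hk')

/-- interpolation of Fermat quotients -/
lemma interp {f : ZMod (p ^ (2:ℕ)) → ZMod (p ^ (2:ℕ))} (hf : IsAff p f) (s1 s2 : ZMod (p ^ (2:ℕ)))
    (h : IsUnit (f (-s1))) :
    IsUnit (f 0) ∧ IsUnit (f s2) ∧ red p (f 0) = red p (f (-s1)) ∧ red p (f s2) = red p (f (-s1)) ∧
      s2 * Lq p (f (-s1)) + s1 * Lq p (f s2) = (s1 + s2) * Lq p (f 0) := by
  obtain ⟨D, hD⟩ := hf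
  have h1 : red p (f 0) = red p (f (-s1)) := by rw [hD (-s1), map_add, map_mul, red_P]; ring
  have h2 : red p (f s2) = red p (f (-s1)) := by rw [← h1, hD s2, map_add, map_mul, red_P]; ring
  have h0 : IsUnit (f 0) := by rw [isUnit_iff_red] at h ⊢; rwa [h1]
  have h3 : IsUnit (f s2) := by rw [isUnit_iff_red] at h ⊢; rwa [h2]
  refine ⟨h0, h3, h1, h2, ?_⟩
  rw [hD (-s1), hD s2, Lq_add_P h0, Lq_add_P h0]
  ring

lemma red_hs_eq {f : ZMod (p ^ (2:ℕ)) → ZMod (p ^ (2:ℕ))} (hf : IsAff p f) (s : ZMod (p ^ (2:ℕ))) :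
    red p (f 0) = red p (f s) := by
  obtain ⟨D, hD⟩ := hf
  rw [hD s, map_add, map_mul, red_P]; ring

lemma isUnit_two (h2 : 2 < p) : IsUnit (2 : ZMod (p ^ (2:ℕ))) := by
  have := isUnit_nat (p := p) (M := p ^ 2) dvd_rfl (b := 2) (by
    intro h; exact absurd (Nat.le_of_dvd (by norm_num) h) (by omega))
  exact_mod_cast this

lemma isUnit_num {n : ℕ} (h : ¬ p ∣ n) : IsUnit (n : ZMod (p ^ (2:ℕ))) := isUnit_nat dvd_rfl h

lemma red_tm (h2 : 2 < p) {a b c : ℚ} {ra rb rc : ZMod (p ^ (2:ℕ))} (ha : Red p (p ^ 2) a ra)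
    (hb : Red p (p ^ 2) b rb) (hc : Red p (p ^ 2) c rc) (hadm : Adm p rc) {k : ℕ} (hk : k < p) :
    Red p (p ^ 2) (tm a b c k)
      (poch ra k * poch rb k * (poch rc k * (k.factorial : ZMod (p ^ (2:ℕ))))⁻¹ * (2⁻¹) ^ k) := by
  unfold tm
  have hpp : p ∣ p ^ 2 := dvd_pow_self p two_ne_zero
  apply Red.mul
  · exact Red.div dvd_rfl hpp ((poch_red ha k).mul (poch_red hb k)) ((poch_red hc k).mul (Red.nat _))
      ((isUnit_poch_adm hadm hk).mul (isUnit_factorial hk))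
  · apply Red.pow
    have := Red.inv (p := p) (M := p ^ 2) dvd_rfl hpp (Red.nat 2) (by exact_mod_cast isUnit_two h2)
    simpa using this

lemma poch_neg_nat {N k : ℕ} (h : N < k) : poch (-(N : ZMod (p ^ (2:ℕ)))) k = 0 := by
  unfold poch
  exact Finset.prod_eq_zero (mem_range.mpr h) (by ring)

lemma red_hs_nat (h2 : 2 < p) {N : ℕ} (hN : N < p) {b c : ℚ} {rb rc : ZMod (p ^ (2:ℕ))}
    (hb : Red p (p ^ 2) b rb) (hc : Red p (p ^ 2) c rc) (hadm : Adm p rc) :
    Red p (p ^ 2) (∑ k ∈ range (N + 1), tm (-(N : ℚ)) b c k) (hs p (-(N : ZMod (p ^ (2:ℕ)))) rb rc) := by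
  unfold hs
  rw [← Finset.sum_subset (s₁ := range (N + 1)) (s₂ := range p)]
  · apply Red.sum
    intro k hk
    exact red_tm h2 (Red.nat N).neg hb hc hadm (by have := mem_range.mp hk; omega)
  · intro k hk; rw [mem_range] at hk ⊢; omega
  · intro k hk hk'
    rw [mem_range] at hk hk'
    rw [poch_neg_nat (by omega)]; ring

lemma hs_comm (a b c : ZMod (p ^ (2:ℕ))) : hs p a b c = hs p b a c := by
  unfold hs
  apply Finset.sum_congr rfl
  intro k _; ring

/-- product of the unit parts of an arithmetic progression -/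
noncomputable def PiR (p a d N : ℕ) : ZMod (p ^ (2:ℕ)) :=
  ∏ j ∈ range N, tt p ((a : ZMod (p ^ (2:ℕ))) + (d : ZMod (p ^ (2:ℕ))) * (j : ZMod (p ^ (2:ℕ))))

/-- the product `∏ (a + d j)` is `p^z m A'` where `A'` reduces to `PiR` -/
def APd (p a d N z m : ℕ) : Prop :=
  ∃ A' : ℕ, ∏ j ∈ range N, (a + d * j) = p ^ z * m * A' ∧ (A' : ZMod (p ^ (2:ℕ))) = PiR p a d N ∧
    ((range N).filter (fun j => ¬ p ∣ a + d * j)).card + z = N

lemma apd0 {a d N : ℕ} (h : ∀ j < N, ¬ p ∣ a + d * j) : APd p a d N 0 1 := by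
  refine ⟨∏ j ∈ range N, (a + d * j), by simp, ?_, ?_⟩
  · unfold PiR
    push_cast
    apply Finset.prod_congr rfl
    intro j hj
    rw [tt_unit]
    have := isUnit_num (p := p) (h j (mem_range.mp hj))
    push_cast at this
    exact this
  · rw [Finset.filter_true_of_mem (fun j hj => h j (mem_range.mp hj)), card_range, add_zero]

lemma apd1 {a d N m j0 : ℕ} (hj0 : j0 < N) (h : a + d * j0 = m * p) (hd : ¬ p ∣ d) (hN : N ≤ p) :
    APd p a d N 1 m := by
  have huniq : ∀ j < N, j ≠ j0 → ¬ p ∣ a + d * j := by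
    intro j hj hne hdvd
    have h1 : (p : ℤ) ∣ (a + d * j : ℕ) := by exact_mod_cast hdvd
    have h3 : (p : ℤ) ∣ (a + d * j0 : ℕ) := by rw [h]; exact ⟨m, by push_cast; ring⟩
    have h4 := dvd_sub h1 h3
    have h5 : ((a + d * j : ℕ) : ℤ) - (a + d * j0 : ℕ) = d * ((j : ℤ) - j0) := by push_cast; ring
    rw [h5] at h4
    rcases (Nat.prime_iff_prime_int.mp hp.out).dvd_or_dvd h4 with h6 | h6
    · exact hd (by exact_mod_cast h6)
    · have h7 : ((j : ℤ) - j0) = 0 := by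
        apply Int.eq_zero_of_abs_lt_dvd h6
        rw [abs_lt]
        constructor <;> omega
      apply hne; omega
  refine ⟨∏ j ∈ (range N).erase j0, (a + d * j), ?_, ?_, ?_⟩
  · rw [← Finset.mul_prod_erase (range N) (fun j => a + d * j) (mem_range.mpr hj0), h]
    ring
  · unfold PiR
    rw [← Finset.mul_prod_erase (range N) _ (mem_range.mpr hj0)]
    have : ¬ IsUnit ((a : ZMod (p ^ (2:ℕ))) + (d : ZMod (p ^ (2:ℕ))) * (j0 : ZMod (p ^ (2:ℕ)))) := by
      rw [isUnit_iff_red, not_not]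
      have h8 := congrArg (Nat.cast : ℕ → ZMod p) h
      push_cast at h8
      rw [ZMod.natCast_self, mul_zero] at h8
      simpa using h8
    rw [tt_nonunit this, one_mul]
    push_cast
    apply Finset.prod_congr rfl
    intro j hj
    rw [mem_erase, mem_range] at hj
    rw [tt_unit]
    have := isUnit_num (p := p) (huniq j hj.2 hj.1)
    push_cast at this
    exact this
  · have : (range N).filter (fun j => ¬ p ∣ a + d * j) = (range N).erase j0 := by
      ext j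
      rw [mem_filter, mem_erase, mem_range]
      constructor
      · rintro ⟨h1, h3⟩
        refine ⟨?_, h1⟩
        rintro rfl
        exact h3 ⟨m, by rw [h]; ring⟩
      · rintro ⟨h1, h3⟩
        exact ⟨h3, huniq j h3 h1⟩
    rw [this, card_erase_of_mem (mem_range.mpr hj0), card_range]
    omega

lemma cntI_eq {a d N : ℕ} {x : ZMod (p ^ (2:ℕ))} (hd : ¬ p ∣ d)
    (hx : (d : ZMod (p ^ (2:ℕ))) * x = a) :
    cntI p x N = ((range N).filter (fun j => ¬ p ∣ a + d * j)).card := by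
  unfold cntI
  congr 1
  ext j
  rw [mem_filter, mem_filter, ← isUnit_add_nat]
  refine and_congr_right (fun _ => ?_)
  have hdu := isUnit_num (p := p) hd
  have h1 : IsUnit (x + (j : ZMod (p ^ (2:ℕ)))) ↔ IsUnit (((a + d * j : ℕ)) : ZMod (p ^ (2:ℕ))) := by
    have h3 : (((a + d * j : ℕ)) : ZMod (p ^ (2:ℕ))) = d * (x + j) := by
      push_cast; rw [← hx]; ring
    rw [h3]
    constructor
    · intro h; exact hdu.mul h
    · intro h; exact isUnit_of_mul_isUnit_right h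
  rw [h1, isUnit_iff_red, map_natCast, Ne, ZMod.natCast_eq_zero_iff]

lemma apd_Lq (h2 : 2 < p) {a d N z : ℕ} (hd : ¬ p ∣ d) {x : ZMod (p ^ (2:ℕ))}
    (hx : (d : ZMod (p ^ (2:ℕ))) * x = a)
    (hc : ((range N).filter (fun j => ¬ p ∣ a + d * j)).card + z = N) :
    Lq p (PiR p a d N) = gam p (x + N) - gam p x + ((N : ZMod (p ^ (2:ℕ))) - z) * Lq p d := by
  have h1 := Lq_prod_tt h2 (x := x) (isUnit_num (p := p) hd) N
  rw [cntI_eq hd hx] at h1
  unfold PiR
  rw [← hx, h1]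
  have h3 : (((range N).filter (fun j => ¬ p ∣ a + d * j)).card : ZMod (p ^ (2:ℕ))) + z = N := by
    exact_mod_cast congrArg (Nat.cast : ℕ → ZMod (p ^ (2:ℕ))) hc
  linear_combination (Lq p d) * h3

lemma apd_red (h2 : 2 < p) {a d N z : ℕ} (hd : ¬ p ∣ d) {x : ZMod (p ^ (2:ℕ))}
    (hx : (d : ZMod (p ^ (2:ℕ))) * x = a)
    (hc : ((range N).filter (fun j => ¬ p ∣ a + d * j)).card + z = N) :
    red p (PiR p a d N) * Gp p (red p x) * (d : ZMod p) ^ z =
      (d : ZMod p) ^ N * (-1) ^ N * Gp p (red p x + N) := by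
  have h1 := red_prod_tt h2 (x := x) (isUnit_num (p := p) hd) N
  rw [cntI_eq hd hx, map_natCast] at h1
  unfold PiR
  rw [← hx, h1]
  conv_rhs => rw [← hc]
  rw [pow_add]
  rw [hc]
  ring

end

end SC24
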