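import Pool.Agent.SC24.Red

/-!
Fermat quotients in `ZMod (p^2)` and the additive Gamma function.
-/

namespace SC24

open Finset

/-- reduction map -/
abbrev red (p : ℕ) : ZMod (p ^ (2:ℕ)) →+* ZMod p := ZMod.castHom (dvd_pow_self p two_ne_zero) (ZMod p)

/-- `p` in `ZMod (p ^ (2:ℕ))` -/
abbrev P2 (p : ℕ) : ZMod (p ^ (2:ℕ)) := (p : ZMod (p ^ (2:ℕ)))

lemma P2_mul_self (p : ℕ) : P2 p * P2 p = 0 := by
  have : ((p ^ 2 : ℕ) : ZMod (p ^ (2:ℕ))) = 0 := ZMod.natCast_self _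
  rw [← this, P2]; push_cast; ring

section
variable {p : ℕ} [hp : Fact p.Prime]

instance neZero_sq : NeZero (p ^ 2) := ⟨pow_ne_zero 2 hp.out.ne_zero⟩

lemma red_P : red p (P2 p) = 0 := by simp [P2]

lemma exists_P_of_red {x : ZMod (p ^ (2:ℕ))} (h : red p x = 0) : ∃ c, x = P2 p * c := by
  have h1 : x = ((x.val : ℕ) : ZMod (p ^ (2:ℕ))) := (ZMod.natCast_zmod_val x).symm
  rw [h1, map_natCast, ZMod.natCast_eq_zero_iff] at h
  obtain ⟨c, hc⟩ := h
  exact ⟨c, by rw [h1, hc, P2]; push_cast; ring⟩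

lemma isUnit_iff_red (x : ZMod (p ^ (2:ℕ))) : IsUnit x ↔ red p x ≠ 0 := by
  constructor
  · intro h
    exact (h.map (red p)).ne_zero
  · intro h
    have h1 : x = ((x.val : ℕ) : ZMod (p ^ (2:ℕ))) := (ZMod.natCast_zmod_val x).symm
    rw [h1, map_natCast, Ne, ZMod.natCast_eq_zero_iff] at h
    rw [h1]
    exact isUnit_nat dvd_rfl h

lemma exists_P_of_not_isUnit {x : ZMod (p ^ (2:ℕ))} (h : ¬ IsUnit x) : ∃ c, x = P2 p * c := by
  rw [isUnit_iff_red, not_not] at h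
  exact exists_P_of_red h

lemma isUnit_add_P (x c : ZMod (p ^ (2:ℕ))) : IsUnit (x + P2 p * c) ↔ IsUnit x := by
  rw [isUnit_iff_red, isUnit_iff_red, map_add, map_mul, red_P, zero_mul, add_zero]

open Classical in
/-- Fermat quotient (times `p`), extended by zero -/
noncomputable def Lq (p : ℕ) (x : ZMod (p ^ (2:ℕ))) : ZMod (p ^ (2:ℕ)) := if IsUnit x then x ^ (p - 1) - 1 else 0

lemma Lq_unit {x : ZMod (p ^ (2:ℕ))} (h : IsUnit x) : Lq p x = x ^ (p - 1) - 1 := by simp [Lq, h]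

lemma Lq_nonunit {x : ZMod (p ^ (2:ℕ))} (h : ¬ IsUnit x) : Lq p x = 0 := by simp [Lq, h]

lemma Lq_P (x : ZMod (p ^ (2:ℕ))) : ∃ c, Lq p x = P2 p * c := by
  by_cases h : IsUnit x
  · apply exists_P_of_red
    rw [Lq_unit h, map_sub, map_pow, map_one, ZMod.pow_card_sub_one_eq_one ((isUnit_iff_red x).mp h),
      sub_self]
  · exact ⟨0, by rw [Lq_nonunit h, mul_zero]⟩

lemma P_mul_Lq (x : ZMod (p ^ (2:ℕ))) : P2 p * Lq p x = 0 := by
  obtain ⟨c, hc⟩ := Lq_P x
  rw [hc, ← mul_assoc, P2_mul_self, zero_mul]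

lemma Lq_mul_Lq (x y : ZMod (p ^ (2:ℕ))) : Lq p x * Lq p y = 0 := by
  obtain ⟨c, hc⟩ := Lq_P x
  rw [hc, mul_right_comm, P_mul_Lq, zero_mul]

lemma Lq_mul {x y : ZMod (p ^ (2:ℕ))} (hx : IsUnit x) (hy : IsUnit y) : Lq p (x * y) = Lq p x + Lq p y := by
  have h := Lq_mul_Lq x y
  rw [Lq_unit hx, Lq_unit hy] at h
  rw [Lq_unit (hx.mul hy), Lq_unit hx, Lq_unit hy, mul_pow]
  linear_combination h

@[simp] lemma Lq_one : Lq p (1 : ZMod (p ^ (2:ℕ))) = 0 := by
  rw [Lq_unit isUnit_one]; simp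

@[simp] lemma Lq_zero : Lq p (0 : ZMod (p ^ (2:ℕ))) = 0 := by
  have : ¬ IsUnit (0 : ZMod (p ^ (2:ℕ))) := by rw [isUnit_iff_red]; simp
  exact Lq_nonunit this

lemma Lq_neg (h2 : 2 < p) (x : ZMod (p ^ (2:ℕ))) : Lq p (-x) = Lq p x := by
  by_cases h : IsUnit x
  · rw [Lq_unit h, Lq_unit h.neg]
    have : Even (p - 1) := by
      have := hp.out.eq_two_or_odd
      rcases this with h | h
      · omega
      · exact ⟨(p - 1) / 2, by omega⟩
    rw [this.neg_pow]
  · rw [Lq_nonunit h, Lq_nonunit (by rwa [IsUnit.neg_iff])]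

lemma isUnit_inv' {x : ZMod (p ^ (2:ℕ))} (h : IsUnit x) : IsUnit x⁻¹ :=
  IsUnit.of_mul_eq_one x (by rw [mul_comm]; exact ZMod.mul_inv_of_unit _ h)

lemma Lq_inv {x : ZMod (p ^ (2:ℕ))} (h : IsUnit x) : Lq p x⁻¹ = - Lq p x := by
  have h1 : x * x⁻¹ = 1 := ZMod.mul_inv_of_unit _ h
  have := Lq_mul h (isUnit_inv' h)
  rw [h1, Lq_one] at this
  linear_combination -this

lemma Lq_one_add (c : ZMod (p ^ (2:ℕ))) : Lq p (1 + P2 p * c) = - (P2 p * c) := by
  have hu : IsUnit (1 + P2 p * c) := by rw [isUnit_add_P]; exact isUnit_one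
  rw [Lq_unit hu]
  have key : ∀ n : ℕ, (1 + P2 p * c) ^ n = 1 + n * (P2 p * c) := by
    intro n
    induction n with
    | zero => simp
    | succ n ih =>
      rw [pow_succ (1 + P2 p * c) n, ih]; push_cast
      linear_combination (n : ZMod (p ^ (2:ℕ))) * c * c * P2_mul_self p
  rw [key, Nat.cast_sub hp.out.one_le]
  push_cast
  linear_combination c * P2_mul_self p

lemma Lq_add_P {x : ZMod (p ^ (2:ℕ))} (h : IsUnit x) (c : ZMod (p ^ (2:ℕ))) :
    Lq p (x + P2 p * c) = Lq p x - P2 p * c * x⁻¹ := by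
  have h1 : x * x⁻¹ = 1 := ZMod.mul_inv_of_unit _ h
  have : x + P2 p * c = x * (1 + P2 p * (c * x⁻¹)) := by linear_combination (-P2 p * c) * h1
  rw [this, Lq_mul h (by rw [isUnit_add_P]; exact isUnit_one), Lq_one_add]
  ring

lemma Lq_pow {x : ZMod (p ^ (2:ℕ))} (h : IsUnit x) (n : ℕ) : Lq p (x ^ n) = n * Lq p x := by
  induction n with
  | zero => simp
  | succ n ih => rw [pow_succ x n, Lq_mul (h.pow n) h, ih]; push_cast; ring

/-- units are determined by their reduction mod `p` and their Fermat quotient -/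
lemma eq_of_Lq {x y : ZMod (p ^ (2:ℕ))} (hx : IsUnit x) (hr : red p x = red p y)
    (hL : Lq p x = Lq p y) : x = y := by
  have hy : IsUnit y := by rw [isUnit_iff_red] at hx ⊢; rwa [← hr]
  obtain ⟨c, hc⟩ := exists_P_of_red (x := x - y) (by rw [map_sub, hr, sub_self])
  have h1 : x = y + P2 p * c := by linear_combination hc
  rw [h1, Lq_add_P hy] at hL
  have h2 : P2 p * c * y⁻¹ = 0 := by linear_combination -hL
  have h3 : y * y⁻¹ = 1 := ZMod.mul_inv_of_unit _ hy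
  rw [h1]
  linear_combination (-P2 p * c) * h3 + y * h2

open Classical in
/-- the product form: `t x = x` on units and `1` elsewhere -/
noncomputable def tt (p : ℕ) (x : ZMod (p ^ (2:ℕ))) : ZMod (p ^ (2:ℕ)) := if IsUnit x then x else 1

lemma tt_unit {x : ZMod (p ^ (2:ℕ))} (h : IsUnit x) : tt p x = x := by simp [tt, h]

lemma tt_nonunit {x : ZMod (p ^ (2:ℕ))} (h : ¬ IsUnit x) : tt p x = 1 := by simp [tt, h]

lemma isUnit_tt (x : ZMod (p ^ (2:ℕ))) : IsUnit (tt p x) := by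
  by_cases h : IsUnit x
  · rwa [tt_unit h]
  · rw [tt_nonunit h]; exact isUnit_one

lemma Lq_tt (x : ZMod (p ^ (2:ℕ))) : Lq p (tt p x) = Lq p x := by
  by_cases h : IsUnit x
  · rw [tt_unit h]
  · rw [tt_nonunit h, Lq_nonunit h, Lq_one]

lemma Lq_prod {ι : Type*} (s : Finset ι) (f : ι → ZMod (p ^ (2:ℕ))) (h : ∀ i ∈ s, IsUnit (f i)) :
    Lq p (∏ i ∈ s, f i) = ∑ i ∈ s, Lq p (f i) := by
  classical
  induction s using Finset.induction_on with
  | empty => simp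
  | insert a s ha ih =>
    rw [prod_insert ha, sum_insert ha, Lq_mul (h a (mem_insert_self _ _)) ?_,
      ih (fun i hi => h i (mem_insert_of_mem hi))]
    exact IsUnit.prod_iff.mpr (fun i hi => h i (mem_insert_of_mem hi))

lemma two_cancel (h2 : 2 < p) {x : ZMod (p ^ (2:ℕ))} (h : x = -x) : x = 0 := by
  have h1 : IsUnit ((2 : ℕ) : ZMod (p ^ (2:ℕ))) := isUnit_nat (p := p) dvd_rfl (by
    intro h; exact absurd (Nat.le_of_dvd (by norm_num) h) (by omega))
  have h3 : ((2 : ℕ) : ZMod (p ^ (2:ℕ))) * x = ((2 : ℕ) : ZMod (p ^ (2:ℕ))) * 0 := by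
    push_cast; linear_combination h
  exact h1.mul_right_injective h3

lemma sum_Lq (h2 : 2 < p) : ∑ x : ZMod (p ^ (2:ℕ)), Lq p x = 0 := by
  classical
  have h0 : ∑ x : ZMod (p ^ (2:ℕ)), Lq p x = ∑ u : (ZMod (p ^ (2:ℕ)))ˣ, Lq p (u : ZMod (p ^ (2:ℕ))) := by
    rw [← Finset.sum_filter_add_sum_filter_not univ (fun x : ZMod (p ^ (2:ℕ)) => IsUnit x)]
    rw [Finset.sum_eq_zero (s := univ.filter (fun x : ZMod (p ^ (2:ℕ)) => ¬ IsUnit x)) (fun x hx => by
      rw [mem_filter] at hx; exact Lq_nonunit hx.2), add_zero]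
    symm
    refine Finset.sum_bij (fun u _ => (u : ZMod (p ^ (2:ℕ)))) ?_ ?_ ?_ ?_
    · intro u _; simp
    · intro u _ v _ h; exact Units.ext h
    · intro x hx
      rw [mem_filter] at hx
      obtain ⟨u, hu⟩ := hx.2
      exact ⟨u, mem_univ _, hu⟩
    · intro u _; rfl
  rw [h0]
  apply two_cancel h2
  calc ∑ u : (ZMod (p ^ (2:ℕ)))ˣ, Lq p (u : ZMod (p ^ (2:ℕ)))
      = ∑ u : (ZMod (p ^ (2:ℕ)))ˣ, Lq p ((u⁻¹ : (ZMod (p ^ (2:ℕ)))ˣ) : ZMod (p ^ (2:ℕ))) :=
        (Equiv.sum_comp (Equiv.inv _) (fun u : (ZMod (p ^ (2:ℕ)))ˣ => Lq p (u : ZMod (p ^ (2:ℕ))))).symm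
    _ = ∑ u : (ZMod (p ^ (2:ℕ)))ˣ, - Lq p (u : ZMod (p ^ (2:ℕ))) := by
        apply Finset.sum_congr rfl
        intro u _
        rw [← ZMod.inv_coe_unit, Lq_inv u.isUnit]
    _ = _ := by rw [Finset.sum_neg_distrib]

/-- additive Gamma function on `ZMod (p ^ (2:ℕ))` -/
noncomputable def gam (p : ℕ) (x : ZMod (p ^ (2:ℕ))) : ZMod (p ^ (2:ℕ)) := ∑ j ∈ range x.val, Lq p (j : ZMod (p ^ (2:ℕ)))

lemma sum_range_Lq (h2 : 2 < p) : ∑ j ∈ range (p ^ 2), Lq p (j : ZMod (p ^ (2:ℕ))) = 0 := by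
  rw [← sum_Lq h2]
  refine Finset.sum_bij (fun j _ => (j : ZMod (p ^ (2:ℕ)))) ?_ ?_ ?_ ?_
  · intro u _; simp
  · intro u hu v hv h
    have := congrArg ZMod.val h
    rw [ZMod.val_natCast_of_lt (mem_range.mp hu), ZMod.val_natCast_of_lt (mem_range.mp hv)] at this
    exact this
  · intro x _
    exact ⟨x.val, mem_range.mpr (ZMod.val_lt x), ZMod.natCast_zmod_val x⟩
  · intro u _; rfl

@[simp] lemma gam_zero : gam p (0 : ZMod (p ^ (2:ℕ))) = 0 := by simp [gam]

lemma gam_succ (h2 : 2 < p) (x : ZMod (p ^ (2:ℕ))) : gam p (x + 1) = gam p x + Lq p x := by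
  unfold gam
  have hx : ((x.val : ℕ) : ZMod (p ^ (2:ℕ))) = x := ZMod.natCast_zmod_val x
  have h1 : 1 < p ^ 2 := Nat.one_lt_pow two_ne_zero hp.out.one_lt
  have : Fact (1 < p ^ 2) := ⟨h1⟩
  have hv : (x + 1).val = (x.val + 1) % (p ^ 2) := by
    rw [ZMod.val_add, ZMod.val_one]
  rcases Nat.lt_or_ge (x.val + 1) (p ^ 2) with h | h
  · rw [hv, Nat.mod_eq_of_lt h, sum_range_succ, hx]
  · have h3 : x.val + 1 = p ^ 2 := le_antisymm (ZMod.val_lt x) h
    rw [hv, h3, Nat.mod_self, range_zero, sum_empty]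
    have := sum_range_Lq (p := p) h2
    have h4 : range (p ^ 2) = range (x.val + 1) := by rw [h3]
    rw [h4, sum_range_succ, hx] at this
    exact this.symm

lemma gam_add_nat (h2 : 2 < p) (x : ZMod (p ^ (2:ℕ))) (n : ℕ) :
    gam p (x + n) = gam p x + ∑ j ∈ range n, Lq p (x + j) := by
  induction n with
  | zero => simp
  | succ n ih => rw [sum_range_succ, ← add_assoc, ← ih, ← gam_succ h2]; push_cast; ring_nf

lemma gam_nat (h2 : 2 < p) (n : ℕ) : gam p (n : ZMod (p ^ (2:ℕ))) = ∑ j ∈ range n, Lq p (j : ZMod (p ^ (2:ℕ))) := by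
  have := gam_add_nat h2 (0 : ZMod (p ^ (2:ℕ))) n
  simpa using this

/-- a function invariant under `x ↦ x + 1` is constant -/
lemma const_of_shift {f : ZMod (p ^ (2:ℕ)) → ZMod (p ^ (2:ℕ))} (h : ∀ x, f (x + 1) = f x) (x) : f x = f 0 := by
  have : ∀ n : ℕ, f (n : ZMod (p ^ (2:ℕ))) = f 0 := by
    intro n
    induction n with
    | zero => simp
    | succ n ih => rw [← ih, ← h (n : ZMod (p ^ (2:ℕ)))]; push_cast; rfl
  rw [← this x.val, ZMod.natCast_zmod_val]

lemma gam_one_sub (h2 : 2 < p) (x : ZMod (p ^ (2:ℕ))) : gam p (1 - x) = - gam p x := by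
  have := const_of_shift (f := fun x => gam p x + gam p (1 - x)) (fun x => by
    have e1 := gam_succ h2 x
    have e2 := gam_succ h2 (1 - (x + 1))
    have e3 : 1 - (x + 1) + 1 = 1 - x := by ring
    have e4 : (1 - (x + 1)) = -x := by ring
    rw [e3] at e2
    simp only [e4] at e2 ⊢
    rw [Lq_neg h2] at e2
    rw [e1, e2]; ring) x
  simp only [gam_zero, sub_zero, zero_add] at this
  have h1 : gam p (1 : ZMod (p ^ (2:ℕ))) = 0 := by
    have := gam_succ h2 (0 : ZMod (p ^ (2:ℕ)))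
    simpa using this
  rw [h1] at this
  linear_combination this

@[simp] lemma gam_one (h2 : 2 < p) : gam p (1 : ZMod (p ^ (2:ℕ))) = 0 := by
  have := gam_one_sub h2 (0 : ZMod (p ^ (2:ℕ)))
  simpa using this

lemma gam_half (h2 : 2 < p) {h : ZMod (p ^ (2:ℕ))} (hh : 2 * h = 1) : gam p h = 0 := by
  have := gam_one_sub h2 h
  rw [show 1 - h = h by linear_combination -hh] at this
  exact two_cancel h2 this

/-- number of `j < n` prime to `p` -/
def cntU (p n : ℕ) : ℕ := ((range n).filter (fun j => ¬ p ∣ j)).card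

lemma cntU_succ (n : ℕ) : cntU p (n + 1) = cntU p n + if p ∣ n then 0 else 1 := by
  unfold cntU
  rw [range_add_one, filter_insert]
  by_cases h : p ∣ n
  · simp [h]
  · simp [h]

/-- duplication formula -/
lemma gam_dup_nat (h2 : 2 < p) {h : ZMod (p ^ (2:ℕ))} (hh : 2 * h = 1) (n : ℕ) :
    gam p (h * n) + gam p (h * n + h) = gam p (n : ZMod (p ^ (2:ℕ))) - cntU p n * Lq p (2 : ZMod (p ^ (2:ℕ))) := by
  have hu2 : IsUnit (2 : ZMod (p ^ (2:ℕ))) := IsUnit.of_mul_eq_one h hh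
  have huh : IsUnit h := IsUnit.of_mul_eq_one 2 (by rw [mul_comm]; exact hh)
  have hL2 : Lq p h = - Lq p (2 : ZMod (p ^ (2:ℕ))) := by
    have := Lq_mul hu2 huh
    rw [hh, Lq_one] at this
    linear_combination -this
  induction n with
  | zero => simp [cntU, gam_half h2 hh]
  | succ n ih =>
    have e1 : h * ((n + 1 : ℕ) : ZMod (p ^ (2:ℕ))) = h * n + h := by push_cast; ring
    have e2 : h * n + h + h = h * n + 1 := by linear_combination hh
    rw [e1, e2, gam_succ h2, cntU_succ]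
    rw [show ((n + 1 : ℕ) : ZMod (p ^ (2:ℕ))) = (n : ZMod (p ^ (2:ℕ))) + 1 by push_cast; ring, gam_succ h2]
    by_cases hn : p ∣ n
    · have hnu : ¬ IsUnit (n : ZMod (p ^ (2:ℕ))) := by
        rw [isUnit_iff_red, map_natCast, not_not, ZMod.natCast_eq_zero_iff]; exact hn
      have hnu' : ¬ IsUnit (h * n : ZMod (p ^ (2:ℕ))) := by
        rw [isUnit_iff_red, map_mul, map_natCast, not_not, (ZMod.natCast_eq_zero_iff n p).mpr hn, mul_zero]
      rw [Lq_nonunit hnu, Lq_nonunit hnu', if_pos hn]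
      linear_combination ih
    · have hnu : IsUnit (n : ZMod (p ^ (2:ℕ))) := isUnit_nat dvd_rfl hn
      rw [Lq_mul huh hnu, if_neg hn, hL2]
      push_cast
      linear_combination ih

/-- the difference function -/
noncomputable def dd (p : ℕ) (x : ZMod (p ^ (2:ℕ))) : ZMod (p ^ (2:ℕ)) := gam p (x + P2 p) - gam p x

lemma dd_eq_sum (h2 : 2 < p) (x : ZMod (p ^ (2:ℕ))) : dd p x = ∑ j ∈ range p, Lq p (x + j) := by
  unfold dd P2
  rw [gam_add_nat h2]; ring

lemma P_mul_dd (h2 : 2 < p) (x : ZMod (p ^ (2:ℕ))) : P2 p * dd p x = 0 := by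
  rw [dd_eq_sum h2, mul_sum]
  exact Finset.sum_eq_zero (fun j _ => P_mul_Lq _)

lemma dd_succ_unit (h2 : 2 < p) {x : ZMod (p ^ (2:ℕ))} (h : IsUnit x) : dd p (x + 1) = dd p x - P2 p * x⁻¹ := by
  unfold dd
  rw [show x + 1 + P2 p = x + P2 p + 1 by ring, gam_succ h2, gam_succ h2]
  have := Lq_add_P h 1
  rw [mul_one] at this
  rw [this]; ring

lemma dd_succ_nonunit (h2 : 2 < p) {x : ZMod (p ^ (2:ℕ))} (h : ¬ IsUnit x) : dd p (x + 1) = dd p x := by
  unfold dd
  rw [show x + 1 + P2 p = x + P2 p + 1 by ring, gam_succ h2, gam_succ h2, Lq_nonunit h]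
  have : ¬ IsUnit (x + P2 p) := by
    have h1 := isUnit_add_P x 1
    rw [mul_one] at h1
    rwa [h1]
  rw [Lq_nonunit this]; ring

lemma P_mul_congr {x y : ZMod (p ^ (2:ℕ))} (h : red p x = red p y) : P2 p * x = P2 p * y := by
  obtain ⟨c, hc⟩ := exists_P_of_red (x := x - y) (by rw [map_sub, h, sub_self])
  linear_combination (P2 p) * hc + c * P2_mul_self p

open Classical in
/-- inverse on units, zero elsewhere -/
noncomputable def iv (p : ℕ) (x : ZMod (p ^ (2:ℕ))) : ZMod (p ^ (2:ℕ)) := if IsUnit x then x⁻¹ else 0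

lemma red_inv {x : ZMod (p ^ (2:ℕ))} (h : IsUnit x) : red p x⁻¹ = (red p x)⁻¹ := by
  have h1 : x * x⁻¹ = 1 := ZMod.mul_inv_of_unit _ h
  have h2 := congrArg (red p) h1
  rw [map_mul, map_one] at h2
  exact eq_inv_of_mul_eq_one_right h2

lemma red_iv (x : ZMod (p ^ (2:ℕ))) : red p (iv p x) = (red p x)⁻¹ := by
  by_cases h : IsUnit x
  · rw [iv, if_pos h, red_inv h]
  · rw [iv, if_neg h, map_zero]
    rw [isUnit_iff_red, not_not] at h
    rw [h, inv_zero]

lemma dd_succ (h2 : 2 < p) (x : ZMod (p ^ (2:ℕ))) : dd p (x + 1) = dd p x - P2 p * iv p x := by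
  by_cases h : IsUnit x
  · rw [dd_succ_unit h2 h, iv, if_pos h]
  · rw [dd_succ_nonunit h2 h, iv, if_neg h, mul_zero, sub_zero]

lemma dd_add_nat (h2 : 2 < p) (x : ZMod (p ^ (2:ℕ))) (n : ℕ) :
    dd p (x + n) = dd p x - P2 p * ∑ j ∈ range n, iv p (x + j) := by
  induction n with
  | zero => simp
  | succ n ih =>
    rw [sum_range_succ, show x + ((n + 1 : ℕ) : ZMod (p ^ (2:ℕ))) = x + n + 1 by push_cast; ring,
      dd_succ h2, ih]
    ring

lemma sum_range_shift {A : Type*} [AddCommMonoid A] (f : ZMod p → A) (x : ZMod p) :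
    ∑ j ∈ range p, f (x + j) = ∑ y : ZMod p, f y := by
  have hp1 := hp.out.pos
  have : NeZero p := ⟨hp1.ne'⟩
  have h1 : ∑ j ∈ range p, f (x + j) = ∑ y : ZMod p, f (x + y) := by
    refine Finset.sum_bij (fun j _ => (j : ZMod p)) ?_ ?_ ?_ ?_
    · intro u _; simp
    · intro u hu v hv h
      have := congrArg ZMod.val h
      rw [ZMod.val_natCast_of_lt (mem_range.mp hu), ZMod.val_natCast_of_lt (mem_range.mp hv)] at this
      exact this
    · intro x _
      exact ⟨x.val, mem_range.mpr (ZMod.val_lt x), ZMod.natCast_zmod_val x⟩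
    · intro u _; rfl
  rw [h1]
  exact Equiv.sum_comp (Equiv.addLeft x) f

lemma sum_inv_zmod (h2 : 2 < p) : ∑ y : ZMod p, y⁻¹ = 0 := by
  have h1 : ∑ y : ZMod p, y⁻¹ = ∑ y : ZMod p, y := by
    refine Finset.sum_bij (fun y _ => y⁻¹) ?_ ?_ ?_ ?_
    · intro u _; simp
    · intro u _ v _ h; exact inv_injective h
    · intro x _
      exact ⟨x⁻¹, mem_univ _, inv_inv x⟩
    · intro u _; rfl
  rw [h1]
  have := FiniteField.sum_pow_lt_card_sub_one (ZMod p) 1 (by rw [ZMod.card]; omega)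
  simpa using this

lemma dd_add_P1 (h2 : 2 < p) (x : ZMod (p ^ (2:ℕ))) : dd p (x + P2 p) = dd p x := by
  unfold P2
  rw [dd_add_nat h2]
  have : P2 p * ∑ j ∈ range p, iv p (x + j) = P2 p * 0 := by
    apply P_mul_congr
    rw [map_sum, map_zero]
    have h3 : ∀ j ∈ range p, red p (iv p (x + j)) = (red p x + j)⁻¹ := by
      intro j _
      rw [red_iv, map_add, map_natCast]
    rw [Finset.sum_congr rfl h3, sum_range_shift (fun y => y⁻¹), sum_inv_zmod h2]
  rw [this, mul_zero, sub_zero]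

lemma dd_add_P (h2 : 2 < p) (x c : ZMod (p ^ (2:ℕ))) : dd p (x + P2 p * c) = dd p x := by
  have : ∀ n : ℕ, dd p (x + P2 p * n) = dd p x := by
    intro n
    induction n with
    | zero => simp
    | succ n ih =>
      rw [show x + P2 p * ((n + 1 : ℕ) : ZMod (p ^ (2:ℕ))) = x + P2 p * n + P2 p by push_cast; ring,
        dd_add_P1 h2, ih]
  rw [← ZMod.natCast_zmod_val c]; exact this _

lemma dd_congr (h2 : 2 < p) {x y : ZMod (p ^ (2:ℕ))} (h : red p x = red p y) : dd p x = dd p y := by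
  obtain ⟨c, hc⟩ := exists_P_of_red (x := x - y) (by rw [map_sub, h, sub_self])
  rw [show x = y + P2 p * c by linear_combination hc, dd_add_P h2]

lemma gam_add_P (h2 : 2 < p) (x c : ZMod (p ^ (2:ℕ))) : gam p (x + P2 p * c) = gam p x + c * dd p x := by
  have : ∀ n : ℕ, gam p (x + P2 p * n) = gam p x + n * dd p x := by
    intro n
    induction n with
    | zero => simp
    | succ n ih =>
      have h3 := dd_add_P h2 x n
      unfold dd at h3
      rw [show x + P2 p * ((n + 1 : ℕ) : ZMod (p ^ (2:ℕ))) = x + P2 p * n + P2 p by push_cast; ring]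
      have h4 : gam p (x + P2 p * n + P2 p) = gam p (x + P2 p * n) + (gam p (x + P2 p) - gam p x) := by
        linear_combination h3
      rw [h4, ih]
      unfold dd
      push_cast; ring
  have h5 := this c.val
  rwa [ZMod.natCast_zmod_val c] at h5

lemma dd_one_sub (h2 : 2 < p) (x : ZMod (p ^ (2:ℕ))) : dd p (1 - x) = dd p x := by
  have h1 := gam_one_sub h2 x
  have h3 := gam_one_sub h2 (x - P2 p)
  have h4 := dd_add_P1 h2 (x - P2 p)
  unfold dd at h4 ⊢
  rw [show 1 - (x - P2 p) = 1 - x + P2 p by ring] at h3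
  rw [show x - P2 p + P2 p = x by ring] at h4
  rw [h3, h1]
  linear_combination -h4

lemma dd_one (h2 : 2 < p) : dd p 1 = dd p 0 := by
  have := dd_one_sub h2 (0 : ZMod (p ^ (2:ℕ)))
  rwa [sub_zero] at this

lemma dd_harm (h2 : 2 < p) {n : ℕ} (hn : n < p) :
    dd p ((n : ZMod (p ^ (2:ℕ))) + 1) = dd p 0 - P2 p * harm (p ^ 2) n := by
  have h1 := dd_add_nat h2 (1 : ZMod (p ^ (2:ℕ))) n
  rw [add_comm (n : ZMod (p ^ (2:ℕ))) 1, h1, dd_one h2]
  unfold harm
  congr 2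
  apply Finset.sum_congr rfl
  intro j hj
  have hj' := mem_range.mp hj
  have : IsUnit ((j + 1 : ℕ) : ZMod (p ^ (2:ℕ))) := isUnit_nat dvd_rfl (by
    intro h; exact absurd (Nat.le_of_dvd (by omega) h) (by omega))
  rw [iv, if_pos]
  · push_cast; rw [add_comm]
  · push_cast at this; rwa [add_comm]

/-- number of units among `x, x+1, ..., x+N-1` -/
def cntI (p : ℕ) (x : ZMod (p ^ (2:ℕ))) (N : ℕ) : ℕ :=
  ((range N).filter (fun j : ℕ => red p x + (j : ZMod p) ≠ 0)).card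

lemma isUnit_add_nat (x : ZMod (p ^ (2:ℕ))) (j : ℕ) :
    IsUnit (x + (j : ZMod (p ^ (2:ℕ)))) ↔ red p x + (j : ZMod p) ≠ 0 := by
  rw [isUnit_iff_red, map_add, map_natCast]

lemma Lq_prod_tt (h2 : 2 < p) {d x : ZMod (p ^ (2:ℕ))} (hd : IsUnit d) (N : ℕ) :
    Lq p (∏ j ∈ range N, tt p (d * x + d * j)) = gam p (x + N) - gam p x + cntI p x N * Lq p d := by
  rw [Lq_prod _ _ (fun j _ => isUnit_tt _), gam_add_nat h2]
  have h1 : ∀ j ∈ range N, Lq p (tt p (d * x + d * j)) =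
      Lq p (x + j) + (if red p x + (j : ZMod p) ≠ 0 then Lq p d else 0) := by
    intro j _
    rw [Lq_tt, ← mul_add]
    by_cases h : IsUnit (x + (j : ZMod (p ^ (2:ℕ))))
    · rw [if_pos ((isUnit_add_nat x j).mp h), Lq_mul hd h]; ring
    · rw [if_neg (fun h' => h ((isUnit_add_nat x j).mpr h')), Lq_nonunit h, Lq_nonunit, add_zero]
      intro h'
      exact h (isUnit_of_mul_isUnit_right h')
  rw [Finset.sum_congr rfl h1, Finset.sum_add_distrib, ← Finset.sum_filter, Finset.sum_const, cntI,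
    nsmul_eq_mul]
  ring

end

end SC24
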