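import Pool.Agent.SC24.Fin

/-!
Assembly in `ZMod (p^2)`: signs.
-/

namespace SC24

open Finset

/-- `(x/3)` as an explicit function -/
def chi3 (x : ℤ) : ℤ := if x % 3 = 1 then 1 else if x % 3 = 2 then -1 else 0

lemma legendre_three (x : ℤ) : legendreSym 3 x = chi3 x := by
  rw [legendreSym.mod]
  unfold chi3
  have h : x % 3 = 0 ∨ x % 3 = 1 ∨ x % 3 = 2 := by omega
  rcases h with h | h | h
  · have : x % (3 : ℕ) = 0 := by exact_mod_cast h
    rw [this, h]; decide
  · have : x % (3 : ℕ) = 1 := by exact_mod_cast h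
    rw [this, h]; decide
  · have : x % (3 : ℕ) = 2 := by exact_mod_cast h
    rw [this, h]; decide

lemma chi3_sq {x : ℤ} (h : x % 3 ≠ 0) : chi3 x * chi3 x = 1 := by
  unfold chi3
  have h' : x % 3 = 1 ∨ x % 3 = 2 := by omega
  rcases h' with h' | h' <;> simp [h']

/-- pin down an even integer by its residue mod `p` and mod 3 -/
lemma pinA {p : ℤ} (hp : Prime p) (h5 : 5 ≤ p) {a x : ℤ} (ha : |a| ≤ p) (hev : Even a) (h3 : a % 3 = 2)
    (hx3 : x % 3 ≠ 0) (hx : x ^ 2 < p) (hd : p ∣ a ^ 2 - 4 * x ^ 2) : a = 2 * x * chi3 x := by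
  obtain ⟨b, hb⟩ := hev
  have hb' : a = 2 * b := by linarith
  have hn2 : ¬ p ∣ 4 := by
    intro h; have := Int.le_of_dvd (by norm_num) h; linarith
  have hab := abs_le.mp ha
  have hxp : |2 * x| < p := by
    apply abs_lt_of_sq_lt_sq _ (by linarith)
    nlinarith
  have hxb := abs_lt.mp hxp
  have h6 : p ∣ (b - x) ∨ p ∣ (b + x) := by
    have h7 : p ∣ 4 * ((b - x) * (b + x)) := by
      rw [hb'] at hd
      rwa [show (2 * b) ^ 2 - 4 * x ^ 2 = 4 * ((b - x) * (b + x)) by ring] at hd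
    rcases hp.dvd_or_dvd h7 with h | h
    · exact absurd h hn2
    · exact hp.dvd_or_dvd h
  have h8 : b = x ∨ b = -x := by
    rcases h6 with h | h
    · left
      have : b - x = 0 := by
        apply Int.eq_zero_of_abs_lt_dvd h
        rw [abs_lt]; constructor <;> linarith
      linarith
    · right
      have : b + x = 0 := by
        apply Int.eq_zero_of_abs_lt_dvd h
        rw [abs_lt]; constructor <;> linarith
      linarith
  unfold chi3
  have h' : x % 3 = 1 ∨ x % 3 = 2 := by omega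
  rcases h8 with h8 | h8 <;> rcases h' with h' | h' <;> simp only [h'] <;> norm_num <;> omega

lemma pinB {p : ℤ} (hp : Prime p) (h5 : 5 < p) {a x : ℤ} (ha : |a| ≤ p + 1) (hev : Even a) (h3 : a % 3 = 2)
    (hx3 : x % 3 ≠ 0) (hx : 2 * x ^ 2 + 3 ≤ p) (hd : p ∣ a ^ 2 - 16 * x ^ 2) : a = -(4 * x * chi3 x) := by
  obtain ⟨b, hb⟩ := hev
  have hb' : a = 2 * b := by linarith
  have hn2 : ¬ p ∣ 4 := by
    intro h; have := Int.le_of_dvd (by norm_num) h; linarith
  have hab := abs_le.mp ha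
  have hxp : |4 * x| < p - 1 := by
    apply abs_lt_of_sq_lt_sq _ (by linarith)
    have : 0 < (p - 5) ^ 2 := by
      have : 0 < p - 5 := by linarith
      positivity
    nlinarith
  have hxb := abs_lt.mp hxp
  have h6 : p ∣ (b - 2 * x) ∨ p ∣ (b + 2 * x) := by
    have h7 : p ∣ 4 * ((b - 2 * x) * (b + 2 * x)) := by
      rw [hb'] at hd
      rwa [show (2 * b) ^ 2 - 16 * x ^ 2 = 4 * ((b - 2 * x) * (b + 2 * x)) by ring] at hd
    rcases hp.dvd_or_dvd h7 with h | h
    · exact absurd h hn2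
    · exact hp.dvd_or_dvd h
  have h8 : b = 2 * x ∨ b = -(2 * x) := by
    rcases h6 with h | h
    · left
      have : b - 2 * x = 0 := by
        apply Int.eq_zero_of_abs_lt_dvd h
        rw [abs_lt]; constructor <;> linarith
      linarith
    · right
      have : b + 2 * x = 0 := by
        apply Int.eq_zero_of_abs_lt_dvd h
        rw [abs_lt]; constructor <;> linarith
      linarith
  unfold chi3
  have h' : x % 3 = 1 ∨ x % 3 = 2 := by omega
  rcases h8 with h8 | h8 <;> rcases h' with h' | h' <;> simp only [h'] <;> norm_num <;> omega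

section
variable {p : ℕ} [hp : Fact p.Prime]

lemma two_neF (h2 : 2 < p) : (2 : ZMod p) ≠ 0 := by
  have := (isUnit_iff_red _).mp (isUnit_two (p := p) h2)
  rwa [map_ofNat] at this

lemma two_pow_A (h2 : 2 < p) (h8 : p % 8 = 1 ∨ p % 8 = 7) : (2 : ZMod p) ^ ((p - 1) / 2) = 1 := by
  have h1 := (ZMod.exists_sq_eq_two_iff (p := p) (by omega)).mpr h8
  have h3 := (ZMod.euler_criterion p (two_neF h2)).mp h1
  rwa [show (p - 1) / 2 = p / 2 by omega]

lemma two_pow_B (h2 : 2 < p) (h8 : p % 8 = 3 ∨ p % 8 = 5) : (2 : ZMod p) ^ ((p - 1) / 2) = -1 := by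
  have h1 : ¬ IsSquare (2 : ZMod p) := by
    rw [ZMod.exists_sq_eq_two_iff (p := p) (by omega)]; omega
  rw [show (p - 1) / 2 = p / 2 by omega]
  rcases ZMod.pow_div_two_eq_neg_one_or_one p (two_neF h2) with h | h
  · exact absurd ((ZMod.euler_criterion p (two_neF h2)).mpr h) h1
  · exact h

lemma S_eq_T_A (hc : p % 24 = 1 ∨ p % 24 = 7) : Sr p = Tr p := by
  have hp2 := hp.out.two_le
  have h3 : 3 < p := by
    have := hp.out.one_lt; omega
  apply eq_of_Lq (S_A hc).1 _ (Ldiff_A hc)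
  rw [red_S_T_1 h3 (by omega), inv_pow, two_pow_A (by omega) (by omega)]
  simp

lemma S_T_modB (hc : p % 24 = 5 ∨ p % 24 = 11) : -(2 * red p (Sr p)) = red p (Tr p) := by
  have hp2 := hp.out.two_le
  have h3 : 3 < p := by
    have := hp.out.one_lt; omega
  have h2 := two_neF (p := p) (by omega)
  rw [red_S_T_5 h3 (by omega), pow_succ, mul_comm 3, pow_mul, inv_pow, two_pow_B (by omega) (by omega)]
  have : (-1 : ZMod p)⁻¹ = -1 := by rw [inv_neg, inv_one]
  rw [this]
  field_simp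

lemma S_eq_T_B (hc : p % 24 = 5 ∨ p % 24 = 11) (h5 : 5 < p) : -(2 * Sr p) = Tr p := by
  have h2 := isUnit_two (p := p) (by omega)
  have uS := (S_B hc h5).1
  apply eq_of_Lq (h2.mul uS).neg
  · rw [map_neg, map_mul, map_ofNat, S_T_modB hc]
  · rw [Lq_neg (by omega), Lq_mul h2 uS, Ldiff_B hc h5]; ring

lemma eq_of_sq (h2 : 2 < p) {s t : ZMod (p ^ (2:ℕ))} (hs : IsUnit s) (h : s ^ 2 = t ^ 2) (hr : red p s = red p t) :
    s = t := by
  have hu : IsUnit (s + t) := by
    rw [isUnit_iff_red, map_add, ← hr]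
    have h1 := (isUnit_iff_red s).mp hs
    intro h3
    have : (2 : ZMod p) * red p s = 0 := by linear_combination h3
    exact (mul_ne_zero (two_neF h2) h1) this
  have h5 : (s + t) * s = (s + t) * t := by linear_combination h
  exact hu.mul_right_injective h5

lemma int_dvd_of_zmod {n : ℤ} (h : (n : ZMod p) = 0) : (p : ℤ) ∣ n := (ZMod.intCast_zmod_eq_zero_iff_dvd n p).mp h

/-- classes 1 and 7: residue mod `p` -/
lemma signA {x y : ℤ} (hxy : (p : ℤ) = x ^ 2 + 6 * y ^ 2) (h3 : 3 < p)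
    (hsq : (red p (Sr p)) ^ 2 = 4 * (x : ZMod p) ^ 2) : red p (Sr p) = 2 * x * chi3 x := by
  obtain ⟨hc, hx3, hpx, hxp⟩ := class_A hp.out h3 hxy
  have h2 : 2 < p := by omega
  obtain ⟨s, hs⟩ := (ZMod.exists_sq_eq_two_iff (p := p) (by omega)).mpr (by omega)
  have hs2 : s ^ 2 = 2 := by rw [hs]; ring
  obtain ⟨a, ha1, ha2, ha3, ha4⟩ := ellA p hc s hs2
  have c4 : (4 : ZMod p) ≠ 0 := by
    rw [show (4 : ZMod p) = 2 * 2 by norm_num]; exact mul_ne_zero (two_neF h2) (two_neF h2)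
  have hα : 8 * ((2 - s) / 4) * (1 - (2 - s) / 4) = 1 := by
    have c2 := two_neF (p := p) h2
    field_simp
    linear_combination (-8 : ZMod p) * hs2
  have hH := Hpol_S h3 (by omega) (RingHom.id (ZMod p)) hα
  rw [RingHom.id_apply] at hH
  rw [hH] at ha4
  have hd : (p : ℤ) ∣ a ^ 2 - 4 * x ^ 2 := by
    apply int_dvd_of_zmod
    push_cast
    rw [ha4, hsq]; ring
  have := pinA (Nat.prime_iff_prime_int.mp hp.out) (by
    have : (3 : ℤ) < p := by exact_mod_cast h3
    have : 5 ≤ p := by omega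
    exact_mod_cast this) ha1 ha2 ha3 hx3 hxp hd
  rw [← ha4, this]; push_cast; ring

lemma signB_aux (K : Type) [Field K] [CharP K p] [IsAlgClosed K] (φ : ZMod p →+* K)
    {x y : ℤ} (hxy : (p : ℤ) = 2 * x ^ 2 + 3 * y ^ 2) (h5 : 5 < p)
    (hsq : (red p (Tr p)) ^ 2 = 16 * (x : ZMod p) ^ 2) : red p (Tr p) = -(4 * x * chi3 x) := by
  have h3 : 3 < p := by omega
  obtain ⟨hc, hx3, hpx, hxp⟩ := class_B hp.out h3 hxy
  have h2 : 2 < p := by omega
  obtain ⟨s, hs2⟩ := IsAlgClosed.exists_pow_nat_eq (2 : K) (n := 2) (by norm_num)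
  have hpow : (2 : K) ^ ((p - 1) / 2) = -1 := by
    have := congrArg φ (two_pow_B (p := p) h2 (by omega))
    rw [map_pow, map_neg, map_one, map_ofNat] at this
    exact this
  have hsp : s ^ p = -s := by
    have e : p = 2 * ((p - 1) / 2) + 1 := by omega
    calc s ^ p = s ^ (2 * ((p - 1) / 2) + 1) := by rw [← e]
      _ = -s := by rw [pow_succ, pow_mul, hs2, hpow]; ring
  obtain ⟨t, ht1, ht2, ht3, ht4⟩ := ellB p hc K s hs2 hsp
  have c2 : (2 : K) ≠ 0 := by
    have := (map_ne_zero_iff φ φ.injective).mpr (two_neF h2)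
    rwa [map_ofNat] at this
  have c4 : (4 : K) ≠ 0 := by rw [show (4 : K) = 2 * 2 by norm_num]; exact mul_ne_zero c2 c2
  have hα : 8 * ((2 - s) / 4) * (1 - (2 - s) / 4) = 1 := by
    field_simp
    linear_combination (-8 : K) * hs2
  have hH := Hpol_T h3 (by omega) φ hα
  rw [hH] at ht4
  have ht5 : (t : K) = φ (red p (Tr p)) := by
    rw [ht4]
    have : s * ((1 - 2 * ((2 - s) / 4)) * φ (red p (Tr p))) =
        (s ^ 2 / 2) * φ (red p (Tr p)) := by
      field_simp; ring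
    rw [this, hs2]; field_simp
  have ht6 : (t : ZMod p) = red p (Tr p) := by
    apply φ.injective
    rw [← ht5, map_intCast]
  have hd : (p : ℤ) ∣ t ^ 2 - 16 * x ^ 2 := by
    apply int_dvd_of_zmod
    push_cast
    rw [ht6, hsq]; ring
  have := pinB (Nat.prime_iff_prime_int.mp hp.out) (by exact_mod_cast h5) ht1 ht2 ht3 hx3 hxp hd
  rw [← ht6, this]; push_cast; ring

/-- classes 5 and 11: residue mod `p` -/
lemma signB {x y : ℤ} (hxy : (p : ℤ) = 2 * x ^ 2 + 3 * y ^ 2) (h5 : 5 < p)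
    (hsq : (red p (Tr p)) ^ 2 = 16 * (x : ZMod p) ^ 2) : red p (Tr p) = -(4 * x * chi3 x) := by
  have : CharP (AlgebraicClosure (ZMod p)) p :=
    charP_of_injective_algebraMap (algebraMap (ZMod p) (AlgebraicClosure (ZMod p))).injective p
  exact signB_aux (AlgebraicClosure (ZMod p)) (algebraMap (ZMod p) (AlgebraicClosure (ZMod p))) hxy h5 hsq

end

end SC24
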