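import Pool.Agent.SC24.LST

/-!
Duplication formulas: `L(S) - L(T)`.
-/

namespace SC24

open Finset

section
variable {p : ℕ} [hp : Fact p.Prime]

lemma cntU_row (q : ℕ) : ∀ r, r < p → cntU p (q * p + (r + 1)) = cntU p (q * p + 1) + r := by
  intro r
  induction r with
  | zero => intro _; simp
  | succ r ih =>
    intro hr
    have hnd : ¬ p ∣ q * p + (r + 1) := by
      intro h
      have : p ∣ r + 1 := (Nat.dvd_add_right (Dvd.intro_left q rfl)).mp h
      exact absurd (Nat.le_of_dvd (by omega) this) (by omega)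
    rw [show q * p + (r + 1 + 1) = q * p + (r + 1) + 1 by ring, cntU_succ, ih (by omega), if_neg hnd]
    ring

lemma cntU_mul (q : ℕ) : cntU p (q * p + 1) = q * (p - 1) := by
  have hp1 := hp.out.one_lt
  induction q with
  | zero =>
    rw [zero_mul, zero_add, show (1 : ℕ) = 0 + 1 by rfl, cntU_succ]
    simp [cntU]
  | succ q ih =>
    have h1 := cntU_row (p := p) q (p - 1) (by omega)
    rw [show q * p + (p - 1 + 1) = (q + 1) * p by rw [show p - 1 + 1 = p by omega]; ring] at h1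
    rw [cntU_succ, h1, ih, if_pos (Dvd.intro_left (q + 1) rfl)]
    ring

lemma cntU_eq {q r : ℕ} (hr1 : 1 ≤ r) (hr : r ≤ p) : cntU p (q * p + r) + q + 1 = q * p + r := by
  obtain ⟨s, rfl⟩ : ∃ s, r = s + 1 := ⟨r - 1, by omega⟩
  rw [cntU_row q s (by omega), cntU_mul]
  have hp1 := hp.out.one_lt
  obtain ⟨t, ht⟩ : ∃ t, p = t + 1 := ⟨p - 1, by omega⟩
  rw [ht]
  simp only [add_tsub_cancel_right]
  ring

/-- duplication with explicit constant -/
lemma dup (h2 : 2 < p) {h : ZMod (p ^ (2:ℕ))} (hh : 2 * h = 1) {m k r' q r : ℕ}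
    (hk : k < m) (hq : m * q + r' = (m - k) * p) (hr : m * r = k + r' * p) (hr1 : 1 ≤ r) (hr2 : r ≤ p)
    (hm : IsUnit (m : ZMod (p ^ (2:ℕ)))) {y μ : ZMod (p ^ (2:ℕ))} (hy : (m : ZMod (p ^ (2:ℕ))) * y = k)
    (hμ : (m : ZMod (p ^ (2:ℕ))) * μ = r' + k - m) :
    gam p (h * y) + gam p (h * y + h) = gam p y - μ * Lq p 2 := by
  have e1 : (m : ZMod (p ^ (2:ℕ))) * q + r' = (m - k) * P2 p := by
    have := congrArg (Nat.cast : ℕ → ZMod (p ^ (2:ℕ))) hq
    push_cast [Nat.cast_sub hk.le] at this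
    exact this
  have e2 : (m : ZMod (p ^ (2:ℕ))) * r = k + r' * P2 p := by
    exact_mod_cast congrArg (Nat.cast : ℕ → ZMod (p ^ (2:ℕ))) hr
  have hn : ((q * p + r : ℕ) : ZMod (p ^ (2:ℕ))) = y := by
    apply hm.mul_right_injective
    show (m : ZMod (p ^ (2:ℕ))) * ((q * p + r : ℕ) : ZMod (p ^ (2:ℕ))) = m * y
    rw [hy]
    push_cast
    have e3 := P2_mul_self p
    unfold P2 at *
    linear_combination (p : ZMod (p ^ (2:ℕ))) * e1 + e2 + ((m : ZMod (p ^ (2:ℕ))) - k) * e3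
  have e4 : (cntU p (q * p + r) : ZMod (p ^ (2:ℕ))) + q + 1 = q * P2 p + r := by
    exact_mod_cast congrArg (Nat.cast : ℕ → ZMod (p ^ (2:ℕ))) (cntU_eq (p := p) (q := q) hr1 hr2)
  have h5 := gam_dup_nat h2 hh (q * p + r)
  rw [hn] at h5
  rw [h5]
  have h6 : (m : ZMod (p ^ (2:ℕ))) * ((cntU p (q * p + r) : ZMod (p ^ (2:ℕ))) * Lq p 2) = m * (μ * Lq p 2) := by
    have h7 := P_mul_Lq (p := p) 2
    linear_combination (m * Lq p 2) * e4 - Lq p 2 * e1 + Lq p 2 * e2 - Lq p 2 * hμ +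
      ((m : ZMod (p ^ (2:ℕ))) * q - (m - k) + r') * h7
  rw [hm.mul_right_injective h6]

lemma dup4 (h3 : 3 < p) {r1 r2 r3 r4 q1 q2 q3 q4 s1 s2 s3 s4 : ℕ}
    (h1a : 12 * q1 + r1 = 11 * p) (h1b : 12 * s1 = 1 + r1 * p) (h1c : s1 ≤ p)
    (h2a : 12 * q2 + r2 = 7 * p) (h2b : 12 * s2 = 5 + r2 * p) (h2c : s2 ≤ p)
    (h3a : 6 * q3 + r3 = 5 * p) (h3b : 6 * s3 = 1 + r3 * p) (h3c : s3 ≤ p)
    (h4a : 3 * q4 + r4 = 2 * p) (h4b : 3 * s4 = 1 + r4 * p) (h4c : s4 ≤ p) :
    (gam p (ww p) + gam p (7 * ww p) - gam p (8 * ww p)) -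
      (gam p (5 * ww p) + gam p (11 * ww p) + gam p (8 * ww p)) =
    -((2 * ((r1 : ZMod (p ^ (2:ℕ))) - r2 - 4) + 4 * (r3 - 5) + 8 * (r4 - 2)) * ww p) * Lq p 2 := by
  have h2 : 2 < p := by omega
  have hw := hww (p := p) h3
  generalize ww p = w at *
  have hh : 2 * (12 * w) = 1 := by linear_combination hw
  have u12 := isUnit_23 h3 (n := 12) 2 1 (by norm_num)
  have u6 := isUnit_23 h3 (n := 6) 1 1 (by norm_num)
  have u3 := isUnit_23 h3 (n := 3) 0 1 (by norm_num)
  have D1 := dup h2 hh (m := 12) (k := 1) (by norm_num) (by omega) h1b (by omega) h1c u12 (y := 2 * w)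
    (μ := (r1 + 1 - 12) * (2 * w)) (by push_cast; linear_combination hw)
    (by push_cast; linear_combination ((r1 : ZMod (p ^ (2:ℕ))) + 1 - 12) * hw)
  have D2 := dup h2 hh (m := 12) (k := 5) (by norm_num) (by omega) h2b (by omega) h2c u12 (y := 10 * w)
    (μ := (r2 + 5 - 12) * (2 * w)) (by push_cast; linear_combination 5 * hw)
    (by push_cast; linear_combination ((r2 : ZMod (p ^ (2:ℕ))) + 5 - 12) * hw)
  have D3 := dup h2 hh (m := 6) (k := 1) (by norm_num) (by omega) h3b (by omega) h3c u6 (y := 4 * w)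
    (μ := (r3 + 1 - 6) * (4 * w)) (by push_cast; linear_combination hw)
    (by push_cast; linear_combination ((r3 : ZMod (p ^ (2:ℕ))) + 1 - 6) * hw)
  have D4 := dup h2 hh (m := 3) (k := 1) (by norm_num) (by omega) h4b (by omega) h4c u3 (y := 8 * w)
    (μ := (r4 + 1 - 3) * (8 * w)) (by push_cast; linear_combination hw)
    (by push_cast; linear_combination ((r4 : ZMod (p ^ (2:ℕ))) + 1 - 3) * hw)
  rw [show 12 * w * (2 * w) = w by linear_combination w * hw,
    show w + 12 * w = 1 - 11 * w by linear_combination hw, gam_one_sub h2] at D1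
  rw [show 12 * w * (10 * w) = 5 * w by linear_combination 5 * w * hw,
    show 5 * w + 12 * w = 1 - 7 * w by linear_combination hw, gam_one_sub h2] at D2
  rw [show 12 * w * (4 * w) = 2 * w by linear_combination 2 * w * hw,
    show 2 * w + 12 * w = 1 - 10 * w by linear_combination hw, gam_one_sub h2] at D3
  rw [show 12 * w * (8 * w) = 4 * w by linear_combination 4 * w * hw,
    show 4 * w + 12 * w = 1 - 8 * w by linear_combination hw, gam_one_sub h2] at D4
  linear_combination D1 - D2 + D3 + D4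

lemma Ldiff_A (hc : p % 24 = 1 ∨ p % 24 = 7) : Lq p (Sr p) = Lq p (Tr p) := by
  have hp2 := hp.out.two_le
  have h3 : 3 < p := by
    have := hp.out.one_lt; omega
  rw [(S_A hc).2, (T_A hc).2]
  rw [← sub_eq_zero]
  rcases hc with hc | hc
  · rw [dup4 (p := p) h3 (r1 := 11) (r2 := 7) (r3 := 5) (r4 := 2) (q1 := (11 * p - 11) / 12)
      (s1 := (1 + 11 * p) / 12) (q2 := (7 * p - 7) / 12) (s2 := (5 + 7 * p) / 12)
      (q3 := (5 * p - 5) / 6) (s3 := (1 + 5 * p) / 6) (q4 := (2 * p - 2) / 3) (s4 := (1 + 2 * p) / 3)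
      (by omega) (by omega) (by omega) (by omega) (by omega) (by omega) (by omega) (by omega)
      (by omega) (by omega) (by omega) (by omega)]
    push_cast; ring
  · rw [dup4 (p := p) h3 (r1 := 5) (r2 := 1) (r3 := 5) (r4 := 2) (q1 := (11 * p - 5) / 12)
      (s1 := (1 + 5 * p) / 12) (q2 := (7 * p - 1) / 12) (s2 := (5 + 1 * p) / 12)
      (q3 := (5 * p - 5) / 6) (s3 := (1 + 5 * p) / 6) (q4 := (2 * p - 2) / 3) (s4 := (1 + 2 * p) / 3)
      (by omega) (by omega) (by omega) (by omega) (by omega) (by omega) (by omega) (by omega)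
      (by omega) (by omega) (by omega) (by omega)]
    push_cast; ring

lemma Ldiff_B (hc : p % 24 = 5 ∨ p % 24 = 11) (h5 : 5 < p) :
    Lq p (Sr p) = Lq p (Tr p) - Lq p 2 := by
  have h3 : 3 < p := by omega
  have hw := hww (p := p) h3
  rw [(S_B hc h5).2, (T_B hc h5).2]
  rcases hc with hc | hc
  · have := dup4 (p := p) h3 (r1 := 7) (r2 := 11) (r3 := 1) (r4 := 1) (q1 := (11 * p - 7) / 12)
      (s1 := (1 + 7 * p) / 12) (q2 := (7 * p - 11) / 12) (s2 := (5 + 11 * p) / 12)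
      (q3 := (5 * p - 1) / 6) (s3 := (1 + 1 * p) / 6) (q4 := (2 * p - 1) / 3) (s4 := (1 + 1 * p) / 3)
      (by omega) (by omega) (by omega) (by omega) (by omega) (by omega) (by omega) (by omega)
      (by omega) (by omega) (by omega) (by omega)
    push_cast at this
    linear_combination this - Lq p 2 * hw
  · have := dup4 (p := p) h3 (r1 := 1) (r2 := 5) (r3 := 1) (r4 := 1) (q1 := (11 * p - 1) / 12)
      (s1 := (1 + 1 * p) / 12) (q2 := (7 * p - 5) / 12) (s2 := (5 + 5 * p) / 12)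
      (q3 := (5 * p - 1) / 6) (s3 := (1 + 1 * p) / 6) (q4 := (2 * p - 1) / 3) (s4 := (1 + 1 * p) / 3)
      (by omega) (by omega) (by omega) (by omega) (by omega) (by omega) (by omega) (by omega)
      (by omega) (by omega) (by omega) (by omega)
    push_cast at this
    linear_combination this - Lq p 2 * hw

end

end SC24
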