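import Mathlib
import Pool.Agent.SC24.Defs

/-!
MP_9178e4_nt: the truncated hypergeometric polynomial `Hpol` as a coefficient of a power of the
cubic `4 x^3 + (3 x + al)^2`, and a counting lemma for maps of order three.
-/

namespace SC24

open Finset Polynomial

section
variable {K : Type*} [Field K] {p : ℕ}

theorem cast_pow_char (hp : p.Prime) [CharP K p] (m : ℕ) : (m : K) ^ p = m := by
  have := Fact.mk hp
  have h := map_natCast (frobenius K p) m
  rwa [frobenius_def] at h

theorem cast_ne_zero_of_lt (_hp : p.Prime) [CharP K p] {k : ℕ} (hk0 : 0 < k) (hk : k < p) :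
    (k : K) ≠ 0 := by
  intro h
  rw [CharP.cast_eq_zero_iff K p] at h
  exact absurd (Nat.le_of_dvd hk0 h) (not_le.mpr hk)

theorem factorial_ne_zero_of_lt (hp : p.Prime) [CharP K p] {k : ℕ} (hk : k < p) :
    (k.factorial : K) ≠ 0 := by
  intro h
  rw [CharP.cast_eq_zero_iff K p, hp.dvd_factorial] at h
  omega

theorem choose_half (hp : p.Prime) [CharP K p] {n : ℕ} (hn : p = 2 * n + 1) {k : ℕ} (hk : k < p) :
    (4 : K) ^ k * (n.choose k : K) = (-1) ^ k * ((2 * k).choose k : K) := by
  have hpK : ((2 * n + 1 : ℕ) : K) = 0 := by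
    rw [← hn]; exact CharP.cast_eq_zero K p
  push_cast at hpK
  induction k with
  | zero => simp
  | succ k ih =>
    have ih := ih (by omega)
    have h1 : ((k + 1 : ℕ) : K) ≠ 0 := cast_ne_zero_of_lt hp (by omega) hk
    apply mul_right_cancel₀ h1
    have e1 : (n.choose (k + 1) : K) * ((k + 1 : ℕ) : K) = (n.choose k : K) * ((n : K) - k) := by
      have := Nat.choose_succ_right_eq n k
      rcases le_or_gt k n with h | h
      · rw [← Nat.cast_mul, this, Nat.cast_mul, Nat.cast_sub h]
      · rw [← Nat.cast_mul, this, Nat.choose_eq_zero_of_lt h]; simp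
    have e2 : ((2 * (k + 1)).choose (k + 1) : K) * ((k + 1 : ℕ) : K)
        = 2 * (2 * (k : K) + 1) * ((2 * k).choose k : K) := by
      have := Nat.succ_mul_centralBinom_succ k
      rw [Nat.centralBinom, Nat.centralBinom] at this
      have h2 := congrArg (Nat.cast : ℕ → K) this
      push_cast at h2
      push_cast
      rw [mul_comm]
      exact h2
    calc (4 : K) ^ (k + 1) * (n.choose (k + 1) : K) * ((k + 1 : ℕ) : K)
        = 4 * (4 ^ k) * ((n.choose (k + 1) : K) * ((k + 1 : ℕ) : K)) := by ring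
      _ = (4 ^ k * (n.choose k : K)) * (4 * n - 4 * k) := by rw [e1]; ring
      _ = ((-1) ^ k * ((2 * k).choose k : K)) * (4 * n - 4 * k) := by rw [ih]
      _ = (-1) ^ (k + 1) * (2 * (2 * (k : K) + 1) * ((2 * k).choose k : K)) := by
          linear_combination (2 * (-1) ^ k * ((2 * k).choose k : K)) * hpK
      _ = _ := by rw [← e2]; ring

theorem choose_neg (hp : p.Prime) [CharP K p] {n : ℕ} (hn : p = 2 * n + 1) {k : ℕ}
    (hk : 3 * k ≤ 2 * n) :
    ((2 * n - 2 * k).choose k : K) = (-1) ^ k * ((3 * k).choose k : K) := by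
  have hpK : ((2 * n + 1 : ℕ) : K) = 0 := by
    rw [← hn]; exact CharP.cast_eq_zero K p
  push_cast at hpK
  have hf : (k.factorial : K) ≠ 0 := factorial_ne_zero_of_lt hp (by omega)
  apply mul_left_cancel₀ hf
  have e1 : (k.factorial : K) * ((2 * n - 2 * k).choose k : K)
      = ∏ i ∈ range k, ((2 * n : K) - 2 * k - i) := by
    rw [← Nat.cast_mul, ← Nat.descFactorial_eq_factorial_mul_choose,
      Nat.descFactorial_eq_prod_range, Nat.cast_prod]
    refine prod_congr rfl fun i hi => ?_
    have hi' := mem_range.1 hi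
    rw [Nat.cast_sub (by omega), Nat.cast_sub (by omega)]
    push_cast; ring
  have e2 : (k.factorial : K) * ((3 * k).choose k : K)
      = ∏ i ∈ range k, ((2 * k : K) + 1 + i) := by
    rw [← Nat.cast_mul, ← Nat.descFactorial_eq_factorial_mul_choose]
    have : 3 * k = 2 * k + k := by ring
    rw [this, Nat.add_descFactorial_eq_ascFactorial, Nat.ascFactorial_eq_prod_range, Nat.cast_prod]
    refine prod_congr rfl fun i hi => ?_
    push_cast; ring
  rw [e1, ← mul_assoc, mul_comm (k.factorial : K), mul_assoc, e2]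
  have : ((-1 : K)) ^ k = ∏ i ∈ range k, (-1 : K) := by simp
  rw [this, ← prod_mul_distrib]
  refine prod_congr rfl fun i hi => ?_
  linear_combination hpK

theorem cc_eq_zero (hp : p.Prime) [CharP K p] {k : ℕ} (hk : k < p) (h3 : p ≤ 3 * k) :
    cc K k = 0 := by
  have hf : (k.factorial : K) ≠ 0 := factorial_ne_zero_of_lt hp hk
  have h1 : ((3 * k).factorial : K) = 0 := by
    rw [CharP.cast_eq_zero_iff K p, hp.dvd_factorial]; exact h3
  have h2 : (3 * k).choose k * k.factorial * (2 * k).factorial = (3 * k).factorial := by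
    have := Nat.choose_mul_factorial_mul_factorial (n := 3 * k) (k := k) (by omega)
    rwa [show 3 * k - k = 2 * k by omega] at this
  have h3 : (2 * k).choose k * k.factorial * k.factorial = (2 * k).factorial := by
    have := Nat.choose_mul_factorial_mul_factorial (n := 2 * k) (k := k) (by omega)
    rwa [show 2 * k - k = k by omega] at this
  rw [← h2, ← h3] at h1
  push_cast at h1
  have h4 : ((2 * k).choose k : K) * ((3 * k).choose k : K) = 0 := by
    have : (((2 * k).choose k : K) * ((3 * k).choose k : K)) * (k.factorial : K) ^ 3 = 0 := by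
      rw [← h1]; ring
    exact (mul_eq_zero.1 this).resolve_right (pow_ne_zero _ hf)
  rw [cc, h4, zero_mul]

/-- the coefficient of `X ^ j` in `(3 X + al) ^ N` -/
theorem coeff_three_pow (al : K) (N j : ℕ) :
    ((C (3 : K) * X + C al) ^ N).coeff j = 3 ^ j * al ^ (N - j) * (N.choose j : K) := by
  rw [add_pow, finsetSum_coeff]
  rw [Finset.sum_eq_single j]
  · rw [mul_pow, ← C_pow, ← C_pow, ← C_eq_natCast, coeff_mul_C, coeff_mul_C, coeff_C_mul]
    simp
  · intro b _ hb
    rw [mul_pow, ← C_pow, ← C_pow, ← C_eq_natCast, coeff_mul_C, coeff_mul_C, coeff_C_mul,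
      coeff_X_pow, if_neg (Ne.symm hb)]
    simp
  · intro h
    have : N < j := by simpa using h
    rw [Nat.choose_eq_zero_of_lt this]
    simp

/-- the polynomial `4 X^3 + (3 X + al)^2` -/
noncomputable def fpol (al : K) : K[X] := C 4 * X ^ 3 + (C 3 * X + C al) ^ 2

theorem fpol_eval (al x : K) : (fpol al).eval x = 4 * x ^ 3 + (3 * x + al) ^ 2 := by
  simp [fpol]

theorem fpol_natDegree_le (al : K) : (fpol al).natDegree ≤ 3 := by
  unfold fpol
  compute_degree

theorem fpol_pow_natDegree_le (al : K) (n : ℕ) : ((fpol al) ^ n).natDegree ≤ 3 * n :=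
  le_trans natDegree_pow_le (by have := fpol_natDegree_le al; nlinarith)

theorem fpol_pow_coeff (hp : p.Prime) [CharP K p] (h3 : 3 < p) {n : ℕ} (hn : p = 2 * n + 1)
    (al : K) : ((fpol al) ^ n).coeff (p - 1) = Hpol K p al := by
  have three : (3 : K) ≠ 0 := by
    have := cast_ne_zero_of_lt (K := K) hp (k := 3) (by norm_num) h3
    exact_mod_cast this
  have fermat : (3 : K) ^ (2 * n) = 1 := by
    have h := cast_pow_char (K := K) hp 3
    push_cast at h
    have h' : (3 : K) ^ (2 * n) * 3 = 1 * 3 := by rw [← pow_succ, ← hn, h, one_mul]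
    exact mul_right_cancel₀ three h'
  have e0 : p - 1 = 2 * n := by omega
  rw [e0, fpol, add_pow, finsetSum_coeff]
  have key : ∀ k ∈ range (n + 1),
      ((C (4 : K) * X ^ 3) ^ k * ((C 3 * X + C al) ^ 2) ^ (n - k) * ((n.choose k : ℕ) : K[X])).coeff
        (2 * n) = cc K k * al ^ k := by
    intro k hk
    have hk' : k ≤ n := by simpa [Nat.lt_succ_iff] using hk
    have e1 : ((C (4 : K) * X ^ 3) ^ k * ((C 3 * X + C al) ^ 2) ^ (n - k) *
        ((n.choose k : ℕ) : K[X]))
        = C ((4 : K) ^ k * (n.choose k : K)) * (X ^ (3 * k) * (C 3 * X + C al) ^ (2 * (n - k))) := by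
      rw [mul_pow, ← C_pow, ← C_eq_natCast, ← pow_mul, ← pow_mul, C_mul]
      ring
    rw [e1, coeff_C_mul, coeff_X_pow_mul']
    rcases le_or_gt (3 * k) (2 * n) with h | h
    · rw [if_pos h, coeff_three_pow, choose_half hp hn (by omega)]
      have e2 : 2 * (n - k) - (2 * n - 3 * k) = k := by omega
      have e3 : (2 * (n - k)).choose (2 * n - 3 * k) = (2 * n - 2 * k).choose k := by
        rw [show 2 * (n - k) = 2 * n - 2 * k by omega]
        rw [← Nat.choose_symm (n := 2 * n - 2 * k) (k := k) (by omega)]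
        congr 1
        omega
      rw [e2, e3, choose_neg hp hn h, cc]
      have e4 : (3 : K) ^ (2 * n - 3 * k) = (27⁻¹) ^ k := by
        have h27 : (27 : K) ≠ 0 := by
          have : (27 : K) = 3 ^ 3 := by norm_num
          rw [this]; exact pow_ne_zero _ three
        apply mul_right_cancel₀ (pow_ne_zero k h27)
        rw [← mul_pow, inv_mul_cancel₀ h27, one_pow]
        have : (27 : K) = 3 ^ 3 := by norm_num
        rw [this, ← pow_mul, ← pow_add]
        rw [show 2 * n - 3 * k + 3 * k = 2 * n by omega, fermat]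
      rw [e4]
      have e5 : ((-1 : K)) ^ k * (-1) ^ k = 1 := by
        rw [← mul_pow]; simp
      linear_combination (((2 * k).choose k : K) * ((3 * k).choose k : K) * (27⁻¹) ^ k * al ^ k) * e5
    · rw [if_neg (by omega), cc_eq_zero hp (by omega) (by omega)]
      simp
  rw [sum_congr rfl key, Hpol]
  have : range p = range (n + 1) ∪ (range p \ range (n + 1)) := by
    rw [union_sdiff_of_subset]
    intro x hx
    simp only [mem_range] at *
    omega
  rw [this, sum_union disjoint_sdiff]
  rw [sum_eq_zero (s := range p \ range (n + 1)), add_zero]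
  intro k hk
  simp only [mem_sdiff, mem_range, not_lt] at hk
  rw [cc_eq_zero hp hk.1 (by omega), zero_mul]

/-- the monic version of the cubic -/
noncomputable def gpol (be : K) : K[X] := X ^ 3 + (C 3 * X + C be) ^ 2

theorem gpol_eval (be x : K) : (gpol be).eval x = x ^ 3 + (3 * x + be) ^ 2 := by
  simp [gpol]

theorem gpol_natDegree_le (be : K) : (gpol be).natDegree ≤ 3 := by
  unfold gpol
  compute_degree

theorem gpol_pow_natDegree_le (be : K) (n : ℕ) : ((gpol be) ^ n).natDegree ≤ 3 * n :=
  le_trans natDegree_pow_le (by have := gpol_natDegree_le be; nlinarith)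

theorem gpol_pow_coeff (hp : p.Prime) [CharP K p] (h3 : 3 < p) {n : ℕ} (hn : p = 2 * n + 1)
    (be : K) : ((gpol be) ^ n).coeff (p - 1) = Hpol K p (be / 4) := by
  have h4 : (4 : K) ≠ 0 := by
    have h2 := cast_ne_zero_of_lt (K := K) hp (k := 2) (by norm_num) (by omega)
    have : (4 : K) = ((2 : ℕ) : K) ^ 2 := by norm_num
    rw [this]; exact pow_ne_zero _ h2
  rw [← fpol_pow_coeff hp h3 hn (be / 4)]
  have e : ((gpol be) ^ n).comp (C 4 * X) = C ((4 : K) ^ (2 * n)) * (fpol (be / 4)) ^ n := by
    have e1 : (gpol be).comp (C 4 * X) = C ((4 : K) ^ 2) * fpol (be / 4) := by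
      have e2 : C be = C (4 : K) * C (be / 4) := by
        rw [← C_mul, mul_div_cancel₀ _ h4]
      rw [gpol, fpol]
      simp only [add_comp, pow_comp, mul_comp, X_comp, C_comp]
      rw [e2, C_pow]
      ring
    rw [pow_comp, e1, mul_pow, ← C_pow, ← pow_mul]
  have e3 := congrArg (fun q => q.coeff (p - 1)) e
  simp only [comp_C_mul_X_coeff, coeff_C_mul] at e3
  rw [show p - 1 = 2 * n by omega] at e3 ⊢
  apply mul_right_cancel₀ (pow_ne_zero (2 * n) h4)
  rw [e3]
  ring

end

/-- a fixed point free map of order three on a finite set -/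
theorem three_dvd_card {α : Type*} [DecidableEq α] (S : Finset α) (σ : α → α)
    (hS : ∀ x ∈ S, σ x ∈ S) (h3 : ∀ x ∈ S, σ (σ (σ x)) = x) (hne : ∀ x ∈ S, σ x ≠ x) :
    3 ∣ S.card := by
  let f : Function.End S := fun x => ⟨σ x.1, hS x.1 x.2⟩
  have hf : f ^ 3 ^ 1 = 1 := by
    funext x
    apply Subtype.ext
    exact h3 x.1 x.2
  have : Fact (Nat.Prime 3) := ⟨Nat.prime_three⟩
  have h := Equiv.Perm.card_fixedPoints_modEq hf
  have h0 : Fintype.card (Function.fixedPoints f) = 0 := by
    rw [Fintype.card_eq_zero_iff]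
    refine ⟨fun x => ?_⟩
    have hx := x.2
    have := congrArg Subtype.val hx
    exact hne x.1.1 x.1.2 this
  rw [h0, Fintype.card_coe] at h
  exact (Nat.modEq_zero_iff_dvd).1 h

end SC24
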