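import Mathlib
import Pool.Agent.SC24.Hcoef

/-!
MP_9178e4_nt: explicit algebraic identities for the two- and three-isogenies of the curve
`W^2 = x^3 + (3 x + 2 - s)^2`, `s^2 = 2`.
-/

namespace SC24

section
variable {K : Type*} [Field K] (s x W : K)

theorem id_f (hs : s ^ 2 = 2) :
    x ^ 3 + (3 * x + (2 - s)) ^ 2 = (x - 2 * s + 3) * (x ^ 2 + (6 + 2 * s) * x + 2) := by
  linear_combination (4 * x + 1) * hs

theorem id_q (hs : s ^ 2 = 2) :
    x * (x - 2 * s) + (4 * s + 6) * (x - 2 * s + 3) = x ^ 2 + (6 + 2 * s) * x + 2 := by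
  linear_combination (-8) * hs

theorem id_P (hs : s ^ 2 = 2) :
    x * (x - 2 * s) - 2 * (x - s) * (x - 2 * s + 3) = - (x ^ 2 + (6 - 4 * s) * x + 8 - 6 * s) := by
  linear_combination (-4) * hs

theorem id_fb (hs : s ^ 2 = 2) :
    (x - 2 * s + 3) * (x * (x - 2 * s)) ^ 3 + 2 * (x - 2 * s + 3) ^ 2 *
        (3 * (x * (x - 2 * s)) + 2 * (2 + s) * (x - 2 * s + 3)) ^ 2
      = (x ^ 2 + (6 - 4 * s) * x + 8 - 6 * s) ^ 2 * (x ^ 3 + (3 * x + (2 - s)) ^ 2) := by
  linear_combination ((8)*x^5 + (-32)*x^4*s + (43)*x^4 + (16)*x^3*s^2 + (16)*x^3*s + (-40)*x^3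
    + (-304)*x^2*s^2 + (796)*x^2*s + (-544)*x^2 + (128)*x*s^3 + (-880)*x*s^2 + (1792)*x*s
    + (-1152)*x + (128)*s^4 + (-256)*s^3 + (-612)*s^2 + (1840)*s + (-1168)) * hs

theorem id_tau (hs : s ^ 2 = 2) (hW : W ^ 2 = x ^ 3 + (3 * x + (2 - s)) ^ 2) :
    (2 + s) * (6 * (x * (x - 2 * s)) * (x - 2 * s + 3) + 4 * (2 + s) * (x - 2 * s + 3) ^ 2
        + s * (x ^ 2 + (6 - 4 * s) * x + 8 - 6 * s) * W)
        * (2 * (2 - s) * (3 * x + (2 - s) - W) + (3 - 2 * s) * x ^ 2)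
      = (x - 2 * s) ^ 2 * (2 - s) * (3 * x + (2 - s) - W)
        * ((2 - s) * (3 * x + (2 - s) - W) - s * x ^ 2) := by
  linear_combination ((2)*x^2*s^3 + (-1)*x^2*s^2 + (-4)*x^2*s + (-4)*x^2 + (-8)*x*s^4
      + (16)*x*s^3 + (16)*x*s^2 + (-32)*x*s + (-16)*s^4 + (32)*s^3 + (32)*s^2 + (-64)*s) * hW
    + ((2)*x^5*s + (-16)*x^5 + (-2)*x^4*W*s + (-8)*x^4*s^2 + (87)*x^4*s + (-114)*x^4
      + (8)*x^3*W*s^2 + (-18)*x^3*W*s + (12)*x^3*W + (-132)*x^3*s^2 + (500)*x^3*s + (-456)*x^3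
      + (42)*x^2*W*s^2 + (-124)*x^2*W*s + (96)*x^2*W + (22)*x^2*s^3 + (-494)*x^2*s^2
      + (1376)*x^2*s + (-984)*x^2 + (-8)*x*W*s^3 + (112)*x*W*s^2 + (-288)*x*W*s + (192)*x*W
      + (-8)*x*s^4 + (92)*x*s^3 + (-680)*x*s^2 + (1680)*x*s + (-1248)*x + (12)*W*s^3
      + (56)*W*s^2 + (-304)*W*s + (288)*W + (12)*s^4 + (32)*s^3 + (-416)*s^2 + (896)*s
      + (-576)) * hs

/-- three-torsion translate in terms of the quadratic with product `-4 be^2 / a` -/
theorem pair_eq {a b c b' c' be : K} (ha : a ≠ 0) (h1 : a * b + b * c + c * a = 12 * be)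
    (h2 : a * b * c = -4 * be ^ 2) (h1' : a * b' + b' * c' + c' * a = 12 * be)
    (h2' : a * b' * c' = -4 * be ^ 2) : (b' = b ∧ c' = c) ∨ (b' = c ∧ c' = b) := by
  have hbc : b' * c' = b * c := by
    apply mul_left_cancel₀ ha
    linear_combination h2' - h2
  have hs : b' + c' = b + c := by
    apply mul_left_cancel₀ ha
    linear_combination h1' - h1 - hbc
  have h : (b' - b) * (b' - c) = 0 := by
    linear_combination b' * hs - hbc
  rcases mul_eq_zero.1 h with h | h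
  · left
    have hb : b' = b := sub_eq_zero.1 h
    exact ⟨hb, by rw [hb] at hs; exact add_left_cancel hs⟩
  · right
    have hb : b' = c := sub_eq_zero.1 h
    refine ⟨hb, ?_⟩
    rw [hb] at hs
    have : c' = b := by linear_combination hs
    exact this

/-- existence of the pair -/
theorem pair_rel {a W be : K} (ha : a ≠ 0) (hW : W ^ 2 = a ^ 3 + (3 * a + be) ^ 2) :
    a * (2 * be * (3 * a + be - W) / a ^ 2)
      + (2 * be * (3 * a + be - W) / a ^ 2) * (2 * be * (3 * a + be + W) / a ^ 2)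
      + (2 * be * (3 * a + be + W) / a ^ 2) * a = 12 * be ∧
    a * (2 * be * (3 * a + be - W) / a ^ 2) * (2 * be * (3 * a + be + W) / a ^ 2)
      = -4 * be ^ 2 := by
  constructor
  · field_simp
    linear_combination (-4 * be ^ 2) * hW
  · field_simp
    linear_combination (-4 * be ^ 2) * hW

/-- no fixed triple -/
theorem no_fixed {a be : K} (h3 : (3 : K) ≠ 0) (hbe : be ≠ 0) (hbe4 : be ≠ 4) (ha : a ≠ 0)
    (h1 : a * a + a * a + a * a = 12 * be) (h2 : a * a * a = -4 * be ^ 2) : False := by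
  have e1 : a * a = 4 * be := by
    apply mul_left_cancel₀ h3
    linear_combination h1
  have e2 : a = - be := by
    have h4 : (4 : K) * be ≠ 0 := by rw [← e1]; exact mul_ne_zero ha ha
    apply mul_left_cancel₀ h4
    linear_combination h2 - a * e1
  rw [e2] at e1
  apply hbe4
  apply mul_left_cancel₀ hbe
  linear_combination e1

end

end SC24
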