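import Mathlib
import Pool.Agent.SC24.EllAlg

/-!
MP_9178e4_nt: sign of the truncated hypergeometric sum modulo `p` for `p = 1, 7 (mod 24)`:
point count on `W^2 = x^3 + (3 x + 2 - s)^2` over `ZMod p`, modulo `2` and `3`.
-/

namespace SC24

open Finset Polynomial

section
variable {p : ℕ} [Fact p.Prime]

theorem power_sum (_h2 : 2 < p) {i : ℕ} (hi : i < 2 * (p - 1)) :
    ∑ x : ZMod p, x ^ i = if i = p - 1 then -1 else 0 := by
  have hp : p.Prime := Fact.out
  rcases lt_trichotomy i (p - 1) with h | h | h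
  · rw [if_neg (by omega)]
    exact FiniteField.sum_pow_lt_card_sub_one (ZMod p) i (by rwa [ZMod.card])
  · rw [if_pos h, h]
    have e : ∀ x : ZMod p, x ^ (p - 1) = 1 - (if x = 0 then 1 else 0) := by
      intro x
      split_ifs with hx
      · rw [hx, zero_pow (by omega)]; ring
      · rw [ZMod.pow_card_sub_one_eq_one hx]; ring
    rw [sum_congr rfl (fun x _ => e x), sum_sub_distrib, sum_const, card_univ, ZMod.card]
    simp
  · rw [if_neg (by omega)]
    have e : ∀ x : ZMod p, x ^ i = x ^ (i - (p - 1)) := by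
      intro x
      by_cases hx : x = 0
      · rw [hx, zero_pow (by omega), zero_pow (by omega)]
      · have : i = (p - 1) + (i - (p - 1)) := by omega
        conv_lhs => rw [this]
        rw [pow_add, ZMod.pow_card_sub_one_eq_one hx, one_mul]
    rw [sum_congr rfl (fun x _ => e x)]
    exact FiniteField.sum_pow_lt_card_sub_one (ZMod p) _ (by rw [ZMod.card]; omega)

theorem eval_sum (h2 : 2 < p) (G : (ZMod p)[X]) (hG : G.natDegree < 2 * (p - 1)) :
    ∑ x : ZMod p, G.eval x = - G.coeff (p - 1) := by
  rw [sum_congr rfl (fun x _ => eval_eq_sum_range' hG x), sum_comm]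
  simp_rw [← mul_sum]
  rw [sum_congr rfl (fun i hi => by rw [power_sum h2 (mem_range.1 hi)])]
  simp only [mul_ite, mul_neg, mul_one, mul_zero]
  rw [sum_ite_eq' (range (2 * (p - 1))) (p - 1), if_pos (mem_range.2 (by omega))]

theorem chi_pow (_h2 : 2 < p) {n : ℕ} (hn : p = 2 * n + 1) (z : ZMod p) :
    ((quadraticChar (ZMod p) z : ℤ) : ZMod p) = z ^ n := by
  have hr : ringChar (ZMod p) ≠ 2 := by
    rw [ZMod.ringChar_zmod_n]; omega
  rw [quadraticChar_eq_pow_of_char_ne_two' hr, ZMod.card]
  congr 1
  omega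

end

/-- an involution without fixed points -/
theorem two_dvd_card {α : Type*} [DecidableEq α] (S : Finset α) (σ : α → α)
    (hS : ∀ x ∈ S, σ x ∈ S) (h3 : ∀ x ∈ S, σ (σ x) = x) (hne : ∀ x ∈ S, σ x ≠ x) :
    2 ∣ S.card := by
  let f : Function.End S := fun x => ⟨σ x.1, hS x.1 x.2⟩
  have hf : f ^ 2 ^ 1 = 1 := by
    funext x
    apply Subtype.ext
    exact h3 x.1 x.2
  have : Fact (Nat.Prime 2) := ⟨Nat.prime_two⟩
  have h := Equiv.Perm.card_fixedPoints_modEq hf
  have h0 : Fintype.card (Function.fixedPoints f) = 0 := by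
    rw [Fintype.card_eq_zero_iff]
    refine ⟨fun x => ?_⟩
    have hx := x.2
    have := congrArg Subtype.val hx
    exact hne x.1.1 x.1.2 this
  rw [h0, Fintype.card_coe] at h
  exact (Nat.modEq_zero_iff_dvd).1 h

section
variable {F : Type*} [Field F] [Fintype F] [DecidableEq F]

/-- all triples over the finite field -/
def TT (be : F) : Finset (F × F × F) :=
  univ.filter (fun w => w.1 * w.2.1 + w.2.1 * w.2.2 + w.2.2 * w.1 = 12 * be ∧
      w.1 * w.2.1 * w.2.2 = -4 * be ^ 2)

theorem three_dvd_TT {be : F} (h2 : (2 : F) ≠ 0) (h3 : (3 : F) ≠ 0) (hbe : be ≠ 0)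
    (hbe4 : be ≠ 4) : 3 ∣ (TT be).card := by
  apply three_dvd_card (TT be) (fun w => (w.2.1, w.2.2, w.1))
  · rintro ⟨a, b, c⟩ h
    simp only [TT, mem_filter, mem_univ, true_and] at h ⊢
    exact ⟨by rw [← h.1]; ring, by rw [← h.2]; ring⟩
  · rintro ⟨a, b, c⟩ h
    rfl
  · rintro ⟨a, b, c⟩ h h0
    simp only [TT, mem_filter, mem_univ, true_and] at h
    simp only [Prod.mk.injEq] at h0
    obtain ⟨hba, hcb, -⟩ := h0
    subst hba
    subst hcb
    refine no_fixed h3 hbe hbe4 ?_ h.1 h.2
    rintro rfl
    have h4 : (4 : F) * be ^ 2 = 0 := by linear_combination h.2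
    have : (4 : F) = 2 ^ 2 := by norm_num
    rw [this] at h4
    exact (mul_ne_zero (pow_ne_zero _ h2) (pow_ne_zero _ hbe)) h4

theorem fiber_zero {be : F} (h2 : (2 : F) ≠ 0) (hbe : be ≠ 0) :
    ((TT be).filter (fun w => w.1 = 0)).card = 0 := by
  rw [Finset.card_eq_zero, Finset.filter_eq_empty_iff]
  rintro ⟨a, b, c⟩ h ha
  simp only at ha
  subst ha
  simp only [TT, mem_filter, mem_univ, true_and] at h
  have h4 : (4 : F) * be ^ 2 = 0 := by linear_combination h.2
  have : (4 : F) = 2 ^ 2 := by norm_num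
  rw [this] at h4
  exact (mul_ne_zero (pow_ne_zero _ h2) (pow_ne_zero _ hbe)) h4

theorem fiber_ne {be a : F} (h2 : (2 : F) ≠ 0) (hbe : be ≠ 0) (ha : a ≠ 0) :
    ((TT be).filter (fun w => w.1 = a)).card
      = (univ.filter (fun W : F => W ^ 2 = a ^ 3 + (3 * a + be) ^ 2)).card := by
  symm
  have h4 : (4 : F) ≠ 0 := by
    have : (4 : F) = 2 ^ 2 := by norm_num
    rw [this]; exact pow_ne_zero _ h2
  apply Finset.card_bij (fun W _ => ((a, 2 * be * (3 * a + be - W) / a ^ 2,
    2 * be * (3 * a + be + W) / a ^ 2) : F × F × F))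
  · intro W hW
    simp only [mem_filter, mem_univ, true_and] at hW
    have := pair_rel ha hW
    simp only [TT, mem_filter, mem_univ, true_and, and_true]
    exact this
  · intro W _ W' _ h
    simp only [Prod.mk.injEq, true_and] at h
    have h1 := h.1
    rw [div_left_inj' (pow_ne_zero 2 ha)] at h1
    have h5 := mul_left_cancel₀ (mul_ne_zero h2 hbe) h1
    linear_combination -h5
  · rintro ⟨x, b, c⟩ hw
    simp only [TT, mem_filter, mem_univ, true_and] at hw
    obtain ⟨⟨e1, e2⟩, e3⟩ := hw
    subst e3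
    have e4 : x ^ 2 * (b + c) = 4 * be * (3 * x + be) := by
      linear_combination x * e1 - e2
    have e5 : x ^ 4 * ((b + c) ^ 2 - 4 * (b * c))
        = 16 * be ^ 2 * (x ^ 3 + (3 * x + be) ^ 2) := by
      have : x ^ 4 * ((b + c) ^ 2 - 4 * (b * c))
        = (x ^ 2 * (b + c)) ^ 2 - 4 * x ^ 3 * (x * b * c) := by ring
      rw [this, e4, e2]; ring
    have hWdef : x ^ 2 * (c - b) / (4 * be) * (4 * be) = x ^ 2 * (c - b) :=
      div_mul_cancel₀ _ (mul_ne_zero h4 hbe)
    refine ⟨x ^ 2 * (c - b) / (4 * be), ?_, ?_⟩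
    · simp only [mem_filter, mem_univ, true_and]
      generalize x ^ 2 * (c - b) / (4 * be) = W at *
      apply mul_left_cancel₀ (pow_ne_zero 2 (mul_ne_zero h4 hbe))
      calc (4 * be) ^ 2 * W ^ 2 = (W * (4 * be)) ^ 2 := by ring
        _ = x ^ 4 * ((b + c) ^ 2 - 4 * (b * c)) := by rw [hWdef]; ring
        _ = _ := by rw [e5]; ring
    · generalize x ^ 2 * (c - b) / (4 * be) = W at *
      simp only [Prod.mk.injEq, true_and]
      have hx2 := pow_ne_zero 2 ha
      constructor
      · rw [div_eq_iff hx2]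
        apply mul_left_cancel₀ h2
        linear_combination -e4 - hWdef
      · rw [div_eq_iff hx2]
        apply mul_left_cancel₀ h2
        linear_combination -e4 + hWdef

end

/-- Sign of the truncated hypergeometric sum modulo `p`, `p = 1, 7 (mod 24)`. -/
theorem ellA (p : ℕ) [Fact p.Prime] (hr : p % 24 = 1 ∨ p % 24 = 7) (s : ZMod p)
    (hs : s ^ 2 = 2) :
    ∃ a : ℤ, |a| ≤ p ∧ Even a ∧ a % 3 = 2 ∧ (a : ZMod p) = Hpol (ZMod p) p ((2 - s) / 4) := by
  classical
  have hp : p.Prime := Fact.out
  have h3p : 3 < p := by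
    have := hp.two_le
    omega
  obtain ⟨n, hn⟩ : ∃ n, p = 2 * n + 1 := ⟨p / 2, by omega⟩
  have h2 : (2 : ZMod p) ≠ 0 := by
    have := cast_ne_zero_of_lt (K := ZMod p) hp (k := 2) (by norm_num) (by omega)
    exact_mod_cast this
  have h3 : (3 : ZMod p) ≠ 0 := by
    have := cast_ne_zero_of_lt (K := ZMod p) hp (k := 3) (by norm_num) h3p
    exact_mod_cast this
  have hr2 : ringChar (ZMod p) ≠ 2 := by
    rw [ZMod.ringChar_zmod_n]; omega
  have hb0 : (2 - s) ≠ 0 := by
    intro h
    apply h2
    linear_combination (2 + s) * h + hs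
  have hb4 : (2 - s) ≠ 4 := by
    intro h
    apply h2
    linear_combination (s - 2) * h + hs
  set g : ZMod p → ZMod p := fun x => x ^ 3 + (3 * x + (2 - s)) ^ 2 with hg
  set χ : ZMod p → ℤ := fun z => quadraticChar (ZMod p) z with hχ
  have hχg : ∀ x, |χ (g x)| ≤ 1 := by
    intro x
    by_cases h : g x = 0
    · simp [hχ, h]
    · rcases quadraticChar_dichotomy h with h | h
      · rw [show χ (g x) = 1 from h]; norm_num
      · rw [show χ (g x) = -1 from h]; norm_num
  -- the integer
  refine ⟨-∑ x, χ (g x), ?_, ?_, ?_, ?_⟩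
  · rw [abs_neg]
    refine le_trans (abs_sum_le_sum_abs _ _) ?_
    refine le_trans (sum_le_sum (fun x _ => hχg x)) ?_
    simp [ZMod.card]
  · -- parity
    rw [even_neg]
    set R : Finset (ZMod p) := univ.filter (fun x => g x = 0) with hR
    have e : ∀ x : ZMod p, ∃ k : ℤ, χ (g x) = 1 - (if g x = 0 then 1 else 0) + 2 * k := by
      intro x
      by_cases h : g x = 0
      · exact ⟨0, by simp [hχ, h]⟩
      · rcases quadraticChar_dichotomy h with h' | h'
        · exact ⟨0, by rw [show χ (g x) = 1 from h', if_neg h]; norm_num⟩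
        · exact ⟨-1, by rw [show χ (g x) = -1 from h', if_neg h]; norm_num⟩
    choose k hk using e
    have hsum : ∑ x, χ (g x) = p - R.card + 2 * ∑ x, k x := by
      rw [sum_congr rfl (fun x _ => hk x), sum_add_distrib, sum_sub_distrib, ← mul_sum,
        sum_boole, sum_const, card_univ, ZMod.card, hR]
      simp
    -- the roots
    have hx0 : ((2 : ZMod p) * s - 3) ∈ R := by
      rw [hR, mem_filter]
      refine ⟨mem_univ _, ?_⟩
      simp only [hg]
      rw [id_f s _ hs]; ring
    have hx0q : ((2 : ZMod p) * s - 3) ^ 2 + (6 + 2 * s) * (2 * s - 3) + 2 ≠ 0 := by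
      intro h
      apply h3
      have hu : (3 - 2 * s) * (3 + 2 * s) = (1 : ZMod p) := by linear_combination (-4) * hs
      linear_combination (3 + 2 * s) * h - 3 * hu - (16 * s + 24) * hs
    have hRe : R.erase (2 * s - 3) = univ.filter (fun x => x ^ 2 + (6 + 2 * s) * x + 2 = 0) := by
      ext x
      simp only [hR, mem_erase, mem_filter, mem_univ, true_and, hg]
      rw [id_f s x hs]
      constructor
      · rintro ⟨h1, h4⟩
        rcases mul_eq_zero.1 h4 with h5 | h5
        · exact absurd (by linear_combination h5) h1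
        · exact h5
      · intro h5
        refine ⟨?_, by rw [h5, mul_zero]⟩
        rintro rfl
        exact hx0q h5
    have hev : 2 ∣ (R.erase (2 * s - 3)).card := by
      rw [hRe]
      apply two_dvd_card _ (fun x => -(6 + 2 * s) - x)
      · intro x hx
        simp only [mem_filter, mem_univ, true_and] at hx ⊢
        linear_combination hx
      · intro x _
        ring
      · intro x hx h
        simp only [mem_filter, mem_univ, true_and] at hx
        have hu : (3 - 2 * s) * (3 + 2 * s) = (1 : ZMod p) := by linear_combination (-4) * hs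
        have h6 : (2 : ZMod p) * (x + (3 + s)) = 0 := by linear_combination -h
        have h7 := (mul_eq_zero.1 h6).resolve_left h2
        have h8 : x = -(3 + s) := by linear_combination h7
        rw [h8] at hx
        apply h3
        linear_combination (-(3 - 2 * s)) * hx - 3 * hu - (3 - 2 * s) * hs
    rw [card_erase_of_mem hx0] at hev
    have hpos : 0 < R.card := card_pos.2 ⟨_, hx0⟩
    rw [hsum]
    obtain ⟨j, hj⟩ := hev
    refine ⟨n - j + ∑ x, k x, ?_⟩
    have hRc : (R.card : ℤ) = 2 * j + 1 := by omega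
    have hpn : (p : ℤ) = 2 * n + 1 := by omega
    linear_combination hpn - hRc
  · -- modulo three
    have hT := three_dvd_TT (be := 2 - s) h2 h3 hb0 hb4
    have hcard : ((TT (2 - s)).card : ℤ) = ∑ x, χ (g x) + p - 2 := by
      have hmaps : Set.MapsTo (fun w : ZMod p × ZMod p × ZMod p => w.1)
          (TT (2 - s) : Set (ZMod p × ZMod p × ZMod p)) (univ : Finset (ZMod p)) := by
        intro w _
        exact mem_coe.2 (mem_univ _)
      rw [Finset.card_eq_sum_card_fiberwise hmaps, Nat.cast_sum]
      have e : ∀ a : ZMod p, ((((TT (2 - s)).filter (fun w => w.1 = a)).card : ℕ) : ℤ)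
          = χ (g a) + 1 - (if a = 0 then 2 else 0) := by
        intro a
        by_cases ha : a = 0
        · subst ha
          rw [fiber_zero h2 hb0, if_pos rfl]
          have : g 0 = (2 - s) ^ 2 := by simp [hg]
          rw [this]
          simp only [hχ]
          rw [quadraticChar_sq_one' hb0]
          norm_num
        · rw [fiber_ne h2 hb0 ha, if_neg ha, sub_zero]
          rw [← quadraticChar_card_sqrts hr2 (g a)]
          congr 2
          ext W
          simp [hg]
      rw [sum_congr rfl (fun a _ => e a), sum_sub_distrib, sum_add_distrib, sum_ite_eq', sum_const,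
        card_univ, ZMod.card]
      simp
    have : (3 : ℤ) ∣ ((TT (2 - s)).card : ℤ) := by exact_mod_cast hT
    rw [hcard] at this
    omega
  · -- modulo p
    push_cast
    have e : ∀ x, ((χ (g x) : ℤ) : ZMod p) = ((gpol (2 - s)) ^ n).eval x := by
      intro x
      simp only [hχ]
      rw [chi_pow (by omega) hn, eval_pow, gpol_eval]
    rw [sum_congr rfl (fun x _ => e x), eval_sum (by omega) _ (by
      have := gpol_pow_natDegree_le (2 - s) n
      omega), neg_neg, gpol_pow_coeff hp h3p hn]

end SC24
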