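import Mathlib
import Pool.Agent.SC24.EllAlg

/-!
MP_9178e4_nt: sign of the truncated hypergeometric sum modulo `p` for `p = 5, 11 (mod 24)`.
Points `R` of the curve with `Frob R = - phi2 R` are counted modulo three.
-/

namespace SC24

open Finset Polynomial

section lagr
variable {K : Type*} [Field K]

/-- Lagrange interpolation: sum over the simple roots of `(X - c) X^p - R`. -/
theorem lagr (p : ℕ) (hp : 2 < p) (c : K) (R G : K[X]) (hR : R.natDegree ≤ 2)
    (hG : G.natDegree + 2 < 2 * p) (Z : Finset K) (hZc : Z.card = p + 1)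
    (hZ : ∀ x ∈ Z, (x - c) * x ^ p = R.eval x)
    (hprod : (X - C c) * X ^ p - R = ∏ z ∈ Z, (X - C z)) :
    ∑ x ∈ Z, (x - c) * G.eval x / (derivative ((X - C c) * X ^ p - R)).eval x
      = G.coeff (p - 1) := by
  classical
  have hXm : (X ^ p : K[X]).Monic := monic_X_pow p
  set A : K[X] := (G %ₘ X ^ p) * (X - C c) + (G /ₘ X ^ p) * R with hA
  have hmod : G %ₘ X ^ p + X ^ p * (G /ₘ X ^ p) = G := modByMonic_add_div G _
  have hdm : (G %ₘ X ^ p).natDegree < p := by
    have := natDegree_modByMonic_lt G hXm (by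
      intro h
      have := congrArg natDegree h
      rw [natDegree_X_pow, natDegree_one] at this
      omega)
    rwa [natDegree_X_pow] at this
  have hdd : (G /ₘ X ^ p).natDegree = G.natDegree - p := by
    rw [natDegree_divByMonic G hXm, natDegree_X_pow]
  have hAdeg : A.natDegree ≤ p := by
    refine le_trans (natDegree_add_le _ _) (max_le ?_ ?_)
    · refine le_trans natDegree_mul_le ?_
      rw [natDegree_X_sub_C]
      omega
    · refine le_trans natDegree_mul_le ?_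
      rw [hdd]
      omega
  have hdeg : A.degree < (Z.card : WithBot ℕ) := by
    refine lt_of_le_of_lt degree_le_natDegree ?_
    rw [hZc]
    exact_mod_cast Nat.lt_succ_of_le hAdeg
  have hcoeff := Lagrange.coeff_eq_sum (s := Z) (v := (id : K → K)) (Set.injOn_id _) hdeg
  have hAc : A.coeff (Z.card - 1) = G.coeff (p - 1) := by
    rw [hZc, Nat.add_sub_cancel, hA, coeff_add]
    have h1 : ((G /ₘ X ^ p) * R).coeff p = 0 := by
      apply coeff_eq_zero_of_natDegree_lt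
      refine lt_of_le_of_lt natDegree_mul_le ?_
      rw [hdd]
      omega
    have h2 : ((G %ₘ X ^ p) * (X - C c)).coeff p = (G %ₘ X ^ p).coeff (p - 1) := by
      have hp1 : p = (p - 1) + 1 := by omega
      conv_lhs => rw [hp1]
      rw [coeff_mul_X_sub_C]
      rw [← hp1, coeff_eq_zero_of_natDegree_lt hdm]
      ring
    have h3 : G.coeff (p - 1) = (G %ₘ X ^ p).coeff (p - 1) := by
      conv_lhs => rw [← hmod]
      rw [coeff_add, coeff_X_pow_mul', if_neg (by omega), add_zero]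
    rw [h1, h2, h3, add_zero]
  rw [hAc] at hcoeff
  rw [hcoeff]
  refine sum_congr rfl fun x hx => ?_
  have hAx : A.eval x = (x - c) * G.eval x := by
    rw [hA, eval_add, eval_mul, eval_mul, ← hZ x hx]
    conv_rhs => rw [← hmod]
    simp only [eval_add, eval_mul, eval_sub, eval_X, eval_C, eval_pow]
    ring
  have hder : (derivative ((X - C c) * X ^ p - R)).eval x = ∏ j ∈ Z.erase x, (x - j) := by
    rw [hprod]
    have := Lagrange.eval_nodal_derivative_eval_node_eq (s := Z) (v := (id : K → K)) hx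
    rw [Lagrange.nodal_eq, Lagrange.eval_nodal] at this
    simpa using this
  simp only [id]
  rw [hAx, hder]

end lagr

section
variable {K : Type*} [Field K] {p : ℕ}

/-- the polynomial whose roots are the relevant abscissae -/
noncomputable def PP (p : ℕ) (s : K) : K[X] :=
  (X - C (2 * s - 3)) * X ^ p - C (2⁻¹) * (X * (X - C (2 * s)))

theorem PP_R_natDegree (s : K) : (C (2⁻¹ : K) * (X * (X - C (2 * s)))).natDegree ≤ 2 := by
  refine le_trans (natDegree_C_mul_le _ _) (le_trans natDegree_mul_le ?_)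
  rw [natDegree_X_sub_C]
  have := natDegree_X_le (R := K)
  omega

theorem PP_lead (p : ℕ) (s : K) : ((X - C (2 * s - 3)) * X ^ p : K[X]).Monic ∧
    ((X - C (2 * s - 3)) * X ^ p : K[X]).natDegree = p + 1 := by
  refine ⟨(monic_X_sub_C _).mul (monic_X_pow p), ?_⟩
  rw [(monic_X_sub_C _).natDegree_mul (monic_X_pow p), natDegree_X_sub_C, natDegree_X_pow]
  ring

theorem PP_natDegree (hp : 2 < p) (s : K) : (PP p s).natDegree = p + 1 := by
  rw [PP, natDegree_sub_eq_left_of_natDegree_lt, (PP_lead p s).2]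
  rw [(PP_lead p s).2]
  exact lt_of_le_of_lt (PP_R_natDegree s) (by omega)

theorem PP_monic (hp : 2 < p) (s : K) : (PP p s).Monic := by
  unfold PP
  apply Monic.sub_of_left (PP_lead p s).1
  apply degree_lt_degree
  rw [(PP_lead p s).2]
  exact lt_of_le_of_lt (PP_R_natDegree s) (by omega)

theorem PP_eval (s x : K) : (PP p s).eval x = (x - (2 * s - 3)) * x ^ p
    - 2⁻¹ * (x * (x - 2 * s)) := by
  simp [PP]

theorem PP_root_iff (h2 : (2 : K) ≠ 0) (s x : K) :
    (PP p s).eval x = 0 ↔ 2 * (x - 2 * s + 3) * x ^ p = x * (x - 2 * s) := by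
  rw [PP_eval]
  constructor
  · intro h
    have h' : 2 * ((x - (2 * s - 3)) * x ^ p - 2⁻¹ * (x * (x - 2 * s))) = 0 := by rw [h, mul_zero]
    have h'' : (2 : K) * 2⁻¹ = 1 := mul_inv_cancel₀ h2
    linear_combination h' + (x * (x - 2 * s)) * h''
  · intro h
    apply (mul_eq_zero.1 (?_ : 2 * ((x - (2 * s - 3)) * x ^ p - 2⁻¹ * (x * (x - 2 * s))) = 0)
      ).resolve_left h2
    have h'' : (2 : K) * 2⁻¹ = 1 := mul_inv_cancel₀ h2
    linear_combination h - (x * (x - 2 * s)) * h''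

theorem PP_deriv [CharP K p] (h2 : (2 : K) ≠ 0) (s x : K) :
    (derivative (PP p s)).eval x = x ^ p - (x - s) := by
  have hp0 : (p : K) = 0 := CharP.cast_eq_zero K p
  have h'' : (2 : K)⁻¹ * 2 = 1 := inv_mul_cancel₀ h2
  simp only [PP, derivative_sub, derivative_mul, derivative_X, derivative_C, derivative_X_pow,
    eval_sub, eval_add, eval_mul, eval_X, eval_C, eval_pow, hp0, C_0, eval_zero, eval_one]
  linear_combination (-(x - s)) * h''

variable [CharP K p] (hp : p.Prime) (h3p : 3 < p) (s : K) (hs : s ^ 2 = 2) (hsp : s ^ p = -s)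

include hp h3p

theorem two_ne : (2 : K) ≠ 0 := by
  have := cast_ne_zero_of_lt (K := K) hp (k := 2) (by norm_num) (by omega)
  exact_mod_cast this

theorem three_ne : (3 : K) ≠ 0 := by
  have := cast_ne_zero_of_lt (K := K) hp (k := 3) (by norm_num) h3p
  exact_mod_cast this

omit hp h3p in
include hs in
theorem unit_three : (3 - 2 * s) * (3 + 2 * s) = 1 := by
  linear_combination (-4) * hs

omit h3p in
include hsp in
theorem frob_lin : (2 - s) ^ p = 2 + s ∧ (2 * s - 3) ^ p = - (2 * s + 3) := by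
  have := Fact.mk hp
  have e2 : (2 : K) ^ p = 2 := by simpa using cast_pow_char (K := K) hp 2
  have e3 : (3 : K) ^ p = 3 := by simpa using cast_pow_char (K := K) hp 3
  constructor
  · rw [sub_pow_char, e2, hsp]; ring
  · rw [sub_pow_char, mul_pow, e2, e3, hsp]; ring

omit h3p in
include hsp in
/-- Frobenius on the cubic -/
theorem frob_f (x : K) : (x ^ 3 + (3 * x + (2 - s)) ^ 2) ^ p
    = (x ^ p) ^ 3 + (3 * x ^ p + (2 + s)) ^ 2 := by
  have := Fact.mk hp
  have e3 : (3 : K) ^ p = 3 := by simpa using cast_pow_char (K := K) hp 3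
  rw [add_pow_char, ← pow_mul, mul_comm 3 p, pow_mul, ← pow_mul _ 2 p, mul_comm 2 p, pow_mul _ p 2,
    add_pow_char, mul_pow, e3, (frob_lin hp s hsp).1]

include hs in
theorem L_ne {x : K} (hx : 2 * (x - 2 * s + 3) * x ^ p = x * (x - 2 * s)) :
    x - 2 * s + 3 ≠ 0 := by
  intro h
  rw [h] at hx
  have h0 : x * (x - 2 * s) = 0 := by rw [← hx]; ring
  rcases mul_eq_zero.1 h0 with h1 | h1
  · rw [h1] at h
    have := unit_three s hs
    apply one_ne_zero (α := K)
    rw [← this]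
    linear_combination (3 + 2 * s) * h
  · apply three_ne (K := K) hp h3p
    linear_combination h - h1

include hs hsp in
theorem f_ne {x : K} (hx : 2 * (x - 2 * s + 3) * x ^ p = x * (x - 2 * s)) :
    x ^ 3 + (3 * x + (2 - s)) ^ 2 ≠ 0 := by
  have := Fact.mk hp
  have hL := L_ne hp h3p s hs hx
  rw [id_f s x hs]
  apply mul_ne_zero hL
  intro hq
  have h1 : (x - 2 * s + 3) * (2 * (x ^ p + (2 * s + 3))) = 0 := by
    rw [← id_q s x hs] at hq
    linear_combination hx + hq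
  have h2 := (mul_eq_zero.1 ((mul_eq_zero.1 h1).resolve_left hL)).resolve_left
    (two_ne (K := K) hp h3p)
  have h3 : (x - (2 * s - 3)) ^ p = 0 := by
    rw [sub_pow_char, (frob_lin hp s hsp).2]
    linear_combination h2
  have h4 := pow_eq_zero_iff (hp.ne_zero) |>.1 h3
  apply hL
  linear_combination h4

omit h3p in
include hs hsp in
theorem key_fp {x : K} (hx : 2 * (x - 2 * s + 3) * x ^ p = x * (x - 2 * s)) :
    8 * (x - 2 * s + 3) ^ 4 * (x ^ 3 + (3 * x + (2 - s)) ^ 2) ^ p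
      = (x ^ 2 + (6 - 4 * s) * x + 8 - 6 * s) ^ 2 * (x ^ 3 + (3 * x + (2 - s)) ^ 2) := by
  rw [← id_fb s x hs, frob_f hp s hsp, ← hx]
  ring

include hs hsp in
theorem M_ne {x : K} (hx : 2 * (x - 2 * s + 3) * x ^ p = x * (x - 2 * s)) :
    x ^ 2 + (6 - 4 * s) * x + 8 - 6 * s ≠ 0 := by
  intro h
  have h1 := key_fp hp s hs hsp hx
  rw [h] at h1
  have h2 := two_ne (K := K) hp h3p
  have h8 : (8 : K) ≠ 0 := by
    have : (8 : K) = 2 ^ 3 := by norm_num
    rw [this]; exact pow_ne_zero _ h2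
  have hL := L_ne hp h3p s hs hx
  have hf := f_ne hp h3p s hs hsp hx
  have : 8 * (x - 2 * s + 3) ^ 4 * (x ^ 3 + (3 * x + (2 - s)) ^ 2) ^ p ≠ 0 :=
    mul_ne_zero (mul_ne_zero h8 (pow_ne_zero _ hL)) (pow_ne_zero _ hf)
  apply this
  rw [h1]; ring

omit hp h3p in
/-- the sign of a root -/
noncomputable def sg (n : ℕ) (s x : K) : K :=
  (x ^ 3 + (3 * x + (2 - s)) ^ 2) ^ n * (2 * s * (x - 2 * s + 3) ^ 2)
    / (x ^ 2 + (6 - 4 * s) * x + 8 - 6 * s)

include hs hsp in
theorem sg_sq {n : ℕ} (hn : p = 2 * n + 1) {x : K}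
    (hx : 2 * (x - 2 * s + 3) * x ^ p = x * (x - 2 * s)) : sg n s x ^ 2 = 1 := by
  have hM := M_ne hp h3p s hs hsp hx
  have hf := f_ne hp h3p s hs hsp hx
  have h1 := key_fp hp s hs hsp hx
  have h2 : 8 * (x - 2 * s + 3) ^ 4 * (x ^ 3 + (3 * x + (2 - s)) ^ 2) ^ (2 * n)
      = (x ^ 2 + (6 - 4 * s) * x + 8 - 6 * s) ^ 2 := by
    apply mul_right_cancel₀ hf
    rw [← h1]
    conv_rhs => rw [hn]
    ring
  rw [sg, div_pow, div_eq_one_iff_eq (pow_ne_zero _ hM), ← h2, mul_pow, mul_pow, mul_pow, hs,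
    ← pow_mul, mul_comm n 2]
  ring

include hs hsp in
theorem sg_cases {n : ℕ} (hn : p = 2 * n + 1) {x : K}
    (hx : 2 * (x - 2 * s + 3) * x ^ p = x * (x - 2 * s)) : sg n s x = 1 ∨ sg n s x = -1 := by
  have := sg_sq hp h3p s hs hsp hn hx
  rw [pow_two] at this
  exact mul_self_eq_one_iff.1 this

omit h3p in
include hs hsp in
theorem sg_zero (h3p : 3 < p) {n : ℕ} (hn : p = 2 * n + 1) : sg n s (0 : K) = -1 := by
  have h2 := two_ne (K := K) hp h3p
  have hb : (2 - s) * (2 + s) = 2 := by linear_combination -hs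
  have hb0 : (2 - s) ≠ 0 := by
    intro h; rw [h, zero_mul] at hb; exact h2 hb.symm
  have hx : 2 * ((0 : K) - 2 * s + 3) * 0 ^ p = 0 * (0 - 2 * s) := by
    rw [zero_pow hp.ne_zero]; ring
  have hM := M_ne hp h3p s hs hsp hx
  rw [sg, div_eq_iff hM]
  apply mul_left_cancel₀ hb0
  have hF : (2 - s) * ((0 : K) ^ 3 + (3 * 0 + (2 - s)) ^ 2) ^ n = 2 + s := by
    have e : (0 : K) ^ 3 + (3 * 0 + (2 - s)) ^ 2 = (2 - s) ^ 2 := by ring
    rw [← (frob_lin hp s hsp).1, e, ← pow_mul, ← pow_succ', ← hn]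
  rw [← mul_assoc, hF]
  linear_combination (-8 * s - 8 + 8 * s ^ 2) * hs

omit hp h3p in
/-- the finite set of roots -/
noncomputable def ZZ [DecidableEq K] (p : ℕ) (s : K) : Finset K := (PP p s).roots.toFinset

theorem mem_ZZ [DecidableEq K] {x : K} :
    x ∈ ZZ p s ↔ 2 * (x - 2 * s + 3) * x ^ p = x * (x - 2 * s) := by
  have hP : PP p s ≠ 0 := (PP_monic (by omega) s).ne_zero
  rw [ZZ, Multiset.mem_toFinset, mem_roots hP, IsRoot.def,
    PP_root_iff (two_ne (K := K) hp h3p)]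

include hs hsp in
theorem PP_deriv_root {x : K} (hx : 2 * (x - 2 * s + 3) * x ^ p = x * (x - 2 * s)) :
    2 * (x - 2 * s + 3) * (derivative (PP p s)).eval x
      = - (x ^ 2 + (6 - 4 * s) * x + 8 - 6 * s) ∧ (derivative (PP p s)).eval x ≠ 0 := by
  have h : 2 * (x - 2 * s + 3) * (derivative (PP p s)).eval x
      = - (x ^ 2 + (6 - 4 * s) * x + 8 - 6 * s) := by
    rw [PP_deriv (two_ne (K := K) hp h3p), ← id_P s x hs]
    linear_combination hx
  refine ⟨h, fun h0 => ?_⟩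
  rw [h0] at h
  apply M_ne hp h3p s hs hsp hx
  linear_combination h

include hs hsp in
theorem nodup_PP : (PP p s).roots.Nodup := by
  classical
  have hP : PP p s ≠ 0 := (PP_monic (by omega) s).ne_zero
  rw [Multiset.nodup_iff_count_le_one]
  intro x
  rw [count_roots]
  by_contra hcon
  push Not at hcon
  rw [one_lt_rootMultiplicity_iff_isRoot hP] at hcon
  have hx := (PP_root_iff (p := p) (two_ne (K := K) hp h3p) s x).1 hcon.1
  exact (PP_deriv_root hp h3p s hs hsp hx).2 hcon.2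

include hs hsp in
theorem card_ZZ [DecidableEq K] [IsAlgClosed K] : (ZZ p s).card = p + 1 := by
  rw [ZZ, Multiset.toFinset_card_of_nodup (nodup_PP hp h3p s hs hsp)]
  rw [← PP_natDegree (by omega) s]
  exact splits_iff_card_roots.1 (IsAlgClosed.splits _)

include hs hsp in
theorem prod_ZZ [DecidableEq K] [IsAlgClosed K] : PP p s = ∏ z ∈ ZZ p s, (X - C z) := by
  have h := prod_multiset_X_sub_C_of_monic_of_roots_card_eq (PP_monic (by omega) s)
    (splits_iff_card_roots.1 (IsAlgClosed.splits (PP p s)))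
  conv_lhs => rw [← h]
  rw [Finset.prod, ZZ, Multiset.toFinset_val, (nodup_PP hp h3p s hs hsp).dedup]

include hs hsp in
theorem sum_sg [DecidableEq K] [IsAlgClosed K] {n : ℕ} (hn : p = 2 * n + 1) :
    ∑ x ∈ ZZ p s, sg n s x = - (s * Hpol K p ((2 - s) / 4)) := by
  have h2 := two_ne (K := K) hp h3p
  have hl := lagr p (by omega) (2 * s - 3) (C (2⁻¹ : K) * (X * (X - C (2 * s))))
    ((gpol (2 - s)) ^ n) (PP_R_natDegree s) (by
      have := gpol_pow_natDegree_le (2 - s) n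
      omega) (ZZ p s) (card_ZZ hp h3p s hs hsp) (by
      intro x hx
      have hx' : (PP p s).eval x = 0 := (PP_root_iff h2 s x).2 ((mem_ZZ hp h3p s).1 hx)
      rw [PP_eval] at hx'
      simp only [eval_mul, eval_C, eval_X, eval_sub]
      exact sub_eq_zero.1 hx') (prod_ZZ hp h3p s hs hsp)
  rw [gpol_pow_coeff hp h3p hn] at hl
  rw [← hl, mul_sum, ← sum_neg_distrib]
  refine sum_congr rfl fun x hx => ?_
  have hx' := (mem_ZZ hp h3p s).1 hx
  have hM := M_ne hp h3p s hs hsp hx'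
  obtain ⟨hd, hd0⟩ := PP_deriv_root hp h3p s hs hsp hx'
  change _ = -(s * ((x - (2 * s - 3)) * ((gpol (2 - s)) ^ n).eval x / (derivative (PP p s)).eval x))
  rw [eval_pow, gpol_eval, sg]
  generalize (derivative (PP p s)).eval x = D at *
  generalize (x ^ 3 + (3 * x + (2 - s)) ^ 2) ^ n = F at *
  have hM' : x ^ 2 + (6 - 4 * s) * x + 8 - 6 * s = - (2 * (x - 2 * s + 3) * D) := by
    linear_combination hd
  rw [hM'] at hM ⊢
  rw [mul_div_assoc', ← neg_div, div_eq_div_iff hM hd0]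
  ring

omit hp h3p in
/-- abscissa of the translate by the three-torsion point -/
noncomputable def tb (s a W : K) : K := 2 * (2 - s) * (3 * a + (2 - s) - W) / a ^ 2

omit [CharP K p] hp h3p in
include hs in
theorem tau_step (h2 : (2 : K) ≠ 0) {a W G V : K} (ha : a ≠ 0) (hG0 : G ≠ 0)
    (hL : a - 2 * s + 3 ≠ 0)
    (hG : 2 * (a - 2 * s + 3) * G = a * (a - 2 * s)) (hW : W ^ 2 = a ^ 3 + (3 * a + (2 - s)) ^ 2)
    (hV : 4 * (a - 2 * s + 3) ^ 2 * V = -(s * (a ^ 2 + (6 - 4 * s) * a + 8 - 6 * s) * W)) :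
    2 * (tb s a W - 2 * s + 3) * (2 * (2 + s) * (3 * G + (2 + s) - V) / G ^ 2)
      = tb s a W * (tb s a W - 2 * s) := by
  have hid := id_tau s a W hs hW
  have ht : tb s a W * a ^ 2 = 2 * (2 - s) * (3 * a + (2 - s) - W) := by
    rw [tb, div_mul_cancel₀ _ (pow_ne_zero 2 ha)]
  have hu : (2 * (2 + s) * (3 * G + (2 + s) - V) / G ^ 2) * G ^ 2
      = 2 * (2 + s) * (3 * G + (2 + s) - V) := by
    rw [div_mul_cancel₀ _ (pow_ne_zero 2 hG0)]
  generalize tb s a W = t at *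
  generalize (2 * (2 + s) * (3 * G + (2 + s) - V) / G ^ 2) = u at *
  set L := a - 2 * s + 3 with hLdef
  set M := a ^ 2 + (6 - 4 * s) * a + 8 - 6 * s with hMdef
  set T := 3 * a + (2 - s) - W with hTdef
  have h4 : (4 : K) ≠ 0 := by
    have : (4 : K) = 2 ^ 2 := by norm_num
    rw [this]; exact pow_ne_zero _ h2
  have hne : 4 * L ^ 2 * a ^ 4 * G ^ 2 ≠ 0 :=
    mul_ne_zero (mul_ne_zero (mul_ne_zero h4 (pow_ne_zero _ hL)) (pow_ne_zero _ ha))
      (pow_ne_zero _ hG0)
  apply mul_left_cancel₀ hne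
  have e1 : 4 * L ^ 2 * a ^ 4 * G ^ 2 * (2 * (t - 2 * s + 3) * u)
      = 2 * (2 * (2 - s) * T + (3 - 2 * s) * a ^ 2) * a ^ 2
        * (4 * L ^ 2 * (2 * (2 + s) * (3 * G + (2 + s) - V))) := by
    rw [← hu, ← ht]; ring
  have e2 : 4 * L ^ 2 * (2 * (2 + s) * (3 * G + (2 + s) - V))
      = 2 * (2 + s) * (6 * (a * (a - 2 * s)) * L + 4 * (2 + s) * L ^ 2 + s * M * W) := by
    linear_combination (2 * (2 + s) * 6 * L) * hG - 2 * (2 + s) * hV
  have e3 : 4 * L ^ 2 * a ^ 4 * G ^ 2 * (t * (t - 2 * s))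
      = (2 * L * G) ^ 2 * ((t * a ^ 2) * (t * a ^ 2 - 2 * s * a ^ 2)) := by ring
  rw [hG, ht] at e3
  rw [e1, e2, e3]
  linear_combination (4 * a ^ 2) * hid

omit h3p in
include hsp in
theorem tb_pow {a W : K} : (tb s a W) ^ p = 2 * (2 + s) * (3 * a ^ p + (2 + s) - W ^ p) / (a ^ p) ^ 2 := by
  have := Fact.mk hp
  have e2 : (2 : K) ^ p = 2 := by simpa using cast_pow_char (K := K) hp 2
  have e3 : (3 : K) ^ p = 3 := by simpa using cast_pow_char (K := K) hp 3
  rw [tb, div_pow, mul_pow, mul_pow, e2, (frob_lin hp s hsp).1, sub_pow_char, add_pow_char,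
    mul_pow, e3, (frob_lin hp s hsp).1, ← pow_mul, ← pow_mul, mul_comm 2 p]

include hs hsp in
theorem W_pow {n : ℕ} (hn : p = 2 * n + 1) {a W : K}
    (ha : 2 * (a - 2 * s + 3) * a ^ p = a * (a - 2 * s)) (hW : W ^ 2 = a ^ 3 + (3 * a + (2 - s)) ^ 2) :
    4 * (a - 2 * s + 3) ^ 2 * W ^ p
      = sg n s a * (s * (a ^ 2 + (6 - 4 * s) * a + 8 - 6 * s) * W) := by
  have hM := M_ne hp h3p s hs hsp ha
  have hWp : W ^ p = (a ^ 3 + (3 * a + (2 - s)) ^ 2) ^ n * W := by
    rw [← hW, ← pow_mul, ← pow_succ, ← hn]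
  have hsg : sg n s a * (a ^ 2 + (6 - 4 * s) * a + 8 - 6 * s)
      = (a ^ 3 + (3 * a + (2 - s)) ^ 2) ^ n * (2 * s * (a - 2 * s + 3) ^ 2) := by
    rw [sg, div_mul_cancel₀ _ hM]
  rw [hWp]
  generalize (a ^ 3 + (3 * a + (2 - s)) ^ 2) ^ n = F at *
  linear_combination (-(s * W)) * hsg - (2 * F * W * (a - 2 * s + 3) ^ 2) * hs

include hs hsp in
/-- if the sign is `-1` the translate is again a root -/
theorem tb_root {n : ℕ} (hn : p = 2 * n + 1) {a W : K} (ha0 : a ≠ 0)
    (ha : 2 * (a - 2 * s + 3) * a ^ p = a * (a - 2 * s)) (hW : W ^ 2 = a ^ 3 + (3 * a + (2 - s)) ^ 2)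
    (hsg : sg n s a = -1) :
    2 * (tb s a W - 2 * s + 3) * (tb s a W) ^ p = tb s a W * (tb s a W - 2 * s) := by
  have hV := W_pow hp h3p s hs hsp hn ha hW
  rw [hsg] at hV
  rw [tb_pow hp s hsp]
  exact tau_step s hs (two_ne (K := K) hp h3p) ha0 (pow_ne_zero _ ha0) (L_ne hp h3p s hs ha) ha hW
    (by rw [hV]; ring)

include hs hsp in
/-- if the sign is `1` the translates get exchanged by the two conditions -/
theorem tb_root' {n : ℕ} (hn : p = 2 * n + 1) {a W : K} (ha0 : a ≠ 0)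
    (ha : 2 * (a - 2 * s + 3) * a ^ p = a * (a - 2 * s)) (hW : W ^ 2 = a ^ 3 + (3 * a + (2 - s)) ^ 2)
    (hsg : sg n s a = 1) :
    2 * (tb s a W - 2 * s + 3) * (tb s a (-W)) ^ p = tb s a W * (tb s a W - 2 * s) := by
  have hV := W_pow hp h3p s hs hsp hn ha hW
  rw [hsg] at hV
  have hodd : Odd p := ⟨n, hn⟩
  rw [tb_pow hp s hsp, hodd.neg_pow]
  exact tau_step s hs (two_ne (K := K) hp h3p) ha0 (pow_ne_zero _ ha0) (L_ne hp h3p s hs ha) ha hW
    (by rw [mul_neg, hV]; ring)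

include hs in
theorem be_ne : (2 - s) ≠ 0 ∧ (2 - s) ≠ 4 := by
  have h2 := two_ne (K := K) hp h3p
  constructor
  · intro h
    apply h2
    linear_combination (2 + s) * h + hs
  · intro h
    apply h2
    linear_combination (s - 2) * h + hs

include hs hsp in
theorem tb_facts {a W : K} (ha0 : a ≠ 0)
    (ha : 2 * (a - 2 * s + 3) * a ^ p = a * (a - 2 * s)) (hW : W ^ 2 = a ^ 3 + (3 * a + (2 - s)) ^ 2) :
    (a * tb s a W + tb s a W * tb s a (-W) + tb s a (-W) * a = 12 * (2 - s)) ∧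
    a * tb s a W * tb s a (-W) = -4 * (2 - s) ^ 2 ∧ tb s a W ≠ tb s a (-W) ∧
    tb s a W ≠ 0 ∧ tb s a (-W) ≠ 0 := by
  have h2 := two_ne (K := K) hp h3p
  obtain ⟨hb0, -⟩ := be_ne hp h3p s hs
  have hpr := pair_rel (be := 2 - s) ha0 hW
  have e1 : tb s a W = 2 * (2 - s) * (3 * a + (2 - s) - W) / a ^ 2 := rfl
  have e2 : tb s a (-W) = 2 * (2 - s) * (3 * a + (2 - s) + W) / a ^ 2 := by
    rw [tb, sub_neg_eq_add]
  rw [← e1, ← e2] at hpr
  have h4 : (-4 : K) * (2 - s) ^ 2 ≠ 0 := by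
    have : (-4 : K) = - (2 ^ 2) := by norm_num
    rw [this]
    exact mul_ne_zero (neg_ne_zero.2 (pow_ne_zero _ h2)) (pow_ne_zero _ hb0)
  have hf := f_ne hp h3p s hs hsp ha
  have hW0 : W ≠ 0 := by
    intro h
    apply hf
    rw [← hW, h]; ring
  refine ⟨hpr.1, hpr.2, ?_, ?_, ?_⟩
  · intro h
    rw [e1, e2, div_left_inj' (pow_ne_zero 2 ha0)] at h
    have h' : (2 * 2 * (2 - s)) * W = 0 := by linear_combination -h
    rcases mul_eq_zero.1 h' with h' | h'
    · exact (mul_ne_zero (mul_ne_zero h2 h2) hb0) h'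
    · exact hW0 h'
  · intro h
    apply h4
    rw [← hpr.2, h]; ring
  · intro h
    apply h4
    rw [← hpr.2, h]; ring

omit hp h3p in
/-- triples of abscissae of the translates of a point by the three-torsion subgroup -/
noncomputable def WW [DecidableEq K] (p : ℕ) (s : K) : Finset (K × K × K) :=
  (((ZZ p s).erase 0) ×ˢ ((ZZ p s).erase 0) ×ˢ ((ZZ p s).erase 0)).filter
    (fun w => w.1 * w.2.1 + w.2.1 * w.2.2 + w.2.2 * w.1 = 12 * (2 - s) ∧
      w.1 * w.2.1 * w.2.2 = -4 * (2 - s) ^ 2)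

include hs in
theorem three_dvd_WW [DecidableEq K] : 3 ∣ (WW p s).card := by
  apply three_dvd_card (WW p s) (fun w => (w.2.1, w.2.2, w.1))
  · rintro ⟨a, b, c⟩ h
    simp only [WW, mem_filter, mem_product] at h ⊢
    obtain ⟨⟨h1, h2, h3⟩, h4, h5⟩ := h
    exact ⟨⟨h2, h3, h1⟩, by rw [← h4]; ring, by rw [← h5]; ring⟩
  · rintro ⟨a, b, c⟩ h
    rfl
  · rintro ⟨a, b, c⟩ h h0
    simp only [WW, mem_filter, mem_product, mem_erase] at h
    obtain ⟨⟨h1, h2, h3⟩, h4, h5⟩ := h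
    simp only [Prod.mk.injEq] at h0
    obtain ⟨hba, hcb, -⟩ := h0
    subst hba
    subst hcb
    obtain ⟨hb0, hb4⟩ := be_ne hp h3p s hs
    exact no_fixed (three_ne (K := K) hp h3p) hb0 hb4 h1.1 h4 h5

include hs hsp in
theorem card_fiber [DecidableEq K] [IsAlgClosed K] {n : ℕ} (hn : p = 2 * n + 1) {a : K}
    (ha : a ∈ (ZZ p s).erase 0) :
    ((WW p s).filter (fun w => w.1 = a)).card = if sg n s a = -1 then 2 else 0 := by
  obtain ⟨ha0, haZ⟩ := mem_erase.1 ha
  have haR := (mem_ZZ hp h3p s).1 haZ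
  obtain ⟨W, hW⟩ := IsAlgClosed.exists_pow_nat_eq (a ^ 3 + (3 * a + (2 - s)) ^ 2) (n := 2)
    (by norm_num)
  have hW' : (-W) ^ 2 = a ^ 3 + (3 * a + (2 - s)) ^ 2 := by rw [neg_sq, hW]
  obtain ⟨h1, h2, hne, hb0, hc0⟩ := tb_facts hp h3p s hs hsp ha0 haR hW
  split_ifs with hsg
  · have hbR := tb_root hp h3p s hs hsp hn ha0 haR hW hsg
    have hcR := tb_root hp h3p s hs hsp hn ha0 haR hW' hsg
    have hbZ : tb s a W ∈ (ZZ p s).erase 0 := mem_erase.2 ⟨hb0, (mem_ZZ hp h3p s).2 hbR⟩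
    have hcZ : tb s a (-W) ∈ (ZZ p s).erase 0 := mem_erase.2 ⟨hc0, (mem_ZZ hp h3p s).2 hcR⟩
    have : (WW p s).filter (fun w => w.1 = a)
        = {(a, tb s a W, tb s a (-W)), (a, tb s a (-W), tb s a W)} := by
      ext ⟨x, y, z⟩
      simp only [WW, mem_filter, mem_product, mem_insert, mem_singleton, Prod.mk.injEq]
      constructor
      · rintro ⟨⟨⟨-, -, -⟩, h4, h5⟩, h6⟩
        subst h6
        rcases pair_eq ha0 h1 h2 h4 h5 with h | h
        · exact Or.inl ⟨rfl, h.1, h.2⟩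
        · exact Or.inr ⟨rfl, h.1, h.2⟩
      · rintro (⟨rfl, rfl, rfl⟩ | ⟨rfl, rfl, rfl⟩)
        · exact ⟨⟨⟨ha, hbZ, hcZ⟩, h1, h2⟩, rfl⟩
        · exact ⟨⟨⟨ha, hcZ, hbZ⟩, by rw [← h1]; ring, by rw [← h2]; ring⟩, rfl⟩
    rw [this]
    apply Finset.card_pair
    intro h
    simp only [Prod.mk.injEq] at h
    exact hne h.2.1
  · have hsg1 : sg n s a = 1 := (sg_cases hp h3p s hs hsp hn haR).resolve_right hsg
    rw [Finset.card_eq_zero, Finset.filter_eq_empty_iff]
    rintro ⟨x, y, z⟩ hw hx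
    simp only at hx
    subst hx
    simp only [WW, mem_filter, mem_product, mem_erase] at hw
    obtain ⟨⟨-, h7, h8⟩, h4, h5⟩ := hw
    have hb : tb s x W ∈ ZZ p s ∧ tb s x (-W) ∈ ZZ p s := by
      rcases pair_eq ha0 h1 h2 h4 h5 with h | h
      · rw [← h.1, ← h.2]; exact ⟨h7.2, h8.2⟩
      · rw [← h.1, ← h.2]; exact ⟨h8.2, h7.2⟩
    have hbZ := (mem_ZZ hp h3p s).1 hb.1
    have h9 := tb_root' hp h3p s hs hsp hn ha0 haR hW hsg1
    rw [← hbZ] at h9
    have hLb := L_ne hp h3p s hs hbZ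
    have h10 := mul_left_cancel₀ (mul_ne_zero (two_ne (K := K) hp h3p) hLb) h9
    have := Fact.mk hp
    have h11 : (tb s x W - tb s x (-W)) ^ p = 0 := by
      rw [sub_pow_char, h10, sub_self]
    have h12 := (pow_eq_zero_iff hp.ne_zero).1 h11
    exact hne (sub_eq_zero.1 h12)

include hs hsp in
theorem card_WW [DecidableEq K] [IsAlgClosed K] {n : ℕ} (hn : p = 2 * n + 1) :
    (WW p s).card + 2 = 2 * ((ZZ p s).filter (fun x => sg n s x = -1)).card := by
  have hmaps : Set.MapsTo (fun w : K × K × K => w.1) (WW p s : Set (K × K × K))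
      ((ZZ p s).erase 0 : Finset K) := by
    intro w hw
    simp only [WW, mem_coe, mem_filter, mem_product] at hw
    exact hw.1.1
  rw [Finset.card_eq_sum_card_fiberwise hmaps,
    sum_congr rfl (fun a ha => card_fiber hp h3p s hs hsp hn ha), ← sum_filter, sum_const,
    smul_eq_mul]
  have h0 : (0 : K) ∈ (ZZ p s).filter (fun x => sg n s x = -1) := by
    rw [mem_filter]
    refine ⟨(mem_ZZ hp h3p s).2 ?_, sg_zero hp s hs hsp h3p hn⟩
    rw [zero_pow hp.ne_zero]; ring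
  have h1 : ((ZZ p s).erase 0).filter (fun x => sg n s x = -1)
      = ((ZZ p s).filter (fun x => sg n s x = -1)).erase 0 := by
    ext x
    simp only [mem_filter, mem_erase]
    tauto
  rw [h1, card_erase_of_mem h0]
  have h2 : 0 < ((ZZ p s).filter (fun x => sg n s x = -1)).card := card_pos.2 ⟨0, h0⟩
  omega

end

/-- Sign of the truncated hypergeometric sum modulo `p`, `p = 5, 11 (mod 24)`. -/
theorem ellB (p : ℕ) [Fact p.Prime] (hr : p % 24 = 5 ∨ p % 24 = 11) (K : Type*) [Field K]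
    [CharP K p] [IsAlgClosed K] (s : K) (hs : s ^ 2 = 2) (hsp : s ^ p = -s) :
    ∃ t : ℤ, |t| ≤ p + 1 ∧ Even t ∧ t % 3 = 2 ∧ (t : K) = s * Hpol K p ((2 - s) / 4) := by
  classical
  have hp : p.Prime := Fact.out
  have h3p : 3 < p := by omega
  obtain ⟨n, hn⟩ : ∃ n, p = 2 * n + 1 := ⟨p / 2, by omega⟩
  set m : ℕ := ((ZZ p s).filter (fun x => sg n s x = -1)).card with hm
  have hmc := card_WW hp h3p s hs hsp hn
  have h3 := three_dvd_WW hp h3p s hs
  have hsum := sum_sg hp h3p s hs hsp hn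
  have hcard := card_ZZ hp h3p s hs hsp
  have hle : m ≤ p + 1 := by
    rw [← hcard]; exact card_filter_le _ _
  have hsum2 : ∑ x ∈ ZZ p s, sg n s x = ((p : K) + 1) - 2 * m := by
    have e : ∀ x ∈ ZZ p s, sg n s x = 1 - 2 * (if sg n s x = -1 then 1 else 0) := by
      intro x hx
      split_ifs with h
      · rw [h]; ring
      · rw [(sg_cases hp h3p s hs hsp hn ((mem_ZZ hp h3p s).1 hx)).resolve_right h]; ring
    rw [sum_congr rfl e, sum_sub_distrib, ← mul_sum, sum_boole, sum_const, hcard]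
    simp [hm]
  refine ⟨2 * m - (p + 1), ?_, ?_, ?_, ?_⟩
  · rw [abs_le]; constructor <;> omega
  · refine ⟨m - (n + 1), ?_⟩
    omega
  · omega
  · push_cast
    rw [hsum2] at hsum
    linear_combination -hsum

end SC24
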