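import Pool.Agent.SC24.Eval

/-!
Fermat quotients of the four closed forms.
-/

namespace SC24

open Finset

section
variable {p : ℕ} [hp : Fact p.Prime]

lemma isUnit_PiR (a d N : ℕ) : IsUnit (PiR p a d N) := by
  unfold PiR
  exact IsUnit.prod_iff.mpr (fun j _ => isUnit_tt _)

/-- reduction of a quotient of four progressions -/
lemma quad_red (e : ℕ) {V : ℚ} {v : ZMod (p ^ (2:ℕ))} (hv : Red p (p ^ (2:ℕ)) V v) {K1 K2 N : ℕ}
    {a1 b1 a2 b2 a3 b3 a4 b4 z1 z2 z3 z4 m1 m2 m3 m4 : ℕ}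
    (h1 : APd p a1 b1 N z1 m1) (h2 : APd p a2 b2 N z2 m2) (h3 : APd p a3 b3 N z3 m3)
    (h4 : APd p a4 b4 N z4 m4) (hz : z1 + z2 = z3 + z4 + e)
    (hV : V * K1 * (((∏ j ∈ range N, (a3 + b3 * j) : ℕ) : ℚ) * ((∏ j ∈ range N, (a4 + b4 * j) : ℕ) : ℚ)) =
      K2 * (((∏ j ∈ range N, (a1 + b1 * j) : ℕ) : ℚ) * ((∏ j ∈ range N, (a2 + b2 * j) : ℕ) : ℚ))) :
    v * (K1 : ZMod (p ^ (2:ℕ))) * ((m3 : ZMod (p ^ (2:ℕ))) * m4) * (PiR p a3 b3 N * PiR p a4 b4 N) =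
      P2 p ^ e * (K2 : ZMod (p ^ (2:ℕ))) * ((m1 : ZMod (p ^ (2:ℕ))) * m2) * (PiR p a1 b1 N * PiR p a2 b2 N) := by
  obtain ⟨A1, h1a, h1b, -⟩ := h1
  obtain ⟨A2, h2a, h2b, -⟩ := h2
  obtain ⟨A3, h3a, h3b, -⟩ := h3
  obtain ⟨A4, h4a, h4b, -⟩ := h4
  rw [h1a, h2a, h3a, h4a] at hV
  have hp0 : (p : ℚ) ≠ 0 := by exact_mod_cast hp.out.ne_zero
  have h5 : V * K1 * (m3 * m4) * (A3 * A4) = (p : ℚ) ^ e * K2 * (m1 * m2) * (A1 * A2) := by
    have h6 : (p : ℚ) ^ (z3 + z4) ≠ 0 := pow_ne_zero _ hp0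
    apply mul_left_cancel₀ h6
    push_cast at hV
    calc (p : ℚ) ^ (z3 + z4) * (V * K1 * (m3 * m4) * (A3 * A4))
        = V * K1 * (((p : ℚ) ^ z3 * m3 * A3) * ((p : ℚ) ^ z4 * m4 * A4)) := by rw [pow_add]; ring
      _ = K2 * (((p : ℚ) ^ z1 * m1 * A1) * ((p : ℚ) ^ z2 * m2 * A2)) := hV
      _ = (p : ℚ) ^ (z1 + z2) * (K2 * (m1 * A1) * (m2 * A2)) := by rw [pow_add]; ring
      _ = _ := by rw [hz, pow_add]; ring
  have h6 : Red p (p ^ (2:ℕ)) (V * K1 * (m3 * m4) * (A3 * A4)) (v * (K1 : ZMod (p ^ (2:ℕ))) * ((m3 : ZMod (p ^ (2:ℕ))) * m4) * ((A3 : ZMod (p ^ (2:ℕ))) * A4)) :=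
    ((hv.mul (Red.nat K1)).mul ((Red.nat m3).mul (Red.nat m4))).mul ((Red.nat A3).mul (Red.nat A4))
  have h7 : Red p (p ^ (2:ℕ)) ((p : ℚ) ^ e * K2 * (m1 * m2) * (A1 * A2))
      ((P2 p) ^ e * (K2 : ZMod (p ^ (2:ℕ))) * ((m1 : ZMod (p ^ (2:ℕ))) * m2) * ((A1 : ZMod (p ^ (2:ℕ))) * A2)) :=
    ((((Red.nat p).pow e).mul (Red.nat K2)).mul ((Red.nat m1).mul (Red.nat m2))).mul
      ((Red.nat A1).mul (Red.nat A2))
  rw [h5] at h6
  rw [← h1b, ← h2b, ← h3b, ← h4b]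
  exact h6.uniq dvd_rfl h7

lemma I1_aux (N : ℚ) (hN : 0 ≤ N) : ((8 * N + 3) * (8 * N + 5)) / (6 * (3 * N + 1) * (3 * N + 2)) * (6 * (1 + 3 * N) * (2 + 3 * N)) =
    1 * (3 + 8 * N) * (5 + 8 * N) := by
  field_simp
  ring

lemma I1_V (N : ℕ) : (∑ k ∈ range (N + 1), tm (-(N : ℚ)) (N + 1 / 2) (-(3 * N)) k) * ((6 ^ N : ℕ) : ℚ) *
    (((∏ j ∈ range N, (1 + 3 * j) : ℕ) : ℚ) * ((∏ j ∈ range N, (2 + 3 * j) : ℕ) : ℚ)) =
    ((1 : ℕ) : ℚ) * (((∏ j ∈ range N, (3 + 8 * j) : ℕ) : ℚ) * ((∏ j ∈ range N, (5 + 8 * j) : ℕ) : ℚ)) := by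
  rw [I1]
  induction N with
  | zero => simp
  | succ N ih =>
    push_cast at ih ⊢
    have h := I1_aux (N : ℚ) (by positivity)
    rw [prod_range_succ, prod_range_succ, prod_range_succ, prod_range_succ, prod_range_succ, pow_succ]
    generalize (∏ x ∈ range N, ((8 * (x : ℚ) + 3) * (8 * (x : ℚ) + 5)) / (6 * (3 * (x : ℚ) + 1) * (3 * (x : ℚ) + 2)) : ℚ) = A at *
    generalize (∏ x ∈ range N, (1 + 3 * (x : ℚ))) = B at *
    generalize (∏ x ∈ range N, (2 + 3 * (x : ℚ))) = C at *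
    generalize (∏ x ∈ range N, (3 + 8 * (x : ℚ))) = D at *
    generalize (∏ x ∈ range N, (5 + 8 * (x : ℚ))) = E at *
    skip
    linear_combination (A * 6 ^ N * B * C) * h + (1 * (3 + 8 * (N : ℚ)) * (5 + 8 * (N : ℚ))) * ih

lemma I3_aux (N : ℚ) (hN : 0 ≤ N) : ((8 * N + 7) * (8 * N + 9)) / (6 * (3 * N + 2) * (3 * N + 4)) * (6 * (2 + 3 * N) * (4 + 3 * N)) =
    1 * (7 + 8 * N) * (9 + 8 * N) := by
  field_simp
  ring

lemma I3_V (N : ℕ) : (∑ k ∈ range (N + 1), tm (-(N : ℚ)) (N + 3 / 2) (-(3 * N + 1)) k) * ((6 ^ N : ℕ) : ℚ) *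
    (((∏ j ∈ range N, (2 + 3 * j) : ℕ) : ℚ) * ((∏ j ∈ range N, (4 + 3 * j) : ℕ) : ℚ)) =
    ((1 : ℕ) : ℚ) * (((∏ j ∈ range N, (7 + 8 * j) : ℕ) : ℚ) * ((∏ j ∈ range N, (9 + 8 * j) : ℕ) : ℚ)) := by
  rw [I3]
  induction N with
  | zero => simp
  | succ N ih =>
    push_cast at ih ⊢
    have h := I3_aux (N : ℚ) (by positivity)
    rw [prod_range_succ, prod_range_succ, prod_range_succ, prod_range_succ, prod_range_succ, pow_succ]
    generalize (∏ x ∈ range N, ((8 * (x : ℚ) + 7) * (8 * (x : ℚ) + 9)) / (6 * (3 * (x : ℚ) + 2) * (3 * (x : ℚ) + 4)) : ℚ) = A at *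
    generalize (∏ x ∈ range N, (2 + 3 * (x : ℚ))) = B at *
    generalize (∏ x ∈ range N, (4 + 3 * (x : ℚ))) = C at *
    generalize (∏ x ∈ range N, (7 + 8 * (x : ℚ))) = D at *
    generalize (∏ x ∈ range N, (9 + 8 * (x : ℚ))) = E at *
    skip
    linear_combination (A * 6 ^ N * B * C) * h + (1 * (7 + 8 * (N : ℚ)) * (9 + 8 * (N : ℚ))) * ih

lemma I2_aux (N : ℚ) (hN : 0 ≤ N) : (3 * (6 * N + 5) * (6 * N + 7)) / (2 * (8 * N + 7) * (8 * N + 9)) * (2 * (7 + 8 * N) * (9 + 8 * N)) =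
    3 * (5 + 6 * N) * (7 + 6 * N) := by
  field_simp
  ring

lemma I2_V (N : ℕ) : (∑ k ∈ range (N + 1), tm (-(N : ℚ)) (N + 1 / 2) (3 * N + 3 / 2) k) * ((2 ^ N : ℕ) : ℚ) *
    (((∏ j ∈ range N, (7 + 8 * j) : ℕ) : ℚ) * ((∏ j ∈ range N, (9 + 8 * j) : ℕ) : ℚ)) =
    ((3 ^ N : ℕ) : ℚ) * (((∏ j ∈ range N, (5 + 6 * j) : ℕ) : ℚ) * ((∏ j ∈ range N, (7 + 6 * j) : ℕ) : ℚ)) := by
  rw [I2]
  induction N with
  | zero => simp
  | succ N ih =>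
    push_cast at ih ⊢
    have h := I2_aux (N : ℚ) (by positivity)
    rw [prod_range_succ, prod_range_succ, prod_range_succ, prod_range_succ, prod_range_succ, pow_succ]
    generalize (∏ x ∈ range N, (3 * (6 * (x : ℚ) + 5) * (6 * (x : ℚ) + 7)) / (2 * (8 * (x : ℚ) + 7) * (8 * (x : ℚ) + 9)) : ℚ) = A at *
    generalize (∏ x ∈ range N, (7 + 8 * (x : ℚ))) = B at *
    generalize (∏ x ∈ range N, (9 + 8 * (x : ℚ))) = C at *
    generalize (∏ x ∈ range N, (5 + 6 * (x : ℚ))) = D at *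
    generalize (∏ x ∈ range N, (7 + 6 * (x : ℚ))) = E at *
    rw [pow_succ]
    linear_combination (A * 2 ^ N * B * C) * h + (3 * (5 + 6 * (N : ℚ)) * (7 + 6 * (N : ℚ))) * ih

lemma I4_aux (N : ℚ) (hN : 0 ≤ N) : (3 * (6 * N + 7) * (6 * N + 11)) / (2 * (8 * N + 11) * (8 * N + 13)) * (2 * (11 + 8 * N) * (13 + 8 * N)) =
    3 * (7 + 6 * N) * (11 + 6 * N) := by
  field_simp
  ring

lemma I4_V (N : ℕ) : (∑ k ∈ range (N + 1), tm (-(N : ℚ)) (N + 3 / 2) (3 * N + 7 / 2) k) * ((2 ^ N : ℕ) : ℚ) *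
    (((∏ j ∈ range N, (11 + 8 * j) : ℕ) : ℚ) * ((∏ j ∈ range N, (13 + 8 * j) : ℕ) : ℚ)) =
    ((3 ^ N : ℕ) : ℚ) * (((∏ j ∈ range N, (7 + 6 * j) : ℕ) : ℚ) * ((∏ j ∈ range N, (11 + 6 * j) : ℕ) : ℚ)) := by
  rw [I4]
  induction N with
  | zero => simp
  | succ N ih =>
    push_cast at ih ⊢
    have h := I4_aux (N : ℚ) (by positivity)
    rw [prod_range_succ, prod_range_succ, prod_range_succ, prod_range_succ, prod_range_succ, pow_succ]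
    generalize (∏ x ∈ range N, (3 * (6 * (x : ℚ) + 7) * (6 * (x : ℚ) + 11)) / (2 * (8 * (x : ℚ) + 11) * (8 * (x : ℚ) + 13)) : ℚ) = A at *
    generalize (∏ x ∈ range N, (11 + 8 * (x : ℚ))) = B at *
    generalize (∏ x ∈ range N, (13 + 8 * (x : ℚ))) = C at *
    generalize (∏ x ∈ range N, (7 + 6 * (x : ℚ))) = D at *
    generalize (∏ x ∈ range N, (11 + 6 * (x : ℚ))) = E at *
    rw [pow_succ]
    linear_combination (A * 2 ^ N * B * C) * h + (3 * (7 + 6 * (N : ℚ)) * (11 + 6 * (N : ℚ))) * ih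

lemma quad_L (h2 : 2 < p) {V : ℚ} {v : ZMod (p ^ (2:ℕ))} (hv : Red p (p ^ (2:ℕ)) V v) {K1 K2 N : ℕ}
    {a1 b1 a2 b2 a3 b3 a4 b4 z1 z2 z3 z4 m1 m2 m3 m4 : ℕ}
    (h1 : APd p a1 b1 N z1 m1) (h2' : APd p a2 b2 N z2 m2) (h3 : APd p a3 b3 N z3 m3)
    (h4 : APd p a4 b4 N z4 m4) (hz : z1 + z2 = z3 + z4)
    (hV : V * K1 * (((∏ j ∈ range N, (a3 + b3 * j) : ℕ) : ℚ) * ((∏ j ∈ range N, (a4 + b4 * j) : ℕ) : ℚ)) =
      K2 * (((∏ j ∈ range N, (a1 + b1 * j) : ℕ) : ℚ) * ((∏ j ∈ range N, (a2 + b2 * j) : ℕ) : ℚ)))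
    (hK1 : ¬ p ∣ K1) (hK2 : ¬ p ∣ K2) (hm1 : ¬ p ∣ m1) (hm2 : ¬ p ∣ m2) (hm3 : ¬ p ∣ m3) (hm4 : ¬ p ∣ m4)
    (hb1 : ¬ p ∣ b1) (hb2 : ¬ p ∣ b2) (hb3 : ¬ p ∣ b3) (hb4 : ¬ p ∣ b4)
    {x1 x2 x3 x4 : ZMod (p ^ (2:ℕ))} (hx1 : (b1 : ZMod (p ^ (2:ℕ))) * x1 = a1)
    (hx2 : (b2 : ZMod (p ^ (2:ℕ))) * x2 = a2) (hx3 : (b3 : ZMod (p ^ (2:ℕ))) * x3 = a3)
    (hx4 : (b4 : ZMod (p ^ (2:ℕ))) * x4 = a4) :
    IsUnit v ∧ Lq p v = Lq p (K2 : ZMod (p ^ (2:ℕ))) - Lq p (K1 : ZMod (p ^ (2:ℕ))) +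
      (Lq p (m1 : ZMod (p ^ (2:ℕ))) + Lq p (m2 : ZMod (p ^ (2:ℕ))) - Lq p (m3 : ZMod (p ^ (2:ℕ)))
        - Lq p (m4 : ZMod (p ^ (2:ℕ)))) +
      (gam p (x1 + N) - gam p x1 + ((N : ZMod (p ^ (2:ℕ))) - z1) * Lq p (b1 : ZMod (p ^ (2:ℕ)))) +
      (gam p (x2 + N) - gam p x2 + ((N : ZMod (p ^ (2:ℕ))) - z2) * Lq p (b2 : ZMod (p ^ (2:ℕ)))) -
      (gam p (x3 + N) - gam p x3 + ((N : ZMod (p ^ (2:ℕ))) - z3) * Lq p (b3 : ZMod (p ^ (2:ℕ)))) -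
      (gam p (x4 + N) - gam p x4 + ((N : ZMod (p ^ (2:ℕ))) - z4) * Lq p (b4 : ZMod (p ^ (2:ℕ)))) := by
  have key := quad_red 0 hv h1 h2' h3 h4 (by omega) hV
  obtain ⟨A1, -, -, h1c⟩ := h1
  obtain ⟨A2, -, -, h2c⟩ := h2'
  obtain ⟨A3, -, -, h3c⟩ := h3
  obtain ⟨A4, -, -, h4c⟩ := h4
  rw [pow_zero, one_mul] at key
  have uK1 := isUnit_num (p := p) hK1
  have uK2 := isUnit_num (p := p) hK2
  have um1 := isUnit_num (p := p) hm1
  have um2 := isUnit_num (p := p) hm2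
  have um3 := isUnit_num (p := p) hm3
  have um4 := isUnit_num (p := p) hm4
  have uP1 := isUnit_PiR (p := p) a1 b1 N
  have uP2 := isUnit_PiR (p := p) a2 b2 N
  have uP3 := isUnit_PiR (p := p) a3 b3 N
  have uP4 := isUnit_PiR (p := p) a4 b4 N
  have uR : IsUnit ((K2 : ZMod (p ^ (2:ℕ))) * ((m1 : ZMod (p ^ (2:ℕ))) * m2) * (PiR p a1 b1 N * PiR p a2 b2 N)) :=
    (uK2.mul (um1.mul um2)).mul (uP1.mul uP2)
  have uv : IsUnit v := by
    rw [← key] at uR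
    exact isUnit_of_mul_isUnit_left (isUnit_of_mul_isUnit_left (isUnit_of_mul_isUnit_left uR))
  refine ⟨uv, ?_⟩
  have hL := congrArg (Lq p) key
  rw [Lq_mul ((uv.mul uK1).mul (um3.mul um4)) (uP3.mul uP4), Lq_mul (uv.mul uK1) (um3.mul um4),
    Lq_mul uv uK1, Lq_mul um3 um4, Lq_mul uP3 uP4,
    Lq_mul (uK2.mul (um1.mul um2)) (uP1.mul uP2), Lq_mul uK2 (um1.mul um2),
    Lq_mul um1 um2, Lq_mul uP1 uP2] at hL
  rw [← apd_Lq h2 hb1 hx1 h1c, ← apd_Lq h2 hb2 hx2 h2c, ← apd_Lq h2 hb3 hx3 h3c, ← apd_Lq h2 hb4 hx4 h4c]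
  linear_combination hL

lemma not_dvd_23 (h3 : 3 < p) {n : ℕ} (i j : ℕ) (h : n = 2 ^ i * 3 ^ j) : ¬ p ∣ n := by
  subst h
  intro h
  rcases hp.out.dvd_mul.mp h with h | h
  · have := Nat.le_of_dvd (by norm_num) (hp.out.dvd_of_dvd_pow h); omega
  · have := Nat.le_of_dvd (by norm_num) (hp.out.dvd_of_dvd_pow h); omega

lemma isUnit_23 (h3 : 3 < p) {n : ℕ} (i j : ℕ) (h : n = 2 ^ i * 3 ^ j) : IsUnit (n : ZMod (p ^ (2:ℕ))) :=
  isUnit_num (not_dvd_23 h3 i j h)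

lemma Lq_23 (h3 : 3 < p) {n : ℕ} (i j : ℕ) (h : n = 2 ^ i * 3 ^ j) :
    Lq p (n : ZMod (p ^ (2:ℕ))) = i * Lq p 2 + j * Lq p 3 := by
  have u2 : IsUnit (2 : ZMod (p ^ (2:ℕ))) := by exact_mod_cast isUnit_23 h3 (n := 2) 1 0 (by norm_num)
  have u3 : IsUnit (3 : ZMod (p ^ (2:ℕ))) := by exact_mod_cast isUnit_23 h3 (n := 3) 0 1 (by norm_num)
  subst h
  push_cast
  rw [Lq_mul (u2.pow i) (u3.pow j), Lq_pow u2, Lq_pow u3]

/-- `L` for the first closed form -/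
lemma I1_L (h3 : 3 < p) {w : ZMod (p ^ (2:ℕ))} (hw : 24 * w = 1) {N a : ℕ} (hN : 3 * N + 1 = a * p)
    {v : ZMod (p ^ (2:ℕ))}
    (hv : Red p (p ^ (2:ℕ)) (∑ k ∈ range (N + 1), tm (-(N : ℚ)) (N + 1 / 2) (-(3 * N)) k) v)
    {z1 z2 z3 z4 m1 m2 m3 m4 : ℕ}
    (h1 : APd p 3 8 N z1 m1) (h2' : APd p 5 8 N z2 m2) (h3' : APd p 1 3 N z3 m3)
    (h4 : APd p 2 3 N z4 m4) (hz : z1 + z2 = z3 + z4)
    (hm1 : ¬ p ∣ m1) (hm2 : ¬ p ∣ m2) (hm3 : ¬ p ∣ m3) (hm4 : ¬ p ∣ m4) :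
    IsUnit v ∧ Lq p v = gam p w + gam p (7 * w) - gam p (8 * w) +
      8 * a * w * (dd p w + dd p (7 * w) - dd p 0 - dd p (8 * w)) -
      8 * w * (5 * Lq p 2 - 3 * Lq p 3) - 3 * (z1 + z2) * Lq p 2 + (z3 + z4) * Lq p 3 +
      (Lq p (m1 : ZMod (p ^ (2:ℕ))) + Lq p (m2 : ZMod (p ^ (2:ℕ))) - Lq p (m3 : ZMod (p ^ (2:ℕ)))
        - Lq p (m4 : ZMod (p ^ (2:ℕ)))) := by
  have h2 : 2 < p := by omega
  have hNR : (N : ZMod (p ^ (2:ℕ))) = -8 * w + P2 p * (8 * a * w) := by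
    have h5 : (3 : ZMod (p ^ (2:ℕ))) * N + 1 = a * P2 p := by
      exact_mod_cast congrArg (Nat.cast : ℕ → ZMod (p ^ (2:ℕ))) hN
    linear_combination (8 * w) * h5 - (N : ZMod (p ^ (2:ℕ))) * hw
  obtain ⟨uv, hL⟩ := quad_L h2 hv h1 h2' h3' h4 hz (I1_V N)
    (by intro h; exact not_dvd_23 h3 1 1 (n := 6) (by norm_num) (hp.out.dvd_of_dvd_pow h))
    (by intro h; exact hp.out.one_lt.ne' (Nat.dvd_one.mp h)) hm1 hm2 hm3 hm4
    (not_dvd_23 h3 3 0 (by norm_num)) (not_dvd_23 h3 3 0 (by norm_num))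
    (not_dvd_23 h3 0 1 (by norm_num)) (not_dvd_23 h3 0 1 (by norm_num))
    (x1 := 9 * w) (x2 := 15 * w) (x3 := 8 * w) (x4 := 16 * w)
    (by push_cast; linear_combination 3 * hw) (by push_cast; linear_combination 5 * hw)
    (by push_cast; linear_combination hw) (by push_cast; linear_combination 2 * hw)
  refine ⟨uv, ?_⟩
  have u6 := isUnit_23 h3 (n := 6) 1 1 (by norm_num)
  rw [Nat.cast_pow, Lq_pow u6, Lq_23 h3 (n := 6) 1 1 (by norm_num),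
    Lq_23 h3 (n := 8) 3 0 (by norm_num), Lq_23 h3 (n := 3) 0 1 (by norm_num)] at hL
  rw [show 9 * w + (N : ZMod (p ^ (2:ℕ))) = w + P2 p * (8 * a * w) by rw [hNR]; ring,
    show 15 * w + (N : ZMod (p ^ (2:ℕ))) = 7 * w + P2 p * (8 * a * w) by rw [hNR]; ring,
    show 8 * w + (N : ZMod (p ^ (2:ℕ))) = 0 + P2 p * (8 * a * w) by rw [hNR]; ring,
    show 16 * w + (N : ZMod (p ^ (2:ℕ))) = 8 * w + P2 p * (8 * a * w) by rw [hNR]; ring,
    gam_add_P h2, gam_add_P h2, gam_add_P h2, gam_add_P h2, gam_zero] at hL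
  have r1 : gam p (15 * w) = - gam p (9 * w) := by
    rw [← gam_one_sub h2]; congr 1; linear_combination hw
  have r2 : gam p (16 * w) = - gam p (8 * w) := by
    rw [← gam_one_sub h2]; congr 1; linear_combination hw
  rw [r1, r2, hNR] at hL
  push_cast at hL
  rw [Lq_one] at hL
  rw [hL]
  linear_combination (40 * a * w) * P_mul_Lq (p := p) 2 + (-24 * a * w) * P_mul_Lq (p := p) 3

lemma Lq_frac {u v n : ZMod (p ^ (2:ℕ))} (hv : IsUnit v) (hn : IsUnit n) (h : u * v = n) :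
    Lq p u = Lq p n - Lq p v := by
  have hu : IsUnit u := by rw [← h] at hn; exact isUnit_of_mul_isUnit_left hn
  have := Lq_mul hu hv
  rw [h] at this
  linear_combination -this

/-- `L` for the second closed form -/
lemma I2_L (h3 : 3 < p) {w : ZMod (p ^ (2:ℕ))} (hw : 24 * w = 1) {N a : ℕ} (hN : 6 * N + 1 = a * p)
    {v : ZMod (p ^ (2:ℕ))}
    (hv : Red p (p ^ (2:ℕ)) (∑ k ∈ range (N + 1), tm (-(N : ℚ)) (N + 1 / 2) (3 * N + 3 / 2) k) v)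
    {z1 z2 z3 z4 m1 m2 m3 m4 : ℕ}
    (h1 : APd p 5 6 N z1 m1) (h2' : APd p 7 6 N z2 m2) (h3' : APd p 7 8 N z3 m3)
    (h4 : APd p 9 8 N z4 m4) (hz : z1 + z2 = z3 + z4)
    (hm1 : ¬ p ∣ m1) (hm2 : ¬ p ∣ m2) (hm3 : ¬ p ∣ m3) (hm4 : ¬ p ∣ m4) :
    IsUnit v ∧ Lq p v = gam p w + gam p (7 * w) - gam p (8 * w) -
      4 * a * w * (dd p w + dd p (7 * w) - dd p 0 - dd p (8 * w)) +
      4 * w * (5 * Lq p 2 - 3 * Lq p 3) + (Lq p 3 - 2 * Lq p 2) -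
      (z1 + z2) * (Lq p 2 + Lq p 3) + 3 * (z3 + z4) * Lq p 2 +
      (Lq p (m1 : ZMod (p ^ (2:ℕ))) + Lq p (m2 : ZMod (p ^ (2:ℕ))) - Lq p (m3 : ZMod (p ^ (2:ℕ)))
        - Lq p (m4 : ZMod (p ^ (2:ℕ)))) := by
  have h2 : 2 < p := by omega
  have hNR : (N : ZMod (p ^ (2:ℕ))) = -4 * w + P2 p * (4 * a * w) := by
    have h5 : (6 : ZMod (p ^ (2:ℕ))) * N + 1 = a * P2 p := by
      exact_mod_cast congrArg (Nat.cast : ℕ → ZMod (p ^ (2:ℕ))) hN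
    linear_combination (4 * w) * h5 - (N : ZMod (p ^ (2:ℕ))) * hw
  obtain ⟨uv, hL⟩ := quad_L h2 hv h1 h2' h3' h4 hz (I2_V N)
    (by intro h; exact not_dvd_23 h3 1 0 (n := 2) (by norm_num) (hp.out.dvd_of_dvd_pow h))
    (by intro h; exact not_dvd_23 h3 0 1 (n := 3) (by norm_num) (hp.out.dvd_of_dvd_pow h)) hm1 hm2 hm3 hm4
    (not_dvd_23 h3 1 1 (by norm_num)) (not_dvd_23 h3 1 1 (by norm_num))
    (not_dvd_23 h3 3 0 (by norm_num)) (not_dvd_23 h3 3 0 (by norm_num))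
    (x1 := 20 * w) (x2 := 28 * w) (x3 := 21 * w) (x4 := 27 * w)
    (by push_cast; linear_combination 5 * hw) (by push_cast; linear_combination 7 * hw)
    (by push_cast; linear_combination 7 * hw) (by push_cast; linear_combination 9 * hw)
  refine ⟨uv, ?_⟩
  have u2 := isUnit_23 h3 (n := 2) 1 0 (by norm_num)
  have u3 := isUnit_23 h3 (n := 3) 0 1 (by norm_num)
  have u6 := isUnit_23 h3 (n := 6) 1 1 (by norm_num)
  have u8 := isUnit_23 h3 (n := 8) 3 0 (by norm_num)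
  have l6 := Lq_23 h3 (n := 6) 1 1 (by norm_num)
  have l8 := Lq_23 h3 (n := 8) 3 0 (by norm_num)
  rw [Nat.cast_pow, Nat.cast_pow, Lq_pow u2, Lq_pow u3, l6, l8] at hL
  rw [show 20 * w + (N : ZMod (p ^ (2:ℕ))) = 16 * w + P2 p * (4 * a * w) by rw [hNR]; ring,
    show 28 * w + (N : ZMod (p ^ (2:ℕ))) = 1 + P2 p * (4 * a * w) by rw [hNR]; linear_combination hw,
    show 21 * w + (N : ZMod (p ^ (2:ℕ))) = 17 * w + P2 p * (4 * a * w) by rw [hNR]; ring,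
    show 27 * w + (N : ZMod (p ^ (2:ℕ))) = 23 * w + P2 p * (4 * a * w) by rw [hNR]; ring,
    gam_add_P h2, gam_add_P h2, gam_add_P h2, gam_add_P h2, gam_one h2, dd_one h2] at hL
  have r1 : gam p (20 * w) = - gam p (4 * w) := by
    rw [← gam_one_sub h2]; congr 1; linear_combination hw
  have r2 : gam p (28 * w) = gam p (4 * w) + Lq p (4 * w) := by
    rw [← gam_succ h2]; congr 1; linear_combination hw
  have r3 : gam p (21 * w) = - gam p (3 * w) := by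
    rw [← gam_one_sub h2]; congr 1; linear_combination hw
  have r4 : gam p (27 * w) = gam p (3 * w) + Lq p (3 * w) := by
    rw [← gam_succ h2]; congr 1; linear_combination hw
  have r5 : gam p (16 * w) = - gam p (8 * w) := by
    rw [← gam_one_sub h2]; congr 1; linear_combination hw
  have r6 : gam p (17 * w) = - gam p (7 * w) := by
    rw [← gam_one_sub h2]; congr 1; linear_combination hw
  have r7 : gam p (23 * w) = - gam p w := by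
    rw [← gam_one_sub h2]; congr 1; linear_combination hw
  have d5 : dd p (16 * w) = dd p (8 * w) := by
    rw [← dd_one_sub h2]; congr 1; linear_combination -hw
  have d6 : dd p (17 * w) = dd p (7 * w) := by
    rw [← dd_one_sub h2]; congr 1; linear_combination -hw
  have d7 : dd p (23 * w) = dd p w := by
    rw [← dd_one_sub h2]; congr 1; linear_combination -hw
  have s1 : Lq p (4 * w) = - Lq p ((6 : ℕ) : ZMod (p ^ (2:ℕ))) := by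
    rw [Lq_frac u6 isUnit_one (by push_cast; linear_combination hw)]; simp
  have s2 : Lq p (3 * w) = - Lq p ((8 : ℕ) : ZMod (p ^ (2:ℕ))) := by
    rw [Lq_frac u8 isUnit_one (by push_cast; linear_combination hw)]; simp
  rw [l6] at s1
  rw [l8] at s2
  rw [r2, r4, r1, r3, r5, r6, r7, d5, d6, d7, s1, s2, hNR] at hL
  push_cast at hL
  rw [hL]
  linear_combination (-20 * a * w) * P_mul_Lq (p := p) 2 + (12 * a * w) * P_mul_Lq (p := p) 3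

/-- `L` for the third closed form -/
lemma I3_L (h3 : 3 < p) {w : ZMod (p ^ (2:ℕ))} (hw : 24 * w = 1) {N a : ℕ} (hN : 3 * N + 2 = a * p)
    {v : ZMod (p ^ (2:ℕ))}
    (hv : Red p (p ^ (2:ℕ)) (∑ k ∈ range (N + 1), tm (-(N : ℚ)) (N + 3 / 2) (-(3 * N + 1)) k) v)
    {z1 z2 z3 z4 m1 m2 m3 m4 : ℕ}
    (h1 : APd p 7 8 N z1 m1) (h2' : APd p 9 8 N z2 m2) (h3' : APd p 2 3 N z3 m3)
    (h4 : APd p 4 3 N z4 m4) (hz : z1 + z2 = z3 + z4)
    (hm1 : ¬ p ∣ m1) (hm2 : ¬ p ∣ m2) (hm3 : ¬ p ∣ m3) (hm4 : ¬ p ∣ m4) :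
    IsUnit v ∧ Lq p v = gam p (5 * w) + gam p (11 * w) + gam p (8 * w) +
      8 * a * w * (dd p (5 * w) + dd p (11 * w) - dd p 0 - dd p (8 * w)) -
      16 * w * (5 * Lq p 2 - 3 * Lq p 3) + (3 * Lq p 2 - Lq p 3) -
      3 * (z1 + z2) * Lq p 2 + (z3 + z4) * Lq p 3 +
      (Lq p (m1 : ZMod (p ^ (2:ℕ))) + Lq p (m2 : ZMod (p ^ (2:ℕ))) - Lq p (m3 : ZMod (p ^ (2:ℕ)))
        - Lq p (m4 : ZMod (p ^ (2:ℕ)))) := by
  have h2 : 2 < p := by omega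
  have hNR : (N : ZMod (p ^ (2:ℕ))) = -16 * w + P2 p * (8 * a * w) := by
    have h5 : (3 : ZMod (p ^ (2:ℕ))) * N + 2 = a * P2 p := by
      exact_mod_cast congrArg (Nat.cast : ℕ → ZMod (p ^ (2:ℕ))) hN
    linear_combination (8 * w) * h5 - (N : ZMod (p ^ (2:ℕ))) * hw
  obtain ⟨uv, hL⟩ := quad_L h2 hv h1 h2' h3' h4 hz (I3_V N)
    (by intro h; exact not_dvd_23 h3 1 1 (n := 6) (by norm_num) (hp.out.dvd_of_dvd_pow h))
    (by intro h; exact hp.out.one_lt.ne' (Nat.dvd_one.mp h)) hm1 hm2 hm3 hm4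
    (not_dvd_23 h3 3 0 (by norm_num)) (not_dvd_23 h3 3 0 (by norm_num))
    (not_dvd_23 h3 0 1 (by norm_num)) (not_dvd_23 h3 0 1 (by norm_num))
    (x1 := 21 * w) (x2 := 27 * w) (x3 := 16 * w) (x4 := 32 * w)
    (by push_cast; linear_combination 7 * hw) (by push_cast; linear_combination 9 * hw)
    (by push_cast; linear_combination 2 * hw) (by push_cast; linear_combination 4 * hw)
  refine ⟨uv, ?_⟩
  have u3 := isUnit_23 h3 (n := 3) 0 1 (by norm_num)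
  have u6 := isUnit_23 h3 (n := 6) 1 1 (by norm_num)
  have u8 := isUnit_23 h3 (n := 8) 3 0 (by norm_num)
  have l3 := Lq_23 h3 (n := 3) 0 1 (by norm_num)
  have l6 := Lq_23 h3 (n := 6) 1 1 (by norm_num)
  have l8 := Lq_23 h3 (n := 8) 3 0 (by norm_num)
  rw [Nat.cast_pow, Lq_pow u6, l6, l8, l3] at hL
  rw [show 21 * w + (N : ZMod (p ^ (2:ℕ))) = 5 * w + P2 p * (8 * a * w) by rw [hNR]; ring,
    show 27 * w + (N : ZMod (p ^ (2:ℕ))) = 11 * w + P2 p * (8 * a * w) by rw [hNR]; ring,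
    show 16 * w + (N : ZMod (p ^ (2:ℕ))) = 0 + P2 p * (8 * a * w) by rw [hNR]; ring,
    show 32 * w + (N : ZMod (p ^ (2:ℕ))) = 16 * w + P2 p * (8 * a * w) by rw [hNR]; ring,
    gam_add_P h2, gam_add_P h2, gam_add_P h2, gam_add_P h2, gam_zero] at hL
  have r1 : gam p (21 * w) = - gam p (3 * w) := by
    rw [← gam_one_sub h2]; congr 1; linear_combination hw
  have r2 : gam p (27 * w) = gam p (3 * w) + Lq p (3 * w) := by
    rw [← gam_succ h2]; congr 1; linear_combination hw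
  have r3 : gam p (16 * w) = - gam p (8 * w) := by
    rw [← gam_one_sub h2]; congr 1; linear_combination hw
  have r4 : gam p (32 * w) = gam p (8 * w) + Lq p (8 * w) := by
    rw [← gam_succ h2]; congr 1; linear_combination hw
  have d5 : dd p (16 * w) = dd p (8 * w) := by
    rw [← dd_one_sub h2]; congr 1; linear_combination -hw
  have s1 : Lq p (3 * w) = - Lq p ((8 : ℕ) : ZMod (p ^ (2:ℕ))) := by
    rw [Lq_frac u8 isUnit_one (by push_cast; linear_combination hw)]; simp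
  have s2 : Lq p (8 * w) = - Lq p ((3 : ℕ) : ZMod (p ^ (2:ℕ))) := by
    rw [Lq_frac u3 isUnit_one (by push_cast; linear_combination hw)]; simp
  rw [l8] at s1
  rw [l3] at s2
  rw [r2, r4, r1, r3, d5, s1, s2, hNR] at hL
  push_cast at hL
  rw [Lq_one] at hL
  rw [hL]
  linear_combination (40 * a * w) * P_mul_Lq (p := p) 2 + (-24 * a * w) * P_mul_Lq (p := p) 3

/-- `L` for the fourth closed form -/
lemma I4_L (h5p : 5 < p) {w : ZMod (p ^ (2:ℕ))} (hw : 24 * w = 1) {N a : ℕ} (hN : 6 * N + 5 = a * p)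
    {v : ZMod (p ^ (2:ℕ))}
    (hv : Red p (p ^ (2:ℕ)) (∑ k ∈ range (N + 1), tm (-(N : ℚ)) (N + 3 / 2) (3 * N + 7 / 2) k) v)
    {z1 z2 z3 z4 m1 m2 m3 m4 : ℕ}
    (h1 : APd p 7 6 N z1 m1) (h2' : APd p 11 6 N z2 m2) (h3' : APd p 11 8 N z3 m3)
    (h4 : APd p 13 8 N z4 m4) (hz : z1 + z2 = z3 + z4)
    (hm1 : ¬ p ∣ m1) (hm2 : ¬ p ∣ m2) (hm3 : ¬ p ∣ m3) (hm4 : ¬ p ∣ m4) :
    IsUnit v ∧ Lq p v = gam p (5 * w) + gam p (11 * w) + gam p (8 * w) -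
      4 * a * w * (dd p (5 * w) + dd p (11 * w) - dd p 0 - dd p (8 * w)) +
      20 * w * (5 * Lq p 2 - 3 * Lq p 3) + (3 * Lq p 3 - 4 * Lq p 2) -
      (z1 + z2) * (Lq p 2 + Lq p 3) + 3 * (z3 + z4) * Lq p 2 +
      (Lq p (m1 : ZMod (p ^ (2:ℕ))) + Lq p (m2 : ZMod (p ^ (2:ℕ))) - Lq p (m3 : ZMod (p ^ (2:ℕ)))
        - Lq p (m4 : ZMod (p ^ (2:ℕ)))) := by
  have h3 : 3 < p := by omega
  have h2 : 2 < p := by omega
  have hNR : (N : ZMod (p ^ (2:ℕ))) = -20 * w + P2 p * (4 * a * w) := by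
    have h5 : (6 : ZMod (p ^ (2:ℕ))) * N + 5 = a * P2 p := by
      exact_mod_cast congrArg (Nat.cast : ℕ → ZMod (p ^ (2:ℕ))) hN
    linear_combination (4 * w) * h5 - (N : ZMod (p ^ (2:ℕ))) * hw
  obtain ⟨uv, hL⟩ := quad_L h2 hv h1 h2' h3' h4 hz (I4_V N)
    (by intro h; exact not_dvd_23 h3 1 0 (n := 2) (by norm_num) (hp.out.dvd_of_dvd_pow h))
    (by intro h; exact not_dvd_23 h3 0 1 (n := 3) (by norm_num) (hp.out.dvd_of_dvd_pow h)) hm1 hm2 hm3 hm4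
    (not_dvd_23 h3 1 1 (by norm_num)) (not_dvd_23 h3 1 1 (by norm_num))
    (not_dvd_23 h3 3 0 (by norm_num)) (not_dvd_23 h3 3 0 (by norm_num))
    (x1 := 28 * w) (x2 := 44 * w) (x3 := 33 * w) (x4 := 39 * w)
    (by push_cast; linear_combination 7 * hw) (by push_cast; linear_combination 11 * hw)
    (by push_cast; linear_combination 11 * hw) (by push_cast; linear_combination 13 * hw)
  refine ⟨uv, ?_⟩
  have u2 := isUnit_23 h3 (n := 2) 1 0 (by norm_num)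
  have u3 := isUnit_23 h3 (n := 3) 0 1 (by norm_num)
  have u6 := isUnit_23 h3 (n := 6) 1 1 (by norm_num)
  have u8 := isUnit_23 h3 (n := 8) 3 0 (by norm_num)
  have u5 : IsUnit ((5 : ℕ) : ZMod (p ^ (2:ℕ))) := isUnit_num (by
    intro h; have := Nat.le_of_dvd (by norm_num) h; omega)
  have l3 := Lq_23 h3 (n := 3) 0 1 (by norm_num)
  have l6 := Lq_23 h3 (n := 6) 1 1 (by norm_num)
  have l8 := Lq_23 h3 (n := 8) 3 0 (by norm_num)
  rw [Nat.cast_pow, Nat.cast_pow, Lq_pow u2, Lq_pow u3, l6, l8] at hL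
  rw [show 28 * w + (N : ZMod (p ^ (2:ℕ))) = 8 * w + P2 p * (4 * a * w) by rw [hNR]; ring,
    show 44 * w + (N : ZMod (p ^ (2:ℕ))) = 1 + P2 p * (4 * a * w) by rw [hNR]; linear_combination hw,
    show 33 * w + (N : ZMod (p ^ (2:ℕ))) = 13 * w + P2 p * (4 * a * w) by rw [hNR]; ring,
    show 39 * w + (N : ZMod (p ^ (2:ℕ))) = 19 * w + P2 p * (4 * a * w) by rw [hNR]; ring,
    gam_add_P h2, gam_add_P h2, gam_add_P h2, gam_add_P h2, gam_one h2, dd_one h2] at hL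
  have r1 : gam p (20 * w) = - gam p (4 * w) := by
    rw [← gam_one_sub h2]; congr 1; linear_combination hw
  have r2 : gam p (28 * w) = gam p (4 * w) + Lq p (4 * w) := by
    rw [← gam_succ h2]; congr 1; linear_combination hw
  have r3 : gam p (44 * w) = gam p (20 * w) + Lq p (20 * w) := by
    rw [← gam_succ h2]; congr 1; linear_combination hw
  have r4 : gam p (15 * w) = - gam p (9 * w) := by
    rw [← gam_one_sub h2]; congr 1; linear_combination hw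
  have r5 : gam p (33 * w) = gam p (9 * w) + Lq p (9 * w) := by
    rw [← gam_succ h2]; congr 1; linear_combination hw
  have r6 : gam p (39 * w) = gam p (15 * w) + Lq p (15 * w) := by
    rw [← gam_succ h2]; congr 1; linear_combination hw
  have r7 : gam p (13 * w) = - gam p (11 * w) := by
    rw [← gam_one_sub h2]; congr 1; linear_combination hw
  have r8 : gam p (19 * w) = - gam p (5 * w) := by
    rw [← gam_one_sub h2]; congr 1; linear_combination hw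
  have d5 : dd p (13 * w) = dd p (11 * w) := by
    rw [← dd_one_sub h2]; congr 1; linear_combination -hw
  have d6 : dd p (19 * w) = dd p (5 * w) := by
    rw [← dd_one_sub h2]; congr 1; linear_combination -hw
  have s1 : Lq p (4 * w) = - Lq p ((6 : ℕ) : ZMod (p ^ (2:ℕ))) := by
    rw [Lq_frac u6 isUnit_one (by push_cast; linear_combination hw)]; simp
  have s2 : Lq p (20 * w) = Lq p ((5 : ℕ) : ZMod (p ^ (2:ℕ))) - Lq p ((6 : ℕ) : ZMod (p ^ (2:ℕ))) := by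
    rw [Lq_frac u6 u5 (by push_cast; linear_combination 5 * hw)]
  have s3 : Lq p (9 * w) = Lq p ((3 : ℕ) : ZMod (p ^ (2:ℕ))) - Lq p ((8 : ℕ) : ZMod (p ^ (2:ℕ))) := by
    rw [Lq_frac u8 u3 (by push_cast; linear_combination 3 * hw)]
  have s4 : Lq p (15 * w) = Lq p ((5 : ℕ) : ZMod (p ^ (2:ℕ))) - Lq p ((8 : ℕ) : ZMod (p ^ (2:ℕ))) := by
    rw [Lq_frac u8 u5 (by push_cast; linear_combination 5 * hw)]
  rw [l6] at s1 s2
  rw [l8] at s3 s4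
  rw [l3] at s3
  rw [r2, r3, r5, r6, r1, r4, r7, r8, d5, d6, s1, s2, s3, s4, hNR] at hL
  push_cast at hL
  rw [hL]
  linear_combination (-20 * a * w) * P_mul_Lq (p := p) 2 + (12 * a * w) * P_mul_Lq (p := p) 3

end

end SC24
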