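import Mathlib

/-!
Elementary facts on `p = x^2 + 6 y^2` and `p = 2 x^2 + 3 y^2`.
-/

namespace SC24

/-- uniqueness of `u` in `u^2 + 6 v^2 = p^2` -/
lemma uniq_rep {p : ℤ} (hp : Prime p) (hp3 : 3 < p) {u v X Y : ℤ} (h1 : u ^ 2 + 6 * v ^ 2 = p ^ 2)
    (h2 : X ^ 2 + 6 * Y ^ 2 = p ^ 2) (hu : ¬ p ∣ u) (hX : ¬ p ∣ X) : u = X ∨ u = -X := by
  have key : (u * Y - v * X) * (u * Y + v * X) = p ^ 2 * (Y ^ 2 - v ^ 2) := by
    linear_combination Y ^ 2 * h1 - v ^ 2 * h2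
  have n1 : (u * X + 6 * v * Y) ^ 2 + 6 * (u * Y - v * X) ^ 2 = p ^ 4 := by
    linear_combination (X ^ 2 + 6 * Y ^ 2) * h1 + p ^ 2 * h2
  have n2 : (u * X - 6 * v * Y) ^ 2 + 6 * (u * Y + v * X) ^ 2 = p ^ 4 := by
    linear_combination (X ^ 2 + 6 * Y ^ 2) * h1 + p ^ 2 * h2
  have small : ∀ D Z : ℤ, Z ^ 2 + 6 * D ^ 2 = p ^ 4 → p ^ 2 ∣ D → D = 0 := by
    intro D Z h hd
    obtain ⟨e, rfl⟩ := hd
    by_contra hne
    have he : e ≠ 0 := by rintro rfl; exact hne (by ring)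
    have h5 : 1 ≤ e ^ 2 := by
      have := sq_pos_of_ne_zero he; linarith
    have h6 : 0 < p ^ 4 := by positivity
    have h7 : p ^ 4 * 6 ≤ p ^ 4 * 6 * e ^ 2 := by nlinarith
    nlinarith [sq_nonneg Z]
  have fin : ∀ D : ℤ, D = 0 → (u * Y = v * X ∨ u * Y = -(v * X)) → u ^ 2 = X ^ 2 := by
    intro _ _ h
    have hsq : u ^ 2 * Y ^ 2 = v ^ 2 * X ^ 2 := by
      rcases h with h | h
      · calc u ^ 2 * Y ^ 2 = (u * Y) ^ 2 := by ring
          _ = (v * X) ^ 2 := by rw [h]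
          _ = _ := by ring
      · calc u ^ 2 * Y ^ 2 = (u * Y) ^ 2 := by ring
          _ = (-(v * X)) ^ 2 := by rw [h]
          _ = _ := by ring
    have hp2 : p ^ 2 ≠ 0 := by positivity
    apply mul_right_cancel₀ hp2
    calc u ^ 2 * p ^ 2 = u ^ 2 * (X ^ 2 + 6 * Y ^ 2) := by rw [h2]
      _ = u ^ 2 * X ^ 2 + 6 * (u ^ 2 * Y ^ 2) := by ring
      _ = u ^ 2 * X ^ 2 + 6 * (v ^ 2 * X ^ 2) := by rw [hsq]
      _ = X ^ 2 * (u ^ 2 + 6 * v ^ 2) := by ring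
      _ = X ^ 2 * p ^ 2 := by rw [h1]
  have hend : u ^ 2 = X ^ 2 → u = X ∨ u = -X := fun h => sq_eq_sq_iff_eq_or_eq_neg.mp h
  have hn2 : ¬ p ∣ 2 := by
    intro h; have := Int.le_of_dvd (by norm_num) h; linarith
  by_cases hd1 : p ∣ u * Y - v * X
  · by_cases hd2 : p ∣ u * Y + v * X
    · exfalso
      have h5 : p ∣ 2 * (u * Y) := by
        have := dvd_add hd1 hd2
        rwa [show u * Y - v * X + (u * Y + v * X) = 2 * (u * Y) by ring] at this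
      have h6 : p ∣ Y := by
        rcases hp.dvd_or_dvd h5 with h | h
        · exact absurd h hn2
        · rcases hp.dvd_or_dvd h with h | h
          · exact absurd h hu
          · exact h
      obtain ⟨y, rfl⟩ := h6
      apply hX
      apply hp.dvd_of_dvd_pow (n := 2)
      exact ⟨p * (1 - 6 * y ^ 2), by linear_combination h2⟩
    · have h5 : p ^ 2 ∣ (u * Y - v * X) * (u * Y + v * X) := ⟨_, key⟩
      have hco : IsCoprime (p ^ 2) (u * Y + v * X) :=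
        (hp.irreducible.coprime_iff_not_dvd.mpr hd2).pow_left
      have h6 : p ^ 2 ∣ u * Y - v * X := hco.dvd_of_dvd_mul_right h5
      have h7 := small _ _ n1 h6
      exact hend (fin _ h7 (Or.inl (by linarith)))
  · have h5 : p ^ 2 ∣ (u * Y - v * X) * (u * Y + v * X) := ⟨_, key⟩
    have hco : IsCoprime (p ^ 2) (u * Y - v * X) :=
      (hp.irreducible.coprime_iff_not_dvd.mpr hd1).pow_left
    have h6 : p ^ 2 ∣ u * Y + v * X := hco.dvd_of_dvd_mul_left h5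
    have h7 := small _ _ n2 h6
    exact hend (fin _ h7 (Or.inr (by linarith)))

lemma sq_mod24 (x : ℤ) : x % 24 = 0 ∨ x % 24 = 1 ∨ x % 24 = 2 ∨ x % 24 = 3 ∨ x % 24 = 4 ∨ x % 24 = 5 ∨
  x % 24 = 6 ∨ x % 24 = 7 ∨ x % 24 = 8 ∨ x % 24 = 9 ∨ x % 24 = 10 ∨ x % 24 = 11 ∨ x % 24 = 12 ∨
  x % 24 = 13 ∨ x % 24 = 14 ∨ x % 24 = 15 ∨ x % 24 = 16 ∨ x % 24 = 17 ∨ x % 24 = 18 ∨ x % 24 = 19 ∨
  x % 24 = 20 ∨ x % 24 = 21 ∨ x % 24 = 22 ∨ x % 24 = 23 := by omega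

/-- squares modulo 8 and 3 -/
lemma sq_mod8 (x : ℤ) : x ^ 2 % 8 = 0 ∨ x ^ 2 % 8 = 1 ∨ x ^ 2 % 8 = 4 := by
  have h : x % 8 = 0 ∨ x % 8 = 1 ∨ x % 8 = 2 ∨ x % 8 = 3 ∨ x % 8 = 4 ∨ x % 8 = 5 ∨ x % 8 = 6 ∨ x % 8 = 7 := by omega
  rcases h with h | h | h | h | h | h | h | h <;> simp [pow_two, Int.mul_emod, h]

lemma sq_mod3 (x : ℤ) : (x % 3 = 0 ∧ x ^ 2 % 3 = 0) ∨ (x % 3 ≠ 0 ∧ x ^ 2 % 3 = 1) := by
  have h : x % 3 = 0 ∨ x % 3 = 1 ∨ x % 3 = 2 := by omega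
  rcases h with h | h | h <;> simp [pow_two, Int.mul_emod, h]

lemma class_A {p : ℕ} (hp : p.Prime) (hp3 : 3 < p) {x y : ℤ} (h : (p : ℤ) = x ^ 2 + 6 * y ^ 2) :
    (p % 24 = 1 ∨ p % 24 = 7) ∧ x % 3 ≠ 0 ∧ ¬ (p : ℤ) ∣ x ∧ x ^ 2 < p := by
  have h2 : ¬ 2 ∣ p := fun h => by
    have := (Nat.prime_dvd_prime_iff_eq Nat.prime_two hp).mp h; omega
  have h3 : ¬ 3 ∣ p := fun h => by
    have := (Nat.prime_dvd_prime_iff_eq Nat.prime_three hp).mp h; omega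
  have hy0 : y ≠ 0 := by
    rintro rfl
    have hx : (p : ℤ) = x ^ 2 := by linarith
    have h5 : IsSquare ((p : ℤ)) := ⟨x, by rw [hx]; ring⟩
    exact (Nat.prime_iff_prime_int.mp hp).irreducible.not_isSquare h5
  have hx0 : x ≠ 0 := by
    rintro rfl
    apply h2
    have : (2 : ℤ) ∣ p := ⟨3 * y ^ 2, by linarith⟩
    exact_mod_cast this
  have hy1 : 1 ≤ y ^ 2 := by have := sq_pos_of_ne_zero hy0; linarith
  have hx1 : 1 ≤ x ^ 2 := by have := sq_pos_of_ne_zero hx0; linarith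
  refine ⟨?_, ?_, ?_, by linarith⟩
  · rcases sq_mod8 x with a | a | a <;> rcases sq_mod8 y with b | b | b <;>
      rcases sq_mod3 x with ⟨c, c'⟩ | ⟨c, c'⟩ <;> omega
  · rcases sq_mod3 x with ⟨c, c'⟩ | ⟨c, c'⟩ <;> omega
  · intro hd
    obtain ⟨e, rfl⟩ := hd
    have he : e ≠ 0 := by rintro rfl; exact hx0 (by ring)
    have he1 : 1 ≤ e ^ 2 := by have := sq_pos_of_ne_zero he; linarith
    have hpp : (p : ℤ) ^ 2 ≤ (p * e) ^ 2 := by rw [mul_pow]; nlinarith [sq_nonneg (p : ℤ)]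
    have hp1 : (3 : ℤ) < p := by exact_mod_cast hp3
    nlinarith

lemma class_B {p : ℕ} (hp : p.Prime) (hp3 : 3 < p) {x y : ℤ} (h : (p : ℤ) = 2 * x ^ 2 + 3 * y ^ 2) :
    (p % 24 = 5 ∨ p % 24 = 11) ∧ x % 3 ≠ 0 ∧ ¬ (p : ℤ) ∣ x ∧ 2 * x ^ 2 + 3 ≤ p := by
  have h2 : ¬ 2 ∣ p := fun h => by
    have := (Nat.prime_dvd_prime_iff_eq Nat.prime_two hp).mp h; omega
  have h3 : ¬ 3 ∣ p := fun h => by
    have := (Nat.prime_dvd_prime_iff_eq Nat.prime_three hp).mp h; omega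
  have hy0 : y ≠ 0 := by
    rintro rfl
    apply h2
    have : (2 : ℤ) ∣ p := ⟨x ^ 2, by linarith⟩
    exact_mod_cast this
  have hx0 : x ≠ 0 := by
    rintro rfl
    apply h3
    have : (3 : ℤ) ∣ p := ⟨y ^ 2, by linarith⟩
    exact_mod_cast this
  have hy1 : 1 ≤ y ^ 2 := by have := sq_pos_of_ne_zero hy0; linarith
  have hx1 : 1 ≤ x ^ 2 := by have := sq_pos_of_ne_zero hx0; linarith
  refine ⟨?_, ?_, ?_, by linarith⟩
  · rcases sq_mod8 x with a | a | a <;> rcases sq_mod8 y with b | b | b <;>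
      rcases sq_mod3 x with ⟨c, c'⟩ | ⟨c, c'⟩ <;> omega
  · rcases sq_mod3 x with ⟨c, c'⟩ | ⟨c, c'⟩ <;> omega
  · intro hd
    obtain ⟨e, rfl⟩ := hd
    have he : e ≠ 0 := by rintro rfl; exact hx0 (by ring)
    have he1 : 1 ≤ e ^ 2 := by have := sq_pos_of_ne_zero he; linarith
    have hpp : (p : ℤ) ^ 2 ≤ (p * e) ^ 2 := by rw [mul_pow]; nlinarith [sq_nonneg (p : ℤ)]
    have hp1 : (3 : ℤ) < p := by exact_mod_cast hp3
    nlinarith

lemma sq_nat_of_coprime {a b c : ℤ} (ha : 0 ≤ a) (hab : IsCoprime a b) (h : a * b = c ^ 2) :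
    ∃ x : ℤ, a = x ^ 2 := by
  obtain ⟨x, hx⟩ := Int.sq_of_isCoprime hab h
  rcases hx with hx | hx
  · exact ⟨x, hx⟩
  · refine ⟨0, ?_⟩
    have := sq_nonneg x
    nlinarith

lemma split_two {a b c : ℤ} (ha : 0 ≤ a) (hb : 0 ≤ b) (hab : IsCoprime a b) (h : a * b = c ^ 2) :
    ∃ x y : ℤ, a = x ^ 2 ∧ b = y ^ 2 := by
  obtain ⟨x, hx⟩ := sq_nat_of_coprime ha hab h
  obtain ⟨y, hy⟩ := sq_nat_of_coprime hb hab.symm (by rw [mul_comm]; exact h)
  exact ⟨x, y, hx, hy⟩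

/-- existence of a representation by one of the two forms -/
lemma exists_form {p : ℤ} (hp : Prime p) (hp3 : 3 < p) {u v : ℤ} (h : u ^ 2 + 6 * v ^ 2 = p ^ 2)
    (hu : ¬ p ∣ u) : (∃ x y : ℤ, p = x ^ 2 + 6 * y ^ 2) ∨ (∃ x y : ℤ, p = 2 * x ^ 2 + 3 * y ^ 2) := by
  have hodd : p % 2 = 1 := by
    rcases Int.emod_two_eq_zero_or_one p with h0 | h0
    · exfalso
      have h2p : (2 : ℤ) ∣ p := Int.dvd_of_emod_eq_zero h0
      have := (Int.prime_two.associated_of_dvd hp h2p)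
      rcases Int.associated_iff.mp this with h | h <;> linarith
    · exact h0
  have hp8 : p ^ 2 % 8 = 1 := by
    rcases sq_mod8 p with h0 | h0 | h0
    · exfalso
      have : p ^ 2 % 2 = 1 := by rw [pow_two, Int.mul_emod, hodd]; rfl
      omega
    · exact h0
    · exfalso
      have : p ^ 2 % 2 = 1 := by rw [pow_two, Int.mul_emod, hodd]; rfl
      omega
  have hu2 : u % 2 = 1 := by
    rcases Int.emod_two_eq_zero_or_one u with h0 | h0
    · exfalso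
      have : u ^ 2 % 2 = 0 := by rw [pow_two, Int.mul_emod, h0]; rfl
      omega
    · exact h0
  have hv2 : v % 2 = 0 := by
    rcases Int.emod_two_eq_zero_or_one v with h0 | h0
    · exact h0
    · exfalso
      rcases sq_mod8 u with a | a | a <;> rcases sq_mod8 v with b | b | b <;>
      · have h9 : v ^ 2 % 2 = 1 := by rw [pow_two, Int.mul_emod, h0]; rfl
        omega
  obtain ⟨w, hw⟩ : ∃ w, v = 2 * w := ⟨v / 2, by omega⟩
  obtain ⟨a, ha⟩ : ∃ a, p - u = 2 * a := ⟨(p - u) / 2, by omega⟩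
  obtain ⟨b, hb⟩ : ∃ b, p + u = 2 * b := ⟨(p + u) / 2, by omega⟩
  have hab : a * b = 6 * w ^ 2 := by
    have : 4 * (a * b) = 4 * (6 * w ^ 2) := by
      calc 4 * (a * b) = (2 * a) * (2 * b) := by ring
        _ = (p - u) * (p + u) := by rw [ha, hb]
        _ = 6 * v ^ 2 := by linear_combination -h
        _ = _ := by rw [hw]; ring
    linarith
  have hsum : a + b = p := by linarith
  have hdiff : b - a = u := by linarith
  have hco : IsCoprime a b := by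
    have h1 : IsCoprime p u := hp.irreducible.coprime_iff_not_dvd.mpr hu
    rw [← hsum, ← hdiff] at h1
    have h2 : IsCoprime (2 * a) b ∨ True := Or.inr trivial
    obtain ⟨s, t, hst⟩ := h1
    exact ⟨s - t, s + t, by linear_combination hst⟩
  have hv0 : v ≠ 0 := by
    rintro rfl
    apply hu
    have h5 : u ^ 2 = p ^ 2 := by linarith
    exact hp.dvd_of_dvd_pow (n := 2) ⟨p, by rw [h5]; ring⟩
  have hulp : u ^ 2 < p ^ 2 := by
    have := sq_pos_of_ne_zero hv0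
    linarith
  have hup := abs_lt_of_sq_lt_sq hulp (by linarith)
  have ha0 : 0 ≤ a := by have := (abs_lt.mp hup).2; linarith
  have hb0 : 0 ≤ b := by have := (abs_lt.mp hup).1; linarith
  have h2 : (2 : ℤ) ∣ a * b := ⟨3 * w ^ 2, by rw [hab]; ring⟩
  have h3 : (3 : ℤ) ∣ a * b := ⟨2 * w ^ 2, by rw [hab]; ring⟩
  rcases Int.prime_two.dvd_or_dvd h2 with h2' | h2' <;> rcases Int.prime_three.dvd_or_dvd h3 with h3' | h3'
  · -- 6 | a
    obtain ⟨c, hc⟩ : (6 : ℤ) ∣ a := by omega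
    obtain ⟨x, y, hx, hy⟩ := split_two (a := c) (b := b) (c := w) (by linarith) hb0
      (hco.of_isCoprime_of_dvd_left ⟨6, by rw [hc]; ring⟩)
      (by have : 6 * (c * b) = 6 * w ^ 2 := by rw [← hab, hc]; ring
          linarith)
    exact Or.inl ⟨y, x, by rw [← hsum, hc, hx, hy]; ring⟩
  · obtain ⟨c, hc⟩ := h2'
    obtain ⟨d, hd⟩ := h3'
    obtain ⟨x, y, hx, hy⟩ := split_two (a := c) (b := d) (c := w) (by linarith) (by linarith)
      ((hco.of_isCoprime_of_dvd_left ⟨2, by rw [hc]; ring⟩).of_isCoprime_of_dvd_right ⟨3, by rw [hd]; ring⟩)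
      (by have : 6 * (c * d) = 6 * w ^ 2 := by rw [← hab, hc, hd]; ring
          linarith)
    exact Or.inr ⟨x, y, by rw [← hsum, hc, hd, hx, hy]⟩
  · obtain ⟨c, hc⟩ := h2'
    obtain ⟨d, hd⟩ := h3'
    obtain ⟨x, y, hx, hy⟩ := split_two (a := c) (b := d) (c := w) (by linarith) (by linarith)
      ((hco.symm.of_isCoprime_of_dvd_left ⟨2, by rw [hc]; ring⟩).of_isCoprime_of_dvd_right ⟨3, by rw [hd]; ring⟩)
      (by have : 6 * (c * d) = 6 * w ^ 2 := by rw [← hab, hc, hd]; ring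
          linarith)
    exact Or.inr ⟨x, y, by rw [← hsum, hc, hd, hx, hy]; ring⟩
  · obtain ⟨c, hc⟩ : (6 : ℤ) ∣ b := by omega
    obtain ⟨x, y, hx, hy⟩ := split_two (a := a) (b := c) (c := w) ha0 (by linarith)
      (hco.of_isCoprime_of_dvd_right ⟨6, by rw [hc]; ring⟩)
      (by have : 6 * (a * c) = 6 * w ^ 2 := by rw [← hab, hc]; ring
          linarith)
    exact Or.inl ⟨x, y, by rw [← hsum, hc, hx, hy]⟩

end SC24
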