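import Pool.Agent.SC24.HypK
import Pool.Agent.SC24.EllB
import Pool.Agent.SC24.Forms

/-!
Assembly in `ZMod (p^2)`.
-/

namespace SC24

open Finset

section
variable {p : ℕ} [hp : Fact p.Prime]

lemma digits {m0 m1 n0 n1 ρ ρ' b : ℕ} (hm0 : 24 * m0 + 1 = ρ * p) (hm1 : 24 * m1 + ρ = p)
    (hn0 : 24 * n0 + b = ρ' * p) (hn1 : 24 * n1 + ρ' = b * p) :
    m0 + p * m1 = (p ^ 2 - 1) / 24 ∧ (m0 + n0) + p * (m1 + n1) = (1 + b) * ((p ^ 2 - 1) / 24) := by
  have e1 : 24 * (m0 + p * m1) + 1 = p ^ 2 := by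
    calc 24 * (m0 + p * m1) + 1 = (24 * m0 + 1) + p * (24 * m1) := by ring
      _ = ρ * p + p * (24 * m1) := by rw [hm0]
      _ = p * (24 * m1 + ρ) := by ring
      _ = p ^ 2 := by rw [hm1]; ring
  have e2 : (p ^ 2 - 1) / 24 = m0 + p * m1 := by
    rw [← e1]; simp
  have e3 : 24 * (n0 + p * n1) + b = b * p ^ 2 := by
    calc 24 * (n0 + p * n1) + b = (24 * n0 + b) + p * (24 * n1) := by ring
      _ = ρ' * p + p * (24 * n1) := by rw [hn0]
      _ = p * (24 * n1 + ρ') := by ring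
      _ = b * p ^ 2 := by rw [hn1]; ring
  have e4 : n0 + p * n1 = b * (m0 + p * m1) := by
    rw [← e1] at e3
    have : 24 * (n0 + p * n1) = 24 * (b * (m0 + p * m1)) := by linarith
    linarith
  refine ⟨e2.symm, ?_⟩
  rw [e2]
  calc (m0 + n0) + p * (m1 + n1) = (m0 + p * m1) + (n0 + p * n1) := by ring
    _ = _ := by rw [e4]; ring

/-- the sum of the Fermat quotients -/
lemma LST (hc : (p % 24 = 1 ∨ p % 24 = 7) ∨ ((p % 24 = 5 ∨ p % 24 = 11) ∧ 5 < p)) :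
    IsUnit (Sr p) ∧ IsUnit (Tr p) ∧ Lq p (Sr p * Tr p) =
      gam p (ww p) + gam p (5 * ww p) + gam p (7 * ww p) + gam p (11 * ww p) := by
  rcases hc with hc | ⟨hc, h5⟩
  · have h1 := S_A hc
    have h2 := T_A hc
    refine ⟨h1.1, h2.1, ?_⟩
    rw [Lq_mul h1.1 h2.1, h1.2, h2.2]; ring
  · have h1 := S_B hc h5
    have h2 := T_B hc h5
    refine ⟨h1.1, h2.1, ?_⟩
    rw [Lq_mul h1.1 h2.1, h1.2, h2.2]; ring

lemma gam_pair (h3 : 3 < p) {k l : ZMod (p ^ (2:ℕ))} (h : k + l = 24) : gam p (k * ww p) + gam p (l * ww p) = 0 := by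
  have hw := hww (p := p) h3
  have : l * ww p = 1 - k * ww p := by linear_combination hw + ww p * h
  rw [this, gam_one_sub (by omega)]; ring

lemma Gp_pair (h3 : 3 < p) {n k : ℕ} {l : ZMod p} (hl : (k : ZMod p) + l = 24)
    (hk : (p : ℕ) ∣ 24 * n + (24 * p - k)) (hkp : k ≤ 24 * p) (hn1 : 1 ≤ n) (hn : n ≤ p) :
    Gp p (k * red p (ww p)) * Gp p (l * red p (ww p)) = (-1) ^ n := by
  have hw := red_ww (p := p) h3
  have := refl24 h3 hk hkp hn1 hn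
  rw [← this]
  congr 2
  linear_combination hw + red p (ww p) * hl

/-- the common final step in the two digit case -/
lemma ST_two (h3 : 3 < p) {b : ℕ} (hb : ((p % 24 = 5 ∨ p % 24 = 11) ∧ b = 7) ∨ (p % 24 = 7 ∧ b = 5))
    {m0 m1 n0 n1 ρ ρ' : ℕ} (hm0 : 24 * m0 + 1 = ρ * p) (hm1 : 24 * m1 + ρ = p)
    (hn0 : 24 * n0 + b = ρ' * p) (hn1 : 24 * n1 + ρ' = b * p) (h0 : m0 + n0 < p) (h1 : m1 + n1 < p)
    (hmp : 0 < m0 + m1) (hmn : (m0 + n0) + (m1 + n1) < 2 * (p - 1)) :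
    ∃ c : ZMod (p ^ (2:ℕ)), IsUnit c ∧
      Lq p c = gam p (ww p) + gam p (b * ww p) - gam p ((1 + b) * ww p) +
        gam p (ρ * ww p) + gam p (ρ' * ww p) - gam p ((ρ + ρ') * ww p) ∧
      red p c * (Gp p ((1 + b) * red p (ww p)) * Gp p ((ρ + ρ') * red p (ww p))) =
      - (-1) ^ (m0 + m1) * (Gp p (red p (ww p)) * Gp p (b * red p (ww p)) * Gp p (ρ * red p (ww p)) *
        Gp p (ρ' * red p (ww p))) ∧
      ∃ u v : ℤ, u ^ 2 + 6 * v ^ 2 = (p : ℤ) ^ 2 ∧ (b = 7 → u % 3 = 2) ∧ c = 2 * (u : ZMod (p ^ (2:ℕ))) := by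
  obtain ⟨hM, hB⟩ := digits hm0 hm1 hn0 hn1
  refine ⟨- (-1) ^ (m0 + m1) * ((m0 + n0).choose m0 : ZMod (p ^ (2:ℕ))) *
      ((m1 + n1).choose m1 : ZMod (p ^ (2:ℕ))) *
      (1 + (p : ZMod (p ^ (2:ℕ))) * (((m0 + n0 : ℕ) : ZMod (p ^ (2:ℕ))) * (harm (p ^ 2) (m1 + n1) - harm (p ^ 2) n1)
         - (m0 : ZMod (p ^ (2:ℕ))) * (harm (p ^ 2) m1 - harm (p ^ 2) n1)
         + ((m1 + n1 : ℕ) : ZMod (p ^ (2:ℕ))) * (harm (p ^ 2) (m0 + n0) - harm (p ^ 2) n0)
         - (m1 : ZMod (p ^ (2:ℕ))) * (harm (p ^ 2) m0 - harm (p ^ 2) n0))), ?_⟩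
  obtain ⟨hu, hL⟩ := Lc2 h3 hm0 hm1 hn0 hn1 h0 h1 rfl
  exact ⟨hu, hL, Rc2 h3 hm0 hm1 hn0 hn1 h0 h1 rfl, jac_uv2 h3 hb hM hB h0 h1 hmp hmn hu rfl⟩

lemma neg_one_sq_pow (n : ℕ) : ((-1 : ZMod p) ^ n) * (-1) ^ n = 1 := by rw [← mul_pow]; simp

/-- class 7 -/
lemma ST_7 (hc : p % 24 = 7) : ∃ u v : ℤ, u ^ 2 + 6 * v ^ 2 = (p : ℤ) ^ 2 ∧
    Sr p * Tr p = 2 * (u : ZMod (p ^ (2:ℕ))) := by
  have hp2 := hp.out.two_le
  have h3 : 3 < p := by omega
  obtain ⟨k, hk⟩ : ∃ k, p = 24 * k + 7 := ⟨p / 24, by omega⟩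
  obtain ⟨c, hcu, hL, hR, u, v, huv, -, hc2⟩ := ST_two h3 (b := 5) (Or.inr ⟨hc, rfl⟩)
    (m0 := 7 * k + 2) (m1 := k) (n0 := 11 * k + 3) (n1 := 5 * k + 1) (ρ := 7) (ρ' := 11)
    (by omega) (by omega) (by omega) (by omega) (by omega) (by omega) (by omega) (by omega)
  refine ⟨u, v, huv, ?_⟩
  rw [← hc2]
  obtain ⟨uS, uT, hLST⟩ := LST (p := p) (Or.inl (Or.inr hc))
  apply eq_of_Lq (uS.mul uT)
  · rw [map_mul]
    have h1 := ST_modp h3 (Or.inl (Or.inr hc))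
    have g3 := Gp_pair (p := p) h3 (k := 3) (l := 21) (n := (p + 1) / 8) (by push_cast; ring)
      (by obtain ⟨t, ht⟩ : ∃ t, p = 8 * t + 7 := ⟨p / 8, by omega⟩
          exact ⟨27, by omega⟩) (by omega) (by omega) (by omega)
    have g9 := Gp_pair (p := p) h3 (k := 9) (l := 15) (n := (3 * p + 3) / 8) (by push_cast; ring)
      (⟨33, by omega⟩) (by omega) (by omega) (by omega)
    have g8 := Gp_pair (p := p) h3 (k := 8) (l := 16) (n := (2 * p + 1) / 3) (by push_cast; ring)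
      (⟨40, by omega⟩) (by omega) (by omega) (by omega)
    have g6 := Gp_pair (p := p) h3 (k := 6) (l := 18) (n := (p + 1) / 4) (by push_cast; ring)
      (⟨30, by omega⟩) (by omega) (by omega) (by omega)
    have s3 : ((-1 : ZMod p)) ^ ((p + 1) / 8) = (-1) ^ (3 * k + 1) := by congr 1; omega
    have s9 : ((-1 : ZMod p)) ^ ((3 * p + 3) / 8) = (-1) ^ (3 * (3 * k + 1)) := by congr 1; omega
    have s8 : ((-1 : ZMod p)) ^ ((2 * p + 1) / 3) = (-1) ^ (2 * (8 * k + 2) + 1) := by congr 1; omega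
    have s6 : ((-1 : ZMod p)) ^ ((p + 1) / 4) = (-1) ^ (2 * (3 * k + 1)) := by congr 1; omega
    have s7 : ((-1 : ZMod p)) ^ (7 * k + 2 + k) = (-1) ^ (2 * (4 * k + 1)) := by congr 1; ring
    have ev : ∀ n, ((-1 : ZMod p)) ^ (2 * n) = 1 := by intro n; rw [pow_mul]; simp
    rw [s3] at g3
    rw [s9, pow_mul] at g9
    rw [s8, pow_add, ev] at g8
    rw [s6, ev] at g6
    rw [s7, ev] at hR
    push_cast at g3 g9 g8 g6 hR
    rw [show (1 : ZMod p) + 5 = 6 by norm_num, show (7 : ZMod p) + 11 = 18 by norm_num, g6] at hR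
    rw [g3, g9, g8] at h1
    have hε := neg_one_sq_pow (p := p) (3 * k + 1)
    rcases neg_one_pow_eq_or (ZMod p) (3 * k + 1) with hh | hh
    · rw [hh] at h1
      have e9 : ((-1 : ZMod p) ^ 3) ^ (3 * k + 1) = 1 := by
        rw [← pow_mul, mul_comm, pow_mul, hh]; simp
      rw [e9] at h1
      linear_combination h1 - hR
    · rw [hh] at h1
      have e9 : ((-1 : ZMod p) ^ 3) ^ (3 * k + 1) = -1 := by
        rw [← pow_mul, mul_comm, pow_mul, hh]; ring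
      rw [e9] at h1
      linear_combination h1 - hR
  · rw [hLST, hL]
    push_cast
    have := gam_pair h3 (k := 6) (l := 18) (by norm_num)
    rw [show (1 : ZMod (p ^ (2:ℕ))) + 5 = 6 by norm_num, show (7 : ZMod (p ^ (2:ℕ))) + 11 = 18 by norm_num]
    linear_combination this

lemma neg_one_odd {n : ℕ} (h : n % 2 = 1) : ((-1 : ZMod p)) ^ n = -1 := by
  have : Odd n := Nat.odd_iff.mpr h
  exact this.neg_one_pow

lemma neg_one_even {n : ℕ} (h : n % 2 = 0) : ((-1 : ZMod p)) ^ n = 1 := by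
  have : Even n := Nat.even_iff.mpr h
  exact this.neg_one_pow

lemma pm_mul {n m : ℕ} (h : (n + m) % 2 = 1) : ((-1 : ZMod p)) ^ n * (-1) ^ m = -1 := by
  rw [← pow_add, neg_one_odd h]

lemma pm_mul' {n m : ℕ} (h : (n + m) % 2 = 0) : ((-1 : ZMod p)) ^ n * (-1) ^ m = 1 := by
  rw [← pow_add, neg_one_even h]

/-- classes 5 and 11 -/
lemma ST_B (hc : p % 24 = 5 ∨ p % 24 = 11) (h5 : 5 < p) : ∃ u v : ℤ, u ^ 2 + 6 * v ^ 2 = (p : ℤ) ^ 2 ∧
    u % 3 = 2 ∧ Sr p * Tr p = -(2 * (u : ZMod (p ^ (2:ℕ)))) := by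
  have h3 : 3 < p := by omega
  obtain ⟨uS, uT, hLST⟩ := LST (p := p) (Or.inr ⟨hc, h5⟩)
  have h1 := ST_modp h3 (Or.inr hc)
  have q8 := gam_pair (p := p) h3 (k := 8) (l := 16) (by norm_num)
  rcases hc with hc | hc
  · obtain ⟨k, hk⟩ : ∃ k, p = 24 * k + 5 := ⟨p / 24, by omega⟩
    obtain ⟨c, hcu, hL, hR, u, v, huv, hu3, hc2⟩ := ST_two h3 (b := 7) (Or.inl ⟨Or.inl hc, rfl⟩)
      (m0 := 5 * k + 1) (m1 := k) (n0 := 11 * k + 2) (n1 := 7 * k + 1) (ρ := 5) (ρ' := 11)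
      (by omega) (by omega) (by omega) (by omega) (by omega) (by omega) (by omega) (by omega)
    refine ⟨u, v, huv, hu3 rfl, ?_⟩
    rw [← hc2]
    apply eq_of_Lq (uS.mul uT)
    · rw [map_mul, map_neg]
      have g3 := Gp_pair (p := p) h3 (k := 3) (l := 21) (n := (3 * p + 1) / 8) (by push_cast; ring)
        (⟨33, by omega⟩) (by omega) (by omega) (by omega)
      have g9 := Gp_pair (p := p) h3 (k := 9) (l := 15) (n := (p + 3) / 8) (by push_cast; ring)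
        (⟨27, by omega⟩) (by omega) (by omega) (by omega)
      have g8 := Gp_pair (p := p) h3 (k := 8) (l := 16) (n := (p + 1) / 3) (by push_cast; ring)
        (⟨32, by omega⟩) (by omega) (by omega) (by omega)
      rw [neg_one_odd (show (5 * k + 1 + k) % 2 = 1 by omega)] at hR
      push_cast at g3 g9 g8 hR
      rw [show (1 : ZMod p) + 7 = 8 by norm_num, show (5 : ZMod p) + 11 = 16 by norm_num] at hR
      rw [g3, g9, pm_mul (show ((3 * p + 1) / 8 + (p + 3) / 8) % 2 = 1 by omega)] at h1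
      have hsq := neg_one_sq_pow (p := p) ((p + 1) / 3)
      rw [← g8] at hsq
      linear_combination (-1 : ZMod p) * h1 + (Gp p (8 * red p (ww p)) * Gp p (16 * red p (ww p))) * hR -
        red p c * hsq
    · rw [hLST, Lq_neg (by omega), hL]
      push_cast
      rw [show (1 : ZMod (p ^ (2:ℕ))) + 7 = 8 by norm_num, show (5 : ZMod (p ^ (2:ℕ))) + 11 = 16 by norm_num]
      linear_combination q8
  · obtain ⟨k, hk⟩ : ∃ k, p = 24 * k + 11 := ⟨p / 24, by omega⟩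
    obtain ⟨c, hcu, hL, hR, u, v, huv, hu3, hc2⟩ := ST_two h3 (b := 7) (Or.inl ⟨Or.inr hc, rfl⟩)
      (m0 := 11 * k + 5) (m1 := k) (n0 := 5 * k + 2) (n1 := 7 * k + 3) (ρ := 11) (ρ' := 5)
      (by omega) (by omega) (by omega) (by omega) (by omega) (by omega) (by omega) (by omega)
    refine ⟨u, v, huv, hu3 rfl, ?_⟩
    rw [← hc2]
    apply eq_of_Lq (uS.mul uT)
    · rw [map_mul, map_neg]
      have g3 := Gp_pair (p := p) h3 (k := 3) (l := 21) (n := (5 * p + 1) / 8) (by push_cast; ring)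
        (⟨39, by omega⟩) (by omega) (by omega) (by omega)
      have g9 := Gp_pair (p := p) h3 (k := 9) (l := 15) (n := (7 * p + 3) / 8) (by push_cast; ring)
        (⟨45, by omega⟩) (by omega) (by omega) (by omega)
      have g8 := Gp_pair (p := p) h3 (k := 8) (l := 16) (n := (p + 1) / 3) (by push_cast; ring)
        (⟨32, by omega⟩) (by omega) (by omega) (by omega)
      rw [neg_one_odd (show (11 * k + 5 + k) % 2 = 1 by omega)] at hR
      push_cast at g3 g9 g8 hR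
      rw [show (1 : ZMod p) + 7 = 8 by norm_num, show (11 : ZMod p) + 5 = 16 by norm_num] at hR
      rw [g3, g9, pm_mul (show ((5 * p + 1) / 8 + (7 * p + 3) / 8) % 2 = 1 by omega)] at h1
      have hsq := neg_one_sq_pow (p := p) ((p + 1) / 3)
      rw [← g8] at hsq
      linear_combination (-1 : ZMod p) * h1 + (Gp p (8 * red p (ww p)) * Gp p (16 * red p (ww p))) * hR -
        red p c * hsq
    · rw [hLST, Lq_neg (by omega), hL]
      push_cast
      rw [show (1 : ZMod (p ^ (2:ℕ))) + 7 = 8 by norm_num, show (11 : ZMod (p ^ (2:ℕ))) + 5 = 16 by norm_num]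
      linear_combination q8

/-- class 1 -/
lemma ST_1 (hc : p % 24 = 1) : ∃ u v : ℤ, u ^ 2 + 6 * v ^ 2 = (p : ℤ) ^ 2 ∧
    u % 3 = 1 ∧ Sr p * Tr p = 2 * (u : ZMod (p ^ (2:ℕ))) := by
  have hp2 := hp.out.two_le
  have h3 : 3 < p := by omega
  obtain ⟨m, hm⟩ : ∃ m, 24 * m + 1 = p := ⟨p / 24, by omega⟩
  obtain ⟨uS, uT, hLST⟩ := LST (p := p) (Or.inl (Or.inl hc))
  have h1 := ST_modp h3 (Or.inl (Or.inl hc))
  have q8 := gam_pair (p := p) h3 (k := 8) (l := 16) (by norm_num)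
  set c1 : ZMod (p ^ (2:ℕ)) := - (-1) ^ m * ((m + 7 * m).choose m : ZMod (p ^ (2:ℕ))) *
      (1 + (p : ZMod (p ^ (2:ℕ))) * (((m + 7 * m : ℕ) : ZMod (p ^ (2:ℕ))) * (harm (p ^ 2) (m + 7 * m) - harm (p ^ 2) (7 * m))
         - (m : ZMod (p ^ (2:ℕ))) * (harm (p ^ 2) m - harm (p ^ 2) (7 * m)))) with hc1
  set c5 : ZMod (p ^ (2:ℕ)) := - (-1) ^ (5 * m) * ((5 * m + 11 * m).choose (5 * m) : ZMod (p ^ (2:ℕ))) *
      (1 + (p : ZMod (p ^ (2:ℕ))) * (((5 * m + 11 * m : ℕ) : ZMod (p ^ (2:ℕ))) *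
          (harm (p ^ 2) (5 * m + 11 * m) - harm (p ^ 2) (11 * m))
         - ((5 * m : ℕ) : ZMod (p ^ (2:ℕ))) * (harm (p ^ 2) (5 * m) - harm (p ^ 2) (11 * m)))) with hc5
  obtain ⟨u1, L1⟩ := Lc1 h3 (m := m) (n := 7 * m) (k := 1) (l := 7) (by omega) (by omega) (by omega) hc1
  obtain ⟨u5, L5⟩ := Lc1 h3 (m := 5 * m) (n := 11 * m) (k := 5) (l := 11) (by omega) (by omega) (by omega) hc5
  have R1 := Rc1 h3 (m := m) (n := 7 * m) (k := 1) (l := 7) (by omega) (by omega) (by omega) hc1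
  have R5 := Rc1 h3 (m := 5 * m) (n := 11 * m) (k := 5) (l := 11) (by omega) (by omega) (by omega) hc5
  obtain ⟨u, v, huv, hu3, hcc⟩ := jac_uv1 hc u1 u5 hm hc1 hc5
  refine ⟨u, v, huv, hu3, ?_⟩
  rw [← hcc]
  apply eq_of_Lq (uS.mul uT)
  · rw [map_mul, map_mul]
    have g3 := Gp_pair (p := p) h3 (k := 3) (l := 21) (n := (7 * p + 1) / 8) (by push_cast; ring)
      (⟨45, by omega⟩) (by omega) (by omega) (by omega)
    have g9 := Gp_pair (p := p) h3 (k := 9) (l := 15) (n := (5 * p + 3) / 8) (by push_cast; ring)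
      (⟨39, by omega⟩) (by omega) (by omega) (by omega)
    have g8 := Gp_pair (p := p) h3 (k := 8) (l := 16) (n := (2 * p + 1) / 3) (by push_cast; ring)
      (⟨40, by omega⟩) (by omega) (by omega) (by omega)
    push_cast at g3 g9 g8 R1 R5
    rw [one_mul, show (1 : ZMod p) + 7 = 8 by norm_num] at R1
    rw [show (5 : ZMod p) + 11 = 16 by norm_num] at R5
    rw [g3, g9, pm_mul' (show ((7 * p + 1) / 8 + (5 * p + 3) / 8) % 2 = 0 by omega)] at h1
    have hsq := neg_one_sq_pow (p := p) ((2 * p + 1) / 3)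
    rw [← g8] at hsq
    have hs : ((-1 : ZMod p)) ^ m * (-1) ^ (5 * m) = 1 := pm_mul' (by omega)
    have hprod : (red p c1 * Gp p (8 * red p (ww p))) * (red p c5 * Gp p (16 * red p (ww p))) =
        (-(-1) ^ m * (Gp p (red p (ww p)) * Gp p (7 * red p (ww p)))) *
        (-(-1) ^ (5 * m) * (Gp p (5 * red p (ww p)) * Gp p (11 * red p (ww p)))) := by rw [R1, R5]
    linear_combination h1 - (Gp p (8 * red p (ww p)) * Gp p (16 * red p (ww p))) * hprod -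
      (Gp p (8 * red p (ww p)) * Gp p (16 * red p (ww p)) * Gp p (red p (ww p)) * Gp p (7 * red p (ww p)) *
        Gp p (5 * red p (ww p)) * Gp p (11 * red p (ww p))) * hs + red p c1 * red p c5 * hsq
  · rw [hLST, Lq_mul u1 u5, L1, L5]
    push_cast
    rw [one_mul, show (1 : ZMod (p ^ (2:ℕ))) + 7 = 8 by norm_num,
      show (5 : ZMod (p ^ (2:ℕ))) + 11 = 16 by norm_num]
    linear_combination q8

end

end SC24
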