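import Pool.Agent.SC24.Fin2

/-!
The congruences in `ZMod (p^2)`.
-/

namespace SC24

open Finset

section
variable {p : ℕ} [hp : Fact p.Prime]

lemma isUnit_of_not_dvd_int {x : ℤ} (h : ¬ (p : ℤ) ∣ x) : IsUnit (x : ZMod (p ^ (2:ℕ))) :=
  isUnit_int (p := p) dvd_rfl h

lemma zmod_ne_zero {x : ℤ} (h : ¬ (p : ℤ) ∣ x) : (x : ZMod p) ≠ 0 := by
  intro h'; exact h (int_dvd_of_zmod h')

lemma not_dvd_two (h2 : 2 < p) : ¬ (p : ℤ) ∣ 2 := by
  intro h; have := Int.le_of_dvd (by norm_num) h; omega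

lemma not_dvd_two_mul {x : ℤ} (h2 : 2 < p) (h : ¬ (p : ℤ) ∣ x) : ¬ (p : ℤ) ∣ 2 * x ^ 2 := by
  apply not_dvd_mul (not_dvd_two h2)
  rw [pow_two]; exact not_dvd_mul h h

lemma u_not_dvd {u : ℤ} (h2 : 2 < p) {z : ZMod (p ^ (2:ℕ))} (hz : IsUnit z) (h : z = 2 * (u : ZMod (p ^ (2:ℕ)))) :
    ¬ (p : ℤ) ∣ u := by
  have hu : IsUnit (u : ZMod (p ^ (2:ℕ))) := by
    rw [h] at hz; exact isUnit_of_mul_isUnit_right hz
  exact not_dvd_of_isUnit (p := p) (dvd_pow_self p two_ne_zero) hu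

/-- classes 1 and 7 -/
theorem RA (h3 : 3 < p) {x y : ℤ} (hxy : (p : ℤ) = x ^ 2 + 6 * y ^ 2) :
    Sr p = Tr p ∧ IsUnit (2 * (x : ZMod (p ^ (2:ℕ)))) ∧
      Sr p = (chi3 x : ZMod (p ^ (2:ℕ))) * (2 * x - P2 p * (2 * (x : ZMod (p ^ (2:ℕ))))⁻¹) := by
  obtain ⟨hc, hx3, hpx, hxp⟩ := class_A hp.out h3 hxy
  have h2 : 2 < p := by omega
  have hST := S_eq_T_A hc
  have uS := (S_A hc).1
  have ux : IsUnit (2 * (x : ZMod (p ^ (2:ℕ)))) := (isUnit_two h2).mul (isUnit_of_not_dvd_int hpx)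
  refine ⟨hST, ux, ?_⟩
  have hpp := Nat.prime_iff_prime_int.mp hp.out
  have h3' : (3 : ℤ) < p := by exact_mod_cast h3
  have hX : ¬ (p : ℤ) ∣ 2 * x ^ 2 - p := by
    intro h
    apply not_dvd_two_mul h2 hpx
    have := dvd_add h (dvd_refl (p : ℤ))
    rwa [sub_add_cancel] at this
  have hXY : (2 * x ^ 2 - p) ^ 2 + 6 * (2 * x * y) ^ 2 = (p : ℤ) ^ 2 := by
    rw [hxy]; ring
  have hr2 : red p (P2 p) = 0 := red_P
  have main : (Sr p) ^ 2 = 4 * (x : ZMod (p ^ (2:ℕ))) ^ 2 - 2 * P2 p := by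
    rcases hc with hc | hc
    · obtain ⟨u, v, huv, hu3, hu⟩ := ST_1 hc
      rw [← hST] at hu
      have hnu := u_not_dvd h2 (uS.mul uS) hu
      have : u = 2 * x ^ 2 - p := by
        rcases uniq_rep hpp h3' huv hXY hnu hX with h | h
        · exact h
        · exfalso
          rcases sq_mod3 x with ⟨a, b⟩ | ⟨a, b⟩
          · exact hx3 a
          · omega
      have e : Sr p ^ 2 = Sr p * Sr p := pow_two _
      rw [e, hu, this]; push_cast; ring
    · obtain ⟨u, v, huv, hu⟩ := ST_7 hc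
      rw [← hST] at hu
      have hnu := u_not_dvd h2 (uS.mul uS) hu
      have : u = 2 * x ^ 2 - p := by
        rcases uniq_rep hpp h3' huv hXY hnu hX with h | h
        · exact h
        · exfalso
          have h5 := congrArg (red p) hu
          rw [h, map_mul, map_mul, map_intCast, map_ofNat] at h5
          push_cast at h5
          rw [ZMod.natCast_self] at h5
          have hx0 := zmod_ne_zero hpx
          have h6 : (red p (Sr p) / (2 * (x : ZMod p))) ^ 2 = -1 := by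
            have c2 := two_neF (p := p) h2
            field_simp
            linear_combination h5
          have := ZMod.mod_four_ne_three_of_sq_eq_neg_one h6
          omega
      have e : Sr p ^ 2 = Sr p * Sr p := pow_two _
      rw [e, hu, this]; push_cast; ring
  have hsq : (red p (Sr p)) ^ 2 = 4 * (x : ZMod p) ^ 2 := by
    have := congrArg (red p) main
    rw [map_pow, map_sub, map_mul, map_mul, map_pow, map_intCast, map_ofNat, hr2] at this
    rw [this]; ring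
  have hsign := signA hxy h3 hsq
  have hinv : (2 * (x : ZMod (p ^ (2:ℕ)))) * (2 * (x : ZMod (p ^ (2:ℕ))))⁻¹ = 1 := ZMod.mul_inv_of_unit _ ux
  have hχ : (chi3 x : ZMod (p ^ (2:ℕ))) * chi3 x = 1 := by exact_mod_cast congrArg (Int.cast : ℤ → ZMod (p ^ (2:ℕ))) (chi3_sq hx3)
  apply eq_of_sq h2 uS
  · rw [main]
    generalize (2 * (x : ZMod (p ^ (2:ℕ))))⁻¹ = z at *
    have hP := P2_mul_self p
    linear_combination (-(4 * (x : ZMod (p ^ (2:ℕ))) ^ 2 - 4 * x * P2 p * z)) * hχ + (2 * P2 p) * hinv -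
      ((chi3 x : ZMod (p ^ (2:ℕ))) ^ 2 * z ^ 2) * hP
  · rw [hsign]
    rw [map_mul, map_sub, map_mul, map_mul, map_intCast, map_intCast, map_ofNat, hr2]
    ring

/-- classes 5 and 11 -/
theorem RB (h5 : 5 < p) {x y : ℤ} (hxy : (p : ℤ) = 2 * x ^ 2 + 3 * y ^ 2) :
    -(2 * Sr p) = Tr p ∧ IsUnit (4 * (x : ZMod (p ^ (2:ℕ)))) ∧
      Sr p = (chi3 x : ZMod (p ^ (2:ℕ))) * (2 * x - P2 p * (4 * (x : ZMod (p ^ (2:ℕ))))⁻¹) := by
  have h3 : 3 < p := by omega
  obtain ⟨hc, hx3, hpx, hxp⟩ := class_B hp.out h3 hxy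
  have h2 : 2 < p := by omega
  have hST := S_eq_T_B hc h5
  have uS := (S_B hc h5).1
  have uT := (T_B hc h5).1
  have u4 : IsUnit (4 : ZMod (p ^ (2:ℕ))) := by
    rw [show (4 : ZMod (p ^ (2:ℕ))) = 2 * 2 by norm_num]; exact (isUnit_two h2).mul (isUnit_two h2)
  have ux : IsUnit (4 * (x : ZMod (p ^ (2:ℕ)))) := u4.mul (isUnit_of_not_dvd_int hpx)
  refine ⟨hST, ux, ?_⟩
  have hpp := Nat.prime_iff_prime_int.mp hp.out
  have h3' : (3 : ℤ) < p := by exact_mod_cast h3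
  have hX : ¬ (p : ℤ) ∣ 4 * x ^ 2 - p := by
    intro h
    have h6 := dvd_add h (dvd_refl (p : ℤ))
    rw [sub_add_cancel] at h6
    apply not_dvd_mul (not_dvd_two h2) (not_dvd_two_mul h2 hpx)
    rwa [show 2 * (2 * x ^ 2) = 4 * x ^ 2 by ring]
  have hXY : (4 * x ^ 2 - p) ^ 2 + 6 * (2 * x * y) ^ 2 = (p : ℤ) ^ 2 := by
    rw [hxy]; ring
  have hr2 : red p (P2 p) = 0 := red_P
  have main : (Sr p) ^ 2 = 4 * (x : ZMod (p ^ (2:ℕ))) ^ 2 - P2 p := by
    obtain ⟨u, v, huv, hu3, hu⟩ := ST_B hc h5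
    have hnu : ¬ (p : ℤ) ∣ u := by
      apply u_not_dvd h2 (uS.mul uT).neg
      rw [hu]; ring
    have h7 : u = 4 * x ^ 2 - p := by
      rcases uniq_rep hpp h3' huv hXY hnu hX with h | h
      · exact h
      · exfalso
        rcases sq_mod3 x with ⟨a, b⟩ | ⟨a, b⟩
        · exact hx3 a
        · omega
    rw [← hST, h7] at hu
    apply (isUnit_two h2).mul_right_injective
    show (2 : ZMod (p ^ (2:ℕ))) * (Sr p) ^ 2 = 2 * (4 * (x : ZMod (p ^ (2:ℕ))) ^ 2 - P2 p)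
    push_cast at hu
    linear_combination -hu
  have hsq0 : (red p (Sr p)) ^ 2 = 4 * (x : ZMod p) ^ 2 := by
    have := congrArg (red p) main
    rw [map_pow, map_sub, map_mul, map_pow, map_intCast, map_ofNat, hr2] at this
    rw [this]; ring
  have hTr : red p (Tr p) = -(2 * red p (Sr p)) := by rw [← hST, map_neg, map_mul, map_ofNat]
  have hsq : (red p (Tr p)) ^ 2 = 16 * (x : ZMod p) ^ 2 := by
    rw [hTr]; linear_combination 4 * hsq0
  have hsign := signB hxy h5 hsq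
  have hsign' : red p (Sr p) = 2 * x * chi3 x := by
    rw [hTr] at hsign
    have c2 := two_neF (p := p) h2
    apply mul_left_cancel₀ c2
    linear_combination -hsign
  have hinv : (4 * (x : ZMod (p ^ (2:ℕ)))) * (4 * (x : ZMod (p ^ (2:ℕ))))⁻¹ = 1 := ZMod.mul_inv_of_unit _ ux
  have hχ : (chi3 x : ZMod (p ^ (2:ℕ))) * chi3 x = 1 := by exact_mod_cast congrArg (Int.cast : ℤ → ZMod (p ^ (2:ℕ))) (chi3_sq hx3)
  apply eq_of_sq h2 uS
  · rw [main]
    generalize (4 * (x : ZMod (p ^ (2:ℕ))))⁻¹ = z at *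
    have hP := P2_mul_self p
    linear_combination (-(4 * (x : ZMod (p ^ (2:ℕ))) ^ 2 - 4 * x * P2 p * z)) * hχ + (P2 p) * hinv -
      ((chi3 x : ZMod (p ^ (2:ℕ))) ^ 2 * z ^ 2) * hP
  · rw [hsign']
    rw [map_mul, map_sub, map_mul, map_mul, map_intCast, map_intCast, map_ofNat, hr2]
    ring

/-- existence of representations -/
theorem exists_A (h3 : 3 < p) (hc : p % 24 = 1 ∨ p % 24 = 7) : ∃ x y : ℤ, (p : ℤ) = x ^ 2 + 6 * y ^ 2 := by
  have h2 : 2 < p := by omega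
  have hpp := Nat.prime_iff_prime_int.mp hp.out
  have h3' : (3 : ℤ) < p := by exact_mod_cast h3
  have uS := (S_A hc).1
  have uT := (T_A hc).1
  have : ∃ u v : ℤ, u ^ 2 + 6 * v ^ 2 = (p : ℤ) ^ 2 ∧ ¬ (p : ℤ) ∣ u := by
    rcases hc with hc | hc
    · obtain ⟨u, v, huv, -, hu⟩ := ST_1 hc
      exact ⟨u, v, huv, u_not_dvd h2 (uS.mul uT) hu⟩
    · obtain ⟨u, v, huv, hu⟩ := ST_7 hc
      exact ⟨u, v, huv, u_not_dvd h2 (uS.mul uT) hu⟩
  obtain ⟨u, v, huv, hu⟩ := this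
  rcases exists_form hpp h3' huv hu with h | ⟨x, y, h⟩
  · exact h
  · exfalso
    obtain ⟨h6, -⟩ := class_B hp.out h3 h
    omega

theorem exists_B (h3 : 3 < p) (hc : p % 24 = 5 ∨ p % 24 = 11) : ∃ x y : ℤ, (p : ℤ) = 2 * x ^ 2 + 3 * y ^ 2 := by
  by_cases h5 : p = 5
  · exact ⟨1, 1, by rw [h5]; norm_num⟩
  have h5' : 5 < p := by omega
  have h2 : 2 < p := by omega
  have hpp := Nat.prime_iff_prime_int.mp hp.out
  have h3' : (3 : ℤ) < p := by exact_mod_cast h3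
  have uS := (S_B hc h5').1
  have uT := (T_B hc h5').1
  obtain ⟨u, v, huv, hu3, hu⟩ := ST_B hc h5'
  have hnu : ¬ (p : ℤ) ∣ u := by
    apply u_not_dvd h2 (uS.mul uT).neg
    rw [hu]; ring
  rcases exists_form hpp h3' huv hnu with ⟨x, y, h⟩ | h
  · exfalso
    obtain ⟨h6, -⟩ := class_A hp.out h3 h
    omega
  · exact h

end

end SC24
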