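import Pool.Agent.SC24.Gam

/-!
The Gamma function mod `p`.
-/

namespace SC24

open Finset

section
variable {p : ℕ} [hp : Fact p.Prime]

/-- identity outside zero, `1` at zero -/
def tp (p : ℕ) (x : ZMod p) : ZMod p := if x = 0 then 1 else x

lemma tp_ne_zero (x : ZMod p) : tp p x ≠ 0 := by
  unfold tp
  by_cases h : x = 0
  · simp [h]
  · simp [h]

lemma red_tt (x : ZMod (p ^ (2:ℕ))) : red p (tt p x) = tp p (red p x) := by
  by_cases h : IsUnit x
  · rw [tt_unit h, tp, if_neg ((isUnit_iff_red x).mp h)]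
  · have h' := h
    rw [isUnit_iff_red, not_not] at h'
    rw [tt_nonunit h, tp, if_pos h', map_one]

/-- Morita's Gamma function mod `p` -/
def Gp (p : ℕ) (x : ZMod p) : ZMod p := ∏ j ∈ range x.val, (-(tp p (j : ZMod p)))

lemma Gp_ne_zero (x : ZMod p) : Gp p x ≠ 0 :=
  Finset.prod_ne_zero_iff.mpr (fun j _ => neg_ne_zero.mpr (tp_ne_zero _))

@[simp] lemma Gp_zero : Gp p 0 = 1 := by simp [Gp]

lemma prod_range_tp (h2 : 2 < p) : ∏ j ∈ range p, (-(tp p (j : ZMod p))) = 1 := by
  obtain ⟨q, hq⟩ : ∃ q, p = q + 1 := ⟨p - 1, by omega⟩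
  have hodd : Odd p := hp.out.odd_of_ne_two (by omega)
  rw [Finset.prod_neg, card_range, hodd.neg_one_pow]
  have h1 : ∏ j ∈ range p, tp p (j : ZMod p) = ((p - 1).factorial : ZMod p) := by
    have h3 : ∏ j ∈ range p, tp p (j : ZMod p) = ∏ j ∈ range (q + 1), tp p (j : ZMod p) := by rw [← hq]
    rw [h3, prod_range_succ']
    have h4 : p - 1 = q := by omega
    rw [h4, ← prod_range_add_one_eq_factorial]
    push_cast
    simp only [tp, if_true, mul_one]
    apply Finset.prod_congr rfl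
    intro j hj
    have hj' := mem_range.mp hj
    rw [if_neg]
    have : ((j + 1 : ℕ) : ZMod p) ≠ 0 := by
      rw [Ne, ZMod.natCast_eq_zero_iff]
      intro h; exact absurd (Nat.le_of_dvd (by omega) h) (by omega)
    simpa using this
  rw [h1, ZMod.wilsons_lemma]; ring

lemma Gp_succ (h2 : 2 < p) (x : ZMod p) : Gp p (x + 1) = - tp p x * Gp p x := by
  unfold Gp
  have hp1 := hp.out.pos
  have : NeZero p := ⟨hp1.ne'⟩
  have hx : ((x.val : ℕ) : ZMod p) = x := ZMod.natCast_zmod_val x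
  have : Fact (1 < p) := ⟨hp.out.one_lt⟩
  have hv : (x + 1).val = (x.val + 1) % p := by
    rw [ZMod.val_add, ZMod.val_one]
  rcases Nat.lt_or_ge (x.val + 1) p with h | h
  · rw [hv, Nat.mod_eq_of_lt h, prod_range_succ, hx]; ring
  · have h3 : x.val + 1 = p := le_antisymm (ZMod.val_lt x) h
    rw [hv, h3, Nat.mod_self, range_zero, prod_empty]
    have := prod_range_tp (p := p) h2
    have h4 : range p = range (x.val + 1) := by rw [h3]
    rw [h4, prod_range_succ, hx] at this
    rw [← this]; ring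

lemma Gp_add_nat (h2 : 2 < p) (x : ZMod p) (n : ℕ) :
    Gp p (x + n) = (-1) ^ n * (∏ j ∈ range n, tp p (x + j)) * Gp p x := by
  induction n with
  | zero => simp
  | succ n ih =>
    rw [prod_range_succ, show x + ((n + 1 : ℕ) : ZMod p) = x + n + 1 by push_cast; ring, Gp_succ h2, ih]
    ring

lemma Gp_neg_nat (h2 : 2 < p) {n : ℕ} (hn : n < p) : Gp p (-(n : ZMod p)) * (n.factorial : ZMod p) = 1 := by
  induction n with
  | zero => simp
  | succ n ih =>
    have h1 := ih (by omega)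
    have h3 := Gp_succ h2 (-((n + 1 : ℕ) : ZMod p))
    have h4 : ((n + 1 : ℕ) : ZMod p) ≠ 0 := by
      rw [Ne, ZMod.natCast_eq_zero_iff]
      intro h; exact absurd (Nat.le_of_dvd (by omega) h) (by omega)
    rw [show -((n + 1 : ℕ) : ZMod p) + 1 = -(n : ZMod p) by push_cast; ring, tp,
      if_neg (neg_ne_zero.mpr h4)] at h3
    rw [h3] at h1
    rw [Nat.factorial_succ]
    push_cast at h1 ⊢
    linear_combination h1

lemma Gp_one (h2 : 2 < p) : Gp p 1 = -1 := by
  have := Gp_succ h2 (0 : ZMod p)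
  rw [zero_add, Gp_zero, tp, if_pos rfl] at this
  rw [this]; ring

/-- reflection -/
lemma Gp_refl (h2 : 2 < p) {n : ℕ} (hn1 : 1 ≤ n) (hn : n ≤ p) :
    Gp p (n : ZMod p) * Gp p (1 - n) = (-1) ^ n := by
  induction n, hn1 using Nat.le_induction with
  | base => simp [Gp_one h2]
  | succ n hn1 ih =>
    have h1 := ih (by omega)
    have h3 := Gp_succ h2 (n : ZMod p)
    have h5 := Gp_succ h2 (-(n : ZMod p))
    have h4 : (n : ZMod p) ≠ 0 := by
      rw [Ne, ZMod.natCast_eq_zero_iff]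
      intro h; exact absurd (Nat.le_of_dvd (by omega) h) (by omega)
    rw [tp, if_neg h4] at h3
    rw [tp, if_neg (neg_ne_zero.mpr h4), neg_neg] at h5
    rw [show (1 : ZMod p) - n = -n + 1 by ring, h5] at h1
    push_cast
    rw [h3, pow_succ, ← h1]
    rw [show (1 : ZMod p) - (n + 1) = -n by ring]
    ring

lemma Gp_refl' (h2 : 2 < p) {x : ZMod p} {n : ℕ} (hx : (n : ZMod p) = x) (hn1 : 1 ≤ n) (hn : n ≤ p) :
    Gp p x * Gp p (1 - x) = (-1) ^ n := by
  subst hx; exact Gp_refl h2 hn1 hn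

lemma red_prod_tt (h2 : 2 < p) {d x : ZMod (p ^ (2:ℕ))} (hd : IsUnit d) (N : ℕ) :
    red p (∏ j ∈ range N, tt p (d * x + d * j)) * Gp p (red p x) =
      (red p d) ^ (cntI p x N) * (-1) ^ N * Gp p (red p x + N) := by
  have h1 : red p (∏ j ∈ range N, tt p (d * x + d * j)) =
      (red p d) ^ (cntI p x N) * ∏ j ∈ range N, tp p (red p x + j) := by
    rw [map_prod]
    have h3 : ∀ j ∈ range N, red p (tt p (d * x + d * j)) =
        (if red p x + (j : ZMod p) ≠ 0 then red p d else 1) * tp p (red p x + j) := by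
      intro j _
      rw [← mul_add, red_tt, map_mul, map_add, map_natCast]
      by_cases h : red p x + (j : ZMod p) ≠ 0
      · have hd' := (isUnit_iff_red d).mp hd
        rw [if_pos h, tp, tp, if_neg h, if_neg (mul_ne_zero hd' h)]
      · rw [if_neg h, not_not.mp h, mul_zero, one_mul]
    rw [Finset.prod_congr rfl h3, Finset.prod_mul_distrib]
    congr 1
    rw [← Finset.prod_filter, Finset.prod_const, cntI]
  have h5 : ((-1 : ZMod p) ^ N) * (-1) ^ N = 1 := by rw [← mul_pow]; simp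
  rw [h1, Gp_add_nat h2]
  linear_combination (-(red p d) ^ (cntI p x N) * (∏ j ∈ range N, tp p (red p x + j)) * Gp p (red p x)) * h5

end

end SC24
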