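import Pool.Agent.SC24.ModQ

/-!
Quadratic transformations mod `p`: `Hpol` at `(2 - s)/4`.
-/

namespace SC24

open Finset

lemma cc_rat (m : ℕ) : cc ℚ m = poch (1 / 3) m * poch (2 / 3) m / ((m.factorial : ℚ)) ^ 2 := by
  have h1 : (((3 * m).factorial : ℕ) : ℚ) = 27 ^ m * m.factorial * (poch (1 / 3) m * poch (2 / 3) m) := by
    induction m with
    | zero => simp [poch]
    | succ m ih =>
      rw [show 3 * (m + 1) = 3 * m + 1 + 1 + 1 by ring, Nat.factorial_succ, Nat.factorial_succ,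
        Nat.factorial_succ, poch_succ, poch_succ, Nat.factorial_succ m]
      push_cast
      rw [ih]
      ring
  have h2 : ((2 * m).choose m : ℚ) * ((3 * m).choose m : ℚ) * (m.factorial : ℚ) ^ 3 = ((3 * m).factorial : ℚ) := by
    have e1 := Nat.choose_mul_factorial_mul_factorial (show m ≤ 2 * m by omega)
    have e2 := Nat.choose_mul_factorial_mul_factorial (show m ≤ 3 * m by omega)
    rw [show 2 * m - m = m by omega] at e1
    rw [show 3 * m - m = 2 * m by omega] at e2
    have e3 : ((3 * m).choose m * m.factorial * ((2 * m).choose m * m.factorial * m.factorial) : ℕ) = (3 * m).factorial := by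
      rw [e1, e2]
    have e4 := congrArg (Nat.cast : ℕ → ℚ) e3
    push_cast at e4
    linear_combination e4
  have h3 : (m.factorial : ℚ) ≠ 0 := by positivity
  have h4 : (27 : ℚ) ^ m ≠ 0 := by positivity
  rw [h1] at h2
  have h5 : ((2 * m).choose m : ℚ) * ((3 * m).choose m : ℚ) * (m.factorial : ℚ) ^ 2 =
      27 ^ m * (poch (1 / 3) m * poch (2 / 3) m) := by
    apply mul_left_cancel₀ h3
    linear_combination h2
  unfold cc
  rw [inv_pow, eq_div_iff (pow_ne_zero 2 h3)]
  field_simp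
  linear_combination h5

section
variable {p : ℕ} [hp : Fact p.Prime]

lemma pow1 : p = p ^ 1 := (pow_one p).symm

lemma p_dvd_sq : p ∣ p ^ 2 := dvd_pow_self p two_ne_zero

lemma unit_fact {k : ℕ} (hk : k < p) : IsUnit (k.factorial : ZMod p) :=
  isUnit_nat p_dvd_sq (by rw [hp.out.dvd_factorial]; omega)

lemma red_third (h3 : 3 < p) (n d : ℕ) (hd : ¬ p ∣ d) : Red p p ((n : ℚ) / d) ((n : ZMod p) * (d : ZMod p)⁻¹) :=
  Red.div p_dvd_sq dvd_rfl (Red.nat n) (Red.nat d) (isUnit_nat p_dvd_sq hd)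

/-- `pc` mod `p` -/
def pcF (p : ℕ) (i r : ℕ) : ZMod p := 4 ^ (i + r) * (-1) ^ i * poch (6⁻¹ : ZMod p) (i + r) * poch (3⁻¹ : ZMod p) (i + r) *
  (((i + r).factorial : ZMod p) * (i.factorial : ZMod p) * (r.factorial : ZMod p))⁻¹

lemma pc_red (h3 : 3 < p) {i r : ℕ} (h : i + r < p) : Red p p (pc i r) (pcF p i r) := by
  unfold pc pcF
  have e6 := red_third h3 1 6 (not_dvd_23 h3 1 1 (by norm_num))
  have e3 := red_third h3 1 3 (not_dvd_23 h3 0 1 (by norm_num))
  push_cast at e6 e3
  rw [one_mul] at e6 e3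
  apply Red.div p_dvd_sq dvd_rfl
  · apply Red.mul (Red.mul (Red.mul _ _) (poch_red e6 _)) (poch_red e3 _)
    · have := (Red.nat (p := p) (M := p) 4).pow (i + r)
      exact_mod_cast this
    · exact (Red.one.neg).pow i
  · exact ((Red.nat _).mul (Red.nat _)).mul (Red.nat _)
  · exact ((unit_fact h).mul (unit_fact (by omega))).mul (unit_fact (by omega))

/-- `qc` mod `p` -/
def qcF (p : ℕ) (i r : ℕ) : ZMod p := 4 ^ (i + r - 1) * (-1) ^ i * poch (2 * 3⁻¹ : ZMod p) (i + r - 1) *
  poch (5 * 6⁻¹ : ZMod p) (i + r - 1) * (2 * i + r) *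
  (((i + r - 1).factorial : ZMod p) * (i.factorial : ZMod p) * (r.factorial : ZMod p))⁻¹

lemma qc_red (h3 : 3 < p) {i r : ℕ} (h : i + r < p) : Red p p (qc i r) (qcF p i r) := by
  unfold qc qcF
  have e6 := red_third h3 5 6 (not_dvd_23 h3 1 1 (by norm_num))
  have e3 := red_third h3 2 3 (not_dvd_23 h3 0 1 (by norm_num))
  push_cast at e6 e3
  apply Red.div p_dvd_sq dvd_rfl
  · apply Red.mul (Red.mul (Red.mul (Red.mul _ _) (poch_red e3 _)) (poch_red e6 _))
    · exact ((Red.nat 2).mul (Red.nat i)).add (Red.nat r)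
    · have := (Red.nat (p := p) (M := p) 4).pow (i + r - 1)
      exact_mod_cast this
    · exact (Red.one.neg).pow i
  · exact ((Red.nat _).mul (Red.nat _)).mul (Red.nat _)
  · exact ((unit_fact (by omega)).mul (unit_fact (by omega))).mul (unit_fact (by omega))

lemma cc_red (h3 : 3 < p) (m : ℕ) : Red p p (cc ℚ m) (cc (ZMod p) m) := by
  unfold cc
  apply Red.mul ((Red.nat _).mul (Red.nat _))
  apply Red.pow
  have := Red.inv (p := p) (M := p) p_dvd_sq dvd_rfl (Red.nat 27) (isUnit_nat p_dvd_sq (not_dvd_23 h3 0 3 (by norm_num)))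
  exact_mod_cast this

lemma cc_pc (h3 : 3 < p) {m : ℕ} (hm : m < p) : cc (ZMod p) m = ∑ i ∈ range (m / 2 + 1), pcF p i (m - 2 * i) := by
  have h1 := cc_red h3 m
  rw [cc_rat, ← I5] at h1
  have h2 : Red p p (∑ i ∈ range (m / 2 + 1), pc i (m - 2 * i)) (∑ i ∈ range (m / 2 + 1), pcF p i (m - 2 * i)) := by
    apply Red.sum
    intro i hi
    exact pc_red h3 (by have := mem_range.mp hi; omega)
  exact h1.uniq p_dvd_sq h2

lemma cc_qc (h3 : 3 < p) {m : ℕ} (hm : m + 1 < p) :
    cc (ZMod p) m = ∑ i ∈ range ((m + 1) / 2 + 1), qcF p i (m + 1 - 2 * i) := by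
  have h1 := cc_red h3 m
  rw [cc_rat, ← I6] at h1
  have h2 : Red p p (∑ i ∈ range ((m + 1) / 2 + 1), qc i (m + 1 - 2 * i))
      (∑ i ∈ range ((m + 1) / 2 + 1), qcF p i (m + 1 - 2 * i)) := by
    apply Red.sum
    intro i hi
    exact qc_red h3 (by have := mem_range.mp hi; omega)
  exact h1.uniq p_dvd_sq h2

lemma poch_vanish {K : Type*} [CommRing K] {a : K} {N n : ℕ} (h : a + N = 0) (hn : N < n) : poch a n = 0 := by
  unfold poch
  exact Finset.prod_eq_zero (mem_range.mpr hn) h

/-- reindexing of a double sum: by `m = 2i + r` -/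
lemma reindex2 {A : Type*} [AddCommMonoid A] (f : ℕ → ℕ → A) (M : ℕ) :
    ∑ m ∈ range M, ∑ i ∈ range (m / 2 + 1), f i (m - 2 * i) =
      ∑ x ∈ (range M ×ˢ range M).filter (fun x => 2 * x.1 + x.2 < M), f x.1 x.2 := by
  rw [Finset.sum_sigma']
  refine Finset.sum_bij' (fun x _ => (x.2, x.1 - 2 * x.2)) (fun x _ => ⟨2 * x.1 + x.2, x.1⟩) ?_ ?_ ?_ ?_ ?_
  · rintro ⟨m, i⟩ hx
    simp only [mem_sigma, mem_range, mem_filter, mem_product] at hx ⊢
    omega
  · rintro ⟨i, r⟩ hx
    simp only [mem_sigma, mem_range, mem_filter, mem_product] at hx ⊢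
    omega
  · rintro ⟨m, i⟩ hx
    simp only [mem_sigma, mem_range] at hx
    have : 2 * i + (m - 2 * i) = m := by omega
    simp only [this]
  · rintro ⟨i, r⟩ hx
    simp only [Prod.mk.injEq, true_and]
    omega
  · rintro ⟨m, i⟩ hx
    rfl

/-- reindexing of a double sum: by `n = i + r` -/
lemma reindex1 {A : Type*} [AddCommMonoid A] (f : ℕ → ℕ → A) (M : ℕ) :
    ∑ n ∈ range M, ∑ i ∈ range (n + 1), f i (n - i) =
      ∑ x ∈ (range M ×ˢ range M).filter (fun x => x.1 + x.2 < M), f x.1 x.2 := by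
  rw [Finset.sum_sigma']
  refine Finset.sum_bij' (fun x _ => (x.2, x.1 - x.2)) (fun x _ => ⟨x.1 + x.2, x.1⟩) ?_ ?_ ?_ ?_ ?_
  · rintro ⟨m, i⟩ hx
    simp only [mem_sigma, mem_range, mem_filter, mem_product] at hx ⊢
    omega
  · rintro ⟨i, r⟩ hx
    simp only [mem_sigma, mem_range, mem_filter, mem_product] at hx ⊢
    omega
  · rintro ⟨m, i⟩ hx
    simp only [mem_sigma, mem_range] at hx
    have : i + (m - i) = m := by omega
    simp only [this]
  · rintro ⟨i, r⟩ hx
    simp only [Prod.mk.injEq, true_and]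
    omega
  · rintro ⟨m, i⟩ hx
    rfl

lemma pcF_vanish (h3 : 3 < p) (h6 : p % 6 = 1) {i r : ℕ} (h : (p - 1) / 6 < i + r) : pcF p i r = 0 := by
  unfold pcF
  have h5 : (6⁻¹ : ZMod p) + (((p - 1) / 6 : ℕ) : ZMod p) = 0 := by
    have c6 : (6 : ZMod p) ≠ 0 := by
      have := (isUnit_nat (p := p) (M := p) p_dvd_sq (not_dvd_23 h3 (n := 6) 1 1 (by norm_num))).ne_zero
      exact_mod_cast this
    have e : 6 * ((p - 1) / 6) + 1 = p := by omega
    have e2 : (6 : ZMod p) * (((p - 1) / 6 : ℕ) : ZMod p) + 1 = 0 := by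
      have := congrArg (Nat.cast : ℕ → ZMod p) e
      push_cast at this
      rw [ZMod.natCast_self] at this
      exact_mod_cast this
    apply mul_left_cancel₀ c6
    rw [mul_add, mul_inv_cancel₀ c6]
    linear_combination e2
  rw [poch_vanish h5 h]
  ring

/-- value of `Hpol` in classes 1 mod 6 -/
lemma Hpol_S (h3 : 3 < p) (h6 : p % 6 = 1) {K : Type*} [Field K] [CharP K p] (φ : ZMod p →+* K)
    {α : K} (hα : 8 * α * (1 - α) = 1) : Hpol K p α = φ (red p (Sr p)) := by
  have h2 : 2 < p := by omega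
  have hcc : ∀ m, cc K m = φ (cc (ZMod p) m) := by
    intro m; unfold cc
    rw [map_mul, map_mul, map_natCast, map_natCast, map_pow, map_inv₀, map_ofNat]
  have hfact : ∀ k, k < p → ((k.factorial : ℕ) : K) ≠ 0 := by
    intro k hk h
    rw [CharP.cast_eq_zero_iff K p, hp.out.dvd_factorial] at h
    omega
  have c2 : (2 : K) ≠ 0 := by
    intro h
    have : ((2 : ℕ) : K) = 0 := by exact_mod_cast h
    rw [CharP.cast_eq_zero_iff K p] at this
    have := Nat.le_of_dvd (by norm_num) this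
    omega
  -- left side
  have hL : Hpol K p α = ∑ x ∈ (range p ×ˢ range p).filter (fun x => 2 * x.1 + x.2 < p),
      φ (pcF p x.1 x.2) * α ^ (2 * x.1 + x.2) := by
    rw [← reindex2 (fun i r => φ (pcF p i r) * α ^ (2 * i + r)) p]
    unfold Hpol
    apply Finset.sum_congr rfl
    intro m hm
    rw [hcc, cc_pc h3 (mem_range.mp hm), map_sum, sum_mul]
    apply Finset.sum_congr rfl
    intro i hi
    have : 2 * i + (m - 2 * i) = m := by have := mem_range.mp hi; omega
    rw [this]
  have hM : ∑ x ∈ (range p ×ˢ range p).filter (fun x => 2 * x.1 + x.2 < p),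
      φ (pcF p x.1 x.2) * α ^ (2 * x.1 + x.2) =
      ∑ x ∈ (range p ×ˢ range p).filter (fun x => x.1 + x.2 < p),
      φ (pcF p x.1 x.2) * α ^ (2 * x.1 + x.2) := by
    apply Finset.sum_subset
    · intro x hx
      simp only [mem_filter, mem_product, mem_range] at hx ⊢
      omega
    · intro x hx hx'
      simp only [mem_filter, mem_product, mem_range] at hx hx'
      rw [pcF_vanish h3 h6 (by omega)]
      simp
  rw [hL, hM, ← reindex1 (fun i r => φ (pcF p i r) * α ^ (2 * i + r)) p]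
  unfold Sr hs
  rw [map_sum, map_sum]
  apply Finset.sum_congr rfl
  intro n hn
  have hn' := mem_range.mp hn
  have hf := isUnit_factorial (p := p) hn'
  have hpoch : ∀ x : ZMod (p ^ (2:ℕ)), red p (poch x n) = poch (red p x) n := by
    intro x; unfold poch; rw [map_prod]; apply Finset.prod_congr rfl; intro j _; simp
  have hw := red_ww (p := p) h3
  have c6 : (6 : ZMod p) ≠ 0 := by
    have := (isUnit_nat (p := p) (M := p) p_dvd_sq (not_dvd_23 h3 (n := 6) 1 1 (by norm_num))).ne_zero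
    exact_mod_cast this
  have c3 : (3 : ZMod p) ≠ 0 := by
    have := (isUnit_nat (p := p) (M := p) p_dvd_sq (not_dvd_23 h3 (n := 3) 0 1 (by norm_num))).ne_zero
    exact_mod_cast this
  have e8 : red p (8 * ww p) = 3⁻¹ := by
    rw [map_mul, map_ofNat]
    apply eq_inv_of_mul_eq_one_left
    linear_combination hw
  have e4 : red p (4 * ww p) = 6⁻¹ := by
    rw [map_mul, map_ofNat]
    apply eq_inv_of_mul_eq_one_left
    linear_combination hw
  have e0 : red p (poch (8 * ww p) n * poch (4 * ww p) n *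
      (poch 1 n * (n.factorial : ZMod (p ^ (2:ℕ))))⁻¹ * (2⁻¹) ^ n) =
      poch 3⁻¹ n * poch 6⁻¹ n * ((n.factorial : ZMod p) * n.factorial)⁻¹ * (2⁻¹) ^ n := by
    rw [map_mul, map_mul, map_mul, map_pow, hpoch, hpoch, e8, e4, poch_one', red_inv (hf.mul hf), map_mul,
      map_natCast, red_inv (isUnit_two h2), map_ofNat]
  rw [e0]
  simp only [map_mul, map_pow, map_inv₀, map_natCast, map_ofNat]
  have hfn := hfact n hn'
  have hterm : ∀ i ∈ range (n + 1), φ (pcF p i (n - i)) * α ^ (2 * i + (n - i)) =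
      (φ (poch (6⁻¹ : ZMod p) n) * φ (poch (3⁻¹ : ZMod p) n) * ((n.factorial : K) * (n.factorial : K))⁻¹ *
        (4 * α) ^ n) * ((-α) ^ i * 1 ^ (n - i) * (n.choose i : K)) := by
    intro i hi
    have hi' : i ≤ n := by have := mem_range.mp hi; omega
    have e1 : i + (n - i) = n := by omega
    have e2 : 2 * i + (n - i) = n + i := by omega
    have hch : ((n.choose i : ℕ) : K) * (i.factorial : K) * ((n - i).factorial : K) = (n.factorial : K) := by
      exact_mod_cast congrArg (Nat.cast : ℕ → K) (Nat.choose_mul_factorial_mul_factorial hi')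
    have f1 := hfact i (by omega)
    have f2 := hfact (n - i) (by omega)
    unfold pcF
    rw [e1, e2]
    simp only [map_mul, map_pow, map_inv₀, map_natCast, map_ofNat, map_neg, map_one]
    rw [← hch, neg_pow α i, mul_pow, pow_add, one_pow]
    rw [← hch] at hfn
    have f3 : ((n.choose i : ℕ) : K) ≠ 0 := by
      intro h; apply hfn; rw [h]; ring
    field_simp
  rw [Finset.sum_congr rfl hterm, ← mul_sum, ← add_pow]
  have h9 : (4 * α) ^ n * (-α + 1) ^ n = (2⁻¹) ^ n := by
    rw [← mul_pow]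
    congr 1
    apply eq_inv_of_mul_eq_one_left
    linear_combination hα
  linear_combination (φ (poch (6⁻¹ : ZMod p) n) * φ (poch (3⁻¹ : ZMod p) n) *
    ((n.factorial : K) * (n.factorial : K))⁻¹) * h9

lemma fivesix (h3 : 3 < p) (h6 : p % 6 = 5) : (5 * 6⁻¹ : ZMod p) + (((p - 5) / 6 : ℕ) : ZMod p) = 0 := by
  have c6 : (6 : ZMod p) ≠ 0 := by
    have := (isUnit_nat (p := p) (M := p) p_dvd_sq (not_dvd_23 h3 (n := 6) 1 1 (by norm_num))).ne_zero
    exact_mod_cast this
  have e : 6 * ((p - 5) / 6) + 5 = p := by omega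
  have e2 : (6 : ZMod p) * (((p - 5) / 6 : ℕ) : ZMod p) + 5 = 0 := by
    have := congrArg (Nat.cast : ℕ → ZMod p) e
    push_cast at this
    rw [ZMod.natCast_self] at this
    exact_mod_cast this
  apply mul_left_cancel₀ c6
  rw [mul_add, mul_comm (5 : ZMod p), mul_inv_cancel_left₀ c6]
  linear_combination e2

lemma qcF_vanish (h3 : 3 < p) (h6 : p % 6 = 5) {i r : ℕ} (h : (p - 5) / 6 < i + r - 1) : qcF p i r = 0 := by
  unfold qcF
  rw [poch_vanish (fivesix h3 h6) h]
  ring

lemma sum_shift {A : Type*} [AddCommGroup A] (g : ℕ → A) (h0 : g 0 = 0) (M : ℕ) :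
    ∑ m ∈ range M, g (m + 1) = ∑ m ∈ range (M + 1), g m := by
  rw [sum_range_succ', h0, add_zero]

/-- value of `Hpol` in classes 5 mod 6 -/
lemma Hpol_T (h3 : 3 < p) (h6 : p % 6 = 5) {K : Type*} [Field K] [CharP K p] (φ : ZMod p →+* K)
    {α : K} (hα : 8 * α * (1 - α) = 1) : Hpol K p α = (1 - 2 * α) * φ (red p (Tr p)) := by
  have h2 : 2 < p := by omega
  have hcc : ∀ m, cc K m = φ (cc (ZMod p) m) := by
    intro m; unfold cc
    rw [map_mul, map_mul, map_natCast, map_natCast, map_pow, map_inv₀, map_ofNat]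
  have hfact : ∀ k, k < p → ((k.factorial : ℕ) : K) ≠ 0 := by
    intro k hk h
    rw [CharP.cast_eq_zero_iff K p, hp.out.dvd_factorial] at h
    omega
  have hp1 : p - 1 + 1 = p := by omega
  set f : ℕ → ℕ → K := fun i r => φ (qcF p i r) * α ^ (2 * i + r - 1) with hf
  have hf0 : f 0 0 = 0 := by
    simp only [hf]; unfold qcF; simp
  -- left side
  have hL : Hpol K p α = ∑ x ∈ (range p ×ˢ range p).filter (fun x => 2 * x.1 + x.2 < p), f x.1 x.2 := by
    rw [← reindex2 f p]
    unfold Hpol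
    have e1 : ∑ m ∈ range p, cc K m * α ^ m = ∑ m ∈ range (p - 1), cc K m * α ^ m := by
      conv_lhs => rw [← hp1]
      rw [sum_range_succ, cc_eq_zero hp.out (by omega) (by omega)]
      ring
    have e2 : ∑ m ∈ range p, ∑ i ∈ range (m / 2 + 1), f i (m - 2 * i) =
        ∑ m ∈ range (p - 1), ∑ i ∈ range ((m + 1) / 2 + 1), f i (m + 1 - 2 * i) := by
      rw [sum_shift (fun m => ∑ i ∈ range (m / 2 + 1), f i (m - 2 * i)) (by simp [hf0]), hp1]
    rw [e1, e2]
    apply Finset.sum_congr rfl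
    intro m hm
    rw [hcc, cc_qc h3 (by have := mem_range.mp hm; omega), map_sum, sum_mul]
    apply Finset.sum_congr rfl
    intro i hi
    have : 2 * i + (m + 1 - 2 * i) - 1 = m := by have := mem_range.mp hi; omega
    simp only [hf]
    rw [this]
  have hM : ∑ x ∈ (range p ×ˢ range p).filter (fun x => 2 * x.1 + x.2 < p), f x.1 x.2 =
      ∑ x ∈ (range p ×ˢ range p).filter (fun x => x.1 + x.2 < p), f x.1 x.2 := by
    apply Finset.sum_subset
    · intro x hx
      simp only [mem_filter, mem_product, mem_range] at hx ⊢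
      omega
    · intro x hx hx'
      simp only [mem_filter, mem_product, mem_range] at hx hx'
      simp only [hf]
      rw [qcF_vanish h3 h6 (by omega)]
      simp
  rw [hL, hM, ← reindex1 f p]
  have e3 : ∑ n ∈ range p, ∑ i ∈ range (n + 1), f i (n - i) =
      ∑ n ∈ range (p - 1), ∑ i ∈ range (n + 1 + 1), f i (n + 1 - i) := by
    rw [sum_shift (fun n => ∑ i ∈ range (n + 1), f i (n - i)) (by simp [hf0]), hp1]
  rw [e3]
  unfold Tr hs
  have hw := red_ww (p := p) h3
  have c6 : (6 : ZMod p) ≠ 0 := by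
    have := (isUnit_nat (p := p) (M := p) p_dvd_sq (not_dvd_23 h3 (n := 6) 1 1 (by norm_num))).ne_zero
    exact_mod_cast this
  have c3 : (3 : ZMod p) ≠ 0 := by
    have := (isUnit_nat (p := p) (M := p) p_dvd_sq (not_dvd_23 h3 (n := 3) 0 1 (by norm_num))).ne_zero
    exact_mod_cast this
  have e16 : red p (16 * ww p) = 2 * 3⁻¹ := by
    rw [map_mul, map_ofNat]
    field_simp
    linear_combination 2 * hw
  have e20 : red p (20 * ww p) = 5 * 6⁻¹ := by
    rw [map_mul, map_ofNat]
    field_simp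
    linear_combination 5 * hw
  have hpoch : ∀ (n : ℕ) (x : ZMod (p ^ (2:ℕ))), red p (poch x n) = poch (red p x) n := by
    intro n x; unfold poch; rw [map_prod]; apply Finset.prod_congr rfl; intro j _; simp
  have e0 : ∀ n < p, red p (poch (16 * ww p) n * poch (20 * ww p) n *
      (poch 1 n * (n.factorial : ZMod (p ^ (2:ℕ))))⁻¹ * (2⁻¹) ^ n) =
      poch (2 * 3⁻¹) n * poch (5 * 6⁻¹) n * ((n.factorial : ZMod p) * n.factorial)⁻¹ * (2⁻¹) ^ n := by
    intro n hn'
    have hfn := isUnit_factorial (p := p) hn'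
    rw [map_mul, map_mul, map_mul, map_pow, hpoch, hpoch, e16, e20, poch_one', red_inv (hfn.mul hfn), map_mul,
      map_natCast, red_inv (isUnit_two h2), map_ofNat]
  rw [map_sum, map_sum, mul_sum]
  have e4 : ∑ n ∈ range p, (1 - 2 * α) * φ (red p (poch (16 * ww p) n * poch (20 * ww p) n *
      (poch 1 n * (n.factorial : ZMod (p ^ (2:ℕ))))⁻¹ * (2⁻¹) ^ n)) =
      ∑ n ∈ range (p - 1), (1 - 2 * α) * φ (red p (poch (16 * ww p) n * poch (20 * ww p) n *
      (poch 1 n * (n.factorial : ZMod (p ^ (2:ℕ))))⁻¹ * (2⁻¹) ^ n)) := by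
    have hr : range p = range (p - 1 + 1) := by rw [hp1]
    rw [hr, sum_range_succ, e0 (p - 1) (by omega), poch_vanish (fivesix h3 h6) (show (p - 5) / 6 < p - 1 by omega)]
    simp
  rw [e4]
  apply Finset.sum_congr rfl
  intro n hn
  have hn' := mem_range.mp hn
  rw [e0 n (by omega)]
  simp only [map_mul, map_pow, map_inv₀, map_natCast, map_ofNat]
  have hfn := hfact n (by omega)
  have hfn1 := hfact (n + 1) (by omega)
  have hn1 : ((n : K) + 1) ≠ 0 := by
    rw [Nat.factorial_succ] at hfn1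
    push_cast at hfn1
    intro h; apply hfn1; rw [h, zero_mul]
  have hterm : ∀ i ∈ range (n + 1 + 1), f i (n + 1 - i) =
      (φ (poch (2 * 3⁻¹ : ZMod p) n) * φ (poch (5 * 6⁻¹ : ZMod p) n) * ((n.factorial : K) * (n.factorial : K))⁻¹ *
        (4 * α) ^ n) * ((-α) ^ i * 1 ^ (n + 1 - i) * ((n + 1).choose i : K) * ((n + 1 + i) * ((n : K) + 1)⁻¹)) := by
    intro i hi
    have hi' : i ≤ n + 1 := by have := mem_range.mp hi; omega
    have e1 : i + (n + 1 - i) - 1 = n := by omega
    have e2 : 2 * i + (n + 1 - i) - 1 = n + i := by omega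
    have hch : (((n + 1).choose i : ℕ) : K) * (i.factorial : K) * ((n + 1 - i).factorial : K) =
        ((n : K) + 1) * (n.factorial : K) := by
      have := congrArg (Nat.cast : ℕ → K) (Nat.choose_mul_factorial_mul_factorial hi')
      rw [Nat.factorial_succ n] at this
      push_cast at this
      exact this
    have f1 := hfact i (by omega)
    have f2 := hfact (n + 1 - i) (by omega)
    have e5 : (2 * (i : K) + ((n + 1 - i : ℕ) : K)) = n + 1 + i := by
      rw [Nat.cast_sub hi']; push_cast; ring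
    simp only [hf]
    unfold qcF
    rw [e1, e2]
    simp only [map_mul, map_pow, map_inv₀, map_natCast, map_ofNat, map_neg, map_one, map_add]
    rw [e5, neg_pow α i, mul_pow, pow_add, one_pow]
    have f3 : (((n + 1).choose i : ℕ) : K) ≠ 0 := by
      intro h; rw [h] at hch
      have : ((n : K) + 1) * (n.factorial : K) ≠ 0 := mul_ne_zero hn1 hfn
      apply this; rw [← hch]; ring
    have hinv : ((i.factorial : K))⁻¹ * ((n + 1 - i).factorial : K)⁻¹ =
        ((n + 1).choose i : K) * ((n : K) + 1)⁻¹ * (n.factorial : K)⁻¹ := by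
      field_simp
      linear_combination -hch
    rw [mul_inv, mul_inv, mul_inv]
    linear_combination (4 ^ n * (-1) ^ i * φ (poch (2 * 3⁻¹ : ZMod p) n) * φ (poch (5 * 6⁻¹ : ZMod p) n) *
      (n + 1 + i) * (n.factorial : K)⁻¹ * (α ^ n * α ^ i)) * hinv
  rw [Finset.sum_congr rfl hterm, ← mul_sum]
  have hsum : ∑ i ∈ range (n + 1 + 1), ((-α) ^ i * 1 ^ (n + 1 - i) * ((n + 1).choose i : K) *
      ((n + 1 + i) * ((n : K) + 1)⁻¹)) = (1 - α) ^ n * (1 - 2 * α) := by
    have g1 : ∑ i ∈ range (n + 1 + 1), ((-α) ^ i * 1 ^ (n + 1 - i) * ((n + 1).choose i : K)) = (1 - α) ^ (n + 1) := by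
      rw [← add_pow]; congr 1; ring
    have g2 : ∑ i ∈ range (n + 1 + 1), ((-α) ^ i * 1 ^ (n + 1 - i) * ((n + 1).choose i : K) *
        (i * ((n : K) + 1)⁻¹)) = -α * (1 - α) ^ n := by
      rw [sum_range_succ']
      simp only [Nat.cast_zero, zero_mul, mul_zero, add_zero]
      rw [show (1 - α) ^ n = (-α + 1) ^ n by congr 1; ring, add_pow, mul_sum]
      apply Finset.sum_congr rfl
      intro i hi
      have hch : ((n + 1).choose (i + 1) : K) * ((i : K) + 1) = ((n : K) + 1) * (n.choose i : K) := by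
        have := Nat.add_one_mul_choose_eq n i
        have := congrArg (Nat.cast : ℕ → K) this
        push_cast at this
        exact this.symm
      simp only [one_pow]
      push_cast
      rw [pow_succ]
      field_simp
      linear_combination ((-α) ^ i * (-α)) * hch
    have g3 : ∀ i ∈ range (n + 1 + 1), ((-α) ^ i * 1 ^ (n + 1 - i) * ((n + 1).choose i : K) *
      ((n + 1 + i) * ((n : K) + 1)⁻¹)) = ((-α) ^ i * 1 ^ (n + 1 - i) * ((n + 1).choose i : K)) +
      ((-α) ^ i * 1 ^ (n + 1 - i) * ((n + 1).choose i : K) * (i * ((n : K) + 1)⁻¹)) := by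
      intro i _
      field_simp
    rw [Finset.sum_congr rfl g3, sum_add_distrib, g1, g2, pow_succ]
    ring
  rw [hsum]
  have h9 : (4 * α) ^ n * (1 - α) ^ n = (2⁻¹) ^ n := by
    rw [← mul_pow]
    congr 1
    apply eq_inv_of_mul_eq_one_left
    linear_combination hα
  linear_combination (φ (poch (2 * 3⁻¹ : ZMod p) n) * φ (poch (5 * 6⁻¹ : ZMod p) n) *
    ((n.factorial : K) * (n.factorial : K))⁻¹ * (1 - 2 * α)) * h9

end

end SC24
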