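import Pool.Agent.SC24.Dup

/-!
Fermat quotients and residues of the integers approximating the Jacobi sums.
-/

namespace SC24

open Finset

section
variable {p : ℕ} [hp : Fact p.Prime]

lemma Lq_factorial (h2 : 2 < p) {n : ℕ} (hn : n < p) :
    Lq p (n.factorial : ZMod (p ^ (2:ℕ))) = gam p ((n : ZMod (p ^ (2:ℕ))) + 1) := by
  have h1 : (n.factorial : ZMod (p ^ (2:ℕ))) = ∏ j ∈ range n, ((j + 1 : ℕ) : ZMod (p ^ (2:ℕ))) := by
    rw [← prod_range_add_one_eq_factorial]; push_cast; rfl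
  rw [h1, Lq_prod]
  · have h3 := gam_add_nat h2 (1 : ZMod (p ^ (2:ℕ))) n
    rw [add_comm (n : ZMod (p ^ (2:ℕ))) 1, h3, gam_one h2, zero_add]
    apply Finset.sum_congr rfl
    intro j _
    push_cast; rw [add_comm]
  · intro j hj
    have hj' := mem_range.mp hj
    exact isUnit_num (by intro h; exact absurd (Nat.le_of_dvd (by omega) h) (by omega))

lemma isUnit_choose {m n : ℕ} (h : m + n < p) : IsUnit ((m + n).choose m : ZMod (p ^ (2:ℕ))) := by
  have h1 : ((m + n).choose m * m.factorial * n.factorial : ℕ) = (m + n).factorial := by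
    have := Nat.choose_mul_factorial_mul_factorial (Nat.le_add_right m n)
    rwa [Nat.add_sub_cancel_left] at this
  have h3 := isUnit_factorial (p := p) h
  rw [← h1] at h3
  push_cast at h3
  exact isUnit_of_mul_isUnit_left (isUnit_of_mul_isUnit_left h3)

lemma Lq_choose (h2 : 2 < p) {m n : ℕ} (h : m + n < p) : Lq p ((m + n).choose m : ZMod (p ^ (2:ℕ))) =
    gam p (((m + n : ℕ) : ZMod (p ^ (2:ℕ))) + 1) - gam p ((m : ZMod (p ^ (2:ℕ))) + 1) -
      gam p ((n : ZMod (p ^ (2:ℕ))) + 1) := by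
  have h1 : ((m + n).choose m * m.factorial * n.factorial : ℕ) = (m + n).factorial := by
    have := Nat.choose_mul_factorial_mul_factorial (Nat.le_add_right m n)
    rwa [Nat.add_sub_cancel_left] at this
  have h3 : ((m + n).choose m : ZMod (p ^ (2:ℕ))) * m.factorial * n.factorial = (m + n).factorial := by
    exact_mod_cast congrArg (Nat.cast : ℕ → ZMod (p ^ (2:ℕ))) h1
  have u1 := isUnit_choose h
  have u2 := isUnit_factorial (p := p) (show m < p by omega)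
  have u3 := isUnit_factorial (p := p) (show n < p by omega)
  have h4 := congrArg (Lq p) h3
  rw [Lq_mul (u1.mul u2) u3, Lq_mul u1 u2, Lq_factorial h2 h, Lq_factorial h2 (show m < p by omega),
    Lq_factorial h2 (show n < p by omega)] at h4
  linear_combination h4

lemma choose_Gp (h2 : 2 < p) {m n : ℕ} (h : m + n < p) :
    ((m + n).choose m : ZMod p) * Gp p (-((m + n : ℕ) : ZMod p)) = Gp p (-(m : ZMod p)) * Gp p (-(n : ZMod p)) := by
  have h1 : ((m + n).choose m * m.factorial * n.factorial : ℕ) = (m + n).factorial := by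
    have := Nat.choose_mul_factorial_mul_factorial (Nat.le_add_right m n)
    rwa [Nat.add_sub_cancel_left] at this
  have h3 : ((m + n).choose m : ZMod p) * m.factorial * n.factorial = (m + n).factorial := by
    exact_mod_cast congrArg (Nat.cast : ℕ → ZMod p) h1
  have e1 := Gp_neg_nat h2 h
  have e2 := Gp_neg_nat h2 (show m < p by omega)
  have e3 := Gp_neg_nat h2 (show n < p by omega)
  set A := Gp p (-((m + n : ℕ) : ZMod p))
  set B := Gp p (-(m : ZMod p))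
  set C := Gp p (-(n : ZMod p))
  linear_combination A * B * C * h3 + (-((m + n).choose m : ZMod p) * A) * (C * (n.factorial : ZMod p) * e2 + e3)
    + B * C * e1

lemma Lq_neg_one_pow (h2 : 2 < p) (n : ℕ) : Lq p (-(-1) ^ n : ZMod (p ^ (2:ℕ))) = 0 := by
  rcases neg_one_pow_eq_or (ZMod (p ^ (2:ℕ))) n with h | h <;> rw [h]
  · rw [Lq_neg h2, Lq_one]
  · rw [neg_neg, Lq_one]

lemma isUnit_neg_one_pow (n : ℕ) : IsUnit (-(-1) ^ n : ZMod (p ^ (2:ℕ))) := by
  rcases neg_one_pow_eq_or (ZMod (p ^ (2:ℕ))) n with h | h <;> rw [h]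
  · exact isUnit_one.neg
  · rw [neg_neg]; exact isUnit_one

/-- the two digit case -/
lemma Lc2 (h3 : 3 < p) {m0 m1 n0 n1 ρ ρ' b : ℕ} (hm0 : 24 * m0 + 1 = ρ * p) (hm1 : 24 * m1 + ρ = p)
    (hn0 : 24 * n0 + b = ρ' * p) (hn1 : 24 * n1 + ρ' = b * p) (h0 : m0 + n0 < p) (h1 : m1 + n1 < p)
    {c : ZMod (p ^ (2:ℕ))}
    (hc : c = - (-1) ^ (m0 + m1) * ((m0 + n0).choose m0 : ZMod (p ^ (2:ℕ))) *
      ((m1 + n1).choose m1 : ZMod (p ^ (2:ℕ))) *
      (1 + (p : ZMod (p ^ (2:ℕ))) * (((m0 + n0 : ℕ) : ZMod (p ^ (2:ℕ))) * (harm (p ^ 2) (m1 + n1) - harm (p ^ 2) n1)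
         - (m0 : ZMod (p ^ (2:ℕ))) * (harm (p ^ 2) m1 - harm (p ^ 2) n1)
         + ((m1 + n1 : ℕ) : ZMod (p ^ (2:ℕ))) * (harm (p ^ 2) (m0 + n0) - harm (p ^ 2) n0)
         - (m1 : ZMod (p ^ (2:ℕ))) * (harm (p ^ 2) m0 - harm (p ^ 2) n0)))) :
    IsUnit c ∧ Lq p c = gam p (ww p) + gam p (b * ww p) - gam p ((1 + b) * ww p) +
      gam p (ρ * ww p) + gam p (ρ' * ww p) - gam p ((ρ + ρ') * ww p) := by
  have h2 : 2 < p := by omega
  have hw := hww (p := p) h3
  have u1 := isUnit_neg_one_pow (p := p) (m0 + m1)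
  have u2 := isUnit_choose h0
  have u3 := isUnit_choose h1
  set X := (((m0 + n0 : ℕ) : ZMod (p ^ (2:ℕ))) * (harm (p ^ 2) (m1 + n1) - harm (p ^ 2) n1)
         - (m0 : ZMod (p ^ (2:ℕ))) * (harm (p ^ 2) m1 - harm (p ^ 2) n1)
         + ((m1 + n1 : ℕ) : ZMod (p ^ (2:ℕ))) * (harm (p ^ 2) (m0 + n0) - harm (p ^ 2) n0)
         - (m1 : ZMod (p ^ (2:ℕ))) * (harm (p ^ 2) m0 - harm (p ^ 2) n0)) with hX
  have u4 : IsUnit (1 + P2 p * X) := by rw [isUnit_add_P]; exact isUnit_one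
  have hc' : c = - (-1) ^ (m0 + m1) * ((m0 + n0).choose m0 : ZMod (p ^ (2:ℕ))) *
      ((m1 + n1).choose m1 : ZMod (p ^ (2:ℕ))) * (1 + P2 p * X) := hc
  have u5 := ((u1.mul u2).mul u3).mul u4
  refine ⟨by rw [hc']; exact u5, ?_⟩
  rw [hc', Lq_mul ((u1.mul u2).mul u3) u4, Lq_mul (u1.mul u2) u3, Lq_mul u1 u2, Lq_neg_one_pow h2,
    Lq_choose h2 h0, Lq_choose h2 h1, Lq_one_add]
  have c1 : (24 : ZMod (p ^ (2:ℕ))) * m0 + 1 = ρ * P2 p := by
    exact_mod_cast congrArg (Nat.cast : ℕ → ZMod (p ^ (2:ℕ))) hm0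
  have c2 : (24 : ZMod (p ^ (2:ℕ))) * m1 + ρ = P2 p := by
    exact_mod_cast congrArg (Nat.cast : ℕ → ZMod (p ^ (2:ℕ))) hm1
  have c3 : (24 : ZMod (p ^ (2:ℕ))) * n0 + b = ρ' * P2 p := by
    exact_mod_cast congrArg (Nat.cast : ℕ → ZMod (p ^ (2:ℕ))) hn0
  have c4 : (24 : ZMod (p ^ (2:ℕ))) * n1 + ρ' = b * P2 p := by
    exact_mod_cast congrArg (Nat.cast : ℕ → ZMod (p ^ (2:ℕ))) hn1
  have H1 := dd_harm h2 h1
  have H2 := dd_harm h2 (show n1 < p by omega)
  have H3 := dd_harm h2 (show m1 < p by omega)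
  have H4 := dd_harm h2 h0
  have H5 := dd_harm h2 (show n0 < p by omega)
  have H6 := dd_harm h2 (show m0 < p by omega)
  generalize ww p = w at *
  have e0 : (m0 : ZMod (p ^ (2:ℕ))) = -w + P2 p * (ρ * w) := by
    linear_combination w * c1 - (m0 : ZMod (p ^ (2:ℕ))) * hw
  have e1 : (m1 : ZMod (p ^ (2:ℕ))) = -(ρ * w) + P2 p * w := by
    linear_combination w * c2 - (m1 : ZMod (p ^ (2:ℕ))) * hw
  have e2 : (n0 : ZMod (p ^ (2:ℕ))) = -(b * w) + P2 p * (ρ' * w) := by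
    linear_combination w * c3 - (n0 : ZMod (p ^ (2:ℕ))) * hw
  have e3 : (n1 : ZMod (p ^ (2:ℕ))) = -(ρ' * w) + P2 p * (b * w) := by
    linear_combination w * c4 - (n1 : ZMod (p ^ (2:ℕ))) * hw
  have e4 : ((m0 + n0 : ℕ) : ZMod (p ^ (2:ℕ))) = -((1 + b) * w) + P2 p * ((ρ + ρ') * w) := by
    push_cast; rw [e0, e2]; ring
  have e5 : ((m1 + n1 : ℕ) : ZMod (p ^ (2:ℕ))) = -((ρ + ρ') * w) + P2 p * ((1 + b) * w) := by
    push_cast; rw [e1, e3]; ring
  have G : ∀ x c : ZMod (p ^ (2:ℕ)), gam p (-x + P2 p * c + 1) = -gam p x + c * dd p x := by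
    intro x c
    rw [show -x + P2 p * c + 1 = (1 - x) + P2 p * c by ring, gam_add_P h2, gam_one_sub h2, dd_one_sub h2]
  have D : ∀ x c : ZMod (p ^ (2:ℕ)), dd p (-x + P2 p * c + 1) = dd p x := by
    intro x c
    rw [show -x + P2 p * c + 1 = (1 - x) + P2 p * c by ring, dd_add_P h2, dd_one_sub h2]
  rw [e5, D] at H1
  rw [e3, D] at H2
  rw [e1, D] at H3
  rw [e4, D] at H4
  rw [e2, D] at H5
  rw [e0, D] at H6
  rw [hX, e4, e5, e0, e1, e2, e3, G, G, G, G, G, G]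
  have P0 := P2_mul_self p
  generalize harm (p ^ 2) (m1 + n1) = hb1 at *
  generalize harm (p ^ 2) (m0 + n0) = hb0 at *
  generalize harm (p ^ 2) m1 = hm1' at *
  generalize harm (p ^ 2) m0 = hm0' at *
  generalize harm (p ^ 2) n1 = hn1' at *
  generalize harm (p ^ 2) n0 = hn0' at *
  linear_combination ((1 + b) * w) * H1 - (b * w) * H2 - w * H3 + ((ρ + ρ') * w) * H4 - (ρ' * w) * H5 -
    (ρ * w) * H6 - ((ρ + ρ') * w * (hb1 - hn1') - ρ * w * (hm1' - hn1') + (1 + b) * w * (hb0 - hn0') -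
    w * (hm0' - hn0')) * P0

/-- the one digit case -/
lemma Lc1 (h3 : 3 < p) {m n k l : ℕ} (hm : 24 * m + k = k * p) (hn : 24 * n + l = l * p) (h : m + n < p)
    {c : ZMod (p ^ (2:ℕ))}
    (hc : c = - (-1) ^ m * ((m + n).choose m : ZMod (p ^ (2:ℕ))) *
      (1 + (p : ZMod (p ^ (2:ℕ))) * (((m + n : ℕ) : ZMod (p ^ (2:ℕ))) * (harm (p ^ 2) (m + n) - harm (p ^ 2) n)
         - (m : ZMod (p ^ (2:ℕ))) * (harm (p ^ 2) m - harm (p ^ 2) n)))) :
    IsUnit c ∧ Lq p c = gam p (k * ww p) + gam p (l * ww p) - gam p ((k + l) * ww p) := by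
  have h2 : 2 < p := by omega
  have hw := hww (p := p) h3
  have u1 := isUnit_neg_one_pow (p := p) m
  have u2 := isUnit_choose h
  set X := (((m + n : ℕ) : ZMod (p ^ (2:ℕ))) * (harm (p ^ 2) (m + n) - harm (p ^ 2) n)
         - (m : ZMod (p ^ (2:ℕ))) * (harm (p ^ 2) m - harm (p ^ 2) n)) with hX
  have u4 : IsUnit (1 + P2 p * X) := by rw [isUnit_add_P]; exact isUnit_one
  have hc' : c = - (-1) ^ m * ((m + n).choose m : ZMod (p ^ (2:ℕ))) * (1 + P2 p * X) := hc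
  have u5 := (u1.mul u2).mul u4
  refine ⟨by rw [hc']; exact u5, ?_⟩
  rw [hc', Lq_mul (u1.mul u2) u4, Lq_mul u1 u2, Lq_neg_one_pow h2, Lq_choose h2 h, Lq_one_add]
  have c1 : (24 : ZMod (p ^ (2:ℕ))) * m + k = k * P2 p := by
    exact_mod_cast congrArg (Nat.cast : ℕ → ZMod (p ^ (2:ℕ))) hm
  have c2 : (24 : ZMod (p ^ (2:ℕ))) * n + l = l * P2 p := by
    exact_mod_cast congrArg (Nat.cast : ℕ → ZMod (p ^ (2:ℕ))) hn
  have H1 := dd_harm h2 h
  have H2 := dd_harm h2 (show n < p by omega)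
  have H3 := dd_harm h2 (show m < p by omega)
  generalize ww p = w at *
  have e0 : (m : ZMod (p ^ (2:ℕ))) = -(k * w) + P2 p * (k * w) := by
    linear_combination w * c1 - (m : ZMod (p ^ (2:ℕ))) * hw
  have e1 : (n : ZMod (p ^ (2:ℕ))) = -(l * w) + P2 p * (l * w) := by
    linear_combination w * c2 - (n : ZMod (p ^ (2:ℕ))) * hw
  have e4 : ((m + n : ℕ) : ZMod (p ^ (2:ℕ))) = -((k + l) * w) + P2 p * ((k + l) * w) := by
    push_cast; rw [e0, e1]; ring
  have G : ∀ x c : ZMod (p ^ (2:ℕ)), gam p (-x + P2 p * c + 1) = -gam p x + c * dd p x := by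
    intro x c
    rw [show -x + P2 p * c + 1 = (1 - x) + P2 p * c by ring, gam_add_P h2, gam_one_sub h2, dd_one_sub h2]
  have D : ∀ x c : ZMod (p ^ (2:ℕ)), dd p (-x + P2 p * c + 1) = dd p x := by
    intro x c
    rw [show -x + P2 p * c + 1 = (1 - x) + P2 p * c by ring, dd_add_P h2, dd_one_sub h2]
  rw [e4, D] at H1
  rw [e1, D] at H2
  rw [e0, D] at H3
  rw [hX, e4, e0, e1, G, G, G]
  have P0 := P2_mul_self p
  generalize harm (p ^ 2) (m + n) = hb at *
  generalize harm (p ^ 2) m = hm' at *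
  generalize harm (p ^ 2) n = hn' at *
  linear_combination ((k + l) * w) * H1 - (l * w) * H2 - (k * w) * H3 -
    ((k + l) * w * (hb - hn') - k * w * (hm' - hn')) * P0

/-- `1/24` mod `p` -/
lemma red_ww (h3 : 3 < p) : 24 * red p (ww p) = 1 := by
  have := congrArg (red p) (hww (p := p) h3)
  rw [map_mul, map_one, map_ofNat] at this
  exact this

lemma neg_nat_eq (h3 : 3 < p) {m k : ℕ} (h : (p : ℕ) ∣ 24 * m + k) :
    -(m : ZMod p) = k * red p (ww p) := by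
  have h1 : ((24 * m + k : ℕ) : ZMod p) = 0 := (ZMod.natCast_eq_zero_iff _ _).mpr h
  push_cast at h1
  have hw := red_ww (p := p) h3
  linear_combination (-(red p (ww p))) * h1 + (m : ZMod p) * hw

/-- residue of the two digit constant -/
lemma Rc2 (h3 : 3 < p) {m0 m1 n0 n1 ρ ρ' b : ℕ} (hm0 : 24 * m0 + 1 = ρ * p) (hm1 : 24 * m1 + ρ = p)
    (hn0 : 24 * n0 + b = ρ' * p) (hn1 : 24 * n1 + ρ' = b * p) (h0 : m0 + n0 < p) (h1 : m1 + n1 < p)
    {c X : ZMod (p ^ (2:ℕ))}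
    (hc : c = - (-1) ^ (m0 + m1) * ((m0 + n0).choose m0 : ZMod (p ^ (2:ℕ))) *
      ((m1 + n1).choose m1 : ZMod (p ^ (2:ℕ))) * (1 + (p : ZMod (p ^ (2:ℕ))) * X)) :
    red p c * (Gp p ((1 + b) * red p (ww p)) * Gp p ((ρ + ρ') * red p (ww p))) =
      - (-1) ^ (m0 + m1) * (Gp p (red p (ww p)) * Gp p (b * red p (ww p)) * Gp p (ρ * red p (ww p)) *
        Gp p (ρ' * red p (ww p))) := by
  have h2 : 2 < p := by omega
  have c0 := choose_Gp h2 h0
  have c1 := choose_Gp h2 h1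
  rw [neg_nat_eq h3 (m := m0 + n0) (k := 1 + b) (by
      rw [show 24 * (m0 + n0) + (1 + b) = (ρ + ρ') * p by linarith]; exact Dvd.intro_left _ rfl),
    neg_nat_eq h3 (m := m0) (k := 1) (by rw [hm0]; exact Dvd.intro_left _ rfl),
    neg_nat_eq h3 (m := n0) (k := b) (by rw [hn0]; exact Dvd.intro_left _ rfl)] at c0
  rw [neg_nat_eq h3 (m := m1 + n1) (k := ρ + ρ') (by
      rw [show 24 * (m1 + n1) + (ρ + ρ') = (1 + b) * p by linarith]; exact Dvd.intro_left _ rfl),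
    neg_nat_eq h3 (m := m1) (k := ρ) (by rw [hm1]),
    neg_nat_eq h3 (m := n1) (k := ρ') (by rw [hn1]; exact Dvd.intro_left _ rfl)] at c1
  push_cast at c0 c1
  rw [one_mul] at c0
  have hr : red p c = - (-1) ^ (m0 + m1) * ((m0 + n0).choose m0 : ZMod p) * ((m1 + n1).choose m1 : ZMod p) := by
    rw [hc]
    simp only [map_mul, map_neg, map_pow, map_one, map_add, map_natCast, ZMod.natCast_self, zero_mul,
      add_zero, mul_one]
  rw [hr]
  linear_combination (-(-1) ^ (m0 + m1) * ((m1 + n1).choose m1 : ZMod p) *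
    Gp p ((ρ + ρ') * red p (ww p))) * c0 + (-(-1) ^ (m0 + m1) * Gp p (red p (ww p)) *
    Gp p (b * red p (ww p))) * c1

/-- residue of the one digit constant -/
lemma Rc1 (h3 : 3 < p) {m n k l : ℕ} (hm : 24 * m + k = k * p) (hn : 24 * n + l = l * p) (h : m + n < p)
    {c X : ZMod (p ^ (2:ℕ))}
    (hc : c = - (-1) ^ m * ((m + n).choose m : ZMod (p ^ (2:ℕ))) * (1 + (p : ZMod (p ^ (2:ℕ))) * X)) :
    red p c * Gp p ((k + l) * red p (ww p)) =
      - (-1) ^ m * (Gp p (k * red p (ww p)) * Gp p (l * red p (ww p))) := by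
  have h2 : 2 < p := by omega
  have c0 := choose_Gp h2 h
  rw [neg_nat_eq h3 (m := m + n) (k := k + l) (by
      rw [show 24 * (m + n) + (k + l) = (k + l) * p by linarith]; exact Dvd.intro_left _ rfl),
    neg_nat_eq h3 (m := m) (k := k) (by rw [hm]; exact Dvd.intro_left _ rfl),
    neg_nat_eq h3 (m := n) (k := l) (by rw [hn]; exact Dvd.intro_left _ rfl)] at c0
  push_cast at c0
  have hr : red p c = - (-1) ^ m * ((m + n).choose m : ZMod p) := by
    rw [hc]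
    simp only [map_mul, map_neg, map_pow, map_one, map_add, map_natCast, ZMod.natCast_self, zero_mul,
      add_zero, mul_one]
  rw [hr]
  linear_combination (-(-1) ^ m : ZMod p) * c0

end

end SC24
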