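import Pool.Agent.SC24.EvalL

/-!
Fermat quotients of `S` and `T`.
-/

namespace SC24

open Finset

section
variable {p : ℕ} [hp : Fact p.Prime]

/-- `1/24` in `ZMod (p^2)` -/
def ww (p : ℕ) : ZMod (p ^ (2:ℕ)) := (24 : ZMod (p ^ (2:ℕ)))⁻¹

lemma hww (h3 : 3 < p) : 24 * ww p = 1 := by
  have : IsUnit (24 : ZMod (p ^ (2:ℕ))) := by exact_mod_cast isUnit_23 h3 (n := 24) 3 1 (by norm_num)
  exact ZMod.mul_inv_of_unit _ this

/-- `S` in `ZMod (p^2)` -/
def Sr (p : ℕ) : ZMod (p ^ (2:ℕ)) := hs p (8 * ww p) (4 * ww p) 1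

/-- `T` in `ZMod (p^2)` -/
def Tr (p : ℕ) : ZMod (p ^ (2:ℕ)) := hs p (16 * ww p) (20 * ww p) 1

/-- the line through the parameters of `S` -/
def fS (p : ℕ) (s : ZMod (p ^ (2:ℕ))) : ZMod (p ^ (2:ℕ)) :=
  hs p (8 * ww p + P2 p * s) (4 * ww p - P2 p * s) (1 + 3 * (P2 p * s))

/-- the line through the parameters of `T` -/
def fT (p : ℕ) (s : ZMod (p ^ (2:ℕ))) : ZMod (p ^ (2:ℕ)) :=
  hs p (16 * ww p + P2 p * s) (20 * ww p - P2 p * s) (1 + 3 * (P2 p * s))

lemma fS_zero : fS p 0 = Sr p := by simp [fS, Sr]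

lemma fT_zero : fT p 0 = Tr p := by simp [fT, Tr]

lemma isAff_fS : IsAff p (fS p) := by
  unfold fS
  apply isAff_hs
  · exact ⟨1, fun s => by ring⟩
  · exact ⟨-1, fun s => by ring⟩
  · exact ⟨3, fun s => by ring⟩
  · unfold Adm; simp

lemma isAff_fT : IsAff p (fT p) := by
  unfold fT
  apply isAff_hs
  · exact ⟨1, fun s => by ring⟩
  · exact ⟨-1, fun s => by ring⟩
  · exact ⟨3, fun s => by ring⟩
  · unfold Adm; simp

lemma red_half (h3 : 3 < p) : Red p (p ^ (2:ℕ)) (1 / 2) (12 * ww p) := by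
  refine ⟨1, 2, ?_, by norm_num, ?_⟩
  · intro h; have := Int.le_of_dvd (by norm_num) h; omega
  · push_cast; linear_combination hww h3

lemma red_const (h3 : 3 < p) (k : ℕ) : Red p (p ^ (2:ℕ)) (k / 2) (12 * k * ww p) := by
  have := (Red.nat (p := p) (M := p ^ (2:ℕ)) k).mul (red_half h3)
  rw [show (k : ℚ) / 2 = k * (1 / 2) by ring, show 12 * (k : ZMod (p ^ (2:ℕ))) * ww p = k * (12 * ww p) by ring]
  exact this

/-- a congruence version of reduction lemma -/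
lemma Red.congr {M : ℕ} {x y : ℚ} {r s : ZMod M} (h : Red p M x r) (hx : y = x) (hr : s = r) :
    Red p M y s := by subst hx; subst hr; exact h

lemma v1_red (h3 : 3 < p) {N a : ℕ} (hN : 3 * N + 1 = a * p) (hNp : N < p) :
    Red p (p ^ (2:ℕ)) (∑ k ∈ range (N + 1), tm (-(N : ℚ)) (N + 1 / 2) (-(3 * N)) k)
      (fS p (-(8 * a * ww p))) := by
  have hw := hww (p := p) h3
  have h5 : (3 : ZMod (p ^ (2:ℕ))) * N + 1 = a * P2 p := by
    exact_mod_cast congrArg (Nat.cast : ℕ → ZMod (p ^ (2:ℕ))) hN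
  have hNR : (N : ZMod (p ^ (2:ℕ))) = -8 * ww p + P2 p * (8 * a * ww p) := by
    linear_combination (8 * ww p) * h5 - (N : ZMod (p ^ (2:ℕ))) * hw
  unfold fS
  rw [show 8 * ww p + P2 p * -(8 * a * ww p) = -(N : ZMod (p ^ (2:ℕ))) by rw [hNR]; ring]
  apply red_hs_nat (by omega) hNp
  · refine ((Red.nat N).add (red_half h3)).congr rfl ?_
    rw [hNR]; ring
  · refine (((Red.nat 3).mul (Red.nat N)).neg).congr (by push_cast; ring) ?_
    push_cast
    linear_combination h5 - (a * P2 p) * hw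
  · unfold Adm
    rw [map_add, map_mul, map_mul, red_P]; simp

lemma v2_red (h3 : 3 < p) {N a : ℕ} (hN : 6 * N + 1 = a * p) (hNp : N < p) :
    Red p (p ^ (2:ℕ)) (∑ k ∈ range (N + 1), tm (-(N : ℚ)) (N + 1 / 2) (3 * N + 3 / 2) k)
      (fS p (4 * a * ww p)) := by
  have hw := hww (p := p) h3
  have h5 : (6 : ZMod (p ^ (2:ℕ))) * N + 1 = a * P2 p := by
    exact_mod_cast congrArg (Nat.cast : ℕ → ZMod (p ^ (2:ℕ))) hN
  have hNR : (N : ZMod (p ^ (2:ℕ))) = -4 * ww p + P2 p * (4 * a * ww p) := by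
    linear_combination (4 * ww p) * h5 - (N : ZMod (p ^ (2:ℕ))) * hw
  unfold fS
  rw [hs_comm, show 4 * ww p - P2 p * (4 * a * ww p) = -(N : ZMod (p ^ (2:ℕ))) by rw [hNR]; ring]
  apply red_hs_nat (by omega) hNp
  · refine ((Red.nat N).add (red_half h3)).congr rfl ?_
    rw [hNR]; ring
  · refine (((Red.nat 3).mul (Red.nat N)).add (red_const h3 3)).congr (by push_cast; ring) ?_
    push_cast
    rw [hNR]
    linear_combination -hw
  · unfold Adm
    rw [map_add, map_mul, map_mul, red_P]; simp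

lemma v3_red (h3 : 3 < p) {N a : ℕ} (hN : 3 * N + 2 = a * p) (hNp : N < p) :
    Red p (p ^ (2:ℕ)) (∑ k ∈ range (N + 1), tm (-(N : ℚ)) (N + 3 / 2) (-(3 * N + 1)) k)
      (fT p (-(8 * a * ww p))) := by
  have hw := hww (p := p) h3
  have h5 : (3 : ZMod (p ^ (2:ℕ))) * N + 2 = a * P2 p := by
    exact_mod_cast congrArg (Nat.cast : ℕ → ZMod (p ^ (2:ℕ))) hN
  have hNR : (N : ZMod (p ^ (2:ℕ))) = -16 * ww p + P2 p * (8 * a * ww p) := by
    linear_combination (8 * ww p) * h5 - (N : ZMod (p ^ (2:ℕ))) * hw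
  unfold fT
  rw [show 16 * ww p + P2 p * -(8 * a * ww p) = -(N : ZMod (p ^ (2:ℕ))) by rw [hNR]; ring]
  apply red_hs_nat (by omega) hNp
  · refine ((Red.nat N).add (red_const h3 3)).congr (by push_cast; ring) ?_
    push_cast
    rw [hNR]; ring
  · refine ((((Red.nat 3).mul (Red.nat N)).add Red.one).neg).congr (by push_cast; ring) ?_
    push_cast
    linear_combination h5 - (a * P2 p) * hw
  · unfold Adm
    rw [map_add, map_mul, map_mul, red_P]; simp

lemma v4_red (h3 : 3 < p) {N a : ℕ} (hN : 6 * N + 5 = a * p) (hNp : N < p) :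
    Red p (p ^ (2:ℕ)) (∑ k ∈ range (N + 1), tm (-(N : ℚ)) (N + 3 / 2) (3 * N + 7 / 2) k)
      (fT p (4 * a * ww p)) := by
  have hw := hww (p := p) h3
  have h5 : (6 : ZMod (p ^ (2:ℕ))) * N + 5 = a * P2 p := by
    exact_mod_cast congrArg (Nat.cast : ℕ → ZMod (p ^ (2:ℕ))) hN
  have hNR : (N : ZMod (p ^ (2:ℕ))) = -20 * ww p + P2 p * (4 * a * ww p) := by
    linear_combination (4 * ww p) * h5 - (N : ZMod (p ^ (2:ℕ))) * hw
  unfold fT
  rw [hs_comm, show 20 * ww p - P2 p * (4 * a * ww p) = -(N : ZMod (p ^ (2:ℕ))) by rw [hNR]; ring]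
  apply red_hs_nat (by omega) hNp
  · refine ((Red.nat N).add (red_const h3 3)).congr (by push_cast; ring) ?_
    push_cast
    rw [hNR]; ring
  · refine (((Red.nat 3).mul (Red.nat N)).add (red_const h3 7)).congr (by push_cast; ring) ?_
    push_cast
    rw [hNR]
    linear_combination -hw
  · unfold Adm
    rw [map_add, map_mul, map_mul, red_P]; simp

/-- no multiple of `p` in the progression, by bounding the quotient -/
lemma no_mult_of {a d N : ℕ} (K : ℕ) (hb : ∀ j < N, a + d * j < K * p)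
    (h : ∀ k < K, ∀ j < N, a + d * j ≠ k * p) : ∀ j < N, ¬ p ∣ a + d * j := by
  rintro j hj ⟨k, hk⟩
  have hkK : k < K := by
    by_contra hcon
    have h1 := Nat.mul_le_mul_right p (not_lt.mp hcon)
    have h2 := hb j hj
    rw [hk, mul_comm p k] at h2
    omega
  exact h k hkK j hj (by rw [hk, mul_comm])

lemma not_dvd_one' : ¬ p ∣ 1 := fun h => hp.out.one_lt.ne' (Nat.dvd_one.mp h)

lemma not_dvd_five (h5 : 5 < p) : ¬ p ∣ 5 := fun h => by
  have := Nat.le_of_dvd (by norm_num) h; omega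

/-- data for the first closed form, classes 1 and 7 -/
lemma dat1_A (hc : p % 24 = 1 ∨ p % 24 = 7) :
    ∃ N, 3 * N + 1 = 1 * p ∧ N < p ∧ APd p 3 8 N 0 1 ∧ APd p 5 8 N 0 1 ∧
    APd p 1 3 N 0 1 ∧ APd p 2 3 N 0 1 := by
  have hp2 := hp.out.two_le
  refine ⟨(p - 1) / 3, by omega, by omega, apd0 ?_, apd0 ?_, apd0 ?_, apd0 ?_⟩
  · exact no_mult_of 3 (fun j hj => by omega) (fun k hk j hj => by interval_cases k <;> omega)
  · exact no_mult_of 3 (fun j hj => by omega) (fun k hk j hj => by interval_cases k <;> omega)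
  · exact no_mult_of 3 (fun j hj => by omega) (fun k hk j hj => by interval_cases k <;> omega)
  · exact no_mult_of 3 (fun j hj => by omega) (fun k hk j hj => by interval_cases k <;> omega)

/-- data for the second closed form, classes 1 and 7 -/
lemma dat2_A (hc : p % 24 = 1 ∨ p % 24 = 7) : ∃ N z3 z4, 6 * N + 1 = 1 * p ∧ N < p ∧ z3 + z4 = 1 ∧
    APd p 5 6 N 0 1 ∧ APd p 7 6 N 1 1 ∧ APd p 7 8 N z3 1 ∧ APd p 9 8 N z4 1 := by
  have hp2 := hp.out.two_le
  have h3 : 3 < p := by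
    have := hp.out.one_lt; omega
  have d6 := not_dvd_23 h3 (n := 6) 1 1 (by norm_num)
  have d8 := not_dvd_23 h3 (n := 8) 3 0 (by norm_num)
  rcases hc with hc | hc
  · refine ⟨(p - 1) / 6, 0, 1, by omega, by omega, rfl, apd0 ?_,
      apd1 (j0 := (p - 7) / 6) (by omega) (by omega) d6 (by omega), apd0 ?_,
      apd1 (j0 := (p - 9) / 8) (by omega) (by omega) d8 (by omega)⟩
    · exact no_mult_of 3 (fun j hj => by omega) (fun k hk j hj => by interval_cases k <;> omega)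
    · exact no_mult_of 3 (fun j hj => by omega) (fun k hk j hj => by interval_cases k <;> omega)
  · refine ⟨(p - 1) / 6, 1, 0, by omega, by omega, rfl, apd0 ?_,
      apd1 (j0 := (p - 7) / 6) (by omega) (by omega) d6 (by omega),
      apd1 (j0 := (p - 7) / 8) (by omega) (by omega) d8 (by omega), apd0 ?_⟩
    · exact no_mult_of 3 (fun j hj => by omega) (fun k hk j hj => by interval_cases k <;> omega)
    · exact no_mult_of 3 (fun j hj => by omega) (fun k hk j hj => by interval_cases k <;> omega)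

/-- data for the third closed form, classes 1 and 7 -/
lemma dat3_A (hc : p % 24 = 1 ∨ p % 24 = 7) : ∃ N z1 z2, 3 * N + 2 = 2 * p ∧ N < p ∧ z1 + z2 = 1 ∧
    APd p 7 8 N z1 1 ∧ APd p 9 8 N z2 1 ∧ APd p 2 3 N 0 1 ∧ APd p 4 3 N 1 1 := by
  have hp2 := hp.out.two_le
  have h3 : 3 < p := by
    have := hp.out.one_lt; omega
  have d3 := not_dvd_23 h3 (n := 3) 0 1 (by norm_num)
  have d8 := not_dvd_23 h3 (n := 8) 3 0 (by norm_num)
  rcases hc with hc | hc
  · refine ⟨(2 * p - 2) / 3, 0, 1, by omega, by omega, rfl, apd0 ?_,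
      apd1 (j0 := (p - 9) / 8) (by omega) (by omega) d8 (by omega), apd0 ?_,
      apd1 (j0 := (p - 4) / 3) (by omega) (by omega) d3 (by omega)⟩
    · exact no_mult_of 6 (fun j hj => by omega) (fun k hk j hj => by interval_cases k <;> omega)
    · exact no_mult_of 3 (fun j hj => by omega) (fun k hk j hj => by interval_cases k <;> omega)
  · refine ⟨(2 * p - 2) / 3, 1, 0, by omega, by omega, rfl,
      apd1 (j0 := (p - 7) / 8) (by omega) (by omega) d8 (by omega), apd0 ?_, apd0 ?_,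
      apd1 (j0 := (p - 4) / 3) (by omega) (by omega) d3 (by omega)⟩
    · exact no_mult_of 6 (fun j hj => by omega) (fun k hk j hj => by interval_cases k <;> omega)
    · exact no_mult_of 3 (fun j hj => by omega) (fun k hk j hj => by interval_cases k <;> omega)

/-- data for the fourth closed form, classes 1 and 7 -/
lemma dat4_A (hc : p % 24 = 1 ∨ p % 24 = 7) :
    ∃ N m3 m4, 6 * N + 5 = 5 * p ∧ N < p ∧ (m3 = 3 ∧ m4 = 5 ∨ m3 = 5 ∧ m4 = 3) ∧
    APd p 7 6 N 1 1 ∧ APd p 11 6 N 1 5 ∧ APd p 11 8 N 1 m3 ∧ APd p 13 8 N 1 m4 := by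
  have hp2 := hp.out.two_le
  have h3 : 3 < p := by
    have := hp.out.one_lt; omega
  have d6 := not_dvd_23 h3 (n := 6) 1 1 (by norm_num)
  have d8 := not_dvd_23 h3 (n := 8) 3 0 (by norm_num)
  rcases hc with hc | hc
  · exact ⟨(5 * p - 5) / 6, 3, 5, by omega, by omega, Or.inl ⟨rfl, rfl⟩,
      apd1 (j0 := (p - 7) / 6) (by omega) (by omega) d6 (by omega),
      apd1 (j0 := (5 * p - 11) / 6) (by omega) (by omega) d6 (by omega),
      apd1 (j0 := (3 * p - 11) / 8) (by omega) (by omega) d8 (by omega),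
      apd1 (j0 := (5 * p - 13) / 8) (by omega) (by omega) d8 (by omega)⟩
  · exact ⟨(5 * p - 5) / 6, 5, 3, by omega, by omega, Or.inr ⟨rfl, rfl⟩,
      apd1 (j0 := (p - 7) / 6) (by omega) (by omega) d6 (by omega),
      apd1 (j0 := (5 * p - 11) / 6) (by omega) (by omega) d6 (by omega),
      apd1 (j0 := (5 * p - 11) / 8) (by omega) (by omega) d8 (by omega),
      apd1 (j0 := (3 * p - 13) / 8) (by omega) (by omega) d8 (by omega)⟩

/-- data for the first closed form, classes 5 and 11 -/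
lemma dat1_B (hc : p % 24 = 5 ∨ p % 24 = 11) : ∃ N z1 z2, 3 * N + 1 = 2 * p ∧ N < p ∧ z1 + z2 = 1 ∧
    APd p 3 8 N z1 1 ∧ APd p 5 8 N z2 1 ∧ APd p 1 3 N 0 1 ∧ APd p 2 3 N 1 1 := by
  have hp2 := hp.out.two_le
  have h3 : 3 < p := by
    have := hp.out.one_lt; omega
  have d3 := not_dvd_23 h3 (n := 3) 0 1 (by norm_num)
  have d8 := not_dvd_23 h3 (n := 8) 3 0 (by norm_num)
  rcases hc with hc | hc
  · refine ⟨(2 * p - 1) / 3, 0, 1, by omega, by omega, rfl, apd0 ?_,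
      apd1 (j0 := (p - 5) / 8) (by omega) (by omega) d8 (by omega), apd0 ?_,
      apd1 (j0 := (p - 2) / 3) (by omega) (by omega) d3 (by omega)⟩
    · exact no_mult_of 6 (fun j hj => by omega) (fun k hk j hj => by interval_cases k <;> omega)
    · exact no_mult_of 3 (fun j hj => by omega) (fun k hk j hj => by interval_cases k <;> omega)
  · refine ⟨(2 * p - 1) / 3, 1, 0, by omega, by omega, rfl,
      apd1 (j0 := (p - 3) / 8) (by omega) (by omega) d8 (by omega), apd0 ?_, apd0 ?_,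
      apd1 (j0 := (p - 2) / 3) (by omega) (by omega) d3 (by omega)⟩
    · exact no_mult_of 6 (fun j hj => by omega) (fun k hk j hj => by interval_cases k <;> omega)
    · exact no_mult_of 3 (fun j hj => by omega) (fun k hk j hj => by interval_cases k <;> omega)

/-- data for the second closed form, classes 5 and 11 -/
lemma dat2_B (hc : p % 24 = 5 ∨ p % 24 = 11) (h5 : 5 < p) :
    ∃ N m3 m4, 6 * N + 1 = 5 * p ∧ N < p ∧ (m3 = 3 ∧ m4 = 5 ∨ m3 = 5 ∧ m4 = 3) ∧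
    APd p 5 6 N 1 1 ∧ APd p 7 6 N 1 5 ∧ APd p 7 8 N 1 m3 ∧ APd p 9 8 N 1 m4 := by
  have h3 : 3 < p := by omega
  have d6 := not_dvd_23 h3 (n := 6) 1 1 (by norm_num)
  have d8 := not_dvd_23 h3 (n := 8) 3 0 (by norm_num)
  rcases hc with hc | hc
  · exact ⟨(5 * p - 1) / 6, 3, 5, by omega, by omega, Or.inl ⟨rfl, rfl⟩,
      apd1 (j0 := (p - 5) / 6) (by omega) (by omega) d6 (by omega),
      apd1 (j0 := (5 * p - 7) / 6) (by omega) (by omega) d6 (by omega),
      apd1 (j0 := (3 * p - 7) / 8) (by omega) (by omega) d8 (by omega),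
      apd1 (j0 := (5 * p - 9) / 8) (by omega) (by omega) d8 (by omega)⟩
  · exact ⟨(5 * p - 1) / 6, 5, 3, by omega, by omega, Or.inr ⟨rfl, rfl⟩,
      apd1 (j0 := (p - 5) / 6) (by omega) (by omega) d6 (by omega),
      apd1 (j0 := (5 * p - 7) / 6) (by omega) (by omega) d6 (by omega),
      apd1 (j0 := (5 * p - 7) / 8) (by omega) (by omega) d8 (by omega),
      apd1 (j0 := (3 * p - 9) / 8) (by omega) (by omega) d8 (by omega)⟩

/-- data for the third closed form, classes 5 and 11 -/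
lemma dat3_B (hc : p % 24 = 5 ∨ p % 24 = 11) :
    ∃ N, 3 * N + 2 = 1 * p ∧ N < p ∧ APd p 7 8 N 0 1 ∧ APd p 9 8 N 0 1 ∧
    APd p 2 3 N 0 1 ∧ APd p 4 3 N 0 1 := by
  have hp2 := hp.out.two_le
  refine ⟨(p - 2) / 3, by omega, by omega, apd0 ?_, apd0 ?_, apd0 ?_, apd0 ?_⟩
  · exact no_mult_of 3 (fun j hj => by omega) (fun k hk j hj => by interval_cases k <;> omega)
  · exact no_mult_of 3 (fun j hj => by omega) (fun k hk j hj => by interval_cases k <;> omega)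
  · exact no_mult_of 3 (fun j hj => by omega) (fun k hk j hj => by interval_cases k <;> omega)
  · exact no_mult_of 3 (fun j hj => by omega) (fun k hk j hj => by interval_cases k <;> omega)

/-- data for the fourth closed form, classes 5 and 11 -/
lemma dat4_B (hc : p % 24 = 5 ∨ p % 24 = 11) (h5 : 5 < p) : ∃ N z3 z4, 6 * N + 5 = 1 * p ∧ N < p ∧
    z3 + z4 = 1 ∧
    APd p 7 6 N 0 1 ∧ APd p 11 6 N 1 1 ∧ APd p 11 8 N z3 1 ∧ APd p 13 8 N z4 1 := by
  have h3 : 3 < p := by omega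
  have d6 := not_dvd_23 h3 (n := 6) 1 1 (by norm_num)
  have d8 := not_dvd_23 h3 (n := 8) 3 0 (by norm_num)
  rcases hc with hc | hc
  · refine ⟨(p - 5) / 6, 0, 1, by omega, by omega, rfl, apd0 ?_,
      apd1 (j0 := (p - 11) / 6) (by omega) (by omega) d6 (by omega), apd0 ?_,
      apd1 (j0 := (p - 13) / 8) (by omega) (by omega) d8 (by omega)⟩
    · exact no_mult_of 3 (fun j hj => by omega) (fun k hk j hj => by interval_cases k <;> omega)
    · exact no_mult_of 3 (fun j hj => by omega) (fun k hk j hj => by interval_cases k <;> omega)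
  · refine ⟨(p - 5) / 6, 1, 0, by omega, by omega, rfl, apd0 ?_,
      apd1 (j0 := (p - 11) / 6) (by omega) (by omega) d6 (by omega),
      apd1 (j0 := (p - 11) / 8) (by omega) (by omega) d8 (by omega), apd0 ?_⟩
    · exact no_mult_of 3 (fun j hj => by omega) (fun k hk j hj => by interval_cases k <;> omega)
    · exact no_mult_of 3 (fun j hj => by omega) (fun k hk j hj => by interval_cases k <;> omega)


lemma combA1 {R : Type*} [CommRing R] (w X G l2 l3 D z3 z4 : R) (hw : 24 * w = 1) (hz : z3 + z4 = 1)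
    (hI : 4 * 1 * w * (G + 8 * 1 * w * D - 8 * w * (5 * l2 - 3 * l3) - 3 * (0 + 0) * l2 +
            (0 + 0) * l3 + (0 + 0 - 0 - 0)) +
      8 * 1 * w *
        (G - 4 * 1 * w * D + 4 * w * (5 * l2 - 3 * l3) + (l3 - 2 * l2) -
              (0 + 1) * (l2 + l3) + 3 * (z3 + z4) * l2 + (0 + 0 - 0 - 0)) =
      (8 * 1 * w + 4 * 1 * w) * X) : X = G := by
  grind

lemma combB1 {R : Type*} [CommRing R] (w X G l2 l3 D z3 z4 m3 m4 l5 : R) (hw : 24 * w = 1)
    (hz : z3 + z4 = 1) (hm : m3 + m4 = l3 + l5)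
    (hI : 4 * 5 * w * (G + 8 * 2 * w * D - 8 * w * (5 * l2 - 3 * l3) - 3 * (z3 + z4) * l2 +
            (0 + 1) * l3 + (0 + 0 - 0 - 0)) +
      8 * 2 * w *
        (G - 4 * 5 * w * D + 4 * w * (5 * l2 - 3 * l3) + (l3 - 2 * l2) -
              (1 + 1) * (l2 + l3) + 3 * (1 + 1) * l2 + (0 + l5 - m3 - m4)) =
      (8 * 2 * w + 4 * 5 * w) * X) : X = G - 32 * w * l2 := by
  have key : 3 * G + -4 * l2 + -3 * X = 0 := by grind
  linear_combination (-8 * w) * key - (X - G) * hw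

lemma combA2 {R : Type*} [CommRing R] (w X G l2 l3 D z1 z2 m3 m4 l5 : R) (hw : 24 * w = 1)
    (hz : z1 + z2 = 1) (hm : m3 + m4 = l3 + l5)
    (hI : 4 * 5 * w * (G + 8 * 2 * w * D - 16 * w * (5 * l2 - 3 * l3) + (3 * l2 - l3) -
            3 * (z1 + z2) * l2 + (0 + 1) * l3 + (0 + 0 - 0 - 0)) +
      8 * 2 * w *
        (G - 4 * 5 * w * D + 20 * w * (5 * l2 - 3 * l3) + (3 * l3 - 4 * l2) -
              (1 + 1) * (l2 + l3) + 3 * (1 + 1) * l2 + (0 + l5 - m3 - m4)) =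
      (8 * 2 * w + 4 * 5 * w) * X) : X = G := by
  have key : 3 * G + -3 * X = 0 := by grind
  linear_combination (-8 * w) * key - (X - G) * hw

lemma combB2 {R : Type*} [CommRing R] (w X G l2 l3 D z3 z4 : R) (hw : 24 * w = 1)
    (hz : z3 + z4 = 1)
    (hI : 4 * 1 * w * (G + 8 * 1 * w * D - 16 * w * (5 * l2 - 3 * l3) + (3 * l2 - l3) -
            3 * (0 + 0) * l2 + (0 + 0) * l3 + (0 + 0 - 0 - 0)) +
      8 * 1 * w *
        (G - 4 * 1 * w * D + 20 * w * (5 * l2 - 3 * l3) + (3 * l3 - 4 * l2) -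
              (0 + 1) * (l2 + l3) + 3 * (z3 + z4) * l2 + (0 + 0 - 0 - 0)) =
      (8 * 1 * w + 4 * 1 * w) * X) : X = G + 32 * w * l2 := by
  have key : 3 * G + 4 * l2 + -3 * X = 0 := by grind
  linear_combination (-8 * w) * key - (X - G) * hw

lemma S_A (hc : p % 24 = 1 ∨ p % 24 = 7) : IsUnit (Sr p) ∧
    Lq p (Sr p) = gam p (ww p) + gam p (7 * ww p) - gam p (8 * ww p) := by
  have hp2 := hp.out.two_le
  have h3 : 3 < p := by
    have := hp.out.one_lt; omega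
  have hw := hww (p := p) h3
  obtain ⟨N, hN, hNp, a1, a2, a3, a4⟩ := dat1_A hc
  obtain ⟨N', z3, z4, hN', hNp', hz', b1, b2, b3, b4⟩ := dat2_A hc
  obtain ⟨u1, L1⟩ := I1_L h3 hw hN (v1_red h3 hN hNp) a1 a2 a3 a4 (by rfl) not_dvd_one' not_dvd_one'
    not_dvd_one' not_dvd_one'
  obtain ⟨u2, L2⟩ := I2_L h3 hw hN' (v2_red h3 hN' hNp') b1 b2 b3 b4 (by omega) not_dvd_one' not_dvd_one'
    not_dvd_one' not_dvd_one'
  obtain ⟨h0, _, _, _, hI⟩ := interp (p := p) (f := fS p) isAff_fS _ (4 * ((1 : ℕ) : ZMod (p ^ (2:ℕ))) * ww p) u1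
  rw [L1, L2, fS_zero] at hI
  rw [fS_zero] at h0
  refine ⟨h0, ?_⟩
  have hz : (z3 : ZMod (p ^ (2:ℕ))) + z4 = 1 := by
    exact_mod_cast congrArg (Nat.cast : ℕ → ZMod (p ^ (2:ℕ))) hz'
  push_cast at hI
  rw [Lq_one] at hI
  exact combA1 _ _ _ _ _ _ _ _ hw hz hI

lemma S_B (hc : p % 24 = 5 ∨ p % 24 = 11) (h5 : 5 < p) : IsUnit (Sr p) ∧
    Lq p (Sr p) = gam p (ww p) + gam p (7 * ww p) - gam p (8 * ww p) - 32 * ww p * Lq p 2 := by
  have h3 : 3 < p := by omega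
  have hw := hww (p := p) h3
  obtain ⟨N, z1, z2, hN, hNp, hz', a1, a2, a3, a4⟩ := dat1_B hc
  obtain ⟨N', m3, m4, hN', hNp', hm, b1, b2, b3, b4⟩ := dat2_B hc h5
  have d3 : ¬ p ∣ 3 := not_dvd_23 h3 0 1 (by norm_num)
  have d5 : ¬ p ∣ 5 := not_dvd_five h5
  obtain ⟨u1, L1⟩ := I1_L h3 hw hN (v1_red h3 hN hNp) a1 a2 a3 a4 (by omega) not_dvd_one' not_dvd_one'
    not_dvd_one' not_dvd_one'
  obtain ⟨u2, L2⟩ := I2_L h3 hw hN' (v2_red h3 hN' hNp') b1 b2 b3 b4 (by omega) not_dvd_one' d5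
    (by rcases hm with hm | hm <;> rw [hm.1] <;> assumption)
    (by rcases hm with hm | hm <;> rw [hm.2] <;> assumption)
  obtain ⟨h0, _, _, _, hI⟩ := interp (p := p) (f := fS p) isAff_fS _ (4 * ((5 : ℕ) : ZMod (p ^ (2:ℕ))) * ww p) u1
  rw [L1, L2, fS_zero] at hI
  rw [fS_zero] at h0
  refine ⟨h0, ?_⟩
  have hz : (z1 : ZMod (p ^ (2:ℕ))) + z2 = 1 := by
    exact_mod_cast congrArg (Nat.cast : ℕ → ZMod (p ^ (2:ℕ))) hz'
  have hm' : Lq p (m3 : ZMod (p ^ (2:ℕ))) + Lq p (m4 : ZMod (p ^ (2:ℕ))) = Lq p 3 + Lq p 5 := by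
    rcases hm with hm | hm <;> rw [hm.1, hm.2] <;> push_cast <;> ring
  push_cast at hI
  rw [Lq_one] at hI
  exact combB1 _ _ _ _ _ _ _ _ _ _ _ hw hz hm' hI

lemma T_A (hc : p % 24 = 1 ∨ p % 24 = 7) : IsUnit (Tr p) ∧
    Lq p (Tr p) = gam p (5 * ww p) + gam p (11 * ww p) + gam p (8 * ww p) := by
  have hp2 := hp.out.two_le
  have h5 : 5 < p := by
    have := hp.out.one_lt; omega
  have h3 : 3 < p := by omega
  have hw := hww (p := p) h3
  obtain ⟨N, z1, z2, hN, hNp, hz', a1, a2, a3, a4⟩ := dat3_A hc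
  obtain ⟨N', m3, m4, hN', hNp', hm, b1, b2, b3, b4⟩ := dat4_A hc
  have d3 : ¬ p ∣ 3 := not_dvd_23 h3 0 1 (by norm_num)
  have d5 : ¬ p ∣ 5 := not_dvd_five h5
  obtain ⟨u1, L1⟩ := I3_L h3 hw hN (v3_red h3 hN hNp) a1 a2 a3 a4 (by omega) not_dvd_one' not_dvd_one'
    not_dvd_one' not_dvd_one'
  obtain ⟨u2, L2⟩ := I4_L h5 hw hN' (v4_red h3 hN' hNp') b1 b2 b3 b4 (by omega) not_dvd_one' d5
    (by rcases hm with hm | hm <;> rw [hm.1] <;> assumption)
    (by rcases hm with hm | hm <;> rw [hm.2] <;> assumption)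
  obtain ⟨h0, _, _, _, hI⟩ := interp (p := p) (f := fT p) isAff_fT _ (4 * ((5 : ℕ) : ZMod (p ^ (2:ℕ))) * ww p) u1
  rw [L1, L2, fT_zero] at hI
  rw [fT_zero] at h0
  refine ⟨h0, ?_⟩
  have hz : (z1 : ZMod (p ^ (2:ℕ))) + z2 = 1 := by
    exact_mod_cast congrArg (Nat.cast : ℕ → ZMod (p ^ (2:ℕ))) hz'
  have hm' : Lq p (m3 : ZMod (p ^ (2:ℕ))) + Lq p (m4 : ZMod (p ^ (2:ℕ))) = Lq p 3 + Lq p 5 := by
    rcases hm with hm | hm <;> rw [hm.1, hm.2] <;> push_cast <;> ring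
  push_cast at hI
  rw [Lq_one] at hI
  exact combA2 _ _ _ _ _ _ _ _ _ _ _ hw hz hm' hI

lemma T_B (hc : p % 24 = 5 ∨ p % 24 = 11) (h5 : 5 < p) : IsUnit (Tr p) ∧
    Lq p (Tr p) = gam p (5 * ww p) + gam p (11 * ww p) + gam p (8 * ww p) + 32 * ww p * Lq p 2 := by
  have h3 : 3 < p := by omega
  have hw := hww (p := p) h3
  obtain ⟨N, hN, hNp, a1, a2, a3, a4⟩ := dat3_B hc
  obtain ⟨N', z3, z4, hN', hNp', hz', b1, b2, b3, b4⟩ := dat4_B hc h5
  obtain ⟨u1, L1⟩ := I3_L h3 hw hN (v3_red h3 hN hNp) a1 a2 a3 a4 (by omega) not_dvd_one' not_dvd_one'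
    not_dvd_one' not_dvd_one'
  obtain ⟨u2, L2⟩ := I4_L h5 hw hN' (v4_red h3 hN' hNp') b1 b2 b3 b4 (by omega) not_dvd_one' not_dvd_one'
    not_dvd_one' not_dvd_one'
  obtain ⟨h0, _, _, _, hI⟩ := interp (p := p) (f := fT p) isAff_fT _ (4 * ((1 : ℕ) : ZMod (p ^ (2:ℕ))) * ww p) u1
  rw [L1, L2, fT_zero] at hI
  rw [fT_zero] at h0
  refine ⟨h0, ?_⟩
  have hz : (z3 : ZMod (p ^ (2:ℕ))) + z4 = 1 := by
    exact_mod_cast congrArg (Nat.cast : ℕ → ZMod (p ^ (2:ℕ))) hz'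
  push_cast at hI
  rw [Lq_one] at hI
  exact combB2 _ _ _ _ _ _ _ _ hw hz hI

end

end SC24
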