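import Pool.Agent.SC24.JW
import Pool.Agent.SC24.EllA

/-!
Relations modulo `p`.
-/

namespace SC24

open Finset Polynomial

section
variable {p : ℕ} [hp : Fact p.Prime]

/-- truncated (in fact terminating) binomial sum -/
def binSum (p A B : ℕ) (z : ZMod p) : ZMod p := ∑ k ∈ range p, (A.choose k : ZMod p) * (B.choose k : ZMod p) * z ^ k

/-- finite field integral -/
def Phi (p : ℕ) [Fact p.Prime] (A B B' : ℕ) (z : ZMod p) : ZMod p :=
  ∑ x : ZMod p, (1 + x) ^ A * (x + z) ^ B * x ^ B'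

lemma Phi_eq (h2 : 2 < p) {A B B' : ℕ} (hA1 : A < p - 1) (hB : B + B' = p - 1)
    (z : ZMod p) : Phi p A B B' z = - binSum p A B z := by
  unfold Phi
  have h1 : ∀ x : ZMod p, (1 + x) ^ A * (x + z) ^ B * x ^ B' =
      (((1 + X) ^ A * (X + C z) ^ B * X ^ B' : (ZMod p)[X])).eval x := by
    intro x; simp
  rw [Finset.sum_congr rfl (fun x _ => h1 x), eval_sum h2]
  · congr 1
    have h3 : p - 1 = B + B' := hB.symm
    rw [h3, coeff_mul_X_pow, coeff_mul]
    rw [Finset.Nat.sum_antidiagonal_eq_sum_range_succ_mk]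
    unfold binSum
    rw [← Finset.sum_subset (s₁ := range (B + 1)) (s₂ := range p)]
    · apply Finset.sum_congr rfl
      intro i hi
      have hi' : i ≤ B := by have := mem_range.mp hi; omega
      rw [coeff_one_add_X_pow, coeff_X_add_C_pow, Nat.sub_sub_self hi', Nat.choose_symm hi']
      ring
    · intro k hk; rw [mem_range] at hk ⊢; omega
    · intro k _ hk'
      rw [mem_range, not_lt] at hk'
      rw [Nat.choose_eq_zero_of_lt (show B < k by omega)]
      simp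
  · have h5 : ((1 + X) ^ A * (X + C z) ^ B * X ^ B' : (ZMod p)[X]).natDegree ≤ A + B + B' := by
      refine (natDegree_mul_le).trans ?_
      refine add_le_add ((natDegree_mul_le).trans (add_le_add ?_ ?_)) ?_
      · refine (natDegree_pow_le).trans ?_
        have : (1 + X : (ZMod p)[X]).natDegree ≤ 1 := by
          rw [add_comm]; exact natDegree_X_add_C (1 : ZMod p) |>.le
        nlinarith
      · refine (natDegree_pow_le).trans ?_
        rw [natDegree_X_add_C]; omega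
      · rw [natDegree_X_pow]
    omega

lemma Phi_sub {A A' B B' : ℕ} (hA : A + A' = p - 1) (hB : B + B' = p - 1)
    (hA0 : 0 < A) (hA0' : 0 < A') {z : ZMod p} (hz : z ≠ 1) (h2 : 2 < p) :
    Phi p A B B' z = (1 - z) ^ (A + B) * Phi p A' B' B z := by
  unfold Phi
  have e1 : ∀ n m k : ℕ, 0 < n → ∑ x : ZMod p, (1 + x) ^ n * (x + z) ^ m * x ^ k =
      ∑ x ∈ univ.erase (-1 : ZMod p), (1 + x) ^ n * (x + z) ^ m * x ^ k := by
    intro n m k hn
    rw [← Finset.add_sum_erase univ _ (mem_univ (-1 : ZMod p))]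
    rw [show (1 : ZMod p) + -1 = 0 by ring, zero_pow hn.ne']
    ring
  rw [e1 A B B' hA0, e1 A' B' B hA0', mul_sum]
  have hz1 : (1 - z : ZMod p) ≠ 0 := sub_ne_zero.mpr hz.symm
  have heven : Even (p - 1) := hp.out.even_sub_one (by omega)
  have hne : ∀ x ∈ univ.erase (-1 : ZMod p), 1 + x ≠ 0 := by
    intro x hx h
    rw [mem_erase] at hx
    exact hx.1 (by linear_combination h)
  have hs1 : ∀ x : ZMod p, 1 + x ≠ 0 → 1 + -(x + z) / (1 + x) = (1 - z) / (1 + x) := by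
    intro x hx; field_simp; ring
  symm
  refine Finset.sum_bij' (fun x _ => -(x + z) / (1 + x)) (fun x _ => -(x + z) / (1 + x)) ?_ ?_ ?_ ?_ ?_
  · intro x hx
    rw [mem_erase]
    refine ⟨?_, mem_univ _⟩
    intro h
    have h5 := hs1 x (hne x hx)
    rw [h] at h5
    have : (1 - z) / (1 + x) ≠ 0 := div_ne_zero hz1 (hne x hx)
    apply this; rw [← h5]; ring
  · intro x hx
    rw [mem_erase]
    refine ⟨?_, mem_univ _⟩
    intro h
    have h5 := hs1 x (hne x hx)
    rw [h] at h5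
    have : (1 - z) / (1 + x) ≠ 0 := div_ne_zero hz1 (hne x hx)
    apply this; rw [← h5]; ring
  · intro x hx
    have h5 := hne x hx
    rw [hs1 x h5]
    field_simp
    ring
  · intro x hx
    have h5 := hne x hx
    rw [hs1 x h5]
    field_simp
    ring
  · intro x hx
    have h5 := hne x hx
    rw [hs1 x h5]
    have h6 : -(x + z) / (1 + x) + z = -(x * (1 - z)) / (1 + x) := by field_simp; ring
    rw [h6, div_pow, div_pow, div_pow]
    have h7 : (1 + x) ^ (p - 1) = 1 := ZMod.pow_card_sub_one_eq_one h5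
    have h8 : (1 + x) ^ A ≠ 0 := pow_ne_zero _ h5
    have h9 : (1 + x) ^ B * (1 + x) ^ B' = 1 := by rw [← pow_add, hB, h7]
    have h10 : (1 + x) ^ A * (1 + x) ^ A' = 1 := by rw [← pow_add, hA, h7]
    have h11 : (-(x * (1 - z))) ^ B * (-(x + z)) ^ B' = (x * (1 - z)) ^ B * (x + z) ^ B' := by
      rw [neg_pow, neg_pow (x + z)]
      have : ((-1 : ZMod p)) ^ B * (-1) ^ B' = 1 := by rw [← pow_add, hB, heven.neg_one_pow]
      linear_combination ((x * (1 - z)) ^ B * (x + z) ^ B') * this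
    rw [div_mul_div_comm, div_mul_div_comm, mul_assoc ((1 + x) ^ A), h9, mul_one, eq_div_iff h8,
      mul_assoc ((1 - z) ^ A), h11, mul_pow, pow_add]
    linear_combination ((1 - z) ^ A * (1 - z) ^ B * (x + z) ^ B' * x ^ B) * h10

lemma binSum_sub (h2 : 2 < p) {A A' B B' : ℕ} (hA : A + A' = p - 1) (hB : B + B' = p - 1)
    (hA0 : 0 < A) (hA0' : 0 < A') {z : ZMod p} (hz : z ≠ 1) :
    binSum p A B z = (1 - z) ^ (A + B) * binSum p A' B' z := by
  have h1 := Phi_sub hA hB hA0 hA0' hz h2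
  rw [Phi_eq h2 (by omega) hB, Phi_eq h2 (by omega) (by omega)] at h1
  linear_combination -h1

lemma poch_neg_nat' (A k : ℕ) : poch (-(A : ZMod p)) k = (-1) ^ k * (k.factorial : ZMod p) * (A.choose k : ZMod p) := by
  have h1 : poch (-(A : ZMod p)) k = (-1) ^ k * (A.descFactorial k : ZMod p) := by
    induction k with
    | zero => simp [poch]
    | succ k ih =>
      rw [poch_succ, ih, Nat.descFactorial_succ]
      rcases Nat.lt_or_ge A k with h | h
      · rw [Nat.descFactorial_eq_zero_iff_lt.mpr h]; simp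
      · push_cast [Nat.cast_sub h]; ring
  rw [h1, Nat.descFactorial_eq_factorial_mul_choose]; push_cast; ring

lemma poch_one' {R : Type*} [CommRing R] (k : ℕ) : poch (1 : R) k = (k.factorial : R) := by
  induction k with
  | zero => simp [poch]
  | succ k ih => rw [poch_succ, ih, Nat.factorial_succ]; push_cast; ring

lemma red_hs (h2 : 2 < p) {a b : ZMod (p ^ (2:ℕ))} {A B : ℕ} (ha : red p a = -(A : ZMod p))
    (hb : red p b = -(B : ZMod p)) : red p (hs p a b 1) = binSum p A B (2⁻¹) := by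
  unfold hs binSum
  rw [map_sum]
  apply Finset.sum_congr rfl
  intro k hk
  have hk' := mem_range.mp hk
  have hf := isUnit_factorial (p := p) hk'
  have hpoch : ∀ x : ZMod (p ^ (2:ℕ)), red p (poch x k) = poch (red p x) k := by
    intro x; unfold poch; rw [map_prod]; apply Finset.prod_congr rfl; intro j _; simp
  have hkf : (k.factorial : ZMod p) ≠ 0 := by
    have := (isUnit_iff_red _).mp hf
    rwa [map_natCast] at this
  rw [map_mul, map_mul, map_mul, map_pow, hpoch, hpoch, ha, hb, poch_neg_nat', poch_neg_nat',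
    poch_one', red_inv (hf.mul hf), map_mul, map_natCast, red_inv (isUnit_two h2), map_ofNat]
  have h3 : ((-1 : ZMod p) ^ k) * (-1) ^ k = 1 := by rw [← mul_pow]; simp
  field_simp
  linear_combination ((A.choose k : ZMod p) * (B.choose k : ZMod p) * (2⁻¹) ^ k) * h3

lemma half_ne_one (h2 : 2 < p) : (2⁻¹ : ZMod p) ≠ 1 := by
  intro h
  have h3 : (2 : ZMod p) ≠ 0 := by
    have := (isUnit_iff_red _).mp (isUnit_two h2)
    rwa [map_ofNat] at this
  have h4 : (2 : ZMod p) * 2⁻¹ = 1 := mul_inv_cancel₀ h3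
  rw [h] at h4
  have : (1 : ZMod p) = 0 := by linear_combination h4
  exact one_ne_zero this

lemma red_S_T (h3 : 3 < p) {A B : ℕ} (hA : (p : ℕ) ∣ 3 * A + 1) (hB : (p : ℕ) ∣ 6 * B + 1)
    (hA0 : 0 < A) (hA1 : A < p - 1) (hB1 : B ≤ p - 1) :
    red p (Sr p) = (2⁻¹) ^ (A + B) * red p (Tr p) := by
  have h2 : 2 < p := by omega
  have hw := red_ww (p := p) h3
  have cA : (3 : ZMod p) * A + 1 = 0 := by
    have h1 : ((3 * A + 1 : ℕ) : ZMod p) = 0 := (ZMod.natCast_eq_zero_iff _ _).mpr hA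
    push_cast at h1; exact h1
  have cB : (6 : ZMod p) * B + 1 = 0 := by
    have h1 : ((6 * B + 1 : ℕ) : ZMod p) = 0 := (ZMod.natCast_eq_zero_iff _ _).mpr hB
    push_cast at h1; exact h1
  have hp0 : ((p : ℕ) : ZMod p) = 0 := ZMod.natCast_self p
  have cp : ((p - 1 : ℕ) : ZMod p) = -1 := by
    rw [Nat.cast_sub (by omega), hp0]; simp
  have eS : red p (Sr p) = binSum p A B (2⁻¹) := by
    unfold Sr
    apply red_hs h2
    · rw [map_mul, map_ofNat]
      linear_combination (8 * red p (ww p)) * cA - (A : ZMod p) * hw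
    · rw [map_mul, map_ofNat]
      linear_combination (4 * red p (ww p)) * cB - (B : ZMod p) * hw
  have eT : red p (Tr p) = binSum p (p - 1 - A) (p - 1 - B) (2⁻¹) := by
    unfold Tr
    apply red_hs h2
    · rw [map_mul, map_ofNat, Nat.cast_sub (by omega), cp]
      linear_combination (-8 * red p (ww p)) * cA + (A + 1 : ZMod p) * hw
    · rw [map_mul, map_ofNat, Nat.cast_sub (by omega), cp]
      linear_combination (-4 * red p (ww p)) * cB + (B + 1 : ZMod p) * hw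
  have h5 : (2 : ZMod p) ≠ 0 := by
    have := (isUnit_iff_red _).mp (isUnit_two h2)
    rwa [map_ofNat] at this
  have h6 : (1 - 2⁻¹ : ZMod p) = 2⁻¹ := by field_simp; ring
  rw [eS, eT, binSum_sub h2 (A := A) (A' := p - 1 - A) (B := B) (B' := p - 1 - B) (by omega) (by omega)
    hA0 (by omega) (half_ne_one h2), h6]

/-- (b), classes 1 mod 6 -/
lemma red_S_T_1 (h3 : 3 < p) (h6 : p % 6 = 1) : red p (Sr p) = (2⁻¹) ^ ((p - 1) / 2) * red p (Tr p) := by
  have := red_S_T h3 (A := (p - 1) / 3) (B := (p - 1) / 6) ⟨1, by omega⟩ ⟨1, by omega⟩ (by omega) (by omega)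
    (by omega)
  rw [this]
  congr 2
  omega

/-- (b), classes 5 mod 6 -/
lemma red_S_T_5 (h3 : 3 < p) (h6 : p % 6 = 5) :
    red p (Sr p) = (2⁻¹) ^ (3 * ((p - 1) / 2) + 1) * red p (Tr p) := by
  have := red_S_T h3 (A := (2 * p - 1) / 3) (B := (5 * p - 1) / 6) ⟨2, by omega⟩ ⟨5, by omega⟩ (by omega) (by omega)
    (by omega)
  rw [this]
  congr 2
  omega

/-- reduction of a quotient of four progressions, mod `p` -/
lemma quad_G (h2 : 2 < p) {V : ℚ} {v : ZMod (p ^ (2:ℕ))} (hv : Red p (p ^ (2:ℕ)) V v) {K1 K2 N : ℕ}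
    {a1 b1 a2 b2 a3 b3 a4 b4 z1 z2 z3 z4 m1 m2 m3 m4 : ℕ}
    (h1 : APd p a1 b1 N z1 m1) (h2' : APd p a2 b2 N z2 m2) (h3 : APd p a3 b3 N z3 m3)
    (h4 : APd p a4 b4 N z4 m4) (hz : z1 + z2 = z3 + z4)
    (hV : V * K1 * (((∏ j ∈ range N, (a3 + b3 * j) : ℕ) : ℚ) * ((∏ j ∈ range N, (a4 + b4 * j) : ℕ) : ℚ)) =
      K2 * (((∏ j ∈ range N, (a1 + b1 * j) : ℕ) : ℚ) * ((∏ j ∈ range N, (a2 + b2 * j) : ℕ) : ℚ)))
    (hb1 : ¬ p ∣ b1) (hb2 : ¬ p ∣ b2) (hb3 : ¬ p ∣ b3) (hb4 : ¬ p ∣ b4)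
    {x1 x2 x3 x4 : ZMod (p ^ (2:ℕ))} (hx1 : (b1 : ZMod (p ^ (2:ℕ))) * x1 = a1)
    (hx2 : (b2 : ZMod (p ^ (2:ℕ))) * x2 = a2) (hx3 : (b3 : ZMod (p ^ (2:ℕ))) * x3 = a3)
    (hx4 : (b4 : ZMod (p ^ (2:ℕ))) * x4 = a4) :
    red p v * K1 * (m3 * m4) * (((b3 : ZMod p) ^ N * Gp p (red p x3 + N)) * ((b4 : ZMod p) ^ N * Gp p (red p x4 + N)))
      * ((Gp p (red p x1) * (b1 : ZMod p) ^ z1) * (Gp p (red p x2) * (b2 : ZMod p) ^ z2)) =
    K2 * (m1 * m2) * (((b1 : ZMod p) ^ N * Gp p (red p x1 + N)) * ((b2 : ZMod p) ^ N * Gp p (red p x2 + N)))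
      * ((Gp p (red p x3) * (b3 : ZMod p) ^ z3) * (Gp p (red p x4) * (b4 : ZMod p) ^ z4)) := by
  have key := congrArg (red p) (quad_red 0 hv h1 h2' h3 h4 (by omega) hV)
  obtain ⟨A1, -, -, h1c⟩ := h1
  obtain ⟨A2, -, -, h2c⟩ := h2'
  obtain ⟨A3, -, -, h3c⟩ := h3
  obtain ⟨A4, -, -, h4c⟩ := h4
  simp only [map_mul, map_natCast, pow_zero, one_mul] at key
  have r1 := apd_red h2 hb1 hx1 h1c
  have r2 := apd_red h2 hb2 hx2 h2c
  have r3 := apd_red h2 hb3 hx3 h3c
  have r4 := apd_red h2 hb4 hx4 h4c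
  have hε : ((-1 : ZMod p) ^ N) * (-1) ^ N = 1 := by rw [← mul_pow]; simp
  generalize ((-1 : ZMod p) ^ N) = ε at *
  generalize red p (PiR p a1 b1 N) = Q1 at *
  generalize red p (PiR p a2 b2 N) = Q2 at *
  generalize red p (PiR p a3 b3 N) = Q3 at *
  generalize red p (PiR p a4 b4 N) = Q4 at *
  have e3 : (b3 : ZMod p) ^ N * Gp p (red p x3 + N) = ε * (Q3 * Gp p (red p x3) * (b3 : ZMod p) ^ z3) := by
    rw [r3]; linear_combination (-(b3 : ZMod p) ^ N * Gp p (red p x3 + N)) * hε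
  have e4 : (b4 : ZMod p) ^ N * Gp p (red p x4 + N) = ε * (Q4 * Gp p (red p x4) * (b4 : ZMod p) ^ z4) := by
    rw [r4]; linear_combination (-(b4 : ZMod p) ^ N * Gp p (red p x4 + N)) * hε
  have e1 : (b1 : ZMod p) ^ N * Gp p (red p x1 + N) = ε * (Q1 * Gp p (red p x1) * (b1 : ZMod p) ^ z1) := by
    rw [r1]; linear_combination (-(b1 : ZMod p) ^ N * Gp p (red p x1 + N)) * hε
  have e2 : (b2 : ZMod p) ^ N * Gp p (red p x2 + N) = ε * (Q2 * Gp p (red p x2) * (b2 : ZMod p) ^ z2) := by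
    rw [r2]; linear_combination (-(b2 : ZMod p) ^ N * Gp p (red p x2 + N)) * hε
  rw [e1, e2, e3, e4]
  linear_combination (ε * ε * Gp p (red p x1) * (b1 : ZMod p) ^ z1 * Gp p (red p x2) * (b2 : ZMod p) ^ z2 *
    Gp p (red p x3) * (b3 : ZMod p) ^ z3 * Gp p (red p x4) * (b4 : ZMod p) ^ z4) * key

end

end SC24
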