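import Pool.Agent.SC24.ModP

/-!
The product `S * T` modulo `p`.
-/

namespace SC24

open Finset Polynomial

section
variable {p : ℕ} [hp : Fact p.Prime]

lemma R_I1 (h3 : 3 < p) {N a : ℕ} (hN : 3 * N + 1 = a * p) (hNp : N < p) {z1 z2 z3 z4 : ℕ}
    (h1 : APd p 3 8 N z1 1) (h2' : APd p 5 8 N z2 1) (h3' : APd p 1 3 N z3 1)
    (h4 : APd p 2 3 N z4 1) (hz : z1 + z2 = z3 + z4) :
    red p (Sr p) * 54 ^ N * 8 ^ (z1 + z2) * (Gp p (9 * red p (ww p)) * Gp p (15 * red p (ww p))) =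
      64 ^ N * 3 ^ (z3 + z4) * (Gp p (red p (ww p)) * Gp p (7 * red p (ww p)) * Gp p (16 * red p (ww p))) := by
  have h2 : 2 < p := by omega
  have hw := hww (p := p) h3
  have hwr := red_ww (p := p) h3
  have hNR : (N : ZMod p) = -(8 * red p (ww p)) := by
    have := neg_nat_eq h3 (m := N) (k := 8) (by rw [show 24 * N + 8 = 8 * (3 * N + 1) by ring, hN]; exact ⟨8 * a, by ring⟩)
    push_cast at this
    linear_combination -this
  have key := quad_G h2 (v1_red h3 hN hNp) h1 h2' h3' h4 hz (I1_V N)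
    (not_dvd_23 h3 3 0 (by norm_num)) (not_dvd_23 h3 3 0 (by norm_num))
    (not_dvd_23 h3 0 1 (by norm_num)) (not_dvd_23 h3 0 1 (by norm_num))
    (x1 := 9 * ww p) (x2 := 15 * ww p) (x3 := 8 * ww p) (x4 := 16 * ww p)
    (by push_cast; linear_combination 3 * hw) (by push_cast; linear_combination 5 * hw)
    (by push_cast; linear_combination hw) (by push_cast; linear_combination 2 * hw)
  rw [← red_hs_eq isAff_fS, fS_zero, hNR] at key
  simp only [map_mul, map_ofNat] at key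
  generalize red p (ww p) = w at *
  rw [show 8 * w + -(8 * w) = 0 by ring, show 16 * w + -(8 * w) = 8 * w by ring,
    show 9 * w + -(8 * w) = w by ring, show 15 * w + -(8 * w) = 7 * w by ring, Gp_zero] at key
  have hg := Gp_ne_zero (8 * w)
  apply mul_left_cancel₀ hg
  push_cast at key
  have e54 : (54 : ZMod p) ^ N = 6 ^ N * (3 ^ N * 3 ^ N) := by rw [← mul_pow, ← mul_pow]; norm_num
  have e64 : (64 : ZMod p) ^ N = 8 ^ N * 8 ^ N := by rw [← mul_pow]; norm_num
  rw [e54, e64, pow_add, pow_add]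
  linear_combination key

lemma R_I3 (h3 : 3 < p) {N a : ℕ} (hN : 3 * N + 2 = a * p) (hNp : N < p) {z1 z2 z3 z4 : ℕ}
    (h1 : APd p 7 8 N z1 1) (h2' : APd p 9 8 N z2 1) (h3' : APd p 2 3 N z3 1)
    (h4 : APd p 4 3 N z4 1) (hz : z1 + z2 = z3 + z4) :
    red p (Tr p) * 54 ^ N * 8 ^ (z1 + z2) * 3 * (Gp p (3 * red p (ww p)) * Gp p (21 * red p (ww p))) =
      64 ^ N * 3 ^ (z3 + z4) * 8 *
        (Gp p (5 * red p (ww p)) * Gp p (11 * red p (ww p)) * Gp p (8 * red p (ww p))) := by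
  have h2 : 2 < p := by omega
  have hw := hww (p := p) h3
  have hwr := red_ww (p := p) h3
  have hNR : (N : ZMod p) = -(16 * red p (ww p)) := by
    have := neg_nat_eq h3 (m := N) (k := 16) (by rw [show 24 * N + 16 = 8 * (3 * N + 2) by ring, hN]; exact ⟨8 * a, by ring⟩)
    push_cast at this
    linear_combination -this
  have key := quad_G h2 (v3_red h3 hN hNp) h1 h2' h3' h4 hz (I3_V N)
    (not_dvd_23 h3 3 0 (by norm_num)) (not_dvd_23 h3 3 0 (by norm_num))
    (not_dvd_23 h3 0 1 (by norm_num)) (not_dvd_23 h3 0 1 (by norm_num))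
    (x1 := 21 * ww p) (x2 := 27 * ww p) (x3 := 16 * ww p) (x4 := 32 * ww p)
    (by push_cast; linear_combination 7 * hw) (by push_cast; linear_combination 9 * hw)
    (by push_cast; linear_combination 2 * hw) (by push_cast; linear_combination 4 * hw)
  rw [← red_hs_eq isAff_fT, fT_zero, hNR] at key
  simp only [map_mul, map_ofNat] at key
  generalize red p (ww p) = w at *
  have hw0 : w ≠ 0 := by
    rintro rfl
    rw [mul_zero] at hwr
    exact zero_ne_one hwr
  have c3 : (3 : ZMod p) ≠ 0 := by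
    intro h; apply zero_ne_one (α := ZMod p); rw [← hwr]; linear_combination (-8 * w) * h
  have c8 : (8 : ZMod p) ≠ 0 := by
    intro h; apply zero_ne_one (α := ZMod p); rw [← hwr]; linear_combination (-3 * w) * h
  have g27 : Gp p (27 * w) = -(3 * w) * Gp p (3 * w) := by
    have := Gp_succ h2 (3 * w)
    rw [tp, if_neg (mul_ne_zero c3 hw0)] at this
    rw [← this]; congr 1; linear_combination hwr
  have g32 : Gp p (32 * w) = -(8 * w) * Gp p (8 * w) := by
    have := Gp_succ h2 (8 * w)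
    rw [tp, if_neg (mul_ne_zero c8 hw0)] at this
    rw [← this]; congr 1; linear_combination hwr
  rw [show 16 * w + -(16 * w) = 0 by ring, show 32 * w + -(16 * w) = 16 * w by ring,
    show 21 * w + -(16 * w) = 5 * w by ring, show 27 * w + -(16 * w) = 11 * w by ring, Gp_zero,
    g27, g32] at key
  have hg := Gp_ne_zero (16 * w)
  apply mul_left_cancel₀ (mul_ne_zero hg (neg_ne_zero.mpr hw0))
  push_cast at key
  have e54 : (54 : ZMod p) ^ N = 6 ^ N * (3 ^ N * 3 ^ N) := by rw [← mul_pow, ← mul_pow]; norm_num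
  have e64 : (64 : ZMod p) ^ N = 8 ^ N * 8 ^ N := by rw [← mul_pow]; norm_num
  rw [e54, e64, pow_add, pow_add]
  linear_combination key

lemma ST_comb {a b x y X Y : ZMod p} {N N' : ℕ} (hNN : N + N' = p - 1) (h3 : 3 < p) {z z' : ℕ}
    (hzz : z + z' = 1) (h1 : a * 54 ^ N * 8 ^ z * x = 64 ^ N * 3 ^ z * X)
    (h2 : b * 54 ^ N' * 8 ^ z' * 3 * y = 64 ^ N' * 3 ^ z' * 8 * Y) : a * b * (x * y) = X * Y := by
  have c2 : (2 : ZMod p) ≠ 0 := by
    have := (isUnit_iff_red _).mp (isUnit_two (p := p) (by omega))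
    rwa [map_ofNat] at this
  have hwr := red_ww (p := p) h3
  have c24 : (24 : ZMod p) ≠ 0 := by
    intro h; rw [h, zero_mul] at hwr; exact zero_ne_one hwr
  have c54 : (54 : ZMod p) ≠ 0 := by
    intro h
    have : (24 : ZMod p) ^ 3 = 0 := by linear_combination 256 * h
    exact c24 (pow_eq_zero_iff (three_ne_zero) |>.mp this)
  have c64 : (64 : ZMod p) ≠ 0 := by
    intro h; exact c2 (pow_eq_zero_iff (n := 6) (by norm_num) |>.mp (by linear_combination h))
  have e1 : (54 : ZMod p) ^ N * 54 ^ N' = 1 := by rw [← pow_add, hNN, ZMod.pow_card_sub_one_eq_one c54]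
  have e2 : (64 : ZMod p) ^ N * 64 ^ N' = 1 := by rw [← pow_add, hNN, ZMod.pow_card_sub_one_eq_one c64]
  have e3 : (8 : ZMod p) ^ z * 8 ^ z' = 8 := by rw [← pow_add, hzz, pow_one]
  have e4 : (3 : ZMod p) ^ z * 3 ^ z' = 3 := by rw [← pow_add, hzz, pow_one]
  apply mul_left_cancel₀ c24
  have h3 : (a * 54 ^ N * 8 ^ z * x) * (b * 54 ^ N' * 8 ^ z' * 3 * y) =
      (64 ^ N * 3 ^ z * X) * (64 ^ N' * 3 ^ z' * 8 * Y) := by rw [h1, h2]
  calc 24 * (a * b * (x * y)) = (54 ^ N * 54 ^ N') * (8 ^ z * 8 ^ z') * 3 * (a * b * (x * y)) := by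
        rw [e1, e3]; ring
    _ = (64 ^ N * 64 ^ N') * (3 ^ z * 3 ^ z') * 8 * (X * Y) := by linear_combination h3
    _ = 24 * (X * Y) := by rw [e2, e4]; ring

lemma ST_modp (h3 : 3 < p) (hc : (p % 24 = 1 ∨ p % 24 = 7) ∨ (p % 24 = 5 ∨ p % 24 = 11)) :
    red p (Sr p) * red p (Tr p) * ((Gp p (3 * red p (ww p)) * Gp p (21 * red p (ww p))) *
      (Gp p (9 * red p (ww p)) * Gp p (15 * red p (ww p)))) =
    (Gp p (red p (ww p)) * Gp p (5 * red p (ww p)) * Gp p (7 * red p (ww p)) * Gp p (11 * red p (ww p))) *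
      (Gp p (8 * red p (ww p)) * Gp p (16 * red p (ww p))) := by
  rcases hc with hc | hc
  · obtain ⟨N, hN, hNp, a1, a2, a3, a4⟩ := dat1_A hc
    obtain ⟨N', z1, z2, hN', hNp', hz, b1, b2, b3, b4⟩ := dat3_A hc
    have e1 := R_I1 h3 hN hNp a1 a2 a3 a4 rfl
    have e2 := R_I3 h3 hN' hNp' b1 b2 b3 b4 (by omega)
    rw [hz] at e2
    have := ST_comb (p := p) (N := N) (N' := N') (z := 0) (z' := 1) (by omega) h3 rfl e1 e2
    linear_combination this
  · obtain ⟨N, z1, z2, hN, hNp, hz, a1, a2, a3, a4⟩ := dat1_B hc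
    obtain ⟨N', hN', hNp', b1, b2, b3, b4⟩ := dat3_B hc
    have e1 := R_I1 h3 hN hNp a1 a2 a3 a4 (by omega)
    have e2 := R_I3 h3 hN' hNp' b1 b2 b3 b4 rfl
    rw [hz] at e1
    have := ST_comb (p := p) (N := N) (N' := N') (z := 1) (z' := 0) (by omega) h3 rfl e1 e2
    linear_combination this

/-- reflection at `k/24` -/
lemma refl24 (h3 : 3 < p) {k n : ℕ} (hk : (p : ℕ) ∣ 24 * n + (24 * p - k)) (hkp : k ≤ 24 * p) (hn1 : 1 ≤ n) (hn : n ≤ p) :
    Gp p (k * red p (ww p)) * Gp p (1 - k * red p (ww p)) = (-1) ^ n := by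
  apply Gp_refl' (by omega) _ hn1 hn
  have hwr := red_ww (p := p) h3
  have h1 : ((24 * n + (24 * p - k) : ℕ) : ZMod p) = 0 := (ZMod.natCast_eq_zero_iff _ _).mpr hk
  push_cast [Nat.cast_sub hkp] at h1
  rw [ZMod.natCast_self] at h1
  linear_combination (red p (ww p)) * h1 - (n : ZMod p) * hwr

/-- (d): the first closed form vanishes mod `p` in classes 13, 19 -/
lemma red_S_zero (hc : p % 24 = 13 ∨ p % 24 = 19) : red p (Sr p) = 0 := by
  have hp2 := hp.out.two_le
  have h3 : 3 < p := by omega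
  have d8 := not_dvd_23 h3 (n := 8) 3 0 (by norm_num)
  have d3 := not_dvd_23 h3 (n := 3) 0 1 (by norm_num)
  obtain ⟨N, z1, z2, hN, hNp, hz, a1, a2, a3, a4⟩ : ∃ N z1 z2, 3 * N + 1 = 1 * p ∧ N < p ∧ z1 + z2 = 1 ∧
      APd p 3 8 N z1 1 ∧ APd p 5 8 N z2 1 ∧ APd p 1 3 N 0 1 ∧ APd p 2 3 N 0 1 := by
    rcases hc with hc | hc
    · refine ⟨(p - 1) / 3, 0, 1, by omega, by omega, rfl, apd0 ?_,
        apd1 (j0 := (p - 5) / 8) (by omega) (by omega) d8 (by omega), apd0 ?_, apd0 ?_⟩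
      · exact no_mult_of 3 (fun j hj => by omega) (fun k hk j hj => by interval_cases k <;> omega)
      · exact no_mult_of 3 (fun j hj => by omega) (fun k hk j hj => by interval_cases k <;> omega)
      · exact no_mult_of 3 (fun j hj => by omega) (fun k hk j hj => by interval_cases k <;> omega)
    · refine ⟨(p - 1) / 3, 1, 0, by omega, by omega, rfl,
        apd1 (j0 := (p - 3) / 8) (by omega) (by omega) d8 (by omega), apd0 ?_, apd0 ?_, apd0 ?_⟩
      · exact no_mult_of 3 (fun j hj => by omega) (fun k hk j hj => by interval_cases k <;> omega)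
      · exact no_mult_of 3 (fun j hj => by omega) (fun k hk j hj => by interval_cases k <;> omega)
      · exact no_mult_of 3 (fun j hj => by omega) (fun k hk j hj => by interval_cases k <;> omega)
  have key := congrArg (red p) (quad_red 1 (v1_red h3 hN hNp) a1 a2 a3 a4 (by omega) (I1_V N))
  rw [pow_one] at key
  simp only [map_mul, red_P, zero_mul] at key
  rw [← red_hs_eq isAff_fS, fS_zero] at key
  have u1 := (isUnit_iff_red _).mp (isUnit_PiR (p := p) 1 3 N)
  have u2 := (isUnit_iff_red _).mp (isUnit_PiR (p := p) 2 3 N)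
  have u3 : red p (((6 ^ N : ℕ)) : ZMod (p ^ (2:ℕ))) ≠ 0 := by
    rw [← isUnit_iff_red]
    apply isUnit_num
    intro h; exact not_dvd_23 h3 1 1 (n := 6) (by norm_num) (hp.out.dvd_of_dvd_pow h)
  have u4 : red p ((1 : ℕ) : ZMod (p ^ (2:ℕ))) ≠ 0 := by simp
  rcases mul_eq_zero.mp key with h | h
  · rcases mul_eq_zero.mp h with h | h
    · rcases mul_eq_zero.mp h with h | h
      · exact h
      · exact absurd h u3
    · exact absurd h (mul_ne_zero u4 u4)
  · exact absurd h (mul_ne_zero u1 u2)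

end

end SC24
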