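import Pool.Agent.SC24.Defs

/-!
Relational reduction of `p`-integral rationals modulo `M` (`M = p` or `M = p ^ 2`).
-/

namespace SC24

open Finset

/-- `r : ZMod M` is the reduction of the `p`-integral rational `x` -/
def Red (p M : ℕ) (x : ℚ) (r : ZMod M) : Prop :=
  ∃ a b : ℤ, ¬ (p : ℤ) ∣ b ∧ x * b = a ∧ r * b = a

/-- `x ≡ y mod p ^ m` in the ring of `p`-integral rationals (for arbitrary rationals `x`, `y`) -/
def PCong (p m : ℕ) (x y : ℚ) : Prop :=
  ∃ a b : ℤ, ¬ (p : ℤ) ∣ b ∧ (x - y) * b = (p : ℚ) ^ m * a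

section
variable {p M : ℕ} [hp : Fact p.Prime]

lemma not_dvd_mul {b d : ℤ} (hb : ¬ (p : ℤ) ∣ b) (hd : ¬ (p : ℤ) ∣ d) : ¬ (p : ℤ) ∣ b * d := by
  intro h
  rcases (Nat.prime_iff_prime_int.mp hp.out).dvd_or_dvd h with h | h
  · exact hb h
  · exact hd h

lemma not_dvd_one : ¬ (p : ℤ) ∣ 1 := by
  intro h
  have := Int.natCast_dvd_natCast.mp (by simpa using h : (p : ℤ) ∣ ((1 : ℕ) : ℤ))
  exact hp.out.one_lt.ne' (Nat.dvd_one.mp this)

lemma isUnit_int (hM : M ∣ p ^ 2) {b : ℤ} (hb : ¬ (p : ℤ) ∣ b) : IsUnit (b : ZMod M) := by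
  rw [ZMod.coe_int_isUnit_iff_isCoprime]
  have h1 : IsCoprime (p : ℤ) b := (Nat.prime_iff_prime_int.mp hp.out).irreducible.coprime_iff_not_dvd.mpr hb
  have h2 : IsCoprime ((p : ℤ) ^ 2) b := h1.pow_left
  exact h2.of_isCoprime_of_dvd_left (by exact_mod_cast hM)

lemma isUnit_nat (hM : M ∣ p ^ 2) {b : ℕ} (hb : ¬ p ∣ b) : IsUnit (b : ZMod M) := by
  have := isUnit_int (p := p) hM (b := (b : ℤ)) (by exact_mod_cast hb)
  simpa using this

lemma not_dvd_of_isUnit (hp' : p ∣ M) {b : ℤ} (hb : IsUnit (b : ZMod M)) : ¬ (p : ℤ) ∣ b := by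
  rw [ZMod.coe_int_isUnit_iff_isCoprime] at hb
  have h1 : IsCoprime (p : ℤ) b := hb.of_isCoprime_of_dvd_left (by exact_mod_cast hp')
  exact (Nat.prime_iff_prime_int.mp hp.out).irreducible.coprime_iff_not_dvd.mp h1

lemma Red.int (a : ℤ) : Red p M a a := ⟨a, 1, not_dvd_one, by simp, by simp⟩

lemma Red.nat (a : ℕ) : Red p M a a := by simpa using Red.int (p := p) (M := M) (a : ℤ)

lemma Red.one : Red p M 1 1 := by simpa using Red.int (p := p) (M := M) 1

lemma Red.zero : Red p M 0 0 := by simpa using Red.int (p := p) (M := M) 0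

lemma Red.add {x y : ℚ} {r s : ZMod M} (hx : Red p M x r) (hy : Red p M y s) :
    Red p M (x + y) (r + s) := by
  obtain ⟨a, b, hb, h1, h2⟩ := hx
  obtain ⟨c, d, hd, h3, h4⟩ := hy
  refine ⟨a * d + c * b, b * d, not_dvd_mul hb hd, ?_, ?_⟩
  · push_cast; rw [← h1, ← h3]; ring
  · push_cast; rw [← h2, ← h4]; ring

lemma Red.mul {x y : ℚ} {r s : ZMod M} (hx : Red p M x r) (hy : Red p M y s) :
    Red p M (x * y) (r * s) := by
  obtain ⟨a, b, hb, h1, h2⟩ := hx
  obtain ⟨c, d, hd, h3, h4⟩ := hy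
  refine ⟨a * c, b * d, not_dvd_mul hb hd, ?_, ?_⟩
  · push_cast; rw [← h1, ← h3]; ring
  · push_cast; rw [← h2, ← h4]; ring

lemma Red.neg {x : ℚ} {r : ZMod M} (hx : Red p M x r) : Red p M (-x) (-r) := by
  obtain ⟨a, b, hb, h1, h2⟩ := hx
  refine ⟨-a, b, hb, ?_, ?_⟩
  · push_cast; rw [← h1]; ring
  · push_cast; rw [← h2]; ring

lemma Red.sub {x y : ℚ} {r s : ZMod M} (hx : Red p M x r) (hy : Red p M y s) :
    Red p M (x - y) (r - s) := by
  simpa [sub_eq_add_neg] using hx.add hy.neg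

lemma Red.pow {x : ℚ} {r : ZMod M} (hx : Red p M x r) (n : ℕ) : Red p M (x ^ n) (r ^ n) := by
  induction n with
  | zero => simpa using Red.one (p := p) (M := M)
  | succ n ih => rw [pow_succ, pow_succ]; exact ih.mul hx

lemma Red.inv (hM : M ∣ p ^ 2) (hp' : p ∣ M) {x : ℚ} {r : ZMod M} (hx : Red p M x r)
    (hr : IsUnit r) : Red p M x⁻¹ r⁻¹ := by
  obtain ⟨a, b, hb, h1, h2⟩ := hx
  have hbu := isUnit_int (p := p) hM hb
  have hau : IsUnit (a : ZMod M) := by rw [← h2]; exact hr.mul hbu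
  have ha := not_dvd_of_isUnit (p := p) hp' hau
  refine ⟨b, a, ha, ?_, ?_⟩
  · have : x ≠ 0 := by
      rintro rfl
      have : (a : ℚ) = 0 := by rw [← h1]; simp
      have : a = 0 := by exact_mod_cast this
      exact ha (by simp [this])
    rw [← h1]; field_simp
  · rw [← h2, ← mul_assoc, ZMod.inv_mul_of_unit _ hr, one_mul]

lemma Red.div (hM : M ∣ p ^ 2) (hp' : p ∣ M) {x y : ℚ} {r s : ZMod M} (hx : Red p M x r)
    (hy : Red p M y s) (hs : IsUnit s) : Red p M (x / y) (r * s⁻¹) := by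
  rw [div_eq_mul_inv]; exact hx.mul (hy.inv hM hp' hs)

lemma Red.uniq (hM : M ∣ p ^ 2) {x : ℚ} {r s : ZMod M} (hx : Red p M x r) (hy : Red p M x s) :
    r = s := by
  obtain ⟨a, b, hb, h1, h2⟩ := hx
  obtain ⟨c, d, hd, h3, h4⟩ := hy
  have hbd := (isUnit_int (p := p) hM hb).mul (isUnit_int (p := p) hM hd)
  have h5 : (a : ℚ) * d = c * b := by rw [← h1, ← h3]; ring
  have h6 : a * d = c * b := by exact_mod_cast h5
  have h7 : (a : ZMod M) * d = c * b := by exact_mod_cast congrArg (Int.cast : ℤ → ZMod M) h6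
  rw [← h2, ← h4] at h7
  apply hbd.mul_left_injective
  show r * ((b : ZMod M) * d) = s * (b * d)
  linear_combination h7

lemma Red.sum {ι : Type*} (s : Finset ι) (f : ι → ℚ) (g : ι → ZMod M)
    (h : ∀ i ∈ s, Red p M (f i) (g i)) : Red p M (∑ i ∈ s, f i) (∑ i ∈ s, g i) := by
  classical
  induction s using Finset.induction_on with
  | empty => simpa using Red.zero (p := p) (M := M)
  | insert a s ha ih =>
    rw [sum_insert ha, sum_insert ha]
    exact (h a (mem_insert_self _ _)).add (ih (fun i hi => h i (mem_insert_of_mem hi)))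

lemma Red.prod {ι : Type*} (s : Finset ι) (f : ι → ℚ) (g : ι → ZMod M)
    (h : ∀ i ∈ s, Red p M (f i) (g i)) : Red p M (∏ i ∈ s, f i) (∏ i ∈ s, g i) := by
  classical
  induction s using Finset.induction_on with
  | empty => simpa using Red.one (p := p) (M := M)
  | insert a s ha ih =>
    rw [prod_insert ha, prod_insert ha]
    exact (h a (mem_insert_self _ _)).mul (ih (fun i hi => h i (mem_insert_of_mem hi)))

lemma Red.map {M' : ℕ} (h : M' ∣ M) {x : ℚ} {r : ZMod M} (hx : Red p M x r) :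
    Red p M' x (ZMod.castHom h (ZMod M') r) := by
  obtain ⟨a, b, hb, h1, h2⟩ := hx
  refine ⟨a, b, hb, h1, ?_⟩
  have := congrArg (ZMod.castHom h (ZMod M')) h2
  rw [map_mul, map_intCast, map_intCast] at this
  exact this

lemma Red.pcong {m : ℕ} (hm : M = p ^ m) {x y : ℚ} {r : ZMod M} (hx : Red p M x r)
    (hy : Red p M y r) : PCong p m x y := by
  obtain ⟨a, b, hb, h1, h2⟩ := hx
  obtain ⟨c, d, hd, h3, h4⟩ := hy
  have h5 : ((a * d - c * b : ℤ) : ZMod M) = 0 := by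
    push_cast; rw [← h2, ← h4]; ring
  rw [ZMod.intCast_zmod_eq_zero_iff_dvd] at h5
  obtain ⟨e, he⟩ := h5
  refine ⟨e, b * d, not_dvd_mul hb hd, ?_⟩
  have h6 : (a : ℚ) * d - c * b = (p : ℚ) ^ m * e := by
    have : ((a * d - c * b : ℤ) : ℚ) = (((M : ℤ) * e : ℤ) : ℚ) := by rw [he]
    push_cast at this
    rw [this, hm]; push_cast; ring
  push_cast
  rw [← h6, ← h1, ← h3]; ring

lemma poch_red {a : ℚ} {r : ZMod M} (h : Red p M a r) (k : ℕ) : Red p M (poch a k) (poch r k) :=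
  Red.prod _ _ _ (fun i _ => h.add (Red.nat i))

end

end SC24
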